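import Pool.Agent.Lib.MP_31386d_pr.Defs

/-!
# One-arm events
-/

set_option autoImplicit false

namespace Pool.Agent.Lib.MP_31386d_pr

open Finset

variable {d : ℕ} {u q : ℝ}

theorem out_union_irrel {V : Finset (Pt d)} {s t : Finset (Ed d)}
    (ht : Disjoint t (EB V)) (x : Pt d) : Out V (s ∪ t) x ↔ Out V s x := by
  constructor
  · intro h
    have h1 := h.restrict
    refine h1.mono ?_ (subset_refl _)
    intro e he
    rw [mem_inter, mem_union] at he
    rcases he.1 with h2 | h2
    · exact h2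
    · exact absurd he.2 (fun h3 => Finset.disjoint_left.mp ht h2 h3)
  · intro h
    exact h.mono subset_union_left (subset_refl _)

theorem EB_union (V W : Finset (Pt d)) : EB (V ∪ W) = EB V ∪ EB W := by
  ext e
  simp only [mem_union, mem_EB]
  tauto

/-- General comparison: wired in `V` versus wired in `V' ⊆ V`, for increasing functions which only
depend on the edges touching `V'`. -/
theorem Ex_wired_le (hu : 0 < u) (hq : 1 ≤ q) {V V' : Finset (Pt d)} (hV : V' ⊆ V)
    {f : Finset (Ed d) → ℝ} (hf0 : ∀ ω, 0 ≤ f ω) (hf : ∀ s t, s ⊆ t → f s ≤ f t)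
    (hloc : ∀ s t, s ⊆ EB V' → Disjoint t (EB V') → f (s ∪ t) = f s) :
    Ex u q V (EB V) f ≤ Ex u q V' (EB V') f := by
  refine (Ex_dom_V hu hq hV hf0 hf).trans (le_of_eq ?_)
  have h1 : EB V = EB V' ∪ (EB V \ EB V') := (union_sdiff_of_subset (EB_mono hV)).symm
  rw [h1]
  apply Ex_irrel hu hq disjoint_sdiff
  · intro e he
    have h2 := (mem_sdiff.mp he).2
    rw [mem_EB] at h2
    tauto
  · intro s t hs ht
    exact hloc s t hs (disjoint_of_subset_left ht sdiff_disjoint)

theorem Pb_out_mono (hu : 0 < u) (hq : 1 ≤ q) {V V' : Finset (Pt d)} (hV : V' ⊆ V) (x : Pt d) :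
    Pb u q V (EB V) (fun ω => Out V ω x) ≤ Pb u q V' (EB V') (fun ω => Out V' ω x) := by
  classical
  refine (Pb_mono (V := V) (E := EB V) hu hq (Q := fun ω => Out V' ω x)
    (fun ω _ h => h.mono (subset_refl _) hV)).trans ?_
  unfold Pb
  refine Ex_wired_le hu hq hV (fun ω => by split_ifs <;> norm_num) (fun s t hst => ?_)
    (fun s t hs ht => ?_)
  · split_ifs with h1 h2
    · exact le_rfl
    · exact absurd (h1.mono hst (subset_refl _)) h2
    · norm_num
    · exact le_rfl
  · have := out_union_irrel (s := s) ht x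
    by_cases h : Out V' s x
    · rw [if_pos h, if_pos (this.mpr h)]
    · rw [if_neg h, if_neg (fun h' => h (this.mp h'))]

theorem adj_shE {t : Pt d} {ω : Finset (Ed d)} {x y : Pt d} :
    Adj (shE t ω) (x + t) (y + t) ↔ Adj ω x y := by
  constructor
  · rintro ⟨e, he, h⟩
    rw [mem_shE] at he
    refine ⟨_, he, ?_⟩
    rw [tgt_sub]
    rcases h with h | h
    · left
      rw [h.1, h.2]
      simp
    · right
      rw [h.1, h.2]
      simp
  · rintro ⟨e, he, h⟩
    refine ⟨(e.1 + t, e.2), ?_, ?_⟩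
    · rw [mem_shE]
      simpa using he
    · have h1 : tgt (e.1 + t, e.2) = tgt e + t := by
        simp only [tgt]
        abel
      rw [h1]
      rcases h with h | h
      · left
        simp [h.1, h.2]
      · right
        simp [h.1, h.2]

theorem conn_shE {t : Pt d} {ω : Finset (Ed d)} {x y : Pt d} :
    Conn (shE t ω) (x + t) (y + t) ↔ Conn ω x y := by
  constructor
  · intro h
    have key : ∀ a b : Pt d, Conn (shE t ω) a b → Conn ω (a - t) (b - t) := by
      intro a b h
      induction h with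
      | refl => exact Conn.refl _ _
      | tail _ hbc ih =>
        rename_i b c _
        refine ih.trans (Adj.conn ?_)
        rw [← adj_shE (t := t)]
        simpa using hbc
    simpa using key _ _ h
  · intro h
    induction h with
    | refl => exact Conn.refl _ _
    | tail _ hbc ih => exact ih.trans (Adj.conn (adj_shE.mpr hbc))

theorem out_shE {t : Pt d} {V : Finset (Pt d)} {ω : Finset (Ed d)} {x : Pt d} :
    Out (shV t V) (shE t ω) (x + t) ↔ Out V ω x := by
  constructor
  · rintro ⟨z, hz, h⟩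
    refine ⟨z - t, fun h1 => hz (mem_shV.mpr h1), ?_⟩
    rw [← conn_shE (t := t)]
    simpa using h
  · rintro ⟨z, hz, h⟩
    refine ⟨z + t, fun h1 => hz ?_, conn_shE.mpr h⟩
    rw [mem_shV] at h1
    simpa using h1

theorem Pb_out_shV (t : Pt d) (V : Finset (Pt d)) (x : Pt d) :
    Pb u q (shV t V) (EB (shV t V)) (fun ω => Out (shV t V) ω (x + t)) =
      Pb u q V (EB V) (fun ω => Out V ω x) := by
  classical
  unfold Pb
  rw [EB_shV, Ex_shV]
  apply Ex_congr
  intro ω _
  by_cases h : Out V ω x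
  · rw [if_pos h, if_pos (out_shE.mpr h)]
  · rw [if_neg h, if_neg (fun h' => h (out_shE.mp h'))]

/-- `thw r` is the one-arm probability around any point. -/
theorem thw_eq (x : Pt d) (r : ℕ) : thw d u q r =
    Pb u q (shV x (cube d r)) (EB (shV x (cube d r))) (fun ω => Out (shV x (cube d r)) ω x) := by
  have h := Pb_out_shV (u := u) (q := q) x (cube d r) 0
  rw [zero_add] at h
  rw [h]
  rfl

theorem thw_le_Pb_out (hu : 0 < u) (hq : 1 ≤ q) {V : Finset (Pt d)} {x : Pt d} {r : ℕ}
    (h : V ⊆ shV x (cube d r)) : thw d u q r ≤ Pb u q V (EB V) (fun ω => Out V ω x) := by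
  rw [thw_eq x r]
  exact Pb_out_mono hu hq h x

theorem Pb_out_le_thw (hu : 0 < u) (hq : 1 ≤ q) {V : Finset (Pt d)} {x : Pt d} {r : ℕ}
    (h : shV x (cube d r) ⊆ V) : Pb u q V (EB V) (fun ω => Out V ω x) ≤ thw d u q r := by
  rw [thw_eq x r]
  exact Pb_out_mono hu hq h x

theorem mem_shV_cube {x y : Pt d} {r : ℕ} :
    y ∈ shV x (cube d r) ↔ ∀ i, |y i - x i| ≤ r := by
  rw [mem_shV, mem_cube]
  apply forall_congr'
  intro i
  rw [Pi.sub_apply, abs_le]

/-- Two distant points are both connected to the outside with probability at most `thw r ^ 2`. -/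
theorem Pb_out_pair (hu : 0 < u) (hq : 1 ≤ q) {V : Finset (Pt d)} {x y : Pt d} {r : ℕ}
    (hx : shV x (cube d r) ⊆ V) (hy : shV y (cube d r) ⊆ V)
    (hxy : ∃ i, 2 * (r : ℤ) + 2 ≤ |x i - y i|) :
    Pb u q V (EB V) (fun ω => Out V ω x ∧ Out V ω y) ≤ thw d u q r ^ 2 := by
  classical
  set C₁ := shV x (cube d r) with hC₁
  set C₂ := shV y (cube d r) with hC₂
  obtain ⟨i, hi⟩ := hxy
  -- points of the two cubes are far apart in coordinate `i`
  have hfar : ∀ a ∈ C₁, ∀ b ∈ C₂, 2 ≤ |a i - b i| := by
    intro a ha b hb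
    rw [hC₁, mem_shV_cube] at ha
    rw [hC₂, mem_shV_cube] at hb
    have h1 := ha i
    have h2 := hb i
    have h3 : |x i - y i| ≤ |a i - x i| + |a i - b i| + |b i - y i| := by
      have : x i - y i = -(a i - x i) + (a i - b i) + (b i - y i) := by ring
      rw [this]
      refine (abs_add_le _ _).trans ?_
      have := abs_add_le (-(a i - x i)) (a i - b i)
      rw [abs_neg] at this
      linarith
    linarith
  have hstep : ∀ e : Ed d, |e.1 i - tgt e i| ≤ 1 := by
    intro e
    simp only [tgt, Pi.add_apply]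
    by_cases h : i = e.2
    · subst h
      simp
    · rw [Pi.single_eq_of_ne h]
      simp
  have hE1 : ∀ e ∈ EB C₁, e.1 ∉ C₂ ∧ tgt e ∉ C₂ := by
    intro e he
    rw [mem_EB] at he
    have h1 := hstep e
    constructor
    · intro h2
      rcases he with he | he
      · have := hfar _ he _ h2
        simp at this
      · have h3 := hfar _ he _ h2
        rw [abs_sub_comm] at h3
        linarith
    · intro h2
      rcases he with he | he
      · have := hfar _ he _ h2
        linarith
      · have := hfar _ he _ h2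
        simp at this
  have hE2 : ∀ e ∈ EB C₂, e.1 ∉ C₁ ∧ tgt e ∉ C₁ := by
    intro e he
    rw [mem_EB] at he
    have h1 := hstep e
    constructor
    · intro h2
      rcases he with he | he
      · have := hfar _ h2 _ he
        simp at this
      · have h3 := hfar _ h2 _ he
        linarith
    · intro h2
      rcases he with he | he
      · have := hfar _ h2 _ he
        rw [abs_sub_comm] at this
        linarith
      · have := hfar _ h2 _ he
        simp at this
  have hdV : Disjoint C₁ C₂ := by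
    rw [Finset.disjoint_left]
    intro a h1 h2
    have := hfar a h1 a h2
    simp at this
  have hdE : Disjoint (EB C₁) (EB C₂) := by
    rw [Finset.disjoint_left]
    intro e h1 h2
    have h3 := hE1 e h1
    rw [mem_EB] at h2
    tauto
  set V' := C₁ ∪ C₂ with hV'
  have hV'V : V' ⊆ V := union_subset hx hy
  have h1 : Pb u q V (EB V) (fun ω => Out V ω x ∧ Out V ω y) ≤
      Pb u q V (EB V) (fun ω => Out C₁ ω x ∧ Out C₂ ω y) :=
    Pb_mono hu hq (fun ω _ h => ⟨h.1.mono (subset_refl _) hx, h.2.mono (subset_refl _) hy⟩)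
  have h2 : Pb u q V (EB V) (fun ω => Out C₁ ω x ∧ Out C₂ ω y) ≤
      Pb u q V' (EB V') (fun ω => Out C₁ ω x ∧ Out C₂ ω y) := by
    unfold Pb
    refine Ex_wired_le hu hq hV'V (fun ω => by split_ifs <;> norm_num) (fun s t hst => ?_)
      (fun s t hs ht => ?_)
    · split_ifs with h1 h2
      · exact le_rfl
      · exact absurd ⟨h1.1.mono hst (subset_refl _), h1.2.mono hst (subset_refl _)⟩ h2
      · norm_num
      · exact le_rfl
    · rw [hV', EB_union] at ht
      have e1 := out_union_irrel (s := s) (disjoint_of_subset_right subset_union_left ht) x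
      have e2 := out_union_irrel (s := s) (disjoint_of_subset_right subset_union_right ht) y
      by_cases h : Out C₁ s x ∧ Out C₂ s y
      · rw [if_pos h, if_pos ⟨e1.mpr h.1, e2.mpr h.2⟩]
      · rw [if_neg h, if_neg (fun h' => h ⟨e1.mp h'.1, e2.mp h'.2⟩)]
  have h3 : Pb u q V' (EB V') (fun ω => Out C₁ ω x ∧ Out C₂ ω y) = thw d u q r ^ 2 := by
    have h4 := Ex_prod (u := u) (q := q) hu hq hdV hE1 hE2 hdE
      (fun ω => if Out C₁ ω x then (1 : ℝ) else 0) (fun ω => if Out C₂ ω y then (1 : ℝ) else 0)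
    have h5 : Ex u q C₁ (EB C₁) (fun ω => if Out C₁ ω x then (1 : ℝ) else 0) = thw d u q r := by
      rw [thw_eq x r]
      unfold Pb
      exact Ex_congr (fun ω _ => by congr)
    have h6 : Ex u q C₂ (EB C₂) (fun ω => if Out C₂ ω y then (1 : ℝ) else 0) = thw d u q r := by
      rw [thw_eq y r]
      unfold Pb
      exact Ex_congr (fun ω _ => by congr)
    rw [h5, h6, ← EB_union] at h4
    rw [sq, ← h4]
    unfold Pb
    apply Ex_congr
    intro ω _
    have e1 : Out C₁ (ω ∩ EB C₁) x ↔ Out C₁ ω x :=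
      ⟨fun h => h.mono inter_subset_left (subset_refl _), fun h => h.restrict⟩
    have e2 : Out C₂ (ω ∩ EB C₂) y ↔ Out C₂ ω y :=
      ⟨fun h => h.mono inter_subset_left (subset_refl _), fun h => h.restrict⟩
    simp only [e1, e2]
    by_cases h : Out C₁ ω x <;> by_cases h' : Out C₂ ω y <;> simp [h, h']
  exact (h1.trans h2).trans h3.le

theorem cube_mono {r r' : ℕ} (h : r ≤ r') : cube d r ⊆ cube d r' := by
  intro x hx
  rw [mem_cube] at hx ⊢
  intro i
  have := hx i
  have h' : (r : ℤ) ≤ r' := by exact_mod_cast h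
  constructor <;> linarith [this.1, this.2]

theorem thw_anti (hu : 0 < u) (hq : 1 ≤ q) {r r' : ℕ} (h : r ≤ r') :
    thw d u q r' ≤ thw d u q r :=
  Pb_out_mono hu hq (cube_mono h) 0

theorem thw_mono_u (hu : 0 < u) {u' : ℝ} (huu : u ≤ u') (hq : 1 ≤ q) (r : ℕ) :
    thw d u q r ≤ thw d u' q r := by
  classical
  unfold thw Pb
  refine Ex_dom_u hu huu hq (fun ω => by split_ifs <;> norm_num) (fun s t hst => ?_)
  split_ifs with h1 h2
  · exact le_rfl
  · exact absurd (h1.mono hst (subset_refl _)) h2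
  · norm_num
  · exact le_rfl

theorem thw_nonneg (hu : 0 < u) (hq : 1 ≤ q) (r : ℕ) : 0 ≤ thw d u q r := Pb_nonneg hu hq _

theorem thw_le_one (hu : 0 < u) (hq : 1 ≤ q) (r : ℕ) : thw d u q r ≤ 1 := Pb_le_one hu hq _

/-- A box is contained in a large cube around any of its points. -/
theorem Box_subset_cube {N : ℕ} {x : Pt d} (hx : x ∈ Box d N) :
    Box d N ⊆ shV x (cube d N) := by
  intro y hy
  rw [mem_shV_cube]
  intro i
  have h1 := mem_Box.mp hx i
  have h2 := mem_Box.mp hy i
  rw [abs_le]
  constructor <;> linarith [h1.1, h1.2, h2.1, h2.2]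

theorem thw_le_Box (hu : 0 < u) (hq : 1 ≤ q) {N : ℕ} {x : Pt d} (hx : x ∈ Box d N) :
    thw d u q N ≤ Pb u q (Box d N) (EB (Box d N)) (fun ω => Out (Box d N) ω x) :=
  thw_le_Pb_out hu hq (Box_subset_cube hx)

end Pool.Agent.Lib.MP_31386d_pr
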