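import Mathlib

/-!
# Slab percolation for the random-cluster model: basic definitions on the lattice

`Pt d` is the lattice `ℤ^d`; an edge is a pair `(x, i)`, joining `x` to `x + e_i`.
-/

set_option autoImplicit false

namespace Pool.Agent.Lib.MP_31386d_pr

/-- Lattice points. -/
abbrev Pt (d : ℕ) := Fin d → ℤ

/-- Lattice edges: `(x, i)` joins `x` to `x + e_i`. -/
abbrev Ed (d : ℕ) := Pt d × Fin d

/-- The second end point of an edge. -/
def tgt {d : ℕ} (e : Ed d) : Pt d := e.1 + Pi.single e.2 1

/-- Nearest-neighbour relation on the lattice. -/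
def Lat {d : ℕ} (x y : Pt d) : Prop := ∃ i : Fin d, y = x + Pi.single i 1 ∨ x = y + Pi.single i 1

/-- `A` is connected for the relation `r` (through elements of `A`). -/
def RConn {ε : Type*} (r : ε → ε → Prop) (A : Set ε) : Prop :=
  ∀ x ∈ A, ∀ y ∈ A, Relation.ReflTransGen (fun a b => r a b ∧ a ∈ A ∧ b ∈ A) x y

/-- Two edges are near if their base points differ by at most one in every coordinate. -/
def near {d : ℕ} (e f : Ed d) : Prop := ∀ k, |e.1 k - f.1 k| ≤ 1

/-- The edges joining `D` to its complement. -/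
def cut {d : ℕ} (D : Set (Pt d)) : Set (Ed d) := {e | ¬ (e.1 ∈ D ↔ tgt e ∈ D)}

/-- Every element of `S` lies in a connected subset of `S` with at least `l` elements. -/
def Thick {ε : Type*} (r : ε → ε → Prop) (l : ℕ) (S : Finset ε) : Prop :=
  ∀ x ∈ S, ∃ A : Finset ε, A ⊆ S ∧ x ∈ A ∧ RConn r (A : Set ε) ∧ l ≤ A.card

end Pool.Agent.Lib.MP_31386d_pr
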