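import Pool.Agent.Lib.MP_31386d_pr.Base

/-!
# Entropy bound for thick sets (lattice animals)
-/

set_option autoImplicit false
set_option linter.unusedSectionVars false

namespace Pool.Agent.Lib.MP_31386d_pr

namespace CountAux

variable {ε : Type*} [DecidableEq ε]

/-- The vertex sets of the walks with `n` steps from `e`, the steps going from `x` to `nb x`. -/
def W (nb : ε → Finset ε) : ℕ → ε → Finset (Finset ε)
  | 0, e => {{e}}
  | (n + 1), e => (nb e).biUnion fun f => (W nb n f).image (insert e)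

theorem mem_W_succ {nb : ε → Finset ε} {n : ℕ} {e : ε} {B : Finset ε} :
    B ∈ W nb (n + 1) e ↔ ∃ f ∈ nb e, ∃ A ∈ W nb n f, insert e A = B := by
  rw [W]
  simp only [Finset.mem_biUnion, Finset.mem_image]

theorem card_W {nb : ε → Finset ε} {Δ : ℕ} (hΔ : ∀ x, (nb x).card ≤ Δ) (n : ℕ) (e : ε) :
    (W nb n e).card ≤ Δ ^ n := by
  induction n generalizing e with
  | zero => simp [W]
  | succ n ih =>
    rw [W]
    refine Finset.card_biUnion_le.trans ?_
    calc ∑ f ∈ nb e, ((W nb n f).image (insert e)).card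
        ≤ ∑ f ∈ nb e, Δ ^ n := Finset.sum_le_sum fun f _ => Finset.card_image_le.trans (ih f)
      _ = (nb e).card * Δ ^ n := by rw [Finset.sum_const, smul_eq_mul]
      _ ≤ Δ * Δ ^ n := Nat.mul_le_mul_right _ (hΔ e)
      _ = Δ ^ (n + 1) := by rw [pow_succ, mul_comm]

theorem start_mem {nb : ε → Finset ε} {n : ℕ} {e : ε} {B : Finset ε} (h : B ∈ W nb n e) :
    e ∈ B := by
  cases n with
  | zero =>
    rw [W, Finset.mem_singleton] at h
    subst h
    exact Finset.mem_singleton_self e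
  | succ n =>
    obtain ⟨f, _, A, _, rfl⟩ := mem_W_succ.1 h
    exact Finset.mem_insert_self _ _

theorem insert_mem_W {nb : ε → Finset ε} {f g : ε} (hfg : f ∈ nb g) (hgf : g ∈ nb f) (n : ℕ)
    (e : ε) (B : Finset ε) (h : B ∈ W nb n e) (hg : g ∈ B) : insert f B ∈ W nb (n + 2) e := by
  have key : ∀ (n : ℕ) (B : Finset ε), B ∈ W nb n g → insert f B ∈ W nb (n + 2) g := by
    intro n B hB
    have h1 : insert f B ∈ W nb (n + 1) f := mem_W_succ.2 ⟨g, hgf, B, hB, rfl⟩
    refine mem_W_succ.2 ⟨f, hfg, insert f B, h1, ?_⟩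
    exact Finset.insert_eq_self.2 (Finset.mem_insert_of_mem (start_mem hB))
  induction n generalizing e B with
  | zero =>
    have h' := h
    rw [W, Finset.mem_singleton] at h'
    subst h'
    rw [Finset.mem_singleton] at hg
    subst hg
    exact key 0 _ h
  | succ n ih =>
    by_cases hge : g = e
    · subst hge
      exact key (n + 1) _ h
    · obtain ⟨f', hf', A, hA, rfl⟩ := mem_W_succ.1 h
      have hgA : g ∈ A := (Finset.mem_insert.1 hg).resolve_left hge
      have h1 := ih f' A hA hgA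
      refine mem_W_succ.2 ⟨f', hf', insert f A, h1, ?_⟩
      exact Finset.insert_comm _ _ _

theorem exists_step {r : ε → ε → Prop} {A B : Finset ε} (hA : RConn r (A : Set ε))
    (hBA : B ⊆ A) {e : ε} (he : e ∈ B) (hne : B ≠ A) :
    ∃ g ∈ B, ∃ f ∈ A, f ∉ B ∧ r g f := by
  by_contra hcon
  push Not at hcon
  apply hne
  apply Finset.Subset.antisymm hBA
  intro a ha
  have h := hA e (hBA he) a ha
  induction h with
  | refl => exact he
  | @tail b c _ hbc ih =>
    have hb : b ∈ B := ih hbc.2.1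
    by_contra hc
    exact hcon b hb c hbc.2.2 hc hbc.1

theorem conn_mem_W {r : ε → ε → Prop} (hr : ∀ x y, r x y → r y x) {nb : ε → Finset ε}
    (hnb : ∀ x y, r x y → y ∈ nb x) {A : Finset ε} (hA : RConn r (A : Set ε)) {e : ε}
    (he : e ∈ A) : A ∈ W nb (2 * (A.card - 1)) e := by
  have key : ∀ j, j < A.card → ∃ B ⊆ A, e ∈ B ∧ B.card = j + 1 ∧ B ∈ W nb (2 * j) e := by
    intro j
    induction j with
    | zero =>
      intro _
      refine ⟨{e}, Finset.singleton_subset_iff.2 he, Finset.mem_singleton_self e,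
        Finset.card_singleton e, ?_⟩
      rw [Nat.mul_zero, W]
      exact Finset.mem_singleton_self _
    | succ j ih =>
      intro hj
      obtain ⟨B, hBA, heB, hc, hW⟩ := ih (by omega)
      have hne : B ≠ A := by
        rintro rfl
        omega
      obtain ⟨g, hg, f, hf, hfB, hgf⟩ := exists_step hA hBA heB hne
      refine ⟨insert f B, Finset.insert_subset hf hBA, Finset.mem_insert_of_mem heB, ?_, ?_⟩
      · rw [Finset.card_insert_of_notMem hfB, hc]
      · exact insert_mem_W (hnb _ _ hgf) (hnb _ _ (hr _ _ hgf)) (2 * j) e B hW hg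
  have hpos : 0 < A.card := Finset.card_pos.2 ⟨e, he⟩
  obtain ⟨B, hBA, _, hc, hW⟩ := key (A.card - 1) (by omega)
  have : B = A := Finset.eq_of_subset_of_card_le hBA (by omega)
  rwa [this] at hW

open Classical in
/-- Connected subsets of `E` with at least `l` elements. -/
noncomputable def Fam (r : ε → ε → Prop) (l : ℕ) (E : Finset ε) : Finset (Finset ε) :=
  E.powerset.filter fun A => RConn r (A : Set ε) ∧ l ≤ A.card

theorem mem_Fam {r : ε → ε → Prop} {l : ℕ} {E A : Finset ε} :
    A ∈ Fam r l E ↔ A ⊆ E ∧ RConn r (A : Set ε) ∧ l ≤ A.card := by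
  classical
  rw [Fam, Finset.mem_filter, Finset.mem_powerset]

theorem sum_geom_le {x : ℝ} (hx0 : 0 ≤ x) (hx : x ≤ 1 / 2) (l N : ℕ) :
    ∑ k ∈ Finset.Ico l N, x ^ k ≤ 2 * x ^ l := by
  by_cases h : l ≤ N
  · have h1 : ∀ n, ∑ k ∈ Finset.range n, x ^ k ≤ 2 := by
      intro n
      calc ∑ k ∈ Finset.range n, x ^ k ≤ ∑ k ∈ Finset.range n, (1 / 2 : ℝ) ^ k :=
            Finset.sum_le_sum fun k _ => pow_le_pow_left₀ hx0 hx k
        _ ≤ ∑' k : ℕ, (1 / 2 : ℝ) ^ k :=
            Summable.sum_le_tsum _ (fun _ _ => by positivity) summable_geometric_two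
        _ = 2 := tsum_geometric_two
    rw [Finset.sum_Ico_eq_sum_range]
    simp_rw [pow_add]
    rw [← Finset.mul_sum, mul_comm]
    exact mul_le_mul_of_nonneg_right (h1 _) (pow_nonneg hx0 l)
  · rw [Finset.Ico_eq_empty (by omega), Finset.sum_empty]
    positivity

theorem sum_Fam_le {r : ε → ε → Prop} (hr : ∀ x y, r x y → r y x) {nb : ε → Finset ε}
    (hnb : ∀ x y, r x y → y ∈ nb x) {Δ : ℕ} (hΔ : ∀ x, (nb x).card ≤ Δ) (hΔ1 : 1 ≤ Δ)
    (E : Finset ε) (l : ℕ) (hl : 1 ≤ l) (z : ℝ) (hz : 0 ≤ z)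
    (hz2 : (Δ : ℝ) ^ 2 * z ≤ 1 / 2) :
    ∑ A ∈ Fam r l E, z ^ A.card ≤ 2 * E.card * ((Δ : ℝ) ^ 2 * z) ^ l := by
  classical
  set x : ℝ := (Δ : ℝ) ^ 2 * z with hx
  have hx0 : 0 ≤ x := by positivity
  have hΔ1' : (1 : ℝ) ≤ Δ := by exact_mod_cast hΔ1
  -- fixed point
  have h1 : ∀ e ∈ E, ∑ A ∈ (Fam r l E).filter (fun A => e ∈ A), z ^ A.card ≤ 2 * x ^ l := by
    intro e _
    have hsub : ∀ A ∈ (Fam r l E).filter (fun A => e ∈ A),
        A.card ∈ Finset.Ico l (E.card + 1) := by
      intro A hA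
      rw [Finset.mem_filter, mem_Fam] at hA
      rw [Finset.mem_Ico]
      exact ⟨hA.1.2.2, Nat.lt_succ_of_le (Finset.card_le_card hA.1.1)⟩
    rw [← Finset.sum_fiberwise_of_maps_to hsub]
    refine le_trans (Finset.sum_le_sum fun k hk => ?_) (sum_geom_le hx0 hz2 l (E.card + 1))
    rw [Finset.mem_Ico] at hk
    have h2 : ((Fam r l E).filter (fun A => e ∈ A)).filter (fun A => A.card = k) ⊆
        W nb (2 * (k - 1)) e := by
      intro A hA
      rw [Finset.mem_filter, Finset.mem_filter, mem_Fam] at hA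
      have := conn_mem_W hr hnb hA.1.1.2.1 hA.1.2
      rwa [hA.2] at this
    have h3 := (Finset.card_le_card h2).trans (card_W hΔ _ _)
    calc ∑ A ∈ ((Fam r l E).filter (fun A => e ∈ A)).filter (fun A => A.card = k), z ^ A.card
        = ∑ A ∈ ((Fam r l E).filter (fun A => e ∈ A)).filter (fun A => A.card = k), z ^ k := by
          refine Finset.sum_congr rfl fun A hA => ?_
          rw [Finset.mem_filter] at hA
          rw [hA.2]
      _ = (((Fam r l E).filter (fun A => e ∈ A)).filter (fun A => A.card = k)).card * z ^ k := by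
          rw [Finset.sum_const, nsmul_eq_mul]
      _ ≤ (Δ : ℝ) ^ (2 * (k - 1)) * z ^ k := by
          refine mul_le_mul_of_nonneg_right ?_ (pow_nonneg hz k)
          exact_mod_cast h3
      _ ≤ (Δ : ℝ) ^ (2 * k) * z ^ k := by
          refine mul_le_mul_of_nonneg_right ?_ (pow_nonneg hz k)
          exact pow_le_pow_right₀ hΔ1' (by omega)
      _ = x ^ k := by rw [hx, mul_pow, ← pow_mul]
  calc ∑ A ∈ Fam r l E, z ^ A.card
      ≤ ∑ A ∈ Fam r l E, ∑ e ∈ E, if e ∈ A then z ^ A.card else 0 := by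
        refine Finset.sum_le_sum fun A hA => ?_
        rw [mem_Fam] at hA
        have hne : A.Nonempty := Finset.card_pos.1 (by omega)
        obtain ⟨e, he⟩ := hne
        have : z ^ A.card = if e ∈ A then z ^ A.card else 0 := by rw [if_pos he]
        conv_lhs => rw [this]
        refine Finset.single_le_sum (f := fun e => if e ∈ A then z ^ A.card else 0) ?_
          (hA.1 he)
        intro i _
        split_ifs
        · exact pow_nonneg hz _
        · exact le_rfl
    _ = ∑ e ∈ E, ∑ A ∈ Fam r l E, if e ∈ A then z ^ A.card else 0 := Finset.sum_comm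
    _ = ∑ e ∈ E, ∑ A ∈ (Fam r l E).filter (fun A => e ∈ A), z ^ A.card := by
        refine Finset.sum_congr rfl fun e _ => ?_
        rw [Finset.sum_filter]
    _ ≤ ∑ e ∈ E, 2 * x ^ l := Finset.sum_le_sum h1
    _ = 2 * E.card * x ^ l := by
        rw [Finset.sum_const, nsmul_eq_mul]; ring

/-- Connection inside `S`. -/
def RS (r : ε → ε → Prop) (S : Finset ε) (x y : ε) : Prop :=
  Relation.ReflTransGen (fun a b => r a b ∧ a ∈ S ∧ b ∈ S) x y

theorem RS.symm {r : ε → ε → Prop} (hr : ∀ x y, r x y → r y x) {S : Finset ε} {x y : ε}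
    (h : RS r S x y) : RS r S y x := by
  induction h with
  | refl => exact Relation.ReflTransGen.refl
  | tail _ hbc ih => exact Relation.ReflTransGen.head ⟨hr _ _ hbc.1, hbc.2.2, hbc.2.1⟩ ih

open Classical in
/-- The component of `x` in `S`. -/
noncomputable def comp (r : ε → ε → Prop) (S : Finset ε) (x : ε) : Finset ε :=
  S.filter fun y => RS r S x y

theorem mem_comp {r : ε → ε → Prop} {S : Finset ε} {x y : ε} :
    y ∈ comp r S x ↔ y ∈ S ∧ RS r S x y := by
  classical
  rw [comp, Finset.mem_filter]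

theorem self_mem_comp {r : ε → ε → Prop} {S : Finset ε} {x : ε} (hx : x ∈ S) :
    x ∈ comp r S x := mem_comp.2 ⟨hx, Relation.ReflTransGen.refl⟩

theorem comp_eq {r : ε → ε → Prop} (hr : ∀ x y, r x y → r y x) {S : Finset ε} {x y : ε}
    (h : RS r S x y) : comp r S x = comp r S y := by
  ext u
  rw [mem_comp, mem_comp]
  exact and_congr_right fun _ => ⟨fun hu => (h.symm hr).trans hu, fun hu => h.trans hu⟩

theorem comp_conn {r : ε → ε → Prop} (hr : ∀ x y, r x y → r y x) (S : Finset ε) (x : ε) :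
    RConn r (comp r S x : Set ε) := by
  intro a ha b hb
  have ha' := mem_comp.1 (Finset.mem_coe.1 ha)
  have hb' := mem_comp.1 (Finset.mem_coe.1 hb)
  have hab : RS r S a b := (ha'.2.symm hr).trans hb'.2
  have key : ∀ c, RS r S a c →
      Relation.ReflTransGen (fun u v => r u v ∧ u ∈ (comp r S x : Set ε) ∧
        v ∈ (comp r S x : Set ε)) a c := by
    intro c hc
    induction hc with
    | refl => exact Relation.ReflTransGen.refl
    | @tail u v hu huv ih =>
      refine ih.tail ⟨huv.1, ?_, ?_⟩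
      · exact Finset.mem_coe.2 (mem_comp.2 ⟨huv.2.1, ha'.2.trans hu⟩)
      · exact Finset.mem_coe.2 (mem_comp.2 ⟨huv.2.2, ha'.2.trans (hu.tail huv)⟩)
  exact key b hab

theorem comp_card {r : ε → ε → Prop} {l : ℕ} {S : Finset ε} (hS : Thick r l S) {x : ε}
    (hx : x ∈ S) : l ≤ (comp r S x).card := by
  obtain ⟨A, hAS, hxA, hA, hlA⟩ := hS x hx
  refine hlA.trans (Finset.card_le_card fun a ha => mem_comp.2 ⟨hAS ha, ?_⟩)
  have h := hA x hxA a ha
  clear hlA ha
  induction h with
  | refl => exact Relation.ReflTransGen.refl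
  | tail _ huv ih => exact ih.tail ⟨huv.1, hAS huv.2.1, hAS huv.2.2⟩

open Classical in
/-- The components of `S`. -/
noncomputable def comps (r : ε → ε → Prop) (S : Finset ε) : Finset (Finset ε) :=
  S.image (comp r S)

theorem biUnion_comps (r : ε → ε → Prop) (S : Finset ε) : (comps r S).biUnion id = S := by
  ext u
  rw [Finset.mem_biUnion]
  constructor
  · rintro ⟨C, hC, hu⟩
    rw [comps, Finset.mem_image] at hC
    obtain ⟨x, _, rfl⟩ := hC
    exact (mem_comp.1 hu).1
  · intro hu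
    exact ⟨comp r S u, Finset.mem_image_of_mem _ hu, self_mem_comp hu⟩

theorem sum_card_comps {r : ε → ε → Prop} (hr : ∀ x y, r x y → r y x) (S : Finset ε) :
    ∑ C ∈ comps r S, C.card = S.card := by
  conv_rhs => rw [← biUnion_comps r S]
  rw [Finset.card_biUnion]
  · rfl
  · intro C hC D hD hne
    rw [Finset.mem_coe, comps, Finset.mem_image] at hC hD
    obtain ⟨x, _, rfl⟩ := hC
    obtain ⟨y, _, rfl⟩ := hD
    change Disjoint (comp r S x) (comp r S y)
    rw [Finset.disjoint_left]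
    intro u hu hv
    apply hne
    exact comp_eq hr ((mem_comp.1 hu).2.trans ((mem_comp.1 hv).2.symm hr))

theorem comps_subset {r : ε → ε → Prop} (hr : ∀ x y, r x y → r y x) {l : ℕ} {E S : Finset ε}
    (hSE : S ⊆ E) (hS : Thick r l S) : comps r S ⊆ Fam r l E := by
  intro C hC
  rw [comps, Finset.mem_image] at hC
  obtain ⟨x, hx, rfl⟩ := hC
  rw [mem_Fam]
  exact ⟨fun u hu => hSE (mem_comp.1 hu).1, comp_conn hr S x, comp_card hS hx⟩

end CountAux

open CountAux in
open Classical in
theorem sum_thick_le {ε : Type*} [DecidableEq ε] (r : ε → ε → Prop) (hr : ∀ x y, r x y → r y x)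
    (nb : ε → Finset ε) (hnb : ∀ x y, r x y → y ∈ nb x) (Δ : ℕ) (hΔ : ∀ x, (nb x).card ≤ Δ)
    (hΔ1 : 1 ≤ Δ)
    (E : Finset ε) (l : ℕ) (hl : 1 ≤ l) (z : ℝ) (hz : 0 ≤ z) (hz2 : (Δ : ℝ) ^ 2 * z ≤ 1 / 2) :
    ∑ S ∈ E.powerset.filter (fun S => Thick r l S), z ^ S.card
      ≤ Real.exp (2 * E.card * ((Δ : ℝ) ^ 2 * z) ^ l) := by
  have h1 : ∑ S ∈ E.powerset.filter (fun S => Thick r l S), z ^ S.card ≤
      ∑ T ∈ (Fam r l E).powerset, ∏ C ∈ T, z ^ C.card := by
    calc ∑ S ∈ E.powerset.filter (fun S => Thick r l S), z ^ S.card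
        = ∑ S ∈ E.powerset.filter (fun S => Thick r l S), ∏ C ∈ comps r S, z ^ C.card := by
          refine Finset.sum_congr rfl fun S _ => ?_
          rw [Finset.prod_pow_eq_pow_sum, sum_card_comps hr]
      _ = ∑ T ∈ (E.powerset.filter (fun S => Thick r l S)).image (comps r),
            ∏ C ∈ T, z ^ C.card := by
          rw [Finset.sum_image]
          intro S _ S' _ h
          rw [← biUnion_comps r S, ← biUnion_comps r S', h]
      _ ≤ ∑ T ∈ (Fam r l E).powerset, ∏ C ∈ T, z ^ C.card := by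
          refine Finset.sum_le_sum_of_subset_of_nonneg ?_ ?_
          · intro T hT
            rw [Finset.mem_image] at hT
            obtain ⟨S, hS, rfl⟩ := hT
            rw [Finset.mem_filter, Finset.mem_powerset] at hS
            rw [Finset.mem_powerset]
            exact comps_subset hr hS.1 hS.2
          · intro T _ _
            exact Finset.prod_nonneg fun C _ => pow_nonneg hz _
  refine h1.trans ?_
  rw [← Finset.prod_one_add]
  calc ∏ C ∈ Fam r l E, (1 + z ^ C.card) ≤ ∏ C ∈ Fam r l E, Real.exp (z ^ C.card) := by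
        refine Finset.prod_le_prod (fun C _ => ?_) fun C _ => ?_
        · have := pow_nonneg hz C.card
          linarith
        · rw [add_comm]
          exact Real.add_one_le_exp _
    _ = Real.exp (∑ C ∈ Fam r l E, z ^ C.card) := by rw [Real.exp_sum]
    _ ≤ Real.exp (2 * E.card * ((Δ : ℝ) ^ 2 * z) ^ l) :=
        Real.exp_le_exp.2 (sum_Fam_le hr hnb hΔ hΔ1 E l hl z hz hz2)

end Pool.Agent.Lib.MP_31386d_pr
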