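import Pool.Agent.Lib.MP_31386d_pr.Base

/-!
# Connectedness of cuts in the lattice (Timar's theorem) via a discrete Poincare lemma
-/

set_option autoImplicit false

namespace Pool.Agent.Lib.MP_31386d_pr

variable {d : ℕ}

/-- A function on the integers has a primitive modulo two. -/
theorem exists_prim (φ : ℤ → ZMod 2) : ∃ Φ : ℤ → ZMod 2, ∀ n, Φ (n + 1) + Φ n = φ n := by
  refine ⟨fun n => match n with
    | Int.ofNat m => ∑ i ∈ Finset.range m, φ i
    | Int.negSucc m => ∑ i ∈ Finset.range (m + 1), φ (-((i : ℤ) + 1)), ?_⟩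
  intro n
  rcases n with m | m
  · have h : (Int.ofNat m + 1 : ℤ) = Int.ofNat (m + 1) := rfl
    rw [h]
    simp only
    rw [Finset.sum_range_succ]
    rw [add_right_comm, CharTwo.add_self_eq_zero, zero_add]
    rfl
  · rcases m with _ | m
    · have h : (Int.negSucc 0 + 1 : ℤ) = Int.ofNat 0 := rfl
      rw [h]
      simp only
      rw [Finset.range_zero, Finset.sum_empty, zero_add, Finset.sum_range_succ,
        Finset.range_zero, Finset.sum_empty, zero_add]
      rfl
    · have h : (Int.negSucc (m + 1) + 1 : ℤ) = Int.negSucc m := rfl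
      rw [h]
      simp only
      rw [Finset.sum_range_succ (n := m + 1), ← add_assoc, CharTwo.add_self_eq_zero, zero_add]
      congr 1

/-- Discrete Poincare lemma modulo two, in the directions of `S`. -/
theorem poincare_aux (c : Pt d → Fin d → ZMod 2)
    (hc : ∀ x i j, i ≠ j → c x i + c (x + Pi.single i 1) j + c (x + Pi.single j 1) i + c x j = 0)
    (S : Finset (Fin d)) :
    ∃ g : Pt d → ZMod 2, ∀ x, ∀ i ∈ S, g (x + Pi.single i 1) + g x = c x i := by
  classical
  induction S using Finset.induction_on with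
  | empty => exact ⟨fun _ => 0, by simp⟩
  | insert k S hk ih =>
    obtain ⟨g, hg⟩ := ih
    obtain ⟨c', hc'⟩ : ∃ c' : Pt d → ZMod 2,
        ∀ x, c' x = c x k + g (x + Pi.single k 1) + g x := ⟨_, fun _ => rfl⟩
    have hinv : ∀ x, ∀ i ∈ S, c' (x + Pi.single i 1) = c' x := by
      intro x i hi
      have hik : i ≠ k := fun h => hk (h ▸ hi)
      have h1 := hg (x + Pi.single k 1) i hi
      have h2 := hg x i hi
      have h3 := hc x i k hik
      rw [hc', hc', add_right_comm x]
      have key : ∀ a b c1 c2 e f g1 g2 : ZMod 2, a + b = c1 → e + f = c2 →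
          c2 + g1 + c1 + g2 = 0 → g1 + a + e = g2 + b + f := by decide
      exact key _ _ _ _ _ _ _ _ h1 h2 h3
    choose prim hprim using exists_prim
    refine ⟨fun x => g x + prim (fun t => c' (Function.update x k t)) (x k), ?_⟩
    intro x i hi
    rcases Finset.mem_insert.1 hi with rfl | hiS
    · have e1 : (fun t => c' (Function.update (x + Pi.single i 1) i t))
          = fun t => c' (Function.update x i t) := by
        funext t
        congr 1
        funext j
        by_cases hj : j = i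
        · subst hj; simp
        · simp [Function.update_of_ne hj, Pi.single_eq_of_ne hj]
      have e2 : (x + Pi.single i 1 : Pt d) i = x i + 1 := by simp
      simp only
      rw [e1, e2]
      have h1 := hprim (fun t => c' (Function.update x i t)) (x i)
      have h2 : c' (Function.update x i (x i)) = c' x := by rw [Function.update_eq_self]
      rw [h2, hc'] at h1
      have key : ∀ a b p q c : ZMod 2, p + q = c + a + b → a + p + (b + q) = c := by decide
      exact key _ _ _ _ _ h1
    · have hik : i ≠ k := fun h => hk (h ▸ hiS)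
      have e1 : (fun t => c' (Function.update (x + Pi.single i 1) k t))
          = fun t => c' (Function.update x k t) := by
        funext t
        have : Function.update (x + Pi.single i 1) k t
            = Function.update x k t + Pi.single i 1 := by
          funext j
          by_cases hj : j = k
          · subst hj
            simp [Pi.single_eq_of_ne (Ne.symm hik)]
          · simp [Function.update_of_ne hj]
        rw [this, hinv _ i hiS]
      have e2 : (x + Pi.single i 1 : Pt d) k = x k := by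
        simp [Pi.single_eq_of_ne (Ne.symm hik)]
      simp only
      rw [e1, e2]
      have h1 := hg x i hiS
      have key : ∀ a b p c : ZMod 2, a + b = c → a + p + (b + p) = c := by decide
      exact key _ _ _ _ h1

/-- Discrete Poincare lemma modulo two. -/
theorem poincare (c : Pt d → Fin d → ZMod 2)
    (hc : ∀ x i j, i ≠ j → c x i + c (x + Pi.single i 1) j + c (x + Pi.single j 1) i + c x j = 0) :
    ∃ g : Pt d → ZMod 2, ∀ x i, g (x + Pi.single i 1) + g x = c x i := by
  obtain ⟨g, hg⟩ := poincare_aux c hc Finset.univ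
  exact ⟨g, fun x i => hg x i (Finset.mem_univ i)⟩

open Classical in
/-- Indicator function of a set of edges, modulo two. -/
noncomputable def indE (P : Set (Ed d)) (e : Ed d) : ZMod 2 := if e ∈ P then 1 else 0

theorem indE_eq_one {P : Set (Ed d)} {e : Ed d} : indE P e = 1 ↔ e ∈ P := by
  unfold indE; split_ifs with h <;> simp [h]

theorem indE_eq_zero {P : Set (Ed d)} {e : Ed d} : indE P e = 0 ↔ e ∉ P := by
  unfold indE; split_ifs with h <;> simp [h]

theorem near_refl (e : Ed d) : near e e := fun k => by simp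

theorem near_symm {e f : Ed d} (h : near e f) : near f e := fun k => by
  rw [abs_sub_comm]; exact h k

/-- The core argument: if even systems of edges of `B` are coboundaries, cuts in `B` are
near-connected. -/
theorem core (B D : Set (Pt d)) (hD : RConn Lat (D ∩ B)) (hDc : RConn Lat (Dᶜ ∩ B))
    (hB : ∀ P : Set (Ed d), (∀ (x : Pt d) (i j : Fin d), i ≠ j → x ∈ B → x + Pi.single i 1 ∈ B →
        x + Pi.single j 1 ∈ B → x + Pi.single i 1 + Pi.single j 1 ∈ B →
        indE P (x, i) + indE P (x + Pi.single i 1, j) + indE P (x + Pi.single j 1, i)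
          + indE P (x, j) = 0) →
      ∃ g : Pt d → ZMod 2, ∀ (x : Pt d) (i : Fin d), x ∈ B → x + Pi.single i 1 ∈ B →
        g (x + Pi.single i 1) + g x = indE P (x, i)) :
    RConn near {e : Ed d | e ∈ cut D ∧ e.1 ∈ B ∧ tgt e ∈ B} := by
  classical
  intro e0 he0 f hf
  obtain ⟨A, hA⟩ : ∃ A : Set (Ed d), A = {e : Ed d | e ∈ cut D ∧ e.1 ∈ B ∧ tgt e ∈ B} := ⟨_, rfl⟩
  rw [← hA] at he0 hf ⊢
  obtain ⟨P, hP⟩ : ∃ P : Set (Ed d), P = {e | e ∈ A ∧
    Relation.ReflTransGen (fun a b => near a b ∧ a ∈ A ∧ b ∈ A) e0 e} := ⟨_, rfl⟩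
  have hmem : ∀ e, e ∈ P ↔ e ∈ A ∧
      Relation.ReflTransGen (fun a b => near a b ∧ a ∈ A ∧ b ∈ A) e0 e := by
    intro e; rw [hP]; exact Iff.rfl
  have hmemA : ∀ e : Ed d, e ∈ A ↔ e ∈ cut D ∧ e.1 ∈ B ∧ tgt e ∈ B := by
    intro e; rw [hA]; exact Iff.rfl
  -- near edges of `A` are in `P` together
  have hnear : ∀ a b, a ∈ A → b ∈ A → near a b → a ∈ P → b ∈ P := by
    intro a b ha hb hab haP
    rw [hmem] at haP ⊢
    exact ⟨hb, haP.2.tail ⟨hab, ha, hb⟩⟩
  obtain ⟨δ, hδ⟩ : ∃ δ : Pt d → ZMod 2, δ = fun x => if x ∈ D then 1 else 0 := ⟨_, rfl⟩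
  have hδcut : ∀ (x : Pt d) (i : Fin d), (x, i) ∈ cut D ↔ δ x + δ (x + Pi.single i 1) = 1 := by
    intro x i
    rw [hδ]
    simp only [cut, tgt, Set.mem_ofPred_eq]
    by_cases h1 : x ∈ D <;> by_cases h2 : x + Pi.single i 1 ∈ D <;> simp [h1, h2]
  obtain ⟨g, hg⟩ := hB P (by
    intro x i j hij hx hxi hxj hxij
    have hA1 : (x, i) ∈ A ↔ δ x + δ (x + Pi.single i 1) = 1 := by
      rw [hmemA, hδcut]
      exact ⟨fun h => h.1, fun h => ⟨h, hx, hxi⟩⟩
    have hA2 : (x + Pi.single i 1, j) ∈ A ↔
        δ (x + Pi.single i 1) + δ (x + Pi.single i 1 + Pi.single j 1) = 1 := by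
      rw [hmemA, hδcut]
      exact ⟨fun h => h.1, fun h => ⟨h, hxi, hxij⟩⟩
    have hA3 : (x + Pi.single j 1, i) ∈ A ↔
        δ (x + Pi.single j 1) + δ (x + Pi.single i 1 + Pi.single j 1) = 1 := by
      rw [hmemA, hδcut, add_right_comm x]
      exact ⟨fun h => h.1, fun h => ⟨h, hxj, by
        show x + Pi.single j 1 + Pi.single i 1 ∈ B
        rw [add_right_comm x]; exact hxij⟩⟩
    have hA4 : (x, j) ∈ A ↔ δ x + δ (x + Pi.single j 1) = 1 := by
      rw [hmemA, hδcut]
      exact ⟨fun h => h.1, fun h => ⟨h, hx, hxj⟩⟩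
    have hs : ∀ (i j : Fin d) (k : Fin d), i ≠ j →
        |(Pi.single i 1 : Pt d) k - (Pi.single j 1 : Pt d) k| ≤ 1 := by
      intro i j k hij
      by_cases h1 : k = i
      · subst h1; simp [Pi.single_eq_of_ne hij]
      · by_cases h2 : k = j
        · subst h2; simp [Pi.single_eq_of_ne h1]
        · simp [Pi.single_eq_of_ne h1, Pi.single_eq_of_ne h2]
    have hs0 : ∀ (i : Fin d) (k : Fin d), |(Pi.single i 1 : Pt d) k| ≤ 1 := by
      intro i k
      by_cases h1 : k = i
      · subst h1; simp
      · simp [Pi.single_eq_of_ne h1]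
    have n12 : near (x, i) (x + Pi.single i 1, j) := fun k => by
      have := hs0 i k
      simp only [Pi.add_apply]
      rw [abs_sub_comm, add_sub_cancel_left]; exact this
    have n13 : near (x, i) (x + Pi.single j 1, i) := fun k => by
      have := hs0 j k
      simp only [Pi.add_apply]
      rw [abs_sub_comm, add_sub_cancel_left]; exact this
    have n14 : near (x, i) (x, j) := fun k => by simp
    have n23 : near (x + Pi.single i 1, j) (x + Pi.single j 1, i) := fun k => by
      have := hs i j k hij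
      simp only [Pi.add_apply, add_sub_add_left_eq_sub]; exact this
    have n24 : near (x + Pi.single i 1, j) (x, j) := fun k => by
      have := hs0 i k
      simp only [Pi.add_apply]
      rw [add_sub_cancel_left]; exact this
    have n34 : near (x + Pi.single j 1, i) (x, j) := fun k => by
      have := hs0 j k
      simp only [Pi.add_apply]
      rw [add_sub_cancel_left]; exact this
    have hPA : ∀ e, e ∈ P → e ∈ A := fun e he => ((hmem e).1 he).1
    generalize (x, i) = e1 at *
    generalize ((x + Pi.single i 1, j) : Ed d) = e2 at *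
    generalize ((x + Pi.single j 1, i) : Ed d) = e3 at *
    generalize ((x, j) : Ed d) = e4 at *
    -- either none of the four edges is in `P`, or `P` and `A` agree on them
    by_cases hex : e1 ∈ P ∨ e2 ∈ P ∨ e3 ∈ P ∨ e4 ∈ P
    · have hall : (e1 ∈ P ↔ e1 ∈ A) ∧ (e2 ∈ P ↔ e2 ∈ A) ∧ (e3 ∈ P ↔ e3 ∈ A) ∧
          (e4 ∈ P ↔ e4 ∈ A) := by
        rcases hex with h | h | h | h
        · exact ⟨⟨hPA _, fun _ => h⟩, ⟨hPA _, fun h' => hnear _ _ (hPA _ h) h' n12 h⟩,
            ⟨hPA _, fun h' => hnear _ _ (hPA _ h) h' n13 h⟩,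
            ⟨hPA _, fun h' => hnear _ _ (hPA _ h) h' n14 h⟩⟩
        · exact ⟨⟨hPA _, fun h' => hnear _ _ (hPA _ h) h' (near_symm n12) h⟩,
            ⟨hPA _, fun _ => h⟩,
            ⟨hPA _, fun h' => hnear _ _ (hPA _ h) h' n23 h⟩,
            ⟨hPA _, fun h' => hnear _ _ (hPA _ h) h' n24 h⟩⟩
        · exact ⟨⟨hPA _, fun h' => hnear _ _ (hPA _ h) h' (near_symm n13) h⟩,
            ⟨hPA _, fun h' => hnear _ _ (hPA _ h) h' (near_symm n23) h⟩,
            ⟨hPA _, fun _ => h⟩,
            ⟨hPA _, fun h' => hnear _ _ (hPA _ h) h' n34 h⟩⟩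
        · exact ⟨⟨hPA _, fun h' => hnear _ _ (hPA _ h) h' (near_symm n14) h⟩,
            ⟨hPA _, fun h' => hnear _ _ (hPA _ h) h' (near_symm n24) h⟩,
            ⟨hPA _, fun h' => hnear _ _ (hPA _ h) h' (near_symm n34) h⟩,
            ⟨hPA _, fun _ => h⟩⟩
      have conv : ∀ (e : Ed d) (a b : ZMod 2), (e ∈ P ↔ e ∈ A) → (e ∈ A ↔ a + b = 1) →
          indE P e = a + b := by
        intro e a b h1 h2
        have key : ∀ a b : ZMod 2, a + b = 1 ∨ a + b = 0 := by decide
        rcases key a b with h | h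
        · rw [h, indE_eq_one, h1, h2]; exact h
        · rw [h, indE_eq_zero, h1, h2, h]; decide
      rw [conv e1 _ _ hall.1 hA1, conv e2 _ _ hall.2.1 hA2, conv e3 _ _ hall.2.2.1 hA3,
        conv e4 _ _ hall.2.2.2 hA4]
      have key : ∀ a b c e : ZMod 2, a + b + (b + e) + (c + e) + (a + c) = 0 := by decide
      exact key _ _ _ _
    · push Not at hex
      rw [indE_eq_zero.2 hex.1, indE_eq_zero.2 hex.2.1, indE_eq_zero.2 hex.2.2.1,
        indE_eq_zero.2 hex.2.2.2]
      simp)
  have eqof : ∀ a b : ZMod 2, a + b = 0 → a = b := by decide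
  -- `g` is constant along steps not crossing the cut
  have step : ∀ x y : Pt d, x ∈ B → y ∈ B → (x ∈ D ↔ y ∈ D) → Lat x y → g x = g y := by
    intro x y hx hy hxy hl
    obtain ⟨i, rfl | rfl⟩ := hl
    · have h := hg x i hx hy
      have : (x, i) ∉ P := fun h' => by
        have h1 := ((hmemA _).1 ((hmem _).1 h').1).1
        exact h1 hxy
      rw [indE_eq_zero.2 this] at h
      exact (eqof _ _ h).symm
    · have h := hg y i hy hx
      have : (y, i) ∉ P := fun h' => by
        have h1 := ((hmemA _).1 ((hmem _).1 h').1).1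
        exact h1 hxy.symm
      rw [indE_eq_zero.2 this] at h
      exact eqof _ _ h
  have constD : ∀ x ∈ D ∩ B, ∀ y ∈ D ∩ B, g x = g y := by
    intro x hx y hy
    have := hD x hx y hy
    clear hy
    induction this with
    | refl => rfl
    | tail _ h ih =>
      rw [ih]
      exact step _ _ h.2.1.2 h.2.2.2 ⟨fun _ => h.2.2.1, fun _ => h.2.1.1⟩ h.1
  have constDc : ∀ x ∈ Dᶜ ∩ B, ∀ y ∈ Dᶜ ∩ B, g x = g y := by
    intro x hx y hy
    have := hDc x hx y hy
    clear hy
    induction this with
    | refl => rfl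
    | tail _ h ih =>
      rw [ih]
      exact step _ _ h.2.1.2 h.2.2.2 ⟨fun h' => absurd h' h.2.1.1, fun h' => absurd h' h.2.2.1⟩ h.1
  -- the edge `e0` shows that the two constants differ
  have ends : ∀ e : Ed d, e ∈ A → ∃ p q : Pt d, p ∈ D ∩ B ∧ q ∈ Dᶜ ∩ B ∧
      g (tgt e) + g e.1 = g p + g q := by
    intro e he
    obtain ⟨h1, h2, h3⟩ := (hmemA e).1 he
    by_cases hd : e.1 ∈ D
    · have : tgt e ∉ D := fun h => h1 ⟨fun _ => h, fun _ => hd⟩
      exact ⟨e.1, tgt e, ⟨hd, h2⟩, ⟨this, h3⟩, add_comm _ _⟩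
    · have : tgt e ∈ D := by
        by_contra h
        exact h1 ⟨fun h' => absurd h' hd, fun h' => absurd h' h⟩
      exact ⟨tgt e, e.1, ⟨this, h3⟩, ⟨hd, h2⟩, rfl⟩
  have he0P : e0 ∈ P := (hmem e0).2 ⟨he0, Relation.ReflTransGen.refl⟩
  have hedge : ∀ e ∈ A, g (tgt e) + g e.1 = indE P e := by
    intro e he
    obtain ⟨-, h2, h3⟩ := (hmemA e).1 he
    exact hg e.1 e.2 h2 h3
  obtain ⟨p0, q0, hp0, hq0, h0⟩ := ends e0 he0
  obtain ⟨p1, q1, hp1, hq1, h1⟩ := ends f hf
  have : indE P f = 1 := by
    rw [← hedge f hf, h1, constD p1 hp1 p0 hp0, constDc q1 hq1 q0 hq0, ← h0, hedge e0 he0,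
      indE_eq_one]
    exact he0P
  exact ((hmem f).1 (indE_eq_one.1 this)).2

/-- Timar's theorem in `ℤ^d`: if a set and its complement are connected, the cut between them is
connected (for the relation `near`). -/
theorem cut_connected {d : ℕ} (D : Set (Pt d)) (hD : RConn Lat D) (hDc : RConn Lat Dᶜ) :
    RConn near (cut D) := by
  have h := core (Set.univ : Set (Pt d)) D (by simpa using hD) (by simpa using hDc) (by
    intro P hP
    obtain ⟨g, hg⟩ := poincare (fun x i => indE P (x, i))
      (fun x i j hij => hP x i j hij trivial trivial trivial trivial)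
    exact ⟨g, fun x i _ _ => hg x i⟩)
  have : {e : Ed d | e ∈ cut D ∧ e.1 ∈ Set.univ ∧ tgt e ∈ Set.univ} = cut D := by
    ext e; simp
  rwa [this] at h

/-- Clamping to a box. -/
def clamp {d : ℕ} (a b : Pt d) (x : Pt d) : Pt d := fun k => max (a k) (min (b k) (x k))

theorem clamp_self {a b x : Pt d} (hx : x ∈ Set.Icc a b) : clamp a b x = x := by
  funext k
  have h1 : a k ≤ x k := hx.1 k
  have h2 : x k ≤ b k := hx.2 k
  simp only [clamp]
  rw [min_eq_right h2, max_eq_right h1]

theorem clamp_mem {a b : Pt d} (hab : a ≤ b) (x : Pt d) : clamp a b x ∈ Set.Icc a b := by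
  constructor
  · intro k
    exact le_max_left _ _
  · intro k
    exact max_le (hab k) (min_le_left _ _)

theorem clamp_add_of_lt {a b : Pt d} {x : Pt d} {i : Fin d} (h1 : a i ≤ x i) (h2 : x i < b i) :
    clamp a b (x + Pi.single i 1) = clamp a b x + Pi.single i 1 := by
  funext k
  simp only [clamp, Pi.add_apply]
  by_cases hk : k = i
  · subst hk
    simp only [Pi.single_eq_same]
    omega
  · simp only [Pi.single_eq_of_ne hk, add_zero]

theorem clamp_add_of_not {a b : Pt d} (hab : a ≤ b) {x : Pt d} {i : Fin d}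
    (h : ¬ (a i ≤ x i ∧ x i < b i)) :
    clamp a b (x + Pi.single i 1) = clamp a b x := by
  funext k
  simp only [clamp, Pi.add_apply]
  by_cases hk : k = i
  · subst hk
    have := hab k
    simp only [Pi.single_eq_same]
    omega
  · simp only [Pi.single_eq_of_ne hk, add_zero]

/-- box version -/
theorem cut_connected_box {d : ℕ} (a b : Pt d) (D : Set (Pt d))
    (hD : RConn Lat (D ∩ Set.Icc a b)) (hDc : RConn Lat (Dᶜ ∩ Set.Icc a b)) :
    RConn near {e : Ed d | e ∈ cut D ∧ e.1 ∈ Set.Icc a b ∧ tgt e ∈ Set.Icc a b} := by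
  classical
  by_cases hab : a ≤ b
  swap
  · intro e he
    exact absurd (le_trans he.2.1.1 he.2.1.2) hab
  refine core (Set.Icc a b) D hD hDc ?_
  intro P hP
  have in_of : ∀ (x : Pt d) (i : Fin d), (a i ≤ x i ∧ x i < b i) →
      clamp a b x + Pi.single i 1 ∈ Set.Icc a b := by
    intro x i h
    rw [← clamp_add_of_lt h.1 h.2]
    exact clamp_mem hab _
  obtain ⟨g, hg⟩ := poincare
    (fun x i => if a i ≤ x i ∧ x i < b i then indE P (clamp a b x, i) else 0) (by
      intro x i j hij
      have hxi : (x + Pi.single i 1 : Pt d) j = x j := by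
        simp [Pi.single_eq_of_ne (Ne.symm hij)]
      have hxj : (x + Pi.single j 1 : Pt d) i = x i := by
        simp [Pi.single_eq_of_ne hij]
      rw [hxi, hxj]
      by_cases h1 : a i ≤ x i ∧ x i < b i
      · by_cases h2 : a j ≤ x j ∧ x j < b j
        · rw [if_pos h1, if_pos h2, if_pos h1, if_pos h2, clamp_add_of_lt h1.1 h1.2,
            clamp_add_of_lt h2.1 h2.2]
          refine hP (clamp a b x) i j hij (clamp_mem hab _) (in_of x i h1) (in_of x j h2) ?_
          have h2' : a j ≤ (x + Pi.single i 1 : Pt d) j ∧ (x + Pi.single i 1 : Pt d) j < b j := by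
            rw [hxi]; exact h2
          have := in_of (x + Pi.single i 1) j h2'
          rwa [clamp_add_of_lt h1.1 h1.2] at this
        · rw [if_pos h1, if_neg h2, if_pos h1, if_neg h2, clamp_add_of_not hab h2]
          have key : ∀ a : ZMod 2, a + 0 + a + 0 = 0 := by decide
          exact key _
      · by_cases h2 : a j ≤ x j ∧ x j < b j
        · rw [if_neg h1, if_pos h2, if_neg h1, if_pos h2, clamp_add_of_not hab h1]
          have key : ∀ a : ZMod 2, 0 + a + 0 + a = 0 := by decide
          exact key _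
        · rw [if_neg h1, if_neg h2, if_neg h1, if_neg h2]
          simp)
  refine ⟨g, ?_⟩
  intro x i hx hxi
  have h := hg x i
  have h1 : a i ≤ x i ∧ x i < b i := by
    refine ⟨hx.1 i, ?_⟩
    have h2 : (x + Pi.single i 1 : Pt d) i ≤ b i := hxi.2 i
    rw [Pi.add_apply, Pi.single_eq_same] at h2
    omega
  rw [h, if_pos h1, clamp_self hx]

end Pool.Agent.Lib.MP_31386d_pr
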