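import Pool.Agent.Lib.MP_31386d_pr.Pressure

/-!
# Connectivity, expectations, contours: definitions and basic lemmas
-/

set_option autoImplicit false

namespace Pool.Agent.Lib.MP_31386d_pr

open Finset

variable {d : ℕ}

/-! ### Connectivity -/

/-- `x` and `y` are the two end points of an edge of `ω`. -/
def Adj (ω : Finset (Ed d)) (x y : Pt d) : Prop :=
  ∃ e ∈ ω, (e.1 = x ∧ tgt e = y) ∨ (e.1 = y ∧ tgt e = x)

/-- Connection by open edges. -/
def Conn (ω : Finset (Ed d)) (x y : Pt d) : Prop := Relation.ReflTransGen (Adj ω) x y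

/-- Connection by open edges, all the points outside `Λ` being identified. -/
def ConnP (Λ : Finset (Pt d)) (ω : Finset (Ed d)) (x y : Pt d) : Prop :=
  Relation.ReflTransGen (fun a b => Adj ω a b ∨ (a ∉ Λ ∧ b ∉ Λ)) x y

/-- `x` is connected to the outside of `Λ`. -/
def Out (Λ : Finset (Pt d)) (ω : Finset (Ed d)) (x : Pt d) : Prop := ∃ z, z ∉ Λ ∧ Conn ω x z

theorem Adj.symm {ω : Finset (Ed d)} {x y : Pt d} (h : Adj ω x y) : Adj ω y x := by
  obtain ⟨e, he, h⟩ := h
  exact ⟨e, he, h.symm⟩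

theorem Adj.mono {ω ω' : Finset (Ed d)} (hω : ω ⊆ ω') {x y : Pt d} (h : Adj ω x y) :
    Adj ω' x y := by
  obtain ⟨e, he, h⟩ := h
  exact ⟨e, hω he, h⟩

theorem Adj.lat {ω : Finset (Ed d)} {x y : Pt d} (h : Adj ω x y) : Lat x y := by
  obtain ⟨e, _, h | h⟩ := h
  · exact ⟨e.2, Or.inl (by rw [← h.1, ← h.2]; rfl)⟩
  · exact ⟨e.2, Or.inr (by rw [← h.1, ← h.2]; rfl)⟩

theorem Lat.symm {x y : Pt d} (h : Lat x y) : Lat y x := by
  obtain ⟨i, h⟩ := h
  exact ⟨i, h.symm⟩

theorem Conn.refl (ω : Finset (Ed d)) (x : Pt d) : Conn ω x x := Relation.ReflTransGen.refl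

theorem Conn.trans {ω : Finset (Ed d)} {x y z : Pt d} (h : Conn ω x y) (h' : Conn ω y z) :
    Conn ω x z := Relation.ReflTransGen.trans h h'

theorem Conn.symm {ω : Finset (Ed d)} {x y : Pt d} (h : Conn ω x y) : Conn ω y x := by
  induction h with
  | refl => exact Conn.refl _ _
  | tail _ hbc ih => exact Relation.ReflTransGen.head hbc.symm ih

theorem Conn.mono {ω ω' : Finset (Ed d)} (hω : ω ⊆ ω') {x y : Pt d} (h : Conn ω x y) :
    Conn ω' x y := Relation.ReflTransGen.mono (fun _ _ hab => hab.mono hω) _ _ h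

theorem Adj.conn {ω : Finset (Ed d)} {x y : Pt d} (h : Adj ω x y) : Conn ω x y :=
  Relation.ReflTransGen.single h

theorem ConnP.refl (Λ : Finset (Pt d)) (ω : Finset (Ed d)) (x : Pt d) : ConnP Λ ω x x :=
  Relation.ReflTransGen.refl

theorem ConnP.trans {Λ : Finset (Pt d)} {ω : Finset (Ed d)} {x y z : Pt d} (h : ConnP Λ ω x y)
    (h' : ConnP Λ ω y z) : ConnP Λ ω x z := Relation.ReflTransGen.trans h h'

theorem ConnP.symm {Λ : Finset (Pt d)} {ω : Finset (Ed d)} {x y : Pt d} (h : ConnP Λ ω x y) :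
    ConnP Λ ω y x := by
  induction h with
  | refl => exact ConnP.refl _ _ _
  | tail _ hbc ih =>
    exact Relation.ReflTransGen.head (hbc.imp (fun h => h.symm) (fun h => ⟨h.2, h.1⟩)) ih

theorem Conn.connP {Λ : Finset (Pt d)} {ω : Finset (Ed d)} {x y : Pt d} (h : Conn ω x y) :
    ConnP Λ ω x y := Relation.ReflTransGen.mono (fun _ _ hab => Or.inl hab) _ _ h

/-- Functions constant along the open edges are constant on clusters. -/
theorem Conn.const {ω : Finset (Ed d)} {x y : Pt d} (h : Conn ω x y) {R : Type*} {g : Pt d → R}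
    (hg : ∀ e ∈ ω, g e.1 = g (tgt e)) : g x = g y := by
  induction h with
  | refl => rfl
  | tail _ hbc ih =>
    obtain ⟨e, he, h | h⟩ := hbc
    · rw [ih, ← h.1, ← h.2, hg e he]
    · rw [ih, ← h.1, ← h.2, hg e he]

/-- Either a connection through the outside is an open connection, or both ends are connected to
the outside. -/
theorem ConnP.cases {Λ : Finset (Pt d)} {ω : Finset (Ed d)} {x y : Pt d} (h : ConnP Λ ω x y) :
    Conn ω x y ∨ (Out Λ ω x ∧ Out Λ ω y) := by
  induction h with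
  | refl => exact Or.inl (Conn.refl _ _)
  | tail _ hbc ih =>
    rename_i b c _
    rcases hbc with hbc | hbc
    · rcases ih with ih | ih
      · exact Or.inl (ih.trans hbc.conn)
      · right
        refine ⟨ih.1, ?_⟩
        obtain ⟨z, hz, h2⟩ := ih.2
        exact ⟨z, hz, hbc.symm.conn.trans h2⟩
    · right
      refine ⟨?_, ⟨c, hbc.2, Conn.refl _ _⟩⟩
      rcases ih with ih | ih
      · exact ⟨b, hbc.1, ih⟩
      · exact ih.1

theorem connP_of_out {Λ : Finset (Pt d)} {ω : Finset (Ed d)} {x y : Pt d} (hx : Out Λ ω x)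
    (hy : Out Λ ω y) : ConnP Λ ω x y := by
  obtain ⟨z, hz, h1⟩ := hx
  obtain ⟨z', hz', h2⟩ := hy
  exact (h1.connP.trans (Relation.ReflTransGen.single (Or.inr ⟨hz, hz'⟩))).trans h2.symm.connP

theorem Out.mono {Λ Λ' : Finset (Pt d)} {ω ω' : Finset (Ed d)} (hω : ω ⊆ ω') (hΛ : Λ' ⊆ Λ)
    {x : Pt d} (h : Out Λ ω x) : Out Λ' ω' x := by
  obtain ⟨z, hz, h1⟩ := h
  exact ⟨z, fun h => hz (hΛ h), h1.mono hω⟩

theorem out_of_notMem {Λ : Finset (Pt d)} {ω : Finset (Ed d)} {x : Pt d} (h : x ∉ Λ) :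
    Out Λ ω x := ⟨x, h, Conn.refl _ _⟩

/-- An open path leaving `Λ` can be stopped at its first exit: only edges touching `Λ` are
needed. -/
theorem Out.restrict {Λ : Finset (Pt d)} {ω : Finset (Ed d)} {x : Pt d} (h : Out Λ ω x) :
    Out Λ (ω ∩ EB Λ) x := by
  obtain ⟨z, hz, h1⟩ := h
  unfold Conn at h1
  induction h1 using Relation.ReflTransGen.head_induction_on with
  | refl => exact out_of_notMem hz
  | head hab _ ih =>
    rename_i a c _
    by_cases ha : a ∈ Λ
    · obtain ⟨w, hw, h2⟩ := ih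
      refine ⟨w, hw, Relation.ReflTransGen.head ?_ h2⟩
      obtain ⟨e, he, h⟩ := hab
      refine ⟨e, ?_, h⟩
      rw [mem_inter, mem_EB]
      refine ⟨he, ?_⟩
      rcases h with h | h
      · exact Or.inl (by rw [h.1]; exact ha)
      · exact Or.inr (by rw [h.2]; exact ha)
    · exact out_of_notMem ha

/-! ### Expectations and probabilities -/

/-- Expectation for the random-cluster measure on the edge set `E`, clusters being counted when
they are contained in `V`. (Free measure on `V`: `E = EI V`; wired measure: `E = EB V`.) -/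
noncomputable def Ex (u q : ℝ) (V : Finset (Pt d)) (E : Finset (Ed d))
    (f : Finset (Ed d) → ℝ) : ℝ := Zs u q V E f / Z u q V E

open Classical in
/-- Probability for the same measure. -/
noncomputable def Pb (u q : ℝ) (V : Finset (Pt d)) (E : Finset (Ed d))
    (P : Finset (Ed d) → Prop) : ℝ := Ex u q V E (fun ω => if P ω then 1 else 0)

/-- The cube `[-r, r]^d`. -/
noncomputable def cube (d r : ℕ) : Finset (Pt d) :=
  Fintype.piFinset (fun _ => Finset.Icc (-(r : ℤ)) r)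

/-- The slab `[0, L - 1] × [-n, n]^(d-1)`. -/
noncomputable def slab (d L n : ℕ) : Finset (Pt d) :=
  Fintype.piFinset (fun i : Fin d =>
    if i.val = 0 then Finset.Icc (0 : ℤ) ((L : ℤ) - 1) else Finset.Icc (-(n : ℤ)) (n : ℤ))

/-- Probability, for the wired measure in the cube, that the origin is connected to the outside. -/
noncomputable def thw (d : ℕ) (u q : ℝ) (r : ℕ) : ℝ :=
  Pb u q (cube d r) (EB (cube d r)) (fun ω => Out (cube d r) ω 0)

/-- There is a connected set filling four fifths of the box `[0, N)^d`. -/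
def Giant (N : ℕ) (ω : Finset (Ed d)) : Prop :=
  ∃ x : Pt d, ∃ C : Finset (Pt d), C ⊆ Box d N ∧ 4 * N ^ d ≤ 5 * C.card ∧
    ∀ y ∈ C, Conn (ω ∩ EI (Box d N)) x y

theorem mem_cube {r : ℕ} {x : Pt d} : x ∈ cube d r ↔ ∀ i, -(r : ℤ) ≤ x i ∧ x i ≤ r := by
  simp [cube, Fintype.mem_piFinset]

theorem mem_slab {L n : ℕ} {x : Pt d} : x ∈ slab d L n ↔
    ∀ i : Fin d, (i.val = 0 → 0 ≤ x i ∧ x i ≤ (L : ℤ) - 1) ∧
      (i.val ≠ 0 → -(n : ℤ) ≤ x i ∧ x i ≤ n) := by
  simp only [slab, Fintype.mem_piFinset]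
  apply forall_congr'
  intro i
  by_cases h : i.val = 0 <;> simp [h]

section

variable {u q : ℝ} {V : Finset (Pt d)} {E : Finset (Ed d)}

theorem Ex_mono (hu : 0 < u) (hq : 1 ≤ q) {f g : Finset (Ed d) → ℝ}
    (h : ∀ ω, ω ⊆ E → f ω ≤ g ω) : Ex u q V E f ≤ Ex u q V E g :=
  div_le_div_of_nonneg_right (Zs_mono hu hq V E h) (Z_pos hu hq V E).le

theorem Ex_congr {f g : Finset (Ed d) → ℝ} (h : ∀ ω, ω ⊆ E → f ω = g ω) :
    Ex u q V E f = Ex u q V E g := by
  unfold Ex
  rw [Zs_congr V E h]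

theorem Ex_add (f g : Finset (Ed d) → ℝ) :
    Ex u q V E (fun ω => f ω + g ω) = Ex u q V E f + Ex u q V E g := by
  unfold Ex
  rw [Zs_add, add_div]

theorem Ex_sub (f g : Finset (Ed d) → ℝ) :
    Ex u q V E (fun ω => f ω - g ω) = Ex u q V E f - Ex u q V E g := by
  unfold Ex
  rw [Zs_sub, sub_div]

theorem Ex_const_mul (c : ℝ) (f : Finset (Ed d) → ℝ) :
    Ex u q V E (fun ω => c * f ω) = c * Ex u q V E f := by
  unfold Ex
  rw [Zs_const_mul, mul_div_assoc]

theorem Ex_const (hu : 0 < u) (hq : 1 ≤ q) (c : ℝ) : Ex u q V E (fun _ => c) = c := by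
  have h := Ex_const_mul (u := u) (q := q) (V := V) (E := E) c (fun _ => 1)
  simp only [mul_one] at h
  rw [h]
  unfold Ex
  rw [Zs_one, div_self (Z_pos hu hq V E).ne', mul_one]

theorem Ex_sum {ι : Type*} (s : Finset ι) (f : ι → Finset (Ed d) → ℝ) :
    Ex u q V E (fun ω => ∑ i ∈ s, f i ω) = ∑ i ∈ s, Ex u q V E (f i) := by
  unfold Ex Zs
  rw [← Finset.sum_div, Finset.sum_comm]
  congr 1
  exact sum_congr rfl fun ω _ => by rw [mul_sum]

theorem Ex_nonneg (hu : 0 < u) (hq : 1 ≤ q) {f : Finset (Ed d) → ℝ}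
    (h : ∀ ω, ω ⊆ E → 0 ≤ f ω) : 0 ≤ Ex u q V E f :=
  div_nonneg (Zs_nonneg hu hq V E h) (Z_pos hu hq V E).le

theorem Pb_nonneg (hu : 0 < u) (hq : 1 ≤ q) (P : Finset (Ed d) → Prop) : 0 ≤ Pb u q V E P := by
  classical
  exact Ex_nonneg hu hq (fun ω _ => by split_ifs <;> norm_num)

theorem Pb_mono (hu : 0 < u) (hq : 1 ≤ q) {P Q : Finset (Ed d) → Prop}
    (h : ∀ ω, ω ⊆ E → P ω → Q ω) : Pb u q V E P ≤ Pb u q V E Q := by
  classical
  unfold Pb
  refine Ex_mono hu hq (fun ω hω => ?_)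
  have := h ω hω
  split_ifs with h1 h2
  · exact le_rfl
  · exact absurd (this h1) h2
  · norm_num
  · exact le_rfl

theorem Pb_le_one (hu : 0 < u) (hq : 1 ≤ q) (P : Finset (Ed d) → Prop) : Pb u q V E P ≤ 1 := by
  classical
  rw [← Ex_const (V := V) (E := E) hu hq 1]
  refine Ex_mono hu hq (fun ω _ => ?_)
  split_ifs <;> norm_num

theorem Pb_not (hu : 0 < u) (hq : 1 ≤ q) (P : Finset (Ed d) → Prop) :
    Pb u q V E (fun ω => ¬ P ω) = 1 - Pb u q V E P := by
  classical
  rw [← Ex_const (V := V) (E := E) hu hq 1]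
  unfold Pb
  rw [← Ex_sub]
  refine Ex_congr (fun ω _ => ?_)
  by_cases h : P ω <;> simp [h]

theorem Pb_or_le (hu : 0 < u) (hq : 1 ≤ q) (P Q : Finset (Ed d) → Prop) :
    Pb u q V E (fun ω => P ω ∨ Q ω) ≤ Pb u q V E P + Pb u q V E Q := by
  classical
  unfold Pb
  rw [← Ex_add]
  refine Ex_mono hu hq (fun ω _ => ?_)
  by_cases h : P ω <;> by_cases h' : Q ω <;> simp [h, h']

/-- Markov's inequality. -/
theorem Pb_markov (hu : 0 < u) (hq : 1 ≤ q) {f : Finset (Ed d) → ℝ} {c : ℝ} (hc : 0 < c)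
    (h : ∀ ω, ω ⊆ E → 0 ≤ f ω) : Pb u q V E (fun ω => c ≤ f ω) ≤ Ex u q V E f / c := by
  classical
  rw [le_div_iff₀ hc, mul_comm]
  unfold Pb
  rw [← Ex_const_mul]
  refine Ex_mono hu hq (fun ω hω => ?_)
  have := h ω hω
  split_ifs with h1
  · linarith
  · linarith

/-- FKG inequality. -/
theorem Ex_fkg (hu : 0 < u) (hq : 1 ≤ q) {f g : Finset (Ed d) → ℝ} (hf0 : ∀ ω, 0 ≤ f ω)
    (hg0 : ∀ ω, 0 ≤ g ω) (hf : ∀ s t, s ⊆ t → f s ≤ f t) (hg : ∀ s t, s ⊆ t → g s ≤ g t) :
    Ex u q V E f * Ex u q V E g ≤ Ex u q V E (fun ω => f ω * g ω) := by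
  have h := Zs_fkg hu hq V E hf0 hg0 hf hg
  have hZ := Z_pos hu hq V E
  unfold Ex
  rw [div_mul_div_comm, div_le_div_iff₀ (by positivity) hZ]
  nlinarith

theorem Pb_fkg (hu : 0 < u) (hq : 1 ≤ q) {P Q : Finset (Ed d) → Prop}
    (hP : ∀ s t, s ⊆ t → P s → P t) (hQ : ∀ s t, s ⊆ t → Q s → Q t) :
    Pb u q V E P * Pb u q V E Q ≤ Pb u q V E (fun ω => P ω ∧ Q ω) := by
  classical
  unfold Pb
  refine (Ex_fkg hu hq (fun ω => by split_ifs <;> norm_num) (fun ω => by split_ifs <;> norm_num)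
    (fun s t hst => ?_) (fun s t hst => ?_)).trans (le_of_eq (Ex_congr (fun ω _ => ?_)))
  · have := hP s t hst
    split_ifs with h1 h2
    · exact le_rfl
    · exact absurd (this h1) h2
    · norm_num
    · exact le_rfl
  · have := hQ s t hst
    split_ifs with h1 h2
    · exact le_rfl
    · exact absurd (this h1) h2
    · norm_num
    · exact le_rfl
  · by_cases h : P ω <;> by_cases h' : Q ω <;> simp [h, h']

/-- Wiring more vertices increases the measure. -/
theorem Ex_dom_V (hu : 0 < u) (hq : 1 ≤ q) {V' : Finset (Pt d)} (hV : V' ⊆ V)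
    {f : Finset (Ed d) → ℝ} (hf0 : ∀ ω, 0 ≤ f ω) (hf : ∀ s t, s ⊆ t → f s ≤ f t) :
    Ex u q V E f ≤ Ex u q V' E f := by
  have h := Zs_dom hu hq hV E hf0 hf
  have hZ := Z_pos hu hq V E
  have hZ' := Z_pos hu hq V' E
  unfold Ex
  rw [div_le_div_iff₀ hZ hZ']
  linarith

/-- Adding edges increases the measure. -/
theorem Ex_dom_E (hu : 0 < u) (hq : 1 ≤ q) {E' : Finset (Ed d)} (hE : E' ⊆ E)
    {f : Finset (Ed d) → ℝ} (hf0 : ∀ ω, 0 ≤ f ω) (hf : ∀ s t, s ⊆ t → f s ≤ f t) :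
    Ex u q V E' f ≤ Ex u q V E f := by
  classical
  have hZ := Z_pos hu hq V E
  have hZ' := Z_pos hu hq V E'
  have ext : ∀ g : Finset (Ed d) → ℝ, Zs u q V E' g =
      ∑ ω ∈ E.powerset, (if ω ⊆ E' then wt u q V ω * g ω else 0) := by
    intro g
    unfold Zs
    rw [← sum_filter]
    apply sum_congr _ (fun _ _ => rfl)
    ext ω
    simp only [mem_powerset, mem_filter]
    exact ⟨fun h => ⟨h.trans hE, h⟩, fun h => h.2⟩
  have h : Zs u q V E' f * Z u q V E ≤ Zs u q V E' (fun _ => 1) * Zs u q V E f := by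
    rw [ext f, ext (fun _ => 1)]
    refine four_fun E (fun ω => ?_) (fun ω => (wt_pos hu hq _ _).le) (fun ω => ?_)
      (fun ω => mul_nonneg (wt_pos hu hq _ _).le (hf0 ω)) (fun s _ t _ => ?_)
    · split_ifs
      · exact mul_nonneg (wt_pos hu hq _ _).le (hf0 ω)
      · exact le_rfl
    · split_ifs
      · exact mul_nonneg (wt_pos hu hq _ _).le zero_le_one
      · exact le_rfl
    · by_cases hs : s ⊆ E'
      · have hst : s ∩ t ⊆ E' := inter_subset_left.trans hs
        rw [if_pos hs, if_pos hst]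
        have h1 := wt_mul_le hu hq V V s t
        rw [union_self, inter_self] at h1
        calc wt u q V s * f s * wt u q V t = (wt u q V s * wt u q V t) * f s := by ring
          _ ≤ (wt u q V (s ∩ t) * wt u q V (s ∪ t)) * f (s ∪ t) :=
              mul_le_mul h1 (hf _ _ subset_union_left) (hf0 _)
                (mul_nonneg (wt_pos hu hq _ _).le (wt_pos hu hq _ _).le)
          _ = _ := by ring
      · rw [if_neg hs, zero_mul]
        apply mul_nonneg
        · split_ifs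
          · exact mul_nonneg (wt_pos hu hq _ _).le zero_le_one
          · exact le_rfl
        · exact mul_nonneg (wt_pos hu hq _ _).le (hf0 _)
  rw [Zs_one] at h
  unfold Ex
  rw [div_le_div_iff₀ hZ' hZ]
  linarith

/-- The measure increases with the edge parameter. -/
theorem Ex_dom_u (hu : 0 < u) {u' : ℝ} (huu : u ≤ u') (hq : 1 ≤ q)
    {f : Finset (Ed d) → ℝ} (hf0 : ∀ ω, 0 ≤ f ω) (hf : ∀ s t, s ⊆ t → f s ≤ f t) :
    Ex u q V E f ≤ Ex u' q V E f := by
  have hu' : 0 < u' := lt_of_lt_of_le hu huu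
  have hZ := Z_pos hu hq V E
  have hZ' := Z_pos hu' hq V E
  have h : Zs u q V E f * Z u' q V E ≤ Z u q V E * Zs u' q V E f := by
    refine four_fun E (fun ω => mul_nonneg (wt_pos hu hq _ _).le (hf0 ω))
      (fun ω => (wt_pos hu' hq _ _).le) (fun ω => (wt_pos hu hq _ _).le)
      (fun ω => mul_nonneg (wt_pos hu' hq _ _).le (hf0 ω)) (fun s _ t _ => ?_)
    have h2 : q ^ kap V s * q ^ kap V t ≤ q ^ kap V (s ∩ t) * q ^ kap V (s ∪ t) := by
      have h3 := kap_inf_sup' V V s t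
      rw [union_self, inter_self] at h3
      rw [← pow_add, ← pow_add]
      exact pow_le_pow_right₀ hq h3
    have h1 : u ^ s.card * u' ^ t.card ≤ u ^ (s ∩ t).card * u' ^ (s ∪ t).card := by
      have c1 : s.card = (s ∩ t).card + (s \ t).card := by
        rw [add_comm]
        exact (card_sdiff_add_card_inter s t).symm
      have c2 : (s ∪ t).card = (s \ t).card + t.card := by
        have := card_sdiff_add_card s t
        omega
      rw [c1, c2, pow_add, pow_add]
      have h4 : u ^ (s \ t).card ≤ u' ^ (s \ t).card := pow_le_pow_left₀ hu.le huu _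
      calc u ^ (s ∩ t).card * u ^ (s \ t).card * u' ^ t.card
          = u ^ (s ∩ t).card * u' ^ t.card * u ^ (s \ t).card := by ring
        _ ≤ u ^ (s ∩ t).card * u' ^ t.card * u' ^ (s \ t).card :=
            mul_le_mul_of_nonneg_left h4 (by positivity)
        _ = _ := by ring
    have hq0 : 0 < q := by linarith
    unfold wt
    calc u ^ s.card * q ^ kap V s * f s * (u' ^ t.card * q ^ kap V t)
        = (u ^ s.card * u' ^ t.card) * (q ^ kap V s * q ^ kap V t) * f s := by ring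
      _ ≤ (u ^ (s ∩ t).card * u' ^ (s ∪ t).card) *
          (q ^ kap V (s ∩ t) * q ^ kap V (s ∪ t)) * f (s ∪ t) := by
          apply mul_le_mul _ (hf _ _ subset_union_left) (hf0 _) (by positivity)
          exact mul_le_mul h1 h2 (by positivity) (by positivity)
      _ = _ := by ring
  unfold Ex
  rw [div_le_div_iff₀ hZ hZ']
  linarith

/-- Edges that do not touch `V` do not matter. -/
theorem Ex_irrel (hu : 0 < u) (hq : 1 ≤ q) {F : Finset (Ed d)} (hEF : Disjoint E F)
    (h : ∀ e ∈ F, e.1 ∉ V ∧ tgt e ∉ V) (f : Finset (Ed d) → ℝ)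
    (hf : ∀ s t, s ⊆ E → t ⊆ F → f (s ∪ t) = f s) :
    Ex u q V (E ∪ F) f = Ex u q V E f := by
  have h1 := Z_union_irrel (u := u) (q := q) V hEF h
  have h2 : Zs u q V (E ∪ F) f = (1 + u) ^ F.card * Zs u q V E f := by
    unfold Zs
    rw [sum_powerset_union hEF, mul_sum]
    apply sum_congr rfl
    intro ω₁ hω₁
    rw [← sum_pow_card F u, sum_mul]
    apply sum_congr rfl
    intro ω₂ hω₂
    rw [mem_powerset] at hω₁ hω₂
    rw [hf _ _ hω₁ hω₂]
    have h3 : (ω₁ ∪ ω₂).card = ω₁.card + ω₂.card :=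
      card_union_of_disjoint (disjoint_of_subset_left hω₁ (disjoint_of_subset_right hω₂ hEF))
    have h4 : kap V (ω₁ ∪ ω₂) = kap V ω₁ := by
      apply kap_congr
      intro e he
      rw [mem_union]
      constructor
      · rintro (h1 | h1)
        · exact h1
        · have := h e (hω₂ h1)
          tauto
      · exact Or.inl
    unfold wt
    rw [h3, h4, pow_add]
    ring
  unfold Ex
  rw [h1, h2]
  apply mul_div_mul_left
  positivity

/-- Translation invariance. -/
theorem Ex_shV (t : Pt d) (V : Finset (Pt d)) (E : Finset (Ed d)) (f : Finset (Ed d) → ℝ) :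
    Ex u q (shV t V) (shE t E) f = Ex u q V E (fun ω => f (shE t ω)) := by
  unfold Ex
  rw [Z_shV]
  congr 1
  unfold Zs
  rw [sum_shE]
  apply sum_congr rfl
  intro ω _
  unfold wt
  rw [kap_shV, card_shE]

/-- Independence of separated regions. -/
theorem Ex_prod (hu : 0 < u) (hq : 1 ≤ q) {W : Finset (Pt d)} {F : Finset (Ed d)}
    (hVW : Disjoint V W) (hE : ∀ e ∈ E, e.1 ∉ W ∧ tgt e ∉ W)
    (hF : ∀ e ∈ F, e.1 ∉ V ∧ tgt e ∉ V) (hEF : Disjoint E F) (f g : Finset (Ed d) → ℝ) :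
    Ex u q (V ∪ W) (E ∪ F) (fun ω => f (ω ∩ E) * g (ω ∩ F)) =
      Ex u q V E f * Ex u q W F g := by
  have h1 := Z_prod (u := u) (q := q) V W hVW hE hF hEF
  have h2 := Zs_prod (u := u) (q := q) V W hVW hE hF hEF (fun ω => f (ω ∩ E) * g (ω ∩ F))
  unfold Ex
  rw [h1, h2, div_mul_div_comm]
  congr 1
  unfold Zs
  rw [sum_mul_sum]
  apply sum_congr rfl
  intro ω₁ hω₁
  apply sum_congr rfl
  intro ω₂ hω₂
  rw [mem_powerset] at hω₁ hω₂
  have e1 : (ω₁ ∪ ω₂) ∩ E = ω₁ := by
    ext e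
    simp only [mem_inter, mem_union]
    constructor
    · rintro ⟨h1 | h1, h2⟩
      · exact h1
      · exact absurd (hω₂ h1) (fun h3 => Finset.disjoint_left.mp hEF h2 h3)
    · intro h1
      exact ⟨Or.inl h1, hω₁ h1⟩
  have e2 : (ω₁ ∪ ω₂) ∩ F = ω₂ := by
    ext e
    simp only [mem_inter, mem_union]
    constructor
    · rintro ⟨h1 | h1, h2⟩
      · exact absurd h2 (fun h3 => Finset.disjoint_left.mp hEF (hω₁ h1) h3)
      · exact h1
    · intro h1
      exact ⟨Or.inr h1, hω₂ h1⟩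
  rw [e1, e2]
  ring

/-- Isolated vertices do not matter. -/
theorem Ex_isol (hu : 0 < u) (hq : 1 ≤ q) {W : Finset (Pt d)} (hVW : Disjoint V W)
    (hE : ∀ e ∈ E, e.1 ∉ W ∧ tgt e ∉ W) (f : Finset (Ed d) → ℝ) :
    Ex u q (V ∪ W) E f = Ex u q V E f := by
  have h1 := Ex_prod (u := u) (q := q) (V := V) (E := E) (W := W) (F := ∅) hu hq hVW hE (by simp)
    (disjoint_empty_right _) f (fun _ => 1)
  rw [Ex_const hu hq, mul_one, union_empty] at h1
  rw [← h1]
  apply Ex_congr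
  intro ω hω
  rw [mul_one, inter_eq_left.mpr hω]

/-- Lower bound for the probability that all the edges of `F` are open. -/
theorem Pb_subset_ge (hu : 0 < u) (hq : 1 ≤ q) {F : Finset (Ed d)} (hF : F ⊆ E) :
    (u / (u + q)) ^ F.card ≤ Pb u q V E (fun ω => F ⊆ ω) := by
  classical
  have hone : ∀ e ∈ E, u / (u + q) ≤ Pb u q V E (fun ω => e ∈ ω) := by
    intro e he
    have hZ := Z_pos hu hq V E
    -- split according to the state of `e`
    have hE : E = insert e (E.erase e) := (insert_erase he).symm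
    have h1 : ∀ f : Finset (Ed d) → ℝ, ∑ ω ∈ E.powerset, f ω =
        ∑ ω ∈ (E.erase e).powerset, (f ω + f (insert e ω)) := by
      intro f
      conv_lhs => rw [hE]
      rw [sum_powerset_insert (notMem_erase e E), sum_add_distrib]
    have h2 : Zs u q V E (fun ω => if e ∈ ω then (1 : ℝ) else 0) =
        ∑ ω ∈ (E.erase e).powerset, wt u q V (insert e ω) := by
      unfold Zs
      rw [h1]
      apply sum_congr rfl
      intro ω hω
      have : e ∉ ω := fun h => notMem_erase e E (mem_powerset.mp hω h)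
      simp [this]
    have h3 : Z u q V E = ∑ ω ∈ (E.erase e).powerset, (wt u q V ω + wt u q V (insert e ω)) :=
      h1 _
    have hq0 : 0 < q := by linarith
    have h7 : Pb u q V E (fun ω => e ∈ ω) =
        (∑ ω ∈ (E.erase e).powerset, wt u q V (insert e ω)) / Z u q V E := by
      unfold Pb Ex
      rw [← h2]
      congr 1
      exact Zs_congr _ _ (fun ω _ => by congr)
    rw [h7, div_le_div_iff₀ (by positivity) hZ, h3, mul_sum, sum_mul]
    apply sum_le_sum
    intro ω hω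
    have hn : e ∉ ω := fun h => notMem_erase e E (mem_powerset.mp hω h)
    have h4 : u * wt u q V ω ≤ q * wt u q V (insert e ω) := by
      unfold wt
      rw [card_insert_of_notMem hn]
      have h5 := kap_insert V ω e
      have h6 : q ^ kap V ω ≤ q ^ (kap V (insert e ω) + 1) := pow_le_pow_right₀ hq h5
      rw [pow_succ] at h6
      calc u * (u ^ ω.card * q ^ kap V ω) = u ^ (ω.card + 1) * q ^ kap V ω := by ring
        _ ≤ u ^ (ω.card + 1) * (q ^ kap V (insert e ω) * q) :=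
            mul_le_mul_of_nonneg_left h6 (by positivity)
        _ = _ := by ring
    nlinarith
  induction F using Finset.induction_on with
  | empty =>
    rw [card_empty, pow_zero]
    have : Pb u q V E (fun ω => ∅ ⊆ ω) = 1 := by
      have h := Ex_const (V := V) (E := E) hu hq 1
      rw [← h]
      exact Ex_congr (fun ω _ => by simp)
    exact this.ge
  | insert e F he ih =>
    have hFE : F ⊆ E := (subset_insert e F).trans hF
    have heE : e ∈ E := hF (mem_insert_self e F)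
    rw [card_insert_of_notMem he, pow_succ']
    have hpos : 0 ≤ u / (u + q) := by
      have hq0 : 0 < q := by linarith
      positivity
    calc u / (u + q) * (u / (u + q)) ^ F.card
        ≤ Pb u q V E (fun ω => e ∈ ω) * Pb u q V E (fun ω => F ⊆ ω) :=
          mul_le_mul (hone e heE) (ih hFE) (by positivity) (Pb_nonneg hu hq _)
      _ ≤ Pb u q V E (fun ω => e ∈ ω ∧ F ⊆ ω) :=
          Pb_fkg hu hq (fun s t hst h => hst h) (fun s t hst h => h.trans hst)
      _ ≤ _ := Pb_mono hu hq (fun ω _ h => insert_subset h.1 h.2)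

end

/-! ### Contours -/

/-- `K` is a nontrivial cluster (the points outside `Λ` being identified). -/
def IsCl (Λ : Finset (Pt d)) (ω : Finset (Ed d)) (K : Set (Pt d)) : Prop :=
  K.Nontrivial ∧ ∃ x, K = {y | ConnP Λ ω x y}

/-- `D` is a connected component of the complement of `K`. -/
def IsComp (K D : Set (Pt d)) : Prop :=
  ∃ y, y ∉ K ∧ D = {z | Relation.ReflTransGen (fun a b => Lat a b ∧ a ∉ K ∧ b ∉ K) y z}

open Classical in
/-- The edges of the contours having at least `n` points on each side. -/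
noncomputable def Sk (Λ : Finset (Pt d)) (n : ℕ) (ω : Finset (Ed d)) : Finset (Ed d) :=
  (EB Λ).filter (fun e => ∃ K D, IsCl Λ ω K ∧ IsComp K D ∧ (n : ℕ∞) ≤ D.encard ∧
    (n : ℕ∞) ≤ (Dᶜ).encard ∧ e ∈ cut D)

/-- `x` lies on the side with less than `n` points of some contour. -/
def Encl (Λ : Finset (Pt d)) (n : ℕ) (ω : Finset (Ed d)) (x : Pt d) : Prop :=
  ∃ K D, IsCl Λ ω K ∧ IsComp K D ∧
    ((x ∈ D ∧ D.encard < n) ∨ (x ∉ D ∧ (Dᶜ).encard < n))

/-- Admissible families of regions: `H` is the complement (in `Λ`) of the outer region, `𝒜` is the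
family of the inner regions. -/
structure Adm (Λ : Finset (Pt d)) (l : ℕ) (H : Finset (Pt d)) (𝒜 : Finset (Finset (Pt d))) :
    Prop where
  hH : H ⊆ Λ
  sub : ∀ A ∈ 𝒜, A ⊆ H
  disj : ∀ A ∈ 𝒜, ∀ B ∈ 𝒜, A ≠ B → Disjoint A B
  conn : ∀ A ∈ 𝒜, RConn Lat (A : Set (Pt d))
  two : ∀ A ∈ 𝒜, 2 ≤ A.card
  big : ∀ A ∈ 𝒜, l ≤ (dE A).card
  thick : Thick near l (dE H ∪ 𝒜.biUnion dE)

/-- The configuration `ω` is compatible with the regions: no open edge crosses the boundaries, the
boundary vertices of an inner region are connected inside it, the boundary vertices of the outer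
region are connected to the outside of `Λ`. -/
structure Compat (Λ : Finset (Pt d)) (ω : Finset (Ed d)) (H : Finset (Pt d))
    (𝒜 : Finset (Finset (Pt d))) : Prop where
  closed : ∀ e ∈ ω, e ∉ dE H ∧ ∀ A ∈ 𝒜, e ∉ dE A
  inner : ∀ A ∈ 𝒜, ∀ x ∈ A, ∀ y ∈ A, (∃ e ∈ dE A, e.1 = x ∨ tgt e = x) →
    (∃ e ∈ dE A, e.1 = y ∨ tgt e = y) → Conn (ω ∩ EI A) x y
  outer : ∀ x ∈ Λ \ H, (∃ e ∈ dE H, e.1 = x ∨ tgt e = x) →
    ∃ z, z ∉ Λ ∧ Conn (ω ∩ EB (Λ \ H)) x z

/-- All the properties of the regions attached to a configuration `ω` at scale `k`. -/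
structure Good (Λ : Finset (Pt d)) (k : ℕ) (ω : Finset (Ed d)) (H : Finset (Pt d))
    (𝒜 : Finset (Finset (Pt d))) : Prop where
  adm : Adm Λ (2 * k) H 𝒜
  compat : Compat Λ ω H 𝒜
  eq_Sk : dE H ∪ 𝒜.biUnion dE = Sk Λ (k ^ d) ω
  out_H : ∀ x ∈ Λ \ H, Out Λ ω x ∨ Encl Λ (k ^ d) ω x
  not_out_H : ∀ x ∈ H, ¬ Out Λ ω x
  rest : ∀ x ∈ H, (∀ A ∈ 𝒜, x ∉ A) →
    (∀ e ∈ ω, e.1 ≠ x ∧ tgt e ≠ x) ∨ Encl Λ (k ^ d) ω x
  inA : ∀ A ∈ 𝒜, ∃ x, ∀ y ∈ A, Conn ω x y ∨ Encl Λ (k ^ d) ω y
  free : ω ⊆ EI Λ → RConn Lat (Λ : Set (Pt d)) → k ^ d ≤ Λ.card → H = Λ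

/-- The moment bound for the number of contour edges, at all scales `k`. -/
def Mom (d : ℕ) (u q ρ : ℝ) : Prop := ∀ (N k : ℕ), 1 ≤ N → 1 ≤ k →
  ∀ E : Finset (Ed d), (E = EI (Box d N) ∨ E = EB (Box d N)) →
    Ex u q (Box d N) E (fun ω => ((Sk (Box d N) (k ^ d) ω).card : ℝ)) ≤
      24 * (dE (Box d N)).card + 4 * (EB (Box d N)).card * ρ ^ (2 * k)

end Pool.Agent.Lib.MP_31386d_pr
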