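import Pool.Agent.Lib.MP_31386d_pr.Arm
import Pool.Agent.Lib.MP_31386d_pr.Moment

/-!
# High edge density in the free box above the threshold
-/

set_option autoImplicit false

namespace Pool.Agent.Lib.MP_31386d_pr

open Finset

variable {d : ℕ} {u q : ℝ}

/-- Opening an edge between two vertices connected to the outside does not change the number of
inner clusters. -/
theorem kap_insert_out {V : Finset (Pt d)} {ω : Finset (Ed d)} {e : Ed d}
    (h1 : Out V ω e.1) (h2 : Out V ω (tgt e)) : kap V (insert e ω) = kap V ω := by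
  have hL : L V (insert e ω) = L V ω := by
    ext g
    rw [mem_L, mem_L]
    constructor
    · rintro ⟨hg, hg'⟩
      exact ⟨hg, fun f hf => hg' f (mem_insert_of_mem hf)⟩
    · rintro ⟨hg, hg'⟩
      refine ⟨hg, fun f hf => ?_⟩
      rcases mem_insert.mp hf with rfl | hf
      · obtain ⟨z, hz, hc⟩ := h1
        obtain ⟨z', hz', hc'⟩ := h2
        rw [hc.const hg', hc'.const hg', hg z hz, hg z' hz']
      · exact hg' f hf
  unfold kap
  rw [hL]

open Classical in
/-- The probability that an edge is closed while both ends are connected to the outside. -/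
theorem Pb_closed_out_le (hu : 0 < u) (hq : 1 ≤ q) (V : Finset (Pt d)) (E : Finset (Ed d))
    {e : Ed d} (he : e ∈ E) :
    Ex u q V E (fun ω => if e ∉ ω ∧ Out V ω e.1 ∧ Out V ω (tgt e) then (1 : ℝ) else 0) ≤
      1 / u := by
  have hZ := Z_pos hu hq V E
  unfold Ex
  rw [div_le_div_iff₀ hZ hu, one_mul]
  unfold Zs
  rw [sum_mul]
  calc ∑ ω ∈ E.powerset, wt u q V ω *
        (if e ∉ ω ∧ Out V ω e.1 ∧ Out V ω (tgt e) then (1 : ℝ) else 0) * u
      = ∑ ω ∈ E.powerset.filter (fun ω => e ∉ ω ∧ Out V ω e.1 ∧ Out V ω (tgt e)),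
          wt u q V (insert e ω) := by
        rw [sum_filter]
        apply sum_congr rfl
        intro ω _
        split_ifs with h
        · unfold wt
          rw [card_insert_of_notMem h.1, kap_insert_out h.2.1 h.2.2]
          ring
        · ring
    _ = ∑ ω ∈ (E.powerset.filter
          (fun ω => e ∉ ω ∧ Out V ω e.1 ∧ Out V ω (tgt e))).image (insert e), wt u q V ω := by
        rw [sum_image]
        intro ω hω ω' hω' h
        have h1 := (mem_filter.mp hω).2.1
        have h2 := (mem_filter.mp hω').2.1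
        rw [← erase_insert h1, ← erase_insert h2, h]
    _ ≤ Z u q V E := by
        unfold Z
        apply sum_le_sum_of_subset_of_nonneg
        · intro ω hω
          obtain ⟨ω', h1, rfl⟩ := mem_image.mp hω
          rw [mem_powerset]
          exact insert_subset he (mem_powerset.mp (mem_filter.mp h1).1)
        · intro ω _ _
          exact (wt_pos hu hq _ _).le

open Classical in
/-- Closed edges are either attached to a vertex which is not connected to the outside, or join two
vertices connected to the outside. -/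
theorem card_closed_le (V : Finset (Pt d)) (ω : Finset (Ed d)) :
    ((EB V).card : ℝ) - (ω.card : ℝ) ≤
      ∑ x ∈ V, (2 * d : ℝ) * (if ¬ Out V ω x then (1 : ℝ) else 0) +
      ∑ e ∈ EB V, (if e ∉ ω ∧ Out V ω e.1 ∧ Out V ω (tgt e) then (1 : ℝ) else 0) := by
  have h1 : EB V ⊆ ω ∪ (V.filter (fun x => ¬ Out V ω x)).biUnion (fun x => EB {x}) ∪
      (EB V).filter (fun e => e ∉ ω ∧ Out V ω e.1 ∧ Out V ω (tgt e)) := by
    intro e he
    simp only [mem_union, mem_biUnion, mem_filter]
    by_cases h1 : e ∈ ω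
    · exact Or.inl (Or.inl h1)
    by_cases h2 : Out V ω e.1
    · by_cases h3 : Out V ω (tgt e)
      · exact Or.inr ⟨he, h1, h2, h3⟩
      · refine Or.inl (Or.inr ⟨tgt e, ⟨?_, h3⟩, ?_⟩)
        · by_contra h4
          exact h3 (out_of_notMem h4)
        · rw [mem_EB]
          exact Or.inr (mem_singleton_self _)
    · refine Or.inl (Or.inr ⟨e.1, ⟨?_, h2⟩, ?_⟩)
      · by_contra h4
        exact h2 (out_of_notMem h4)
      · rw [mem_EB]
        exact Or.inl (mem_singleton_self _)
  have h2 : ((V.filter (fun x => ¬ Out V ω x)).biUnion (fun x => EB {x})).card ≤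
      (V.filter (fun x => ¬ Out V ω x)).card * (2 * d) := by
    apply card_biUnion_le_card_mul
    intro x _
    have := card_EI_add_EB ({x} : Finset (Pt d))
    rw [card_singleton] at this
    omega
  have h3 : (EB V).card ≤ ω.card + (V.filter (fun x => ¬ Out V ω x)).card * (2 * d) +
      ((EB V).filter (fun e => e ∉ ω ∧ Out V ω e.1 ∧ Out V ω (tgt e))).card := by
    refine (card_le_card h1).trans ((card_union_le _ _).trans ?_)
    gcongr
    refine (card_union_le _ _).trans ?_
    gcongr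
  have h4 : ∑ x ∈ V, (2 * d : ℝ) * (if ¬ Out V ω x then (1 : ℝ) else 0) =
      (V.filter (fun x => ¬ Out V ω x)).card * (2 * d) := by
    rw [← mul_sum, ← sum_filter, sum_const, nsmul_eq_mul, mul_one, mul_comm]
  have h5 : ∑ e ∈ EB V, (if e ∉ ω ∧ Out V ω e.1 ∧ Out V ω (tgt e) then (1 : ℝ) else 0) =
      ((EB V).filter (fun e => e ∉ ω ∧ Out V ω e.1 ∧ Out V ω (tgt e))).card := by
    rw [← sum_filter, sum_const, nsmul_eq_mul, mul_one]
  rw [h4, h5]
  have h6 : ((EB V).card : ℝ) ≤ ω.card + (V.filter (fun x => ¬ Out V ω x)).card * (2 * d) +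
      ((EB V).filter (fun e => e ∉ ω ∧ Out V ω e.1 ∧ Out V ω (tgt e))).card := by
    exact_mod_cast h3
  linarith

/-- The expected number of open edges in the wired box. -/
theorem Ex_card_ge (hu : 0 < u) (hq : 1 ≤ q) {η : ℝ} (hθ : ∀ r : ℕ, 1 - η ≤ thw d u q r)
    (M : ℕ) : (1 - (2 * η + 1 / u)) * (EB (Box d M)).card ≤
      Ex u q (Box d M) (EB (Box d M)) (fun ω => (ω.card : ℝ)) := by
  classical
  set V := Box d M with hV
  have hη : 0 ≤ η := by
    have h1 := hθ 0
    have h2 := thw_le_one (d := d) hu hq 0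
    linarith
  have h1 := Ex_mono (V := V) hu hq (fun ω (_ : ω ⊆ EB V) => card_closed_le V ω)
  rw [Ex_sub, Ex_const hu hq, Ex_add, Ex_sum, Ex_sum] at h1
  have h2 : ∑ x ∈ V, Ex u q V (EB V)
      (fun ω => (2 * d : ℝ) * (if ¬ Out V ω x then (1 : ℝ) else 0)) ≤ V.card * (2 * d * η) := by
    rw [← nsmul_eq_mul]
    apply sum_le_card_nsmul
    intro x hx
    rw [Ex_const_mul]
    have h3 : Ex u q V (EB V) (fun ω => (if ¬ Out V ω x then (1 : ℝ) else 0)) ≤ η := by
      have h4 := Pb_not (V := V) (E := EB V) hu hq (fun ω => Out V ω x)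
      have h5 := thw_le_Box hu hq hx
      have h6 := hθ M
      have h7 : Ex u q V (EB V) (fun ω => (if ¬ Out V ω x then (1 : ℝ) else 0)) =
          Pb u q V (EB V) (fun ω => ¬ Out V ω x) := by
        unfold Pb
        exact Ex_congr (fun ω _ => by congr)
      rw [h7, h4]
      linarith
    exact mul_le_mul_of_nonneg_left h3 (by positivity)
  have h3 : ∑ e ∈ EB V, Ex u q V (EB V)
      (fun ω => if e ∉ ω ∧ Out V ω e.1 ∧ Out V ω (tgt e) then (1 : ℝ) else 0) ≤
      (EB V).card * (1 / u) := by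
    rw [← nsmul_eq_mul]
    apply sum_le_card_nsmul
    intro e he
    exact Pb_closed_out_le hu hq V (EB V) he
  have h4 : (d : ℝ) * V.card ≤ (EB V).card := by
    have h5 : (2 : ℝ) * (EB V).card = 2 * d * V.card + (dE V).card := by
      exact_mod_cast two_card_EB V
    have h6 : (0 : ℝ) ≤ (dE V).card := Nat.cast_nonneg _
    linarith
  have h5 : (V.card : ℝ) * (2 * d * η) ≤ 2 * η * (EB V).card := by
    nlinarith
  linarith

theorem wt_change (hu : 0 < u) {u' : ℝ} (hu' : 0 < u') (V : Finset (Pt d)) (ω : Finset (Ed d)) :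
    wt u q V ω * Real.exp ((Real.log u' - Real.log u) * ω.card) = wt u' q V ω := by
  have h1 : Real.exp ((Real.log u' - Real.log u) * ω.card) = (u' / u) ^ ω.card := by
    rw [← Real.log_div hu'.ne' hu.ne', mul_comm, Real.exp_nat_mul, Real.exp_log (by positivity)]
  rw [h1]
  unfold wt
  rw [div_pow]
  field_simp

theorem Ex_exp_card (hu : 0 < u) {u' : ℝ} (hu' : 0 < u') (V : Finset (Pt d))
    (E : Finset (Ed d)) :
    Ex u q V E (fun ω => Real.exp ((Real.log u' - Real.log u) * ω.card)) =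
      Z u' q V E / Z u q V E := by
  unfold Ex
  congr 1
  unfold Zs Z
  exact sum_congr rfl (fun ω _ => wt_change hu hu' V ω)

/-- Slope of the pressure. -/
theorem pr_slope (hd : 1 ≤ d) (hu : 0 < u) {u' : ℝ} (huu : u < u') (hq : 1 ≤ q) {η : ℝ}
    (hθ : ∀ r : ℕ, 1 - η ≤ thw d u q r) :
    (Real.log u' - Real.log u) * (1 - (2 * η + 1 / u)) * d ≤ pr d u' q - pr d u q := by
  have hu' : 0 < u' := hu.trans huu
  set s := Real.log u' - Real.log u with hs
  have hs0 : 0 < s := by
    have := Real.log_lt_log hu huu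
    rw [hs]; linarith
  set η₁ := 2 * η + 1 / u with hη₁
  set b := Real.sqrt (1 + u) with hb
  set b' := Real.sqrt (1 + u') with hb'
  have hb1 : 1 ≤ b := by
    rw [hb, Real.one_le_sqrt]; linarith
  have hb1' : 1 ≤ b' := by
    rw [hb', Real.one_le_sqrt]; linarith
  have hb2 : b ^ 2 = 1 + u := Real.sq_sqrt (by linarith)
  have hb2' : b' ^ 2 = 1 + u' := Real.sq_sqrt (by linarith)
  apply limit_le _ _ (2 * d * Real.log b' + 2 * d * Real.log b - s * (1 - η₁) * d) 0 d _ hd
  intro n _ hn
  rw [Nat.sub_zero]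
  set V := Box d n with hV
  have hZ := Zw_pos (u := u) (q := q) hu hq V
  have hZ' := Zw_pos (u := u') (q := q) hu' hq V
  have h1 := Ex_jensen hu hq V (EB V) (fun ω => s * (ω.card : ℝ))
  rw [Ex_const_mul, Ex_exp_card hu hu' V (EB V)] at h1
  have h2 := Ex_card_ge hu hq hθ n
  rw [← hV] at h2
  have h3 : s * ((1 - η₁) * (EB V).card) ≤ Real.log (Zw u' q V) - Real.log (Zw u q V) := by
    rw [← Real.log_div hZ'.ne' hZ.ne', Real.le_log_iff_exp_le (div_pos hZ' hZ)]
    refine le_trans (Real.exp_le_exp.mpr ?_) h1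
    exact mul_le_mul_of_nonneg_left h2 hs0.le
  have h4 := W1 hd hu' hq hb1' hb2' V
  have h5 := A1 hd hu hq hb1 hb2 n hn
  have h6 := Z0_le_Zw hu hq V
  have h7 : Real.log (Zw u' q V) ≤ pr d u' q * (n : ℝ) ^ d +
      2 * d * (n : ℝ) ^ (d - 1) * Real.log b' := by
    have h8 := Real.log_le_log hZ' h4
    rw [Real.log_mul (Real.exp_pos _).ne' (by positivity), Real.log_exp, Real.log_pow, hV,
      card_Box, card_dE_Box hd hn] at h8
    push_cast at h8
    exact h8
  have h8 : pr d u q * (n : ℝ) ^ d ≤ Real.log (Zw u q V) +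
      2 * d * (n : ℝ) ^ (d - 1) * Real.log b := by
    have h9 := Real.log_le_log (Real.exp_pos _) h5
    have hZ0 := Z0_pos (u := u) (q := q) hu hq V
    rw [Real.log_mul (Z0_pos hu hq _).ne' (by positivity), Real.log_exp, Real.log_pow] at h9
    have h10 := Real.log_le_log hZ0 h6
    push_cast at h9
    rw [← hV] at h9
    linarith
  have h9 : ((EB V).card : ℝ) = d * (n : ℝ) ^ d + d * (n : ℝ) ^ (d - 1) := by
    have h10 : (2 : ℝ) * (EB V).card = 2 * d * V.card + (dE V).card := by
      exact_mod_cast two_card_EB V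
    rw [hV, card_Box, card_dE_Box hd hn, ← hV] at h10
    push_cast at h10
    linarith
  rw [h9] at h3
  nlinarith

theorem density (hd : 1 ≤ d) {u u' q η : ℝ} (hu : 0 < u) (huu : u < u') (hq : 1 ≤ q)
    (hθ : ∀ r : ℕ, 1 - η ≤ thw d u q r) (N : ℕ) (hN : 1 ≤ N) :
    Pb u' q (Box d N) (EI (Box d N))
      (fun ω => (ω.card : ℝ) ≤ (1 - 2 * (2 * η + 1 / u)) * d * (N : ℝ) ^ d) ≤
      Real.exp (-(Real.log u' - Real.log u) * (2 * η + 1 / u) * d * (N : ℝ) ^ d +
        Real.log (1 + u') * d * (N : ℝ) ^ (d - 1)) := by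
  have hu' : 0 < u' := hu.trans huu
  have hsl := pr_slope hd hu huu hq hθ
  set s := Real.log u' - Real.log u with hs
  have hs0 : 0 < s := by
    have := Real.log_lt_log hu huu
    rw [hs]; linarith
  set η₁ := 2 * η + 1 / u with hη₁
  set b' := Real.sqrt (1 + u') with hb'
  have hb1' : 1 ≤ b' := by
    rw [hb', Real.one_le_sqrt]; linarith
  have hb2' : b' ^ 2 = 1 + u' := Real.sq_sqrt (by linarith)
  set V := Box d N with hV
  have hZ := Z0_pos (u := u) (q := q) hu hq V
  have hZ' := Z0_pos (u := u') (q := q) hu' hq V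
  have h1 : Pb u' q V (EI V) (fun ω => (ω.card : ℝ) ≤ (1 - 2 * η₁) * d * (N : ℝ) ^ d) ≤
      Pb u' q V (EI V) (fun ω => Real.exp (-s * ((1 - 2 * η₁) * d * (N : ℝ) ^ d)) ≤
        Real.exp ((Real.log u - Real.log u') * ω.card)) := by
    refine Pb_mono hu' hq (fun ω _ h => ?_)
    apply Real.exp_le_exp.mpr
    have h2 : Real.log u - Real.log u' = -s := by rw [hs]; ring
    rw [h2]
    nlinarith
  have h2 := Pb_markov (u := u') (q := q) (V := V) (E := EI V)
    (f := fun ω => Real.exp ((Real.log u - Real.log u') * ω.card))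
    hu' hq (Real.exp_pos (-s * ((1 - 2 * η₁) * d * (N : ℝ) ^ d)))
    (fun ω _ => (Real.exp_pos _).le)
  rw [Ex_exp_card hu' hu V (EI V)] at h2
  refine h1.trans (h2.trans ?_)
  have h3 := F1 hu hq V
  have h4 := A1 hd hu' hq hb1' hb2' N hN
  have h5 : Z0 u q V / Z0 u' q V / Real.exp (-s * ((1 - 2 * η₁) * d * (N : ℝ) ^ d)) =
      Z0 u q V / (Z0 u' q V * Real.exp (-s * ((1 - 2 * η₁) * d * (N : ℝ) ^ d))) := by
    rw [div_div]
  have h6 : Real.log (Z0 u q V) ≤ pr d u q * (N : ℝ) ^ d := by
    have h7 := log_Z0_le hu hq V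
    rw [hV, card_Box, ← hV] at h7
    push_cast at h7
    exact h7
  have h7 : pr d u' q * (N : ℝ) ^ d ≤ Real.log (Z0 u' q V) +
      Real.log (1 + u') * d * (N : ℝ) ^ (d - 1) := by
    have h9 := Real.log_le_log (Real.exp_pos _) h4
    rw [Real.log_mul (Z0_pos hu' hq _).ne' (by positivity), Real.log_exp, Real.log_pow] at h9
    have h10 : Real.log (1 + u') = 2 * Real.log b' := by
      rw [← hb2', Real.log_pow]
      norm_num
    push_cast at h9
    rw [← hV] at h9
    rw [h10]
    linarith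
  have h8 : Z u q V (EI V) / Z u' q V (EI V) /
      Real.exp (-s * ((1 - 2 * η₁) * d * (N : ℝ) ^ d)) =
      Real.exp (Real.log (Z0 u q V) - Real.log (Z0 u' q V) +
        s * ((1 - 2 * η₁) * d * (N : ℝ) ^ d)) := by
    rw [Real.exp_add, Real.exp_sub, Real.exp_log hZ, Real.exp_log hZ', div_eq_mul_inv _
      (Real.exp _), ← Real.exp_neg]
    congr 2
    ring
  rw [h8]
  apply Real.exp_le_exp.mpr
  have h9 : 0 ≤ (N : ℝ) ^ d := by positivity
  have h10 := mul_le_mul_of_nonneg_right hsl h9
  nlinarith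

end Pool.Agent.Lib.MP_31386d_pr
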