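import Pool.Agent.Lib.MP_31386d_pr.Base

/-!
# Connectivity of dependent site percolation in the box `[0, m]^D`

If the bad sites satisfy `P (all sites of S are bad) ≤ ε ^ |S|` with `ε` small, then any two given
sites of the box are joined by a path of good sites with probability at least `1 / 2`. Proof by
renormalisation: the box is cut into blocks with sides in `{3, 4, 5}`, a block is bad if it contains
two bad sites, and a path of good blocks lifts to a path of good sites.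
-/

set_option autoImplicit false

namespace Pool.Agent.Lib.MP_31386d_pr

namespace Grid

open Relation

theorem mem_Icc' {D : ℕ} {a b x : Pt D} : x ∈ Set.Icc a b ↔ ∀ j, a j ≤ x j ∧ x j ≤ b j :=
  ⟨fun h j => ⟨h.1 j, h.2 j⟩, fun h => ⟨fun j => (h j).1, fun j => (h j).2⟩⟩

/-- Connectivity inside a box. -/
theorem box_conn {D : ℕ} (a b : Pt D) (x y : Pt D) (hx : x ∈ Set.Icc a b)
    (hy : y ∈ Set.Icc a b) :
    ReflTransGen (fun p q => Lat p q ∧ p ∈ Set.Icc a b ∧ q ∈ Set.Icc a b) x y := by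
  induction h : (∑ i, (x i - y i).natAbs) using Nat.strong_induction_on generalizing x with
  | _ n ih =>
    by_cases hxy : x = y
    · rw [hxy]
    · obtain ⟨i, hi⟩ : ∃ i, x i ≠ y i := Function.ne_iff.1 hxy
      have ha := mem_Icc'.1 hx
      have ha' := mem_Icc'.1 hy
      rcases lt_or_gt_of_ne hi with h1 | h1
      · have hs : ∀ j, (x + Pi.single i 1 : Pt D) j = x j + if j = i then 1 else 0 := by
          intro j
          rw [Pi.add_apply, Pi.single_apply]
        have hx' : x + Pi.single i 1 ∈ Set.Icc a b := by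
          rw [mem_Icc']
          intro j
          rw [hs]
          have h2 := ha j
          have h3 := ha' j
          by_cases hj : j = i
          · subst hj; rw [if_pos rfl]; omega
          · rw [if_neg hj]; omega
        refine ReflTransGen.head ⟨⟨i, Or.inl rfl⟩, hx, hx'⟩ (ih _ ?_ _ hx' rfl)
        rw [← h]
        refine Finset.sum_lt_sum (fun j _ => ?_) ⟨i, Finset.mem_univ _, ?_⟩
        · rw [hs]
          by_cases hj : j = i
          · subst hj; rw [if_pos rfl]; omega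
          · rw [if_neg hj]; omega
        · rw [hs, if_pos rfl]; omega
      · have hs : ∀ j, (x - Pi.single i 1 : Pt D) j = x j - if j = i then 1 else 0 := by
          intro j
          rw [Pi.sub_apply, Pi.single_apply]
        have hx' : x - Pi.single i 1 ∈ Set.Icc a b := by
          rw [mem_Icc']
          intro j
          rw [hs]
          have h2 := ha j
          have h3 := ha' j
          by_cases hj : j = i
          · subst hj; rw [if_pos rfl]; omega
          · rw [if_neg hj]; omega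
        refine ReflTransGen.head ⟨⟨i, Or.inr (sub_add_cancel _ _).symm⟩, hx, hx'⟩
          (ih _ ?_ _ hx' rfl)
        rw [← h]
        refine Finset.sum_lt_sum (fun j _ => ?_) ⟨i, Finset.mem_univ _, ?_⟩
        · rw [hs]
          by_cases hj : j = i
          · subst hj; rw [if_pos rfl]; omega
          · rw [if_neg hj]; omega
        · rw [hs, if_pos rfl]; omega

theorem lat_symm {D : ℕ} {x y : Pt D} (h : Lat x y) : Lat y x := by
  obtain ⟨i, h | h⟩ := h
  · exact ⟨i, Or.inr h⟩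
  · exact ⟨i, Or.inl h⟩

theorem conn_symm {D : ℕ} {A : Set (Pt D)} {x y : Pt D}
    (h : ReflTransGen (fun p q => Lat p q ∧ p ∈ A ∧ q ∈ A) x y) :
    ReflTransGen (fun p q => Lat p q ∧ p ∈ A ∧ q ∈ A) y x := by
  induction h with
  | refl => exact ReflTransGen.refl
  | tail _ h ih => exact ReflTransGen.head ⟨lat_symm h.1, h.2.2, h.2.1⟩ ih

theorem conn_of_box {D : ℕ} {A : Set (Pt D)} (a b : Pt D) (hA : Set.Icc a b ⊆ A) {x y : Pt D}
    (hx : x ∈ Set.Icc a b) (hy : y ∈ Set.Icc a b) :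
    ReflTransGen (fun p q => Lat p q ∧ p ∈ A ∧ q ∈ A) x y :=
  ReflTransGen.mono (fun _ _ h => ⟨h.1, hA h.2.1, hA h.2.2⟩) _ _ (box_conn a b x y hx hy)

/-- A box with sides at least two minus one site is connected. -/
theorem minus_one_conn {D : ℕ} (hD : 2 ≤ D) (a b z : Pt D) (hab : ∀ i, a i + 1 ≤ b i)
    (A : Set (Pt D)) (hA : ∀ x ∈ Set.Icc a b, x ≠ z → x ∈ A) (x y : Pt D)
    (hx : x ∈ Set.Icc a b) (hxz : x ≠ z) (hy : y ∈ Set.Icc a b) (hyz : y ≠ z) :
    ReflTransGen (fun p q => Lat p q ∧ p ∈ A ∧ q ∈ A) x y := by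
  set c : Pt D := fun i => if z i = a i then a i + 1 else a i with hc
  have hcz : ∀ i, c i ≠ z i := by
    intro i
    simp only [hc]
    split_ifs with h <;> omega
  have hca : ∀ i, a i ≤ c i ∧ c i ≤ b i := by
    intro i
    have := hab i
    simp only [hc]
    split_ifs with h <;> omega
  have key : ∀ x ∈ Set.Icc a b, x ≠ z →
      ReflTransGen (fun p q => Lat p q ∧ p ∈ A ∧ q ∈ A) x c := by
    intro x hx hxz
    obtain ⟨i, hi⟩ : ∃ i, x i ≠ z i := Function.ne_iff.1 hxz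
    obtain ⟨j, hj⟩ : ∃ j : Fin D, j ≠ i := by
      have : Nontrivial (Fin D) := Fin.nontrivial_iff_two_le.2 hD
      exact exists_ne i
    have h1 : ReflTransGen (fun p q => Lat p q ∧ p ∈ A ∧ q ∈ A) x (Function.update c i (x i)) := by
      refine conn_of_box (Function.update a i (x i)) (Function.update b i (x i)) ?_ ?_ ?_
      · intro p hp
        have hpi : p i = x i := by
          have h1 := hp.1 i
          have h2 := hp.2 i
          rw [Function.update_self] at h1 h2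
          exact le_antisymm h2 h1
        refine hA p ⟨fun k => ?_, fun k => ?_⟩ ?_
        · have h1 := hp.1 k
          by_cases hk : k = i
          · subst hk; rw [hpi]; exact hx.1 k
          · rwa [Function.update_of_ne hk] at h1
        · have h1 := hp.2 k
          by_cases hk : k = i
          · subst hk; rw [hpi]; exact hx.2 k
          · rwa [Function.update_of_ne hk] at h1
        · intro h
          exact hi (by rw [← hpi, h])
      · refine ⟨fun k => ?_, fun k => ?_⟩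
        · by_cases hk : k = i
          · subst hk; rw [Function.update_self]
          · rw [Function.update_of_ne hk]; exact hx.1 k
        · by_cases hk : k = i
          · subst hk; rw [Function.update_self]
          · rw [Function.update_of_ne hk]; exact hx.2 k
      · refine ⟨fun k => ?_, fun k => ?_⟩
        · by_cases hk : k = i
          · subst hk; rw [Function.update_self, Function.update_self]
          · rw [Function.update_of_ne hk, Function.update_of_ne hk]; exact (hca k).1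
        · by_cases hk : k = i
          · subst hk; rw [Function.update_self, Function.update_self]
          · rw [Function.update_of_ne hk, Function.update_of_ne hk]; exact (hca k).2
    have h2 : ReflTransGen (fun p q => Lat p q ∧ p ∈ A ∧ q ∈ A) (Function.update c i (x i)) c := by
      refine conn_of_box (Function.update c i (a i)) (Function.update c i (b i)) ?_ ?_ ?_
      · intro p hp
        have hpk : ∀ k, k ≠ i → p k = c k := by
          intro k hk
          have h1 := hp.1 k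
          have h2 := hp.2 k
          rw [Function.update_of_ne hk] at h1 h2
          exact le_antisymm h2 h1
        have h1 := hp.1 i
        have h2 := hp.2 i
        rw [Function.update_self] at h1 h2
        refine hA p ⟨fun k => ?_, fun k => ?_⟩ ?_
        · by_cases hk : k = i
          · subst hk; exact h1
          · rw [hpk k hk]; exact (hca k).1
        · by_cases hk : k = i
          · subst hk; exact h2
          · rw [hpk k hk]; exact (hca k).2
        · intro h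
          exact hcz j (by rw [← hpk j hj, h])
      · refine ⟨fun k => ?_, fun k => ?_⟩
        · by_cases hk : k = i
          · subst hk; rw [Function.update_self, Function.update_self]; exact hx.1 k
          · rw [Function.update_of_ne hk, Function.update_of_ne hk]
        · by_cases hk : k = i
          · subst hk; rw [Function.update_self, Function.update_self]; exact hx.2 k
          · rw [Function.update_of_ne hk, Function.update_of_ne hk]
      · refine ⟨fun k => ?_, fun k => ?_⟩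
        · by_cases hk : k = i
          · subst hk; rw [Function.update_self]; exact (hca k).1
          · rw [Function.update_of_ne hk]
        · by_cases hk : k = i
          · subst hk; rw [Function.update_self]; exact (hca k).2
          · rw [Function.update_of_ne hk]
    exact h1.trans h2
  exact (key x hx hxz).trans (conn_symm (key y hy hyz))

/-- The coarse coordinate of the blocks. -/
def coarse {D : ℕ} (m : ℕ) (x : Pt D) : Pt D := fun j => min (x j / 3) (((m - 2) / 3 : ℕ) : ℤ)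

/-- Lower corner of a block. -/
def lo {D : ℕ} (Q : Pt D) : Pt D := fun j => 3 * Q j

/-- Upper corner of a block. -/
def hi {D : ℕ} (m : ℕ) (Q : Pt D) : Pt D :=
  fun j => if Q j = (((m - 2) / 3 : ℕ) : ℤ) then (m : ℤ) else 3 * Q j + 2

/-- The box `[0, m]^D`. -/
def InBox {D : ℕ} (m : ℕ) (x : Pt D) : Prop := ∀ i, 0 ≤ x i ∧ x i ≤ (m : ℤ)

theorem coarse_inBox {D : ℕ} {m : ℕ} {x : Pt D} (hx : InBox m x) :
    InBox ((m - 2) / 3) (coarse m x) := by
  intro i
  have := hx i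
  unfold coarse
  constructor <;> omega

theorem mem_block {D : ℕ} {m : ℕ} (hm : 2 ≤ m) {x : Pt D} (hx : InBox m x) :
    x ∈ Set.Icc (lo (coarse m x)) (hi m (coarse m x)) := by
  refine ⟨fun i => ?_, fun i => ?_⟩
  · have := hx i
    unfold lo coarse
    simp only
    omega
  · have := hx i
    unfold hi coarse
    simp only
    split_ifs with h <;> omega

theorem of_mem_block {D : ℕ} {m : ℕ} (hm : 2 ≤ m) {Q x : Pt D} (hQ : InBox ((m - 2) / 3) Q)
    (hx : x ∈ Set.Icc (lo Q) (hi m Q)) : InBox m x ∧ coarse m x = Q := by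
  constructor
  · intro i
    have h1 := hQ i
    have h2 := hx.1 i
    have h3 := hx.2 i
    unfold lo at h2
    unfold hi at h3
    simp only at h2 h3
    split_ifs at h3 with h <;> omega
  · funext i
    have h1 := hQ i
    have h2 := hx.1 i
    have h3 := hx.2 i
    unfold lo at h2
    unfold hi at h3
    unfold coarse
    simp only at h2 h3
    split_ifs at h3 with h <;> omega

theorem block_side {D : ℕ} {m : ℕ} (hm : 2 ≤ m) {Q : Pt D} (hQ : InBox ((m - 2) / 3) Q)
    (i : Fin D) : lo Q i + 2 ≤ hi m Q i ∧ hi m Q i ≤ lo Q i + 4 := by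
  have h1 := hQ i
  unfold lo hi
  split_ifs with h <;> omega

/-- A block with at most one bad site: there is a `z` such that all sites of the block other than
`z` are good, and no site equal to `z` is good. -/
theorem exists_z {D : ℕ} (hD : 2 ≤ D) (bad : Pt D → Prop) (a b : Pt D)
    (h : ¬ ∃ x ∈ Set.Icc a b, ∃ y ∈ Set.Icc a b, x ≠ y ∧ bad x ∧ bad y) :
    ∃ z : Pt D, ∀ x ∈ Set.Icc a b, x ≠ z ↔ ¬ bad x := by
  by_cases hb : ∃ z ∈ Set.Icc a b, bad z
  · obtain ⟨z, hz, hbz⟩ := hb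
    refine ⟨z, fun x hx => ⟨fun hxz hbx => h ⟨x, hx, z, hz, hxz, hbx, hbz⟩, fun hbx hxz => ?_⟩⟩
    rw [hxz] at hbx
    exact hbx hbz
  · push Not at hb
    refine ⟨fun i => a i - 1, fun x hx => ⟨fun _ => hb x hx, fun _ hxz => ?_⟩⟩
    have h1 := (mem_Icc'.1 hx ⟨0, by omega⟩).1
    have h2 : x ⟨0, by omega⟩ = a ⟨0, by omega⟩ - 1 := congrFun hxz _
    omega

/-- Two adjacent blocks with at most one bad site each contain adjacent good sites. -/
theorem exists_adj {D : ℕ} (hD : 2 ≤ D) {m : ℕ} (hm : 2 ≤ m) {Q Q' : Pt D}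
    (hQ : InBox ((m - 2) / 3) Q) (hQ' : InBox ((m - 2) / 3) Q') (i : Fin D)
    (h : Q' = Q + Pi.single i 1) (z z' : Pt D) :
    ∃ p ∈ Set.Icc (lo Q) (hi m Q), p + Pi.single i 1 ∈ Set.Icc (lo Q') (hi m Q') ∧
      p ≠ z ∧ p + Pi.single i 1 ≠ z' := by
  obtain ⟨j, hj⟩ : ∃ j : Fin D, j ≠ i := by
    have : Nontrivial (Fin D) := Fin.nontrivial_iff_two_le.2 hD
    exact exists_ne i
  obtain ⟨s, hs0, hs2, hs, hs'⟩ : ∃ s : ℤ, 0 ≤ s ∧ s ≤ 2 ∧ lo Q j + s ≠ z j ∧
      lo Q j + s ≠ z' j := by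
    by_cases h0 : lo Q j + 0 ≠ z j ∧ lo Q j + 0 ≠ z' j
    · exact ⟨0, by norm_num, by norm_num, h0.1, h0.2⟩
    by_cases h1 : lo Q j + 1 ≠ z j ∧ lo Q j + 1 ≠ z' j
    · exact ⟨1, by norm_num, by norm_num, h1.1, h1.2⟩
    exact ⟨2, by norm_num, by norm_num, by omega, by omega⟩
  have hq : ∀ k, Q' k = Q k + if k = i then 1 else 0 := by
    intro k
    rw [h, Pi.add_apply, Pi.single_apply]
  set p : Pt D := fun k => if k = i then hi m Q i else if k = j then lo Q j + s else lo Q k with hp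
  have hpj : p j = lo Q j + s := by
    have h1 : p j = if j = i then hi m Q i else if j = j then lo Q j + s else lo Q j := rfl
    rw [h1, if_neg hj, if_pos rfl]
  have hps : ∀ k, (p + Pi.single i 1 : Pt D) k = p k + if k = i then 1 else 0 := by
    intro k
    rw [Pi.add_apply, Pi.single_apply]
  refine ⟨p, ?_, ?_, ?_, ?_⟩
  · rw [mem_Icc']
    intro k
    have h1 := block_side hm hQ k
    simp only [hp]
    by_cases hk : k = i
    · subst hk
      rw [if_pos rfl]; omega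
    · rw [if_neg hk]
      by_cases hk' : k = j
      · subst hk'
        rw [if_pos rfl]; omega
      · rw [if_neg hk']; omega
  · rw [mem_Icc']
    intro k
    rw [hps]
    have h1 := block_side hm hQ' k
    have h2 := hQ' k
    have h3 := hQ k
    have h4 := hq k
    by_cases hk : k = i
    · subst hk
      rw [if_pos rfl] at h4 ⊢
      have h5 : p k = 3 * Q k + 2 := by
        simp only [hp, if_true]
        unfold hi
        rw [if_neg (by omega)]
      have h6 : lo Q' k = 3 * Q' k := rfl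
      omega
    · rw [if_neg hk] at h4 ⊢
      have h6 : lo Q' k = lo Q k := by unfold lo; omega
      simp only [hp]
      rw [if_neg hk]
      by_cases hk' : k = j
      · subst hk'
        rw [if_pos rfl]; omega
      · rw [if_neg hk']; omega
  · intro h
    exact hs (by rw [← hpj, h])
  · intro h
    apply hs'
    rw [← hpj, ← h, hps, if_neg hj, add_zero]

/-- Lifting of a coarse path. -/
theorem lift_conn {D : ℕ} (hD : 2 ≤ D) {m : ℕ} (hm : 2 ≤ m) (bad : Pt D → Prop)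
    (A : Set (Pt D)) (hA : ∀ x, x ∈ A ↔ ¬ bad x ∧ InBox m x)
    (A' : Set (Pt D)) (hA' : ∀ Q, Q ∈ A' → (¬ ∃ x ∈ Set.Icc (lo Q) (hi m Q),
      ∃ y ∈ Set.Icc (lo Q) (hi m Q), x ≠ y ∧ bad x ∧ bad y) ∧ InBox ((m - 2) / 3) Q)
    {u w : Pt D} (hu : u ∈ A) (hw : w ∈ A) (hu' : coarse m u ∈ A')
    (h : ReflTransGen (fun p q => Lat p q ∧ p ∈ A' ∧ q ∈ A') (coarse m u) (coarse m w)) :
    ReflTransGen (fun p q => Lat p q ∧ p ∈ A ∧ q ∈ A) u w := by
  have block : ∀ Q ∈ A', ∀ x ∈ A, ∀ y ∈ A, x ∈ Set.Icc (lo Q) (hi m Q) →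
      y ∈ Set.Icc (lo Q) (hi m Q) → ReflTransGen (fun p q => Lat p q ∧ p ∈ A ∧ q ∈ A) x y := by
    intro Q hQ x hx y hy hxQ hyQ
    obtain ⟨z, hz⟩ := exists_z hD bad _ _ (hA' Q hQ).1
    refine minus_one_conn hD (lo Q) (hi m Q) z (fun i => ?_) A (fun p hp hpz => ?_) x y hxQ ?_ hyQ ?_
    · have := block_side hm (hA' Q hQ).2 i
      omega
    · rw [hA]
      exact ⟨(hz p hp).1 hpz, (of_mem_block hm (hA' Q hQ).2 hp).1⟩
    · exact (hz x hxQ).2 ((hA x).1 hx).1
    · exact (hz y hyQ).2 ((hA y).1 hy).1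
  suffices H : ∀ Q, ReflTransGen (fun p q => Lat p q ∧ p ∈ A' ∧ q ∈ A') (coarse m u) Q →
      ∀ w ∈ A, coarse m w = Q → ReflTransGen (fun p q => Lat p q ∧ p ∈ A ∧ q ∈ A) u w from
    H _ h w hw rfl
  intro Q hQ
  induction hQ with
  | refl =>
    intro w hw hwQ
    refine block (coarse m u) hu' u hu w hw (mem_block hm ((hA u).1 hu).2) ?_
    rw [← hwQ]
    exact mem_block hm ((hA w).1 hw).2
  | @tail Q Q' _ hstep ih =>
    intro w hw hwQ
    obtain ⟨hlat, hQA, hQA'⟩ := hstep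
    obtain ⟨z, hz⟩ := exists_z hD bad _ _ (hA' Q hQA).1
    obtain ⟨z', hz'⟩ := exists_z hD bad _ _ (hA' Q' hQA').1
    -- adjacent good sites
    obtain ⟨p, p', hp, hp', hpp, hpA, hpA'⟩ : ∃ p p', p ∈ Set.Icc (lo Q) (hi m Q) ∧
        p' ∈ Set.Icc (lo Q') (hi m Q') ∧ Lat p p' ∧ p ∈ A ∧ p' ∈ A := by
      obtain ⟨i, hi | hi⟩ := hlat
      · obtain ⟨p, h1, h2, h3, h4⟩ := exists_adj hD hm (hA' Q hQA).2 (hA' Q' hQA').2 i hi z z'
        refine ⟨p, _, h1, h2, ⟨i, Or.inl rfl⟩, ?_, ?_⟩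
        · exact (hA _).2 ⟨(hz _ h1).1 h3, (of_mem_block hm (hA' Q hQA).2 h1).1⟩
        · exact (hA _).2 ⟨(hz' _ h2).1 h4, (of_mem_block hm (hA' Q' hQA').2 h2).1⟩
      · obtain ⟨p, h1, h2, h3, h4⟩ := exists_adj hD hm (hA' Q' hQA').2 (hA' Q hQA).2 i hi z' z
        refine ⟨_, p, h2, h1, ⟨i, Or.inr rfl⟩, ?_, ?_⟩
        · exact (hA _).2 ⟨(hz _ h2).1 h4, (of_mem_block hm (hA' Q hQA).2 h2).1⟩
        · exact (hA _).2 ⟨(hz' _ h1).1 h3, (of_mem_block hm (hA' Q' hQA').2 h1).1⟩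
    have h1 := ih p hpA (of_mem_block hm (hA' Q hQA).2 hp).2
    have h2 : ReflTransGen (fun p q => Lat p q ∧ p ∈ A ∧ q ∈ A) p' w := by
      refine block Q' hQA' p' hpA' w hw hp' ?_
      rw [← hwQ]
      exact mem_block hm ((hA w).1 hw).2
    exact (h1.tail ⟨hpp, hpA, hpA'⟩).trans h2

theorem union_bound {Ω ι : Type*} [Fintype Ω] (μ : Ω → ℝ) (hμ : ∀ ω, 0 ≤ μ ω) (Φ : Finset ι)
    (E : ι → Ω → Prop) (B : Ω → Prop) [DecidablePred B] [∀ φ, DecidablePred (E φ)]
    (h : ∀ ω, B ω → ∃ φ ∈ Φ, E φ ω) :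
    ∑ ω with B ω, μ ω ≤ ∑ φ ∈ Φ, ∑ ω with E φ ω, μ ω := by
  simp only [Finset.sum_filter]
  rw [Finset.sum_comm]
  refine Finset.sum_le_sum fun ω _ => ?_
  by_cases hB : B ω
  · rw [if_pos hB]
    obtain ⟨φ, hφ, hE⟩ := h ω hB
    have h1 : (if E φ ω then μ ω else 0) ≤ ∑ ψ ∈ Φ, if E ψ ω then μ ω else 0 :=
      Finset.single_le_sum (f := fun ψ => if E ψ ω then μ ω else 0)
        (fun ψ _ => by split_ifs <;> simp [hμ]) hφ
    rwa [if_pos hE] at h1
  · rw [if_neg hB]
    exact Finset.sum_nonneg fun ψ _ => by split_ifs <;> simp [hμ]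

theorem or3_bound {Ω : Type*} [Fintype Ω] (μ : Ω → ℝ) (hμ : ∀ ω, 0 ≤ μ ω)
    (B E F G : Ω → Prop) [DecidablePred B] [DecidablePred E] [DecidablePred F] [DecidablePred G]
    (h : ∀ ω, B ω → E ω ∨ F ω ∨ G ω) :
    ∑ ω with B ω, μ ω ≤ (∑ ω with E ω, μ ω) + (∑ ω with F ω, μ ω) + ∑ ω with G ω, μ ω := by
  simp only [Finset.sum_filter]
  rw [← Finset.sum_add_distrib, ← Finset.sum_add_distrib]
  refine Finset.sum_le_sum fun ω _ => ?_
  have h0 := hμ ω
  by_cases hB : B ω
  · rw [if_pos hB]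
    rcases h ω hB with h1 | h1 | h1
    · rw [if_pos h1]
      have h2 : 0 ≤ (if F ω then μ ω else 0) := by split_ifs <;> simp [h0]
      have h3 : 0 ≤ (if G ω then μ ω else 0) := by split_ifs <;> simp [h0]
      linarith
    · rw [if_pos h1]
      have h2 : 0 ≤ (if E ω then μ ω else 0) := by split_ifs <;> simp [h0]
      have h3 : 0 ≤ (if G ω then μ ω else 0) := by split_ifs <;> simp [h0]
      linarith
    · rw [if_pos h1]
      have h2 : 0 ≤ (if E ω then μ ω else 0) := by split_ifs <;> simp [h0]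
      have h3 : 0 ≤ (if F ω then μ ω else 0) := by split_ifs <;> simp [h0]
      linarith
  · rw [if_neg hB]
    have h2 : 0 ≤ (if E ω then μ ω else 0) := by split_ifs <;> simp [h0]
    have h3 : 0 ≤ (if F ω then μ ω else 0) := by split_ifs <;> simp [h0]
    have h4 : 0 ≤ (if G ω then μ ω else 0) := by split_ifs <;> simp [h0]
    linarith

/-- A block is bad if it contains two bad sites. -/
def BadBlock {D : ℕ} (m : ℕ) (bad : Pt D → Prop) (Q : Pt D) : Prop :=
  ∃ x ∈ Set.Icc (lo Q) (hi m Q), ∃ y ∈ Set.Icc (lo Q) (hi m Q), x ≠ y ∧ bad x ∧ bad y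

theorem card_block {D : ℕ} {m : ℕ} (hm : 2 ≤ m) {Q : Pt D} (hQ : InBox ((m - 2) / 3) Q) :
    (Finset.Icc (lo Q) (hi m Q)).offDiag.card ≤ 25 ^ D := by
  have h1 : (Finset.Icc (lo Q) (hi m Q)).card ≤ 5 ^ D := by
    rw [Pi.card_Icc]
    calc ∏ i, (Finset.Icc (lo Q i) (hi m Q i)).card ≤ ∏ _i : Fin D, 5 := by
          refine Finset.prod_le_prod' fun i _ => ?_
          rw [Int.card_Icc]
          have := block_side hm hQ i
          omega
      _ = 5 ^ D := by simp
  rw [Finset.offDiag_card]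
  calc _ ≤ (Finset.Icc (lo Q) (hi m Q)).card * (Finset.Icc (lo Q) (hi m Q)).card :=
        Nat.sub_le _ _
    _ ≤ 5 ^ D * 5 ^ D := Nat.mul_le_mul h1 h1
    _ = 25 ^ D := by rw [← mul_pow]; norm_num

open Classical in
theorem coarse_bound {D : ℕ} {m : ℕ} (hm : 2 ≤ m) {Ω : Type*} [Fintype Ω]
    (μ : Ω → ℝ) (hμ : ∀ ω, 0 ≤ μ ω) (ε : ℝ) (bad : Ω → Pt D → Prop)
    (hbad : ∀ S : Finset (Pt D), (∀ x ∈ S, InBox m x) →
      ∑ ω with (∀ x ∈ S, bad ω x), μ ω ≤ ε ^ S.card)
    (S : Finset (Pt D)) (hS : ∀ Q ∈ S, InBox ((m - 2) / 3) Q) :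
    ∑ ω with (∀ Q ∈ S, BadBlock m (bad ω) Q), μ ω ≤ (25 ^ D * ε ^ 2) ^ S.card := by
  set P : Pt D → Finset (Pt D × Pt D) := fun Q => (Finset.Icc (lo Q) (hi m Q)).offDiag with hP
  let T : (∀ Q ∈ S, Pt D × Pt D) → Finset (Pt D) := fun φ =>
    S.attach.biUnion (fun Q => {(φ Q.1 Q.2).1, (φ Q.1 Q.2).2})
  have hmem : ∀ φ ∈ S.pi P, ∀ Q, ∀ hQ : Q ∈ S, (φ Q hQ).1 ∈ Set.Icc (lo Q) (hi m Q) ∧
      (φ Q hQ).2 ∈ Set.Icc (lo Q) (hi m Q) ∧ (φ Q hQ).1 ≠ (φ Q hQ).2 := by
    intro φ hφ Q hQ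
    have h1 := Finset.mem_pi.1 hφ Q hQ
    simp only [hP, Finset.mem_offDiag, Finset.mem_Icc] at h1
    exact ⟨⟨h1.1.1, h1.1.2⟩, ⟨h1.2.1.1, h1.2.1.2⟩, h1.2.2⟩
  have h1 : ∑ ω with (∀ Q ∈ S, BadBlock m (bad ω) Q), μ ω ≤
      ∑ φ ∈ S.pi P, ∑ ω with (∀ x ∈ T φ, bad ω x), μ ω := by
    refine union_bound μ hμ (S.pi P) (fun φ ω => ∀ x ∈ T φ, bad ω x)
      (fun ω => ∀ Q ∈ S, BadBlock m (bad ω) Q) fun ω hω => ?_
    choose x hx y hy hxy hbx hby using hω
    refine ⟨fun Q hQ => (x Q hQ, y Q hQ), ?_, ?_⟩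
    · rw [Finset.mem_pi]
      intro Q hQ
      simp only [hP, Finset.mem_offDiag, Finset.mem_Icc]
      exact ⟨⟨(hx Q hQ).1, (hx Q hQ).2⟩, ⟨(hy Q hQ).1, (hy Q hQ).2⟩, hxy Q hQ⟩
    · intro z hz
      simp only [T, Finset.mem_biUnion, Finset.mem_attach, true_and, Subtype.exists,
        Finset.mem_insert, Finset.mem_singleton] at hz
      obtain ⟨Q, hQ, rfl | rfl⟩ := hz
      · exact hbx Q hQ
      · exact hby Q hQ
  have h2 : ∀ φ ∈ S.pi P, ∑ ω with (∀ x ∈ T φ, bad ω x), μ ω ≤ (ε ^ 2) ^ S.card := by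
    intro φ hφ
    have hcard : (T φ).card = 2 * S.card := by
      rw [Finset.card_biUnion]
      · rw [Finset.sum_congr rfl (fun Q _ => Finset.card_pair (hmem φ hφ Q.1 Q.2).2.2)]
        rw [Finset.sum_const, Finset.card_attach, smul_eq_mul, mul_comm]
      · intro Q _ Q' _ hne
        change Disjoint ({(φ Q.1 Q.2).1, (φ Q.1 Q.2).2} : Finset (Pt D))
          {(φ Q'.1 Q'.2).1, (φ Q'.1 Q'.2).2}
        rw [Finset.disjoint_left]
        intro z hz hz'
        apply hne
        have e1 : coarse m z = Q.1 := by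
          rw [Finset.mem_insert, Finset.mem_singleton] at hz
          rcases hz with rfl | rfl
          · exact (of_mem_block hm (hS Q.1 Q.2) (hmem φ hφ Q.1 Q.2).1).2
          · exact (of_mem_block hm (hS Q.1 Q.2) (hmem φ hφ Q.1 Q.2).2.1).2
        have e2 : coarse m z = Q'.1 := by
          rw [Finset.mem_insert, Finset.mem_singleton] at hz'
          rcases hz' with rfl | rfl
          · exact (of_mem_block hm (hS Q'.1 Q'.2) (hmem φ hφ Q'.1 Q'.2).1).2
          · exact (of_mem_block hm (hS Q'.1 Q'.2) (hmem φ hφ Q'.1 Q'.2).2.1).2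
        exact Subtype.ext (e1.symm.trans e2)
    rw [← pow_mul, ← hcard]
    refine hbad _ fun z hz => ?_
    simp only [T, Finset.mem_biUnion, Finset.mem_attach, true_and, Subtype.exists,
      Finset.mem_insert, Finset.mem_singleton] at hz
    obtain ⟨Q, hQ, rfl | rfl⟩ := hz
    · exact (of_mem_block hm (hS Q hQ) (hmem φ hφ Q hQ).1).1
    · exact (of_mem_block hm (hS Q hQ) (hmem φ hφ Q hQ).2.1).1
  refine h1.trans ((Finset.sum_le_card_nsmul _ _ _ h2).trans ?_)
  rw [nsmul_eq_mul, Finset.card_pi, mul_pow]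
  refine mul_le_mul_of_nonneg_right ?_ (by positivity)
  have h3 : ∏ Q ∈ S, (P Q).card ≤ ∏ _Q ∈ S, 25 ^ D :=
    Finset.prod_le_prod' fun Q hQ => card_block hm (hS Q hQ)
  rw [Finset.prod_const] at h3
  exact_mod_cast h3

open Classical in
theorem fail_le {D : ℕ} (hD : 2 ≤ D) {Ω : Type*} [Fintype Ω] (μ : Ω → ℝ) (hμ : ∀ ω, 0 ≤ μ ω) :
    ∀ (m : ℕ) (ε : ℝ), 0 ≤ ε → 25 ^ D * ε ≤ 1 / 2 → ∀ (bad : Ω → Pt D → Prop)
    (_ : ∀ S : Finset (Pt D), (∀ x ∈ S, InBox m x) →
      ∑ ω with (∀ x ∈ S, bad ω x), μ ω ≤ ε ^ S.card)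
    (u w : Pt D) (_ : InBox m u) (_ : InBox m w),
    ∑ ω with ¬ (ReflTransGen (fun p q => Lat p q ∧ p ∈ {x | ¬ bad ω x ∧ InBox m x} ∧
      q ∈ {x | ¬ bad ω x ∧ InBox m x}) u w ∧ ¬ bad ω u), μ ω ≤ (2 ^ D + 4) * ε := by
  intro m
  induction m using Nat.strong_induction_on with
  | _ m ih =>
    intro ε hε hε2 bad hbad u w hu hw
    have hone : ∀ x, InBox m x → ∑ ω with bad ω x, μ ω ≤ ε := by
      intro x hx
      have h1 := hbad {x} (fun y hy => by rw [Finset.mem_singleton] at hy; rw [hy]; exact hx)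
      simpa using h1
    by_cases hm : m < 2
    · have h1 := union_bound μ hμ (Finset.Icc (0 : Pt D) (fun _ => (m : ℤ)))
        (fun x ω => bad ω x) (fun ω => ¬ (ReflTransGen (fun p q => Lat p q ∧
          p ∈ {x | ¬ bad ω x ∧ InBox m x} ∧ q ∈ {x | ¬ bad ω x ∧ InBox m x}) u w ∧ ¬ bad ω u))
        (fun ω hω => by
          by_contra hno
          push Not at hno
          apply hω
          have hbox : ∀ x, InBox m x ↔ x ∈ Set.Icc (0 : Pt D) (fun _ => (m : ℤ)) := by
            intro x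
            rw [mem_Icc']
            rfl
          refine ⟨conn_of_box (0 : Pt D) (fun _ => (m : ℤ)) ?_ ((hbox u).1 hu) ((hbox w).1 hw), ?_⟩
          · intro x hx
            exact ⟨hno x (Finset.mem_Icc.2 hx), (hbox x).2 hx⟩
          · exact hno u (Finset.mem_Icc.2 ((hbox u).1 hu)))
      refine h1.trans ?_
      have h2 : ∀ x ∈ Finset.Icc (0 : Pt D) (fun _ => (m : ℤ)), ∑ ω with bad ω x, μ ω ≤ ε := by
        intro x hx
        refine hone x fun i => ?_
        have := Finset.mem_Icc.1 hx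
        exact ⟨this.1 i, this.2 i⟩
      refine (Finset.sum_le_card_nsmul _ _ _ h2).trans ?_
      rw [nsmul_eq_mul]
      refine mul_le_mul_of_nonneg_right ?_ hε
      have h3 : (Finset.Icc (0 : Pt D) (fun _ => (m : ℤ))).card ≤ 2 ^ D := by
        rw [Pi.card_Icc]
        calc _ ≤ ∏ _i : Fin D, 2 := by
              refine Finset.prod_le_prod' fun i _ => ?_
              rw [Int.card_Icc]
              simp only [Pi.zero_apply]
              omega
          _ = 2 ^ D := by simp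
      have h4 : ((Finset.Icc (0 : Pt D) (fun _ => (m : ℤ))).card : ℝ) ≤ 2 ^ D := by
        exact_mod_cast h3
      linarith
    · have hm2 : 2 ≤ m := by omega
      have hD25 : (0 : ℝ) < 25 ^ D := by positivity
      have h1 := ih ((m - 2) / 3) (by omega) (25 ^ D * ε ^ 2) (by positivity)
        (by nlinarith [mul_nonneg hD25.le hε]) (fun ω => BadBlock m (bad ω))
        (fun S hS => coarse_bound hm2 μ hμ ε bad hbad S hS)
        (coarse m u) (coarse m w) (coarse_inBox hu) (coarse_inBox hw)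
      have h2 := or3_bound μ hμ (fun ω => ¬ (ReflTransGen (fun p q => Lat p q ∧
          p ∈ {x | ¬ bad ω x ∧ InBox m x} ∧ q ∈ {x | ¬ bad ω x ∧ InBox m x}) u w ∧ ¬ bad ω u))
        (fun ω => bad ω u) (fun ω => bad ω w)
        (fun ω => ¬ (ReflTransGen (fun p q => Lat p q ∧
          p ∈ {x | ¬ BadBlock m (bad ω) x ∧ InBox ((m - 2) / 3) x} ∧
          q ∈ {x | ¬ BadBlock m (bad ω) x ∧ InBox ((m - 2) / 3) x}) (coarse m u) (coarse m w) ∧
          ¬ BadBlock m (bad ω) (coarse m u)))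
        (fun ω hω => by
          by_contra hno
          push Not at hno
          obtain ⟨hu', hw', hc, hcu⟩ := hno
          apply hω
          refine ⟨lift_conn hD hm2 (bad ω) {x | ¬ bad ω x ∧ InBox m x} (fun x => Iff.rfl)
            {x | ¬ BadBlock m (bad ω) x ∧ InBox ((m - 2) / 3) x} (fun Q hQ => hQ)
            ⟨hu', hu⟩ ⟨hw', hw⟩ ⟨hcu, coarse_inBox hu⟩ hc, hu'⟩)
      have h3 := hone u hu
      have h4 := hone w hw
      have h5 : (2 ^ D + 4) * (25 ^ D * ε ^ 2) ≤ (2 ^ D + 4) * (1 / 2 * ε) := by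
        refine mul_le_mul_of_nonneg_left ?_ (by positivity)
        nlinarith
      have h6 : (0 : ℝ) ≤ 2 ^ D * ε := by positivity
      nlinarith

end Grid

open Classical in
/-- Connectivity of dependent site percolation in the box `[0, m]^D`, explicit form. -/
theorem grid_connect_explicit (D : ℕ) (hD : 2 ≤ D) : ∀ (Ω : Type) [Fintype Ω]
    (μ : Ω → ℝ) (_ : ∀ ω, 0 ≤ μ ω) (_ : ∑ ω, μ ω = 1)
    (m : ℕ) (bad : Ω → Pt D → Prop)
    (_ : ∀ S : Finset (Pt D), (∀ x ∈ S, ∀ i, 0 ≤ x i ∧ x i ≤ m) →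
      ∑ ω with (∀ x ∈ S, bad ω x), μ ω ≤ (1 / (2 * 25 ^ D * (2 ^ D + 4))) ^ S.card)
    (u w : Pt D) (_ : ∀ i, 0 ≤ u i ∧ u i ≤ m) (_ : ∀ i, 0 ≤ w i ∧ w i ≤ m),
    1 / 2 ≤ ∑ ω with (Relation.ReflTransGen (fun x y => Lat x y ∧
      (¬ bad ω x ∧ ∀ i, 0 ≤ x i ∧ x i ≤ m) ∧ (¬ bad ω y ∧ ∀ i, 0 ≤ y i ∧ y i ≤ m)) u w ∧
      ¬ bad ω u), μ ω := by
  intro Ω _ μ hμ hμ1 m bad hbad u w hu hw
  have h25 : (0 : ℝ) < 25 ^ D := by positivity
  have h2 : (0 : ℝ) < 2 ^ D := by positivity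
  have h1 := Grid.fail_le hD μ hμ m (1 / (2 * 25 ^ D * (2 ^ D + 4))) (by positivity)
    (by
      have h25' : (25 : ℝ) ^ D ≠ 0 := h25.ne'
      have h24 : (2 : ℝ) ^ D + 4 ≠ 0 := by positivity
      have e : (25 : ℝ) ^ D * (1 / (2 * 25 ^ D * (2 ^ D + 4))) = 1 / 2 * (1 / (2 ^ D + 4)) := by
        field_simp
      rw [e]
      have : 1 / ((2 : ℝ) ^ D + 4) ≤ 1 := by
        rw [div_le_one (by positivity)]
        linarith
      linarith) bad hbad u w hu hw
  have h3 : (2 ^ D + 4) * (1 / (2 * (25 : ℝ) ^ D * (2 ^ D + 4))) ≤ 1 / 2 := by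
    have h25' : (25 : ℝ) ^ D ≠ 0 := h25.ne'
    have h24 : (2 : ℝ) ^ D + 4 ≠ 0 := by positivity
    have e : (2 ^ D + 4) * (1 / (2 * (25 : ℝ) ^ D * (2 ^ D + 4))) = 1 / 2 * (1 / 25 ^ D) := by
      field_simp
    rw [e]
    have : 1 / (25 : ℝ) ^ D ≤ 1 := by
      rw [div_le_one (by positivity)]
      exact one_le_pow₀ (by norm_num)
    linarith
  have h4 := Finset.sum_filter_add_sum_filter_not (Finset.univ : Finset Ω)
    (fun ω => Relation.ReflTransGen (fun x y => Lat x y ∧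
      (¬ bad ω x ∧ ∀ i, 0 ≤ x i ∧ x i ≤ m) ∧ (¬ bad ω y ∧ ∀ i, 0 ≤ y i ∧ y i ≤ m)) u w ∧
      ¬ bad ω u) μ
  rw [hμ1] at h4
  have h5 : ∑ ω with ¬ (Relation.ReflTransGen (fun x y => Lat x y ∧
      (¬ bad ω x ∧ ∀ i, 0 ≤ x i ∧ x i ≤ m) ∧ (¬ bad ω y ∧ ∀ i, 0 ≤ y i ∧ y i ≤ m)) u w ∧
      ¬ bad ω u), μ ω ≤ 1 / 2 := h1.trans h3
  linarith

open Classical in
/-- Connectivity of dependent site percolation in the box `[0, m]^D`. -/
theorem grid_connect (D : ℕ) (hD : 2 ≤ D) : ∃ ε₀ : ℝ, 0 < ε₀ ∧ ∀ (Ω : Type) [Fintype Ω]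
    (μ : Ω → ℝ) (_ : ∀ ω, 0 ≤ μ ω) (_ : ∑ ω, μ ω = 1)
    (m : ℕ) (bad : Ω → Pt D → Prop)
    (_ : ∀ S : Finset (Pt D), (∀ x ∈ S, ∀ i, 0 ≤ x i ∧ x i ≤ m) →
      ∑ ω with (∀ x ∈ S, bad ω x), μ ω ≤ ε₀ ^ S.card)
    (u w : Pt D) (_ : ∀ i, 0 ≤ u i ∧ u i ≤ m) (_ : ∀ i, 0 ≤ w i ∧ w i ≤ m),
    1 / 2 ≤ ∑ ω with (Relation.ReflTransGen (fun x y => Lat x y ∧
      (¬ bad ω x ∧ ∀ i, 0 ≤ x i ∧ x i ≤ m) ∧ (¬ bad ω y ∧ ∀ i, 0 ≤ y i ∧ y i ≤ m)) u w ∧
      ¬ bad ω u), μ ω :=
  ⟨1 / (2 * 25 ^ D * (2 ^ D + 4)), by positivity, grid_connect_explicit D hD⟩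

end Pool.Agent.Lib.MP_31386d_pr
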