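import Pool.Agent.Lib.MP_31386d_pr.Defs
import Pool.Agent.Lib.MP_31386d_pr.Grid

/-!
# Positive connection probability implies connection probability close to one
-/

set_option autoImplicit false

namespace Pool.Agent.Lib.MP_31386d_pr

namespace Dich

open Finset

variable {d : ℕ}

/-! ### Indicator of a connection to the outside -/

open Classical in
/-- Indicator of `Out`. -/
noncomputable def oi (V : Finset (Pt d)) (x : Pt d) (ω : Finset (Ed d)) : ℝ :=
  if Out V ω x then 1 else 0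

theorem oi_nonneg (V : Finset (Pt d)) (x : Pt d) (ω : Finset (Ed d)) : 0 ≤ oi V x ω := by
  unfold oi
  split_ifs <;> norm_num

theorem oi_le_one (V : Finset (Pt d)) (x : Pt d) (ω : Finset (Ed d)) : oi V x ω ≤ 1 := by
  unfold oi
  split_ifs <;> norm_num

theorem oi_mono {V V' : Finset (Pt d)} (hV : V' ⊆ V) (x : Pt d) {s t : Finset (Ed d)}
    (h : s ⊆ t) : oi V x s ≤ oi V' x t := by
  unfold oi
  by_cases h1 : Out V s x
  · rw [if_pos h1, if_pos (h1.mono h hV)]
  · rw [if_neg h1]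
    split_ifs <;> norm_num

theorem oi_inter (V : Finset (Pt d)) (x : Pt d) (ω : Finset (Ed d)) :
    oi V x (ω ∩ EB V) = oi V x ω := by
  unfold oi
  have : Out V (ω ∩ EB V) x ↔ Out V ω x :=
    ⟨fun h => h.mono inter_subset_left (subset_refl _), fun h => h.restrict⟩
  by_cases h : Out V ω x
  · rw [if_pos h, if_pos (this.2 h)]
  · rw [if_neg h, if_neg (fun h' => h (this.1 h'))]

theorem oi_sq (V : Finset (Pt d)) (x : Pt d) (ω : Finset (Ed d)) : oi V x ω * oi V x ω = oi V x ω := by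
  unfold oi
  split_ifs <;> norm_num

variable {u q : ℝ}

theorem Pb_out_eq (V : Finset (Pt d)) (E : Finset (Ed d)) (x : Pt d) :
    Pb u q V E (fun ω => Out V ω x) = Ex u q V E (oi V x) := rfl

theorem thw_eq (r : ℕ) : thw d u q r = Ex u q (cube d r) (EB (cube d r)) (oi (cube d r) 0) := rfl

/-- The wired connection probability is decreasing in the region. -/
theorem Ex_oi_anti (hu : 0 < u) (hq : 1 ≤ q) {V V' : Finset (Pt d)} (hV : V' ⊆ V) (x : Pt d) :
    Ex u q V (EB V) (oi V x) ≤ Ex u q V' (EB V') (oi V' x) := by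
  classical
  have h1 : Ex u q V (EB V) (oi V x) ≤ Ex u q V' (EB V) (oi V x) :=
    Ex_dom_V hu hq hV (oi_nonneg V x) (fun s t h => oi_mono (subset_refl _) x h)
  have h2 : Ex u q V' (EB V) (oi V x) ≤ Ex u q V' (EB V) (oi V' x) :=
    Ex_mono hu hq (fun ω _ => oi_mono hV x (subset_refl _))
  have h3 : EB V = EB V' ∪ (EB V \ EB V') := (union_sdiff_of_subset (EB_mono hV)).symm
  have h4 : Ex u q V' (EB V) (oi V' x) = Ex u q V' (EB V') (oi V' x) := by
    rw [h3]
    refine Ex_irrel hu hq disjoint_sdiff ?_ _ ?_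
    · intro e he
      rw [mem_sdiff, mem_EB, mem_EB] at he
      tauto
    · intro s t hs ht
      rw [← oi_inter V' x (s ∪ t)]
      congr 1
      ext e
      simp only [mem_inter, mem_union]
      constructor
      · rintro ⟨h5 | h5, h6⟩
        · exact h5
        · exact absurd h6 (mem_sdiff.1 (ht h5)).2
      · exact fun h5 => ⟨Or.inl h5, hs h5⟩
  linarith

theorem conn_shE (t : Pt d) (ω : Finset (Ed d)) {x y : Pt d} (h : Conn ω x y) :
    Conn (shE t ω) (x + t) (y + t) := by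
  induction h with
  | refl => exact Conn.refl _ _
  | tail _ hbc ih =>
    refine ih.trans (Adj.conn ?_)
    obtain ⟨e, he, h⟩ := hbc
    refine ⟨(e.1 + t, e.2), ?_, ?_⟩
    · rw [mem_shE]
      simpa using he
    · have h1 : tgt (e.1 + t, e.2) = tgt e + t := by
        simp only [tgt]
        abel
      rw [h1]
      rcases h with h | h
      · left; rw [h.1, h.2]; exact ⟨rfl, rfl⟩
      · right; rw [h.1, h.2]; exact ⟨rfl, rfl⟩

theorem shE_neg_shE (t : Pt d) (ω : Finset (Ed d)) : shE (-t) (shE t ω) = ω := by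
  ext e
  rw [mem_shE, mem_shE]
  simp

theorem out_shE (t : Pt d) (V : Finset (Pt d)) (ω : Finset (Ed d)) (x : Pt d) :
    Out (shV t V) (shE t ω) (x + t) ↔ Out V ω x := by
  constructor
  · rintro ⟨z, hz, h⟩
    refine ⟨z - t, ?_, ?_⟩
    · rw [mem_shV] at hz
      exact hz
    · have := conn_shE (-t) _ h
      rw [shE_neg_shE] at this
      simpa [sub_eq_add_neg] using this
  · rintro ⟨z, hz, h⟩
    refine ⟨z + t, ?_, conn_shE t ω h⟩
    rw [mem_shV]
    simpa using hz

theorem Ex_oi_shV (t : Pt d) (V : Finset (Pt d)) (x : Pt d) :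
    Ex u q (shV t V) (EB (shV t V)) (oi (shV t V) (x + t)) = Ex u q V (EB V) (oi V x) := by
  rw [EB_shV, Ex_shV]
  apply Ex_congr
  intro ω _
  unfold oi
  by_cases h : Out V ω x
  · rw [if_pos h, if_pos ((out_shE t V ω x).2 h)]
  · rw [if_neg h, if_neg (fun h' => h ((out_shE t V ω x).1 h'))]

theorem Ex_oi_cube (t : Pt d) (r : ℕ) :
    Ex u q (shV t (cube d r)) (EB (shV t (cube d r))) (oi (shV t (cube d r)) t) = thw d u q r := by
  have := Ex_oi_shV (u := u) (q := q) t (cube d r) 0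
  rw [zero_add] at this
  rw [this, thw_eq]

/-- Comparison of the connection probability in a region with the one in a cube. -/
theorem out_le (hu : 0 < u) (hq : 1 ≤ q) {V : Finset (Pt d)} {x : Pt d} {r : ℕ}
    (h : shV x (cube d r) ⊆ V) : Pb u q V (EB V) (fun ω => Out V ω x) ≤ thw d u q r := by
  rw [Pb_out_eq, ← Ex_oi_cube x r]
  exact Ex_oi_anti hu hq h x

theorem le_out (hu : 0 < u) (hq : 1 ≤ q) {V : Finset (Pt d)} {x : Pt d} {r : ℕ}
    (h : V ⊆ shV x (cube d r)) : thw d u q r ≤ Pb u q V (EB V) (fun ω => Out V ω x) := by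
  rw [Pb_out_eq, ← Ex_oi_cube x r]
  exact Ex_oi_anti hu hq h x

theorem cube_mono {r r' : ℕ} (h : r ≤ r') : cube d r ⊆ cube d r' := by
  intro x hx
  rw [mem_cube] at *
  intro i
  have := hx i
  constructor <;> omega

theorem thw_anti (hu : 0 < u) (hq : 1 ≤ q) : Antitone (fun r => thw d u q r) := by
  intro r r' h
  exact Ex_oi_anti hu hq (cube_mono h) 0

theorem thw_nonneg (hu : 0 < u) (hq : 1 ≤ q) (r : ℕ) : 0 ≤ thw d u q r := Pb_nonneg hu hq _

theorem thw_le_one (hu : 0 < u) (hq : 1 ≤ q) (r : ℕ) : thw d u q r ≤ 1 := Pb_le_one hu hq _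

/-- Approximate independence of two distant connections to the outside. -/
theorem Ex_oi_pair (hu : 0 < u) (hq : 1 ≤ q) {V : Finset (Pt d)} {x y : Pt d} {r : ℕ}
    (hx : shV x (cube d r) ⊆ V) (hy : shV y (cube d r) ⊆ V) (i : Fin d)
    (hi : (2 * r + 2 : ℤ) ≤ |x i - y i|) :
    Ex u q V (EB V) (fun ω => oi V x ω * oi V y ω) ≤ thw d u q r ^ 2 := by
  classical
  set A := shV x (cube d r) with hA
  set B := shV y (cube d r) with hB
  have hmemA : ∀ z, z ∈ A → |z i - x i| ≤ r := by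
    intro z hz
    rw [hA, mem_shV, mem_cube] at hz
    have := hz i
    simp only [Pi.sub_apply] at this
    rw [abs_le]
    omega
  have hmemB : ∀ z, z ∈ B → |z i - y i| ≤ r := by
    intro z hz
    rw [hB, mem_shV, mem_cube] at hz
    have := hz i
    simp only [Pi.sub_apply] at this
    rw [abs_le]
    omega
  have hfar : ∀ z w, z ∈ A → w ∈ B → 2 ≤ |z i - w i| := by
    intro z w hz hw
    have h1 := hmemA z hz
    have h2 := hmemB w hw
    rw [le_abs] at hi ⊢
    rw [abs_le] at h1 h2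
    omega
  have hAB : Disjoint A B := by
    rw [Finset.disjoint_left]
    intro z hz hw
    have := hfar z z hz hw
    simp at this
  have htgt : ∀ e : Ed d, |e.1 i - tgt e i| ≤ 1 := by
    intro e
    simp only [tgt, Pi.add_apply]
    by_cases h : e.2 = i
    · subst h; simp
    · rw [Pi.single_eq_of_ne' h]; simp
  have hEA : ∀ e ∈ EB A, e.1 ∉ B ∧ tgt e ∉ B := by
    intro e he
    rw [mem_EB] at he
    have h1 := htgt e
    constructor
    · intro h2
      rcases he with h | h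
      · have := hfar _ _ h h2; simp at this
      · have := hfar _ _ h h2; rw [abs_sub_comm] at this; omega
    · intro h2
      rcases he with h | h
      · have := hfar _ _ h h2; omega
      · have := hfar _ _ h h2; simp at this
  have hEB : ∀ e ∈ EB B, e.1 ∉ A ∧ tgt e ∉ A := by
    intro e he
    rw [mem_EB] at he
    have h1 := htgt e
    constructor
    · intro h2
      rcases he with h | h
      · have := hfar _ _ h2 h; simp at this
      · have := hfar _ _ h2 h; omega
    · intro h2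
      rcases he with h | h
      · have := hfar _ _ h2 h; rw [abs_sub_comm] at this; omega
      · have := hfar _ _ h2 h; simp at this
  have hdE : Disjoint (EB A) (EB B) := by
    rw [Finset.disjoint_left]
    intro e he he'
    have h1 := hEA e he
    rw [mem_EB] at he'
    tauto
  have hsub : A ∪ B ⊆ V := union_subset hx hy
  have h1 : Ex u q V (EB V) (fun ω => oi V x ω * oi V y ω) ≤
      Ex u q (A ∪ B) (EB V) (fun ω => oi V x ω * oi V y ω) :=
    Ex_dom_V hu hq hsub (fun ω => mul_nonneg (oi_nonneg _ _ _) (oi_nonneg _ _ _))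
      (fun s t h => mul_le_mul (oi_mono (subset_refl _) x h) (oi_mono (subset_refl _) y h)
        (oi_nonneg _ _ _) (oi_nonneg _ _ _))
  have h2 : Ex u q (A ∪ B) (EB V) (fun ω => oi V x ω * oi V y ω) ≤
      Ex u q (A ∪ B) (EB V) (fun ω => oi A x ω * oi B y ω) :=
    Ex_mono hu hq (fun ω _ => mul_le_mul (oi_mono hx x (subset_refl _))
      (oi_mono hy y (subset_refl _)) (oi_nonneg _ _ _) (oi_nonneg _ _ _))
  have hEBs : EB A ∪ EB B ⊆ EB V := union_subset (EB_mono hx) (EB_mono hy)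
  have h3 : EB V = (EB A ∪ EB B) ∪ (EB V \ (EB A ∪ EB B)) := (union_sdiff_of_subset hEBs).symm
  have h4 : Ex u q (A ∪ B) (EB V) (fun ω => oi A x ω * oi B y ω) =
      Ex u q (A ∪ B) (EB A ∪ EB B) (fun ω => oi A x ω * oi B y ω) := by
    rw [h3]
    refine Ex_irrel hu hq disjoint_sdiff ?_ _ ?_
    · intro e he
      rw [mem_sdiff, mem_union, mem_EB, mem_EB, mem_EB] at he
      rw [mem_union, mem_union]
      tauto
    · intro s t _ ht
      have e1 : (s ∪ t) ∩ EB A = s ∩ EB A := by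
        ext e
        simp only [mem_inter, mem_union]
        constructor
        · rintro ⟨h5 | h5, h6⟩
          · exact ⟨h5, h6⟩
          · exact absurd (mem_union_left _ h6) (mem_sdiff.1 (ht h5)).2
        · rintro ⟨h5, h6⟩
          exact ⟨Or.inl h5, h6⟩
      have e2 : (s ∪ t) ∩ EB B = s ∩ EB B := by
        ext e
        simp only [mem_inter, mem_union]
        constructor
        · rintro ⟨h5 | h5, h6⟩
          · exact ⟨h5, h6⟩
          · exact absurd (mem_union_right _ h6) (mem_sdiff.1 (ht h5)).2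
        · rintro ⟨h5, h6⟩
          exact ⟨Or.inl h5, h6⟩
      rw [← oi_inter A x (s ∪ t), ← oi_inter B y (s ∪ t), e1, e2, oi_inter, oi_inter]
  have h5 : Ex u q (A ∪ B) (EB A ∪ EB B) (fun ω => oi A x ω * oi B y ω) =
      Ex u q A (EB A) (oi A x) * Ex u q B (EB B) (oi B y) := by
    rw [← Ex_prod hu hq hAB hEA hEB hdE]
    apply Ex_congr
    intro ω _
    rw [oi_inter, oi_inter]
  rw [hA, hB, Ex_oi_cube, Ex_oi_cube, ← hA, ← hB] at h5
  rw [pow_two]
  linarith

theorem card_cube (r : ℕ) : (cube d r).card = (2 * r + 1) ^ d := by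
  simp only [cube, Fintype.card_piFinset, Int.card_Icc, prod_const, card_univ, Fintype.card_fin]
  congr 1
  omega

/-- Second moment bound for the number of points of `T` connected to the outside. -/
theorem second_moment (hu : 0 < u) (hq : 1 ≤ q) {V T : Finset (Pt d)} {r : ℕ} {θ : ℝ}
    (hθ : 0 ≤ θ) (hT : ∀ x ∈ T, shV x (cube d r) ⊆ V)
    (hlow : ∀ x ∈ T, θ ≤ Ex u q V (EB V) (oi V x)) :
    Ex u q V (EB V) (fun ω => (∑ x ∈ T, oi V x ω - θ * T.card) ^ 2) ≤
      (thw d u q r ^ 2 - θ ^ 2) * (T.card : ℝ) ^ 2 + (4 * r + 3 : ℝ) ^ d * T.card := by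
  classical
  have hpair : ∀ x ∈ T, ∀ y ∈ T, Ex u q V (EB V) (fun ω => oi V x ω * oi V y ω) ≤
      thw d u q r ^ 2 + (if y ∈ shV x (cube d (2 * r + 1)) then 1 else 0) := by
    intro x hx y hy
    split_ifs with h
    · have h1 : Ex u q V (EB V) (fun ω => oi V x ω * oi V y ω) ≤ Ex u q V (EB V) (fun _ => 1) :=
        Ex_mono hu hq (fun ω _ => mul_le_one₀ (oi_le_one _ _ _) (oi_nonneg _ _ _) (oi_le_one _ _ _))
      rw [Ex_const hu hq] at h1
      have h2 := sq_nonneg (thw d u q r)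
      linarith
    · rw [mem_shV, mem_cube] at h
      push Not at h
      obtain ⟨i, hi⟩ := h
      simp only [Pi.sub_apply] at hi
      rw [add_zero]
      apply Ex_oi_pair hu hq (hT x hx) (hT y hy) i
      rw [le_abs]
      by_contra hcon
      push Not at hcon
      have := hi (by push_cast; omega)
      push_cast at this
      omega
  have hcard : ∀ x ∈ T, ∑ y ∈ T, (if y ∈ shV x (cube d (2 * r + 1)) then (1 : ℝ) else 0) ≤
      (4 * r + 3 : ℝ) ^ d := by
    intro x _
    rw [← sum_filter, sum_const, nsmul_eq_mul, mul_one]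
    have h1 : (T.filter (fun y => y ∈ shV x (cube d (2 * r + 1)))).card ≤
        (shV x (cube d (2 * r + 1))).card :=
      card_le_card (fun y hy => (mem_filter.1 hy).2)
    rw [card_shV, card_cube] at h1
    have h2 : 2 * (2 * r + 1) + 1 = 4 * r + 3 := by ring
    rw [h2] at h1
    exact_mod_cast h1
  have hsq : Ex u q V (EB V) (fun ω => (∑ x ∈ T, oi V x ω - θ * T.card) ^ 2) =
      ∑ x ∈ T, ∑ y ∈ T, Ex u q V (EB V) (fun ω => oi V x ω * oi V y ω) -
        2 * θ * T.card * ∑ x ∈ T, Ex u q V (EB V) (oi V x) + (θ * T.card) ^ 2 := by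
    have e1 : ∀ ω : Finset (Ed d), (∑ x ∈ T, oi V x ω - θ * T.card) ^ 2 =
        (∑ x ∈ T, ∑ y ∈ T, oi V x ω * oi V y ω - (2 * θ * T.card) * ∑ x ∈ T, oi V x ω) +
          (θ * T.card) ^ 2 := by
      intro ω
      rw [← sum_mul_sum]
      ring
    simp only [e1]
    rw [Ex_add, Ex_sub, Ex_const hu hq, Ex_const_mul, Ex_sum, Ex_sum]
    simp only [Ex_sum]
  have h1 : ∑ x ∈ T, ∑ y ∈ T, Ex u q V (EB V) (fun ω => oi V x ω * oi V y ω) ≤
      thw d u q r ^ 2 * (T.card : ℝ) ^ 2 + (4 * r + 3 : ℝ) ^ d * T.card := by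
    calc ∑ x ∈ T, ∑ y ∈ T, Ex u q V (EB V) (fun ω => oi V x ω * oi V y ω)
        ≤ ∑ x ∈ T, ∑ y ∈ T, (thw d u q r ^ 2 +
            (if y ∈ shV x (cube d (2 * r + 1)) then 1 else 0)) :=
          sum_le_sum fun x hx => sum_le_sum fun y hy => hpair x hx y hy
      _ = ∑ x ∈ T, (T.card * thw d u q r ^ 2 +
            ∑ y ∈ T, (if y ∈ shV x (cube d (2 * r + 1)) then (1 : ℝ) else 0)) := by
          apply sum_congr rfl
          intro x _
          rw [sum_add_distrib, sum_const, nsmul_eq_mul]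
      _ ≤ ∑ _x ∈ T, (T.card * thw d u q r ^ 2 + (4 * r + 3 : ℝ) ^ d) :=
          sum_le_sum fun x hx => by
            have := hcard x hx
            linarith
      _ = _ := by
          rw [sum_const, nsmul_eq_mul]
          ring
  have h2 : θ * T.card ≤ ∑ x ∈ T, Ex u q V (EB V) (oi V x) := by
    have := sum_le_sum hlow
    rw [sum_const, nsmul_eq_mul] at this
    linarith
  have h3 : 2 * θ * T.card * (θ * T.card) ≤ 2 * θ * T.card * ∑ x ∈ T, Ex u q V (EB V) (oi V x) :=
    mul_le_mul_of_nonneg_left h2 (by positivity)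
  rw [hsq]
  nlinarith [h1, h3]

open Classical in
/-- Probability that no point of `T` is connected to the outside. -/
theorem Pb_zero_le (hu : 0 < u) (hq : 1 ≤ q) {V T : Finset (Pt d)} {r : ℕ} {θ : ℝ}
    (hθ : 0 < θ) (hTn : T.Nonempty) (hT : ∀ x ∈ T, shV x (cube d r) ⊆ V)
    (hlow : ∀ x ∈ T, θ ≤ Ex u q V (EB V) (oi V x)) :
    Pb u q V (EB V) (fun ω => ∀ x ∈ T, ¬ Out V ω x) ≤
      (thw d u q r ^ 2 - θ ^ 2) / θ ^ 2 + (4 * r + 3 : ℝ) ^ d / (θ ^ 2 * T.card) := by
  have hT0 : (0 : ℝ) < T.card := by exact_mod_cast hTn.card_pos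
  have h1 := second_moment hu hq hθ.le hT hlow
  have h2 : Pb u q V (EB V) (fun ω => ∀ x ∈ T, ¬ Out V ω x) ≤
      Pb u q V (EB V) (fun ω => (θ * T.card) ^ 2 ≤ (∑ x ∈ T, oi V x ω - θ * T.card) ^ 2) := by
    apply Pb_mono hu hq
    intro ω _ h
    have : ∑ x ∈ T, oi V x ω = 0 := by
      apply sum_eq_zero
      intro x hx
      unfold oi
      rw [if_neg (h x hx)]
    rw [this, zero_sub, neg_sq]
  have h3 := Pb_markov (V := V) (E := EB V) hu hq (f := fun ω => (∑ x ∈ T, oi V x ω - θ * T.card) ^ 2)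
    (c := (θ * T.card) ^ 2) (by positivity) (fun ω _ => sq_nonneg _)
  refine h2.trans (h3.trans ?_)
  rw [div_le_iff₀ (by positivity)]
  refine h1.trans (le_of_eq ?_)
  field_simp

/-! ### Counting enclosed vertices -/

theorem card_EB_Box_le (hd : 1 ≤ d) {N : ℕ} (hN : 1 ≤ N) :
    ((EB (Box d N)).card : ℝ) ≤ 2 * d * (N : ℝ) ^ d := by
  have h1 := two_card_EB (Box d N)
  rw [card_Box, card_dE_Box hd hN] at h1
  have h2 : N ^ (d - 1) ≤ N ^ d := Nat.pow_le_pow_right hN (by omega)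
  have h3 : 2 * d * N ^ (d - 1) ≤ 2 * d * N ^ d := Nat.mul_le_mul_left _ h2
  have h4 : (EB (Box d N)).card ≤ 2 * d * N ^ d := by
    have : 0 ≤ 2 * d * N ^ d := Nat.zero_le _
    omega
  exact_mod_cast h4

/-- The bound for the number of vertices enclosed by contours. -/
def EnclBound (d : ℕ) : Prop := ∀ (Λ : Finset (Pt d)) (ω : Finset (Ed d)) (m : ℕ),
  open Classical in (Λ.filter (fun x => Encl Λ (m ^ d) ω x)).card ≤
      ∑ j ∈ Finset.Ico 1 m, 2 * (j + 1) ^ d * (Sk Λ (j ^ d) ω).card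

open Classical in
theorem sum_encl_le (hE : EnclBound d) (hd : 2 ≤ d) {ρ : ℝ} (hu : 0 < u) (hq : 1 ≤ q)
    (hρ : 0 < ρ) (hρ2 : 2 ^ d * ρ ≤ 1) (hM : Mom d u q ρ) {N m : ℕ} (hN : 1 ≤ N)
    {E : Finset (Ed d)} (hEE : E = EI (Box d N) ∨ E = EB (Box d N)) :
    Ex u q (Box d N) E (fun ω => (((Box d N).filter (fun x => Encl (Box d N) (m ^ d) ω x)).card : ℝ)) ≤
      48 * (m : ℝ) ^ (d + 1) * (dE (Box d N)).card + 32 * d * ρ * (N : ℝ) ^ d := by
  have hρ4 : ρ ≤ 1 / 4 := by
    have h1 : (4 : ℝ) ≤ 2 ^ d := by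
      calc (4 : ℝ) = 2 ^ 2 := by norm_num
        _ ≤ 2 ^ d := pow_le_pow_right₀ (by norm_num) hd
    nlinarith
  have h1 : Ex u q (Box d N) E
      (fun ω => (((Box d N).filter (fun x => Encl (Box d N) (m ^ d) ω x)).card : ℝ)) ≤
      Ex u q (Box d N) E (fun ω => ∑ j ∈ Finset.Ico 1 m, (2 * ((j : ℝ) + 1) ^ d) *
        ((Sk (Box d N) (j ^ d) ω).card : ℝ)) := by
    apply Ex_mono hu hq
    intro ω _
    have := hE (Box d N) ω m
    exact_mod_cast this
  refine h1.trans ?_
  rw [Ex_sum]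
  have h2 : ∀ j ∈ Finset.Ico 1 m, Ex u q (Box d N) E (fun ω => (2 * ((j : ℝ) + 1) ^ d) *
      ((Sk (Box d N) (j ^ d) ω).card : ℝ)) ≤
      48 * (m : ℝ) ^ d * (dE (Box d N)).card + 8 * (EB (Box d N)).card * ρ ^ j := by
    intro j hj
    rw [mem_Ico] at hj
    rw [Ex_const_mul]
    have h3 := hM N j hN hj.1 E hEE
    have h4 : ((j : ℝ) + 1) ^ d ≤ (m : ℝ) ^ d := by
      apply pow_le_pow_left₀ (by positivity)
      exact_mod_cast hj.2
    have h5 : ((j : ℝ) + 1) ^ d * ρ ^ j ≤ 1 := by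
      have h6 : ((j : ℝ) + 1) ≤ 2 ^ j := by
        have : j + 1 ≤ 2 ^ j := Nat.lt_two_pow_self
        exact_mod_cast this
      calc ((j : ℝ) + 1) ^ d * ρ ^ j ≤ (2 ^ j) ^ d * ρ ^ j :=
            mul_le_mul_of_nonneg_right (pow_le_pow_left₀ (by positivity) h6 d) (by positivity)
        _ = (2 ^ d * ρ) ^ j := by rw [mul_pow, ← pow_mul, ← pow_mul, mul_comm j d]
        _ ≤ 1 := pow_le_one₀ (by positivity) hρ2
    calc 2 * ((j : ℝ) + 1) ^ d * Ex u q (Box d N) E (fun ω => ((Sk (Box d N) (j ^ d) ω).card : ℝ))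
        ≤ 2 * ((j : ℝ) + 1) ^ d * (24 * (dE (Box d N)).card +
            4 * (EB (Box d N)).card * ρ ^ (2 * j)) := mul_le_mul_of_nonneg_left h3 (by positivity)
      _ = 48 * ((j : ℝ) + 1) ^ d * (dE (Box d N)).card +
            8 * (EB (Box d N)).card * ρ ^ j * (((j : ℝ) + 1) ^ d * ρ ^ j) := by
          rw [two_mul j, pow_add]
          ring
      _ ≤ 48 * (m : ℝ) ^ d * (dE (Box d N)).card + 8 * (EB (Box d N)).card * ρ ^ j * 1 := by
          apply add_le_add
          · apply mul_le_mul_of_nonneg_right _ (by positivity)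
            linarith
          · exact mul_le_mul_of_nonneg_left h5 (by positivity)
      _ = _ := by ring
  refine (sum_le_sum h2).trans ?_
  rw [sum_add_distrib, sum_const, Nat.card_Ico, nsmul_eq_mul, ← mul_sum]
  have h6 : ∑ j ∈ Finset.Ico 1 m, ρ ^ j ≤ 2 * ρ := by
    have h7 : ∀ m : ℕ, ∑ j ∈ Finset.Ico 1 (m + 1), ρ ^ j ≤ 2 * ρ - 2 * ρ ^ (m + 1) := by
      intro m
      induction m with
      | zero => simp
      | succ m ih =>
        rw [sum_Ico_succ_top (by omega)]
        have h8 : ρ ^ (m + 1 + 1) ≤ ρ ^ (m + 1) * (1 / 4) := by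
          rw [pow_succ]
          exact mul_le_mul_of_nonneg_left hρ4 (by positivity)
        have h9 : 0 ≤ ρ ^ (m + 1) := by positivity
        linarith
    rcases Nat.eq_zero_or_pos m with hm | hm
    · subst hm; simp; linarith
    · obtain ⟨m', rfl⟩ : ∃ m', m = m' + 1 := ⟨m - 1, by omega⟩
      have := h7 m'
      have h9 : 0 ≤ ρ ^ (m' + 1) := by positivity
      linarith
  have h7 : ((m - 1 : ℕ) : ℝ) ≤ m := by exact_mod_cast Nat.sub_le _ _
  have h8 := card_EB_Box_le (d := d) (by omega) hN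
  have h9 : ((m - 1 : ℕ) : ℝ) * (48 * (m : ℝ) ^ d * (dE (Box d N)).card) ≤
      m * (48 * (m : ℝ) ^ d * (dE (Box d N)).card) := mul_le_mul_of_nonneg_right h7 (by positivity)
  have h10 : 8 * ((EB (Box d N)).card : ℝ) * ∑ j ∈ Finset.Ico 1 m, ρ ^ j ≤
      8 * (2 * d * (N : ℝ) ^ d) * (2 * ρ) := by
    apply mul_le_mul _ h6 (sum_nonneg fun _ _ => by positivity) (by positivity)
    linarith
  calc _ ≤ m * (48 * (m : ℝ) ^ d * (dE (Box d N)).card) + 8 * (2 * d * (N : ℝ) ^ d) * (2 * ρ) :=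
        add_le_add h9 h10
    _ = _ := by ring

/-! ### The dichotomy -/

open Classical in
/-- Indicator of the event that no point of `T` is connected to the outside. -/
noncomputable def zi (Λ T : Finset (Pt d)) (ω : Finset (Ed d)) : ℝ :=
  @ite _ (∀ x ∈ T, ¬ Out Λ ω x) (Classical.propDecidable _) 1 0

theorem Pb_zi (Λ T : Finset (Pt d)) (E : Finset (Ed d)) :
    Pb u q Λ E (fun ω => ∀ x ∈ T, ¬ Out Λ ω x) = Ex u q Λ E (zi Λ T) := rfl

theorem zi_nonneg (Λ T : Finset (Pt d)) (ω : Finset (Ed d)) : 0 ≤ zi Λ T ω := by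
  unfold zi
  split_ifs <;> norm_num

/-- Final computation. -/
theorem dich_arith {I n A1 A2 A3 A4 δ t D P Q R S : ℝ} (h1 : I ≤ ((A1 + A2) + A3) + A4)
    (h2 : A1 ≤ I * (2 * δ)) (h3 : A2 ≤ I * t) (h4 : A3 ≤ P) (h5 : A4 ≤ Q)
    (h6 : P + Q = n * R + S * D) : I * (1 - 2 * δ - t) ≤ n * R + S * D := by
  linarith

theorem exists_cross {α : Type*} {R : α → α → Prop} {P : α → Prop} {y x : α}
    (h : Relation.ReflTransGen R y x) (hy : P y) (hx : ¬ P x) : ∃ a b, R a b ∧ P a ∧ ¬ P b := by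
  induction h with
  | refl => exact absurd hy hx
  | tail _ hbc ih =>
    rename_i b c _
    by_cases hb : P b
    · exact ⟨b, c, hbc, hb, hx⟩
    · exact ih hb

theorem mem_shV_cube {y x : Pt d} {M : ℕ} : x ∈ shV y (cube d M) ↔
    x ∈ Set.Icc (fun i => y i - (M : ℤ)) (fun i => y i + (M : ℤ)) := by
  rw [mem_shV, mem_cube, Grid.mem_Icc']
  apply forall_congr'
  intro i
  simp only [Pi.sub_apply]
  constructor <;> intro h <;> constructor <;> omega

open Classical in
theorem one_le_cases {Λ : Finset (Pt d)} {k : ℕ} {ω : Finset (Ed d)} {H : Finset (Pt d)}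
    {𝒜 : Finset (Finset (Pt d))} (hg : Good Λ k ω H 𝒜) {y : Pt d} (hy : y ∈ Λ) (M : ℕ) :
    (1 : ℝ) ≤ zi Λ (shV y (cube d M)) ω + oi Λ y ω +
      (if Encl Λ (k ^ d) ω y then 1 else 0) +
      ∑ e ∈ Sk Λ (k ^ d) ω, (if e ∈ EI (shV y (cube d M)) then 1 else 0) := by
  have n1 := zi_nonneg Λ (shV y (cube d M)) ω
  have n2 := oi_nonneg Λ y ω
  have n3 : (0 : ℝ) ≤ (if Encl Λ (k ^ d) ω y then 1 else 0) := by split_ifs <;> norm_num
  have n4 : (0 : ℝ) ≤ ∑ e ∈ Sk Λ (k ^ d) ω, (if e ∈ EI (shV y (cube d M)) then 1 else 0) :=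
    sum_nonneg fun _ _ => by split_ifs <;> norm_num
  by_cases hyH : y ∈ H
  · by_cases hall : ∀ x ∈ shV y (cube d M), ¬ Out Λ ω x
    · have : zi Λ (shV y (cube d M)) ω = 1 := if_pos hall
      linarith
    · push Not at hall
      obtain ⟨x, hx, hxo⟩ := hall
      have hxH : x ∉ H := fun h => hg.not_out_H x h hxo
      have hyT : y ∈ shV y (cube d M) := by
        rw [mem_shV, sub_self, mem_cube]
        intro i
        simp
      obtain ⟨a, b, hab, ha, hb⟩ := exists_cross (P := fun z => z ∈ H)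
        (Grid.box_conn _ _ y x (mem_shV_cube.1 hyT) (mem_shV_cube.1 hx)) hyH hxH
      obtain ⟨⟨i, hi⟩, haT, hbT⟩ := hab
      rw [← mem_shV_cube] at haT hbT
      have hex : ∃ e : Ed d, e ∈ EI (shV y (cube d M)) ∧ e ∈ dE H := by
        rcases hi with hi | hi
        · refine ⟨(a, i), ?_, ?_⟩
          · rw [mem_EI]
            refine ⟨haT, ?_⟩
            simp only [tgt]
            rw [← hi]
            exact hbT
          · rw [mem_dE]
            left
            refine ⟨ha, ?_⟩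
            simp only [tgt]
            rw [← hi]
            exact hb
        · refine ⟨(b, i), ?_, ?_⟩
          · rw [mem_EI]
            refine ⟨hbT, ?_⟩
            simp only [tgt]
            rw [← hi]
            exact haT
          · rw [mem_dE]
            right
            refine ⟨hb, ?_⟩
            simp only [tgt]
            rw [← hi]
            exact ha
      obtain ⟨e, he1, he2⟩ := hex
      have heS : e ∈ Sk Λ (k ^ d) ω := by
        rw [← hg.eq_Sk]
        exact mem_union_left _ he2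
      have h1 := single_le_sum (f := fun e => (if e ∈ EI (shV y (cube d M)) then (1 : ℝ) else 0))
        (fun _ _ => by split_ifs <;> norm_num) heS
      beta_reduce at h1
      rw [if_pos he1] at h1
      linarith
  · rcases hg.out_H y (mem_sdiff.2 ⟨hy, hyH⟩) with h | h
    · have : oi Λ y ω = 1 := by
        unfold oi
        rw [if_pos h]
      linarith
    · rw [if_pos h] at n3 ⊢
      linarith

open Classical in
theorem sum_cases {Λ I : Finset (Pt d)} {k : ℕ} {ω : Finset (Ed d)} {H : Finset (Pt d)}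
    {𝒜 : Finset (Finset (Pt d))} (hg : Good Λ k ω H 𝒜) (hI : I ⊆ Λ) (M : ℕ) :
    (I.card : ℝ) ≤ ∑ y ∈ I, zi Λ (shV y (cube d M)) ω +
      ∑ y ∈ I, oi Λ y ω + ((Λ.filter (fun x => Encl Λ (k ^ d) ω x)).card : ℝ) +
      (2 * M + 1 : ℝ) ^ d * (Sk Λ (k ^ d) ω).card := by
  have h1 := sum_le_sum fun y (hy : y ∈ I) => one_le_cases hg (hI hy) M
  rw [sum_const, nsmul_eq_mul, mul_one] at h1
  refine h1.trans ?_
  rw [sum_add_distrib, sum_add_distrib, sum_add_distrib]
  have h2 : ∑ y ∈ I, (if Encl Λ (k ^ d) ω y then (1 : ℝ) else 0) ≤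
      ((Λ.filter (fun x => Encl Λ (k ^ d) ω x)).card : ℝ) := by
    rw [← sum_filter, sum_const, nsmul_eq_mul, mul_one]
    exact_mod_cast card_le_card (filter_subset_filter _ hI)
  have h3 : ∑ y ∈ I, ∑ e ∈ Sk Λ (k ^ d) ω, (if e ∈ EI (shV y (cube d M)) then (1 : ℝ) else 0) ≤
      (2 * M + 1 : ℝ) ^ d * (Sk Λ (k ^ d) ω).card := by
    rw [sum_comm]
    have h4 : ∀ e ∈ Sk Λ (k ^ d) ω,
        ∑ y ∈ I, (if e ∈ EI (shV y (cube d M)) then (1 : ℝ) else 0) ≤ (2 * M + 1 : ℝ) ^ d := by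
      intro e _
      rw [← sum_filter, sum_const, nsmul_eq_mul, mul_one]
      have h5 : (I.filter (fun y => e ∈ EI (shV y (cube d M)))).card ≤
          (shV e.1 (cube d M)).card := by
        apply card_le_card
        intro y hy
        have h6 := (mem_EI.1 (mem_filter.1 hy).2).1
        rw [mem_shV, mem_cube] at h6 ⊢
        intro i
        have := h6 i
        simp only [Pi.sub_apply] at this ⊢
        constructor <;> omega
      rw [card_shV, card_cube] at h5
      exact_mod_cast h5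
    refine (sum_le_sum h4).trans ?_
    rw [sum_const, nsmul_eq_mul, mul_comm]
  linarith

/-- If the origin is connected to the outside with positive probability in all the cubes, then the
probability is close to one. -/
theorem dichotomy (hE : EnclBound d) (hd : 2 ≤ d) {ρ : ℝ} (hu : 0 < u) (hq : 1 ≤ q) (hρ : 0 < ρ)
    (hρ2 : 2 ^ d * ρ ≤ 1) (hM : Mom d u q ρ)
    (hG : ∀ (N k : ℕ) (ω : Finset (Ed d)), 1 ≤ N → 1 ≤ k → ω ⊆ EB (Box d N) →
      ∃ (H : Finset (Pt d)) (𝒜 : Finset (Finset (Pt d))), Good (Box d N) k ω H 𝒜)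
    (hθ : ∃ c : ℝ, 0 < c ∧ ∀ r : ℕ, c ≤ thw d u q r) :
    ∀ r : ℕ, 1 - 32 * d * ρ ≤ thw d u q r := by
  classical
  intro r'
  obtain ⟨c, hc, hθ⟩ := hθ
  have hρ4 : ρ ≤ 1 / 4 := by
    have h1 : (4 : ℝ) ≤ 2 ^ d := by
      calc (4 : ℝ) = 2 ^ 2 := by norm_num
        _ ≤ 2 ^ d := pow_le_pow_right₀ (by norm_num) hd
    nlinarith
  -- the limit
  have hbdd : BddBelow (Set.range (fun r => thw d u q r)) := ⟨c, by rintro _ ⟨r, rfl⟩; exact hθ r⟩
  obtain ⟨θ, hθdef⟩ : ∃ θ : ℝ, θ = ⨅ r, thw d u q r := ⟨_, rfl⟩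
  have hlim : Filter.Tendsto (fun r => thw d u q r) Filter.atTop (nhds θ) := by
    rw [hθdef]
    exact tendsto_atTop_ciInf (thw_anti hu hq) hbdd
  have hθle : ∀ r, θ ≤ thw d u q r := fun r => hθdef ▸ ciInf_le hbdd r
  have hθpos : 0 < θ := lt_of_lt_of_le hc (hθdef ▸ le_ciInf hθ)
  -- it suffices to lose `3 δ`
  have key : ∀ δ : ℝ, 0 < δ → 1 - 2 * δ - thw d u q r' ≤ 32 * d * ρ + δ := by
    intro δ hδ
    -- choice of `r`
    obtain ⟨r, hr⟩ : ∃ r : ℕ, (thw d u q r ^ 2 - θ ^ 2) / θ ^ 2 ≤ δ := by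
      have h1 : Filter.Tendsto (fun r => (thw d u q r ^ 2 - θ ^ 2) / θ ^ 2) Filter.atTop
          (nhds ((θ ^ 2 - θ ^ 2) / θ ^ 2)) := ((hlim.pow 2).sub_const _).div_const _
      rw [sub_self, zero_div] at h1
      obtain ⟨r, hr⟩ := (h1.eventually_le_const hδ).exists
      exact ⟨r, hr⟩
    -- choice of `M`
    obtain ⟨M, hMM⟩ : ∃ M : ℕ, (4 * r + 3 : ℝ) ^ d / (θ ^ 2 * (2 * M + 1 : ℝ) ^ d) ≤ δ := by
      obtain ⟨M, hM⟩ := exists_nat_ge ((4 * r + 3 : ℝ) ^ d / (θ ^ 2 * δ))
      refine ⟨M, ?_⟩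
      rw [div_le_iff₀ (by positivity)] at hM ⊢
      have h2 : (M : ℝ) ≤ (2 * M + 1 : ℝ) ^ d := by
        calc (M : ℝ) ≤ 2 * M + 1 := by linarith [Nat.cast_nonneg (α := ℝ) M]
          _ ≤ (2 * M + 1 : ℝ) ^ d := le_self_pow₀ (by linarith [Nat.cast_nonneg (α := ℝ) M]) (by omega)
      calc (4 * r + 3 : ℝ) ^ d ≤ M * (θ ^ 2 * δ) := hM
        _ ≤ (2 * M + 1 : ℝ) ^ d * (θ ^ 2 * δ) := mul_le_mul_of_nonneg_right h2 (by positivity)
        _ = _ := by ring
    -- choice of `k`
    obtain ⟨k, hk1, hk⟩ : ∃ k : ℕ, 1 ≤ k ∧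
        (2 * M + 1 : ℝ) ^ d * (4 * (2 * d) * ρ ^ (2 * k)) ≤ δ := by
      have h1 : Filter.Tendsto (fun k : ℕ => (2 * M + 1 : ℝ) ^ d * (4 * (2 * d) * ρ ^ (2 * k)))
          Filter.atTop (nhds ((2 * M + 1 : ℝ) ^ d * (4 * (2 * d) * 0))) := by
        apply Filter.Tendsto.const_mul
        apply Filter.Tendsto.const_mul
        have h2 : Filter.Tendsto (fun k : ℕ => (ρ ^ 2) ^ k) Filter.atTop (nhds 0) :=
          tendsto_pow_atTop_nhds_zero_of_lt_one (by positivity) (by nlinarith)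
        simpa only [pow_mul] using h2
      rw [mul_zero, mul_zero] at h1
      obtain ⟨k, hk1, hk2⟩ := ((h1.eventually_le_const hδ).and
        (Filter.eventually_ge_atTop 1)).exists
      exact ⟨k, hk2, hk1⟩
    refine (limit_le (1 - 2 * δ - thw d u q r')
      (32 * d * ρ + (2 * M + 1 : ℝ) ^ d * (4 * (2 * d) * ρ ^ (2 * k)))
      (48 * (k : ℝ) ^ (d + 1) * (2 * d) + (2 * M + 1 : ℝ) ^ d * (24 * (2 * d)))
      (2 * (M + r + r')) d ?_ (by omega)).trans (by linarith)
    intro N hN hN1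
    set s := M + r + r' with hs
    set Λ := Box d N with hΛ
    set I := shV (fun _ => (s : ℤ)) (Box d (N - 2 * s)) with hI
    have hmemI : ∀ y, y ∈ I → ∀ i, (s : ℤ) ≤ y i ∧ y i < N - s := by
      intro y hy i
      rw [hI, mem_shV, mem_Box] at hy
      have := hy i
      simp only [Pi.sub_apply] at this
      omega
    have hIΛ : I ⊆ Λ := by
      intro y hy
      rw [hΛ, mem_Box]
      intro i
      have := hmemI y hy i
      omega
    have hIcard : I.card = (N - 2 * s) ^ d := by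
      rw [hI, card_shV, card_Box]
    -- probabilities
    have hlow : ∀ x ∈ Λ, θ ≤ Ex u q Λ (EB Λ) (oi Λ x) := by
      intro x hx
      refine (hθle N).trans (le_out hu hq ?_)
      intro z hz
      rw [hΛ, mem_Box] at hx hz
      rw [mem_shV, mem_cube]
      intro i
      have h1 := hx i
      have h2 := hz i
      simp only [Pi.sub_apply]
      constructor <;> omega
    have hP0 : ∀ y ∈ I, Pb u q Λ (EB Λ) (fun ω => ∀ x ∈ shV y (cube d M), ¬ Out Λ ω x) ≤ 2 * δ := by
      intro y hy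
      have h1 := Pb_zero_le (V := Λ) (T := shV y (cube d M)) (r := r) hu hq hθpos
        ⟨y, by rw [mem_shV, sub_self, mem_cube]; intro i; simp⟩ (by
          intro x hx z hz
          rw [hΛ, mem_Box]
          intro i
          rw [mem_shV, mem_cube] at hx hz
          have h2 := hmemI y hy i
          have h3 := hx i
          have h4 := hz i
          simp only [Pi.sub_apply] at h3 h4
          constructor <;> omega) (by
          intro x hx
          apply hlow
          rw [hΛ, mem_Box]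
          intro i
          rw [mem_shV, mem_cube] at hx
          have h2 := hmemI y hy i
          have h3 := hx i
          simp only [Pi.sub_apply] at h3
          constructor <;> omega)
      rw [card_shV, card_cube] at h1
      push_cast at h1
      linarith
    have hP1 : ∀ y ∈ I, Ex u q Λ (EB Λ) (oi Λ y) ≤ thw d u q r' := by
      intro y hy
      apply out_le hu hq
      intro z hz
      rw [hΛ, mem_Box]
      intro i
      rw [mem_shV, mem_cube] at hz
      have h2 := hmemI y hy i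
      have h4 := hz i
      simp only [Pi.sub_apply] at h4
      constructor <;> omega
    -- take expectations
    have h1 : (I.card : ℝ) ≤ Ex u q Λ (EB Λ) (fun ω =>
        (∑ y ∈ I, zi Λ (shV y (cube d M)) ω +
        ∑ y ∈ I, oi Λ y ω + ((Λ.filter (fun x => Encl Λ (k ^ d) ω x)).card : ℝ)) +
        (2 * M + 1 : ℝ) ^ d * ((Sk Λ (k ^ d) ω).card : ℝ)) := by
      rw [← Ex_const (u := u) (q := q) (V := Λ) (E := EB Λ) hu hq (I.card : ℝ)]
      apply Ex_mono hu hq
      intro ω hω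
      obtain ⟨H, 𝒜, hg⟩ := hG N k ω hN1 hk1 hω
      exact sum_cases hg hIΛ M
    rw [Ex_add, Ex_add, Ex_add, Ex_sum, Ex_sum, Ex_const_mul] at h1
    have h2 : ∑ y ∈ I, Ex u q Λ (EB Λ) (zi Λ (shV y (cube d M))) ≤ I.card * (2 * δ) := by
      have := sum_le_sum hP0
      rwa [sum_const, nsmul_eq_mul] at this
    have h3 : ∑ y ∈ I, Ex u q Λ (EB Λ) (oi Λ y) ≤ I.card * thw d u q r' := by
      have := sum_le_sum hP1
      rwa [sum_const, nsmul_eq_mul] at this
    have h4 := sum_encl_le hE hd hu hq hρ hρ2 hM hN1 (m := k) (E := EB Λ) (Or.inr rfl)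
    have h5 := hM N k hN1 hk1 (EB Λ) (Or.inr rfl)
    have h6 := card_dE_Box (d := d) (by omega) hN1
    have h7 := card_EB_Box_le (d := d) (by omega) hN1
    rw [← hΛ] at h4 h5 h6 h7
    have h6' : ((dE Λ).card : ℝ) = 2 * d * (N : ℝ) ^ (d - 1) := by exact_mod_cast h6
    rw [h6'] at h4 h5
    have h8 : (2 * M + 1 : ℝ) ^ d * Ex u q Λ (EB Λ) (fun ω => ((Sk Λ (k ^ d) ω).card : ℝ)) ≤
        (2 * M + 1 : ℝ) ^ d * (24 * (2 * d * (N : ℝ) ^ (d - 1)) +
          4 * (2 * d * (N : ℝ) ^ d) * ρ ^ (2 * k)) := by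
      apply mul_le_mul_of_nonneg_left _ (by positivity)
      refine h5.trans ?_
      have : 4 * ((EB Λ).card : ℝ) * ρ ^ (2 * k) ≤ 4 * (2 * d * (N : ℝ) ^ d) * ρ ^ (2 * k) := by
        apply mul_le_mul_of_nonneg_right _ (by positivity)
        linarith
      linarith
    have h9 : ((N - 2 * s : ℕ) : ℝ) ^ d = I.card := by
      rw [hIcard]
      push_cast
      rfl
    rw [h9]
    exact dich_arith h1 h2 h3 h4 h8 (by ring)
  have h1 : 1 - thw d u q r' ≤ 32 * d * ρ := by
    apply le_of_forall_pos_le_add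
    intro ε hε
    have := key (ε / 3) (by positivity)
    linarith
  linarith

end Dich

end Pool.Agent.Lib.MP_31386d_pr
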