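import Pool.Agent.Lib.MP_31386d_pr.Defs

/-!
# Counting the vertices enclosed by small contours
-/

set_option autoImplicit false

namespace Pool.Agent.Lib.MP_31386d_pr

open Finset

variable {d : ℕ}

namespace EnclAux

/-- The cluster of `a`. -/
def cl (Λ : Finset (Pt d)) (ω : Finset (Ed d)) (a : Pt d) : Set (Pt d) := {y | ConnP Λ ω a y}

/-- The component of the complement of `K` containing `b`. -/
def cmp (K : Set (Pt d)) (b : Pt d) : Set (Pt d) :=
  {z | Relation.ReflTransGen (fun a b => Lat a b ∧ a ∉ K ∧ b ∉ K) b z}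

open Classical in
/-- The finite one of the two sides. -/
noncomputable def side (D : Set (Pt d)) : Set (Pt d) := if D.Finite then D else Dᶜ

/-- The two end points of an edge, in one of the two orders. -/
def ends (e : Ed d) (s : Bool) : Pt d × Pt d := if s then (e.1, tgt e) else (tgt e, e.1)

/-- The finite side attached to an edge. -/
noncomputable def Fs (Λ : Finset (Pt d)) (ω : Finset (Ed d)) (e : Ed d) (s : Bool) : Set (Pt d) :=
  side (cmp (cl Λ ω (ends e s).1) (ends e s).2)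

theorem cmp_symm {K : Set (Pt d)} {a b : Pt d} (h : b ∈ cmp K a) : a ∈ cmp K b := by
  unfold cmp at *
  simp only [Set.mem_setOf_eq] at *
  induction h with
  | refl => exact Relation.ReflTransGen.refl
  | tail _ hbc ih => exact Relation.ReflTransGen.head ⟨hbc.1.symm, hbc.2.2, hbc.2.1⟩ ih

theorem cmp_eq {K : Set (Pt d)} {a b : Pt d} (h : b ∈ cmp K a) : cmp K a = cmp K b := by
  ext z
  constructor
  · intro hz
    exact Relation.ReflTransGen.trans (cmp_symm h) hz
  · intro hz
    exact Relation.ReflTransGen.trans h hz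

theorem cl_eq {Λ : Finset (Pt d)} {ω : Finset (Ed d)} {a b : Pt d} (h : b ∈ cl Λ ω a) :
    cl Λ ω a = cl Λ ω b := by
  ext z
  constructor
  · intro hz
    exact ConnP.trans (ConnP.symm h) hz
  · intro hz
    exact ConnP.trans h hz

theorem cmp_notMem {K : Set (Pt d)} {a b : Pt d} (ha : a ∉ K) (h : b ∈ cmp K a) : b ∉ K := by
  unfold cmp at h
  simp only [Set.mem_setOf_eq] at h
  induction h with
  | refl => exact ha
  | tail _ hbc _ => exact hbc.2.2

theorem exists_cut (hd : 1 ≤ d) {F : Set (Pt d)} (hF : F.Finite) {x : Pt d} (hx : x ∈ F) :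
    ∃ e : Ed d, e.1 ∈ F ∧ tgt e ∉ F := by
  classical
  let i : Fin d := ⟨0, hd⟩
  let f : ℕ → Pt d := fun k => x + Pi.single i (k : ℤ)
  have hf : Function.Injective f := by
    intro a b hab
    have h1 : Pi.single (M := fun _ : Fin d => ℤ) i (a : ℤ) = Pi.single i (b : ℤ) :=
      add_left_cancel hab
    have h2 := Pi.single_injective i h1
    exact_mod_cast h2
  have h1 : ∃ k, f k ∉ F := by
    by_contra h
    push Not at h
    have h2 : Set.range f ⊆ F := by rintro _ ⟨k, rfl⟩; exact h k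
    exact Set.infinite_range_of_injective hf (hF.subset h2)
  have h2 := Nat.find_spec h1
  have h3 : Nat.find h1 ≠ 0 := by
    intro h0
    rw [h0] at h2
    apply h2
    have : f 0 = x := by simp [f]
    rw [this]; exact hx
  obtain ⟨k, hk⟩ := Nat.exists_eq_succ_of_ne_zero h3
  have h4 : f k ∈ F := by
    have := Nat.find_min h1 (m := k) (by omega)
    simpa using this
  refine ⟨(f k, i), h4, ?_⟩
  have h5 : tgt (f k, i) = f (Nat.find h1) := by
    rw [hk]
    simp only [tgt, f]
    rw [add_assoc, ← Pi.single_add]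
    push_cast
    rfl
  rw [h5]
  exact h2

theorem main (hd : 1 ≤ d) {Λ : Finset (Pt d)} {ω : Finset (Ed d)} {m : ℕ} {x : Pt d}
    (h : Encl Λ (m ^ d) ω x) :
    ∃ j ∈ Finset.Ico 1 m, ∃ e ∈ Sk Λ (j ^ d) ω, ∃ s, x ∈ Fs Λ ω e s ∧
      (Fs Λ ω e s).encard < ((j + 1) ^ d : ℕ) := by
  classical
  obtain ⟨K, D, hK, hD, hx⟩ := h
  obtain ⟨K0, a0, hKa⟩ := id hK
  obtain ⟨y0, hy0, hDy⟩ := id hD
  haveI : Nonempty (Fin d) := ⟨⟨0, hd⟩⟩
  haveI : Infinite (Pt d) := Pi.infinite_of_right
  have hinf : ∀ F : Set (Pt d), F.Finite → (Fᶜ).Infinite := fun F hF => hF.infinite_compl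
  -- the finite side
  obtain ⟨F, hxF, hFm, hF⟩ : ∃ F : Set (Pt d), x ∈ F ∧ F.encard < (m ^ d : ℕ) ∧
      (F = D ∨ F = Dᶜ) := by
    rcases hx with hx | hx
    · exact ⟨D, hx.1, hx.2, Or.inl rfl⟩
    · exact ⟨Dᶜ, hx.1, hx.2, Or.inr rfl⟩
  have hFfin : F.Finite := Set.finite_of_encard_le_coe hFm.le
  have hside : side D = F := by
    rcases hF with hF | hF
    · rw [side, if_pos (hF ▸ hFfin), hF]
    · have : ¬ D.Finite := by
        have h1 := hinf F hFfin
        rw [hF, compl_compl] at h1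
        exact h1
      rw [side, if_neg this, hF]
  have hN : F.encard = (F.ncard : ℕ∞) := (hFfin.cast_ncard_eq).symm
  have hNm : F.ncard < m ^ d := by
    rw [hN] at hFm
    exact_mod_cast hFm
  have hN1 : 1 ≤ F.ncard := (Set.ncard_pos hFfin).2 ⟨x, hxF⟩
  have hm : m ≠ 0 := by
    rintro rfl
    rw [zero_pow (by omega)] at hNm
    omega
  -- the scale
  set j := Nat.findGreatest (fun j => j ^ d ≤ F.ncard) m with hj
  have hjd : j ^ d ≤ F.ncard :=
    Nat.findGreatest_spec (P := fun j => j ^ d ≤ F.ncard) (m := 0) (Nat.zero_le m)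
      (by simp [zero_pow (show d ≠ 0 by omega)])
  have hj1 : 1 ≤ j := Nat.le_findGreatest (by omega) (by simpa using hN1)
  have hjm : j < m := by
    rcases lt_or_eq_of_le (Nat.findGreatest_le (P := fun j => j ^ d ≤ F.ncard) m) with h1 | h1
    · exact h1
    · rw [← hj] at h1
      rw [h1] at hjd
      omega
  have hj2 : F.ncard < (j + 1) ^ d := by
    by_contra h1
    push Not at h1
    have := Nat.le_findGreatest (P := fun j => j ^ d ≤ F.ncard) (n := m) (m := j + 1) (by omega) h1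
    omega
  -- the edge
  obtain ⟨e, he1, he2⟩ := exists_cut hd hFfin hxF
  have hcut : e ∈ cut D := by
    unfold cut
    rcases hF with hF | hF
    · rw [hF] at he1 he2
      simp [he1, he2]
    · rw [hF] at he1 he2
      simp only [Set.mem_compl_iff, not_not] at he1 he2
      simp [he1, he2]
  -- one end point in `D`, the other one in `K`
  obtain ⟨s, hs1, hs2⟩ : ∃ s : Bool, (ends e s).1 ∉ D ∧ (ends e s).2 ∈ D := by
    unfold cut at hcut
    simp only [Set.mem_setOf_eq] at hcut
    by_cases h1 : e.1 ∈ D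
    · exact ⟨false, by simpa [ends] using fun h2 => hcut (by simp [h1, h2]), by simpa [ends] using h1⟩
    · exact ⟨true, by simpa [ends] using h1, by
        by_contra h2
        simp only [ends, if_true] at h2
        exact hcut (by simp [h1, h2])⟩
  have hlat : Lat (ends e s).2 (ends e s).1 := by
    cases s
    · exact ⟨e.2, Or.inl rfl⟩
    · exact ⟨e.2, Or.inr rfl⟩
  have hDc : D = cmp K y0 := hDy
  have hbK : (ends e s).2 ∉ K := cmp_notMem hy0 (hDc ▸ hs2)
  have haK : (ends e s).1 ∈ K := by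
    by_contra h1
    apply hs1
    rw [hDc] at hs2 ⊢
    exact Relation.ReflTransGen.tail hs2 ⟨hlat, hbK, h1⟩
  have hKc : K = cl Λ ω a0 := hKa
  have hKe : cl Λ ω (ends e s).1 = K := by
    rw [hKc]; exact (cl_eq (hKc ▸ haK)).symm
  have hDe : cmp K (ends e s).2 = D := by
    rw [hDc]; exact (cmp_eq (hDc ▸ hs2)).symm
  have hFs : Fs Λ ω e s = F := by
    unfold Fs
    rw [hKe, hDe, hside]
  -- the edge touches `Λ`
  have hEB : e ∈ EB Λ := by
    rw [mem_EB]
    by_contra h1
    push Not at h1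
    apply hbK
    have h2 : (ends e s).1 ∉ Λ ∧ (ends e s).2 ∉ Λ := by
      cases s
      · exact ⟨h1.2, h1.1⟩
      · exact h1
    rw [← hKe]
    exact Relation.ReflTransGen.single (Or.inr h2)
  have hcard : (j ^ d : ℕ) ≤ D.encard ∧ ((j ^ d : ℕ) : ℕ∞) ≤ (Dᶜ).encard := by
    have h1 : ((j ^ d : ℕ) : ℕ∞) ≤ F.encard := by rw [hN]; exact_mod_cast hjd
    have h2 : ((j ^ d : ℕ) : ℕ∞) ≤ (Fᶜ).encard := by
      rw [(hinf F hFfin).encard_eq]; exact le_top
    rcases hF with hF | hF
    · rw [hF] at h1 h2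
      exact ⟨h1, h2⟩
    · rw [hF] at h1 h2
      rw [compl_compl] at h2
      exact ⟨h2, h1⟩
  refine ⟨j, Finset.mem_Ico.2 ⟨hj1, hjm⟩, e, ?_, s, ?_, ?_⟩
  · unfold Sk
    rw [mem_filter]
    exact ⟨hEB, K, D, hK, hD, hcard.1, hcard.2, hcut⟩
  · rw [hFs]; exact hxF
  · rw [hFs, hN]
    exact_mod_cast hj2

end EnclAux

open Classical in
open EnclAux in
theorem encl_card (hd : 1 ≤ d) (Λ : Finset (Pt d)) (ω : Finset (Ed d)) (m : ℕ) :
    (Λ.filter (fun x => Encl Λ (m ^ d) ω x)).card ≤
      ∑ j ∈ Finset.Ico 1 m, 2 * (j + 1) ^ d * (Sk Λ (j ^ d) ω).card := by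
  let G : ℕ → Ed d → Bool → Finset (Pt d) := fun j e s =>
    if (Fs Λ ω e s).encard < ((j + 1) ^ d : ℕ) then Λ.filter (fun x => x ∈ Fs Λ ω e s) else ∅
  have hG : ∀ j e s, (G j e s).card ≤ (j + 1) ^ d := by
    intro j e s
    simp only [G]
    split_ifs with h
    · have h1 : ((Λ.filter (fun x => x ∈ Fs Λ ω e s) : Finset (Pt d)) : Set (Pt d)).encard ≤
          (Fs Λ ω e s).encard := Set.encard_le_encard (fun x hx => by
            simpa using (Finset.mem_filter.1 (Finset.mem_coe.1 hx)).2)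
      rw [Set.encard_coe_eq_coe_finsetCard] at h1
      exact_mod_cast (h1.trans h.le)
    · simp
  have hsub : Λ.filter (fun x => Encl Λ (m ^ d) ω x) ⊆
      (Finset.Ico 1 m).biUnion (fun j => (Sk Λ (j ^ d) ω).biUnion
        (fun e => (Finset.univ : Finset Bool).biUnion (fun s => G j e s))) := by
    intro x hx
    obtain ⟨hxΛ, hx⟩ := Finset.mem_filter.1 hx
    obtain ⟨j, hj, e, he, s, h1, h2⟩ := main hd hx
    simp only [Finset.mem_biUnion]
    refine ⟨j, hj, e, he, s, Finset.mem_univ _, ?_⟩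
    simp only [G]
    rw [if_pos h2]
    exact Finset.mem_filter.2 ⟨hxΛ, h1⟩
  refine (Finset.card_le_card hsub).trans (Finset.card_biUnion_le.trans
    (Finset.sum_le_sum fun j _ => ?_))
  refine (Finset.card_biUnion_le_card_mul _ _ (2 * (j + 1) ^ d) (fun e _ => ?_)).trans
    (le_of_eq (mul_comm _ _))
  refine (Finset.card_biUnion_le_card_mul _ _ ((j + 1) ^ d) (fun s _ => hG j e s)).trans ?_
  simp

end Pool.Agent.Lib.MP_31386d_pr
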