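import Pool.Agent.Lib.MP_31386d_pr.Defs
import Pool.Agent.Lib.MP_31386d_pr.Count
import Pool.Agent.Lib.MP_31386d_pr.Cut

/-!
# Entropy bound: sum over admissible families of regions
-/

set_option autoImplicit false

namespace Pool.Agent.Lib.MP_31386d_pr

open Finset

variable {d : ℕ}

namespace EntropyAux

/-- Membership in `dE` in terms of the two end points. -/
theorem mem_dE' {V : Finset (Pt d)} {e : Ed d} : e ∈ dE V ↔ ¬ (e.1 ∈ V ↔ tgt e ∈ V) := by
  rw [mem_dE]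
  tauto

/-- A finite set of vertices is determined by its boundary. -/
theorem dE_inj (hd : 1 ≤ d) {V V' : Finset (Pt d)} (h : dE V = dE V') : V = V' := by
  have h1 : ∀ e : Ed d, (e.1 ∈ V ↔ e.1 ∈ V') ↔ (tgt e ∈ V ↔ tgt e ∈ V') := by
    intro e
    have h2 : e ∈ dE V ↔ e ∈ dE V' := by rw [h]
    rw [mem_dE', mem_dE'] at h2
    tauto
  ext x
  by_contra hx
  let i : Fin d := ⟨0, by omega⟩
  have h3 : ∀ n : ℕ, ¬ ((x + (n : ℤ) • (Pi.single i 1 : Pt d)) ∈ V ↔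
      (x + (n : ℤ) • (Pi.single i 1 : Pt d)) ∈ V') := by
    intro n
    induction n with
    | zero => simpa using hx
    | succ n ih =>
      have h4 := h1 ((x + (n : ℤ) • (Pi.single i 1 : Pt d)), i)
      have h5 : tgt ((x + (n : ℤ) • (Pi.single i 1 : Pt d)), i) =
          x + ((n + 1 : ℕ) : ℤ) • (Pi.single i 1 : Pt d) := by
        simp only [tgt]
        push_cast
        rw [add_smul, one_smul, add_assoc]
      rw [h5] at h4
      exact fun h6 => ih (h4.2 h6)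
  have h6 : ∀ n : ℕ, (x + (n : ℤ) • (Pi.single i 1 : Pt d)) ∈ ((V ∪ V' : Finset (Pt d)) : Set (Pt d)) := by
    intro n
    have := h3 n
    rw [mem_coe, mem_union]
    tauto
  have hinj : Function.Injective (fun n : ℕ => x + (n : ℤ) • (Pi.single i 1 : Pt d)) := by
    intro m n hmn
    have h7 := congrFun hmn i
    simpa using h7
  exact (Set.infinite_of_injective_forall_mem hinj h6) (finite_toSet _)

/-- The edges of the boundary family. -/
theorem key_subset {Λ : Finset (Pt d)} {l : ℕ} {H : Finset (Pt d)}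
    {𝒜 𝒜' : Finset (Finset (Pt d))} (h : Adm Λ l H 𝒜)
    (hS : ∀ A' ∈ 𝒜', dE A' ⊆ dE H ∪ 𝒜.biUnion dE)
    {x : Pt d} {A A' : Finset (Pt d)} (hA : A ∈ 𝒜) (hA' : A' ∈ 𝒜') (hx : x ∈ A) (hx' : x ∈ A') :
    A ⊆ A' := by
  intro y hy
  have hpath := h.conn A hA x hx y hy
  induction hpath with
  | refl => exact hx'
  | tail _ hbc ih =>
    rename_i b c _
    obtain ⟨hlat, hb, hc⟩ := hbc
    have hb' : b ∈ A' := ih (by exact_mod_cast hb)
    by_contra hc'
    -- the edge between b and c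
    have hno : ∀ e : Ed d, e.1 ∈ A → tgt e ∈ A → e ∉ dE H ∪ 𝒜.biUnion dE := by
      intro e h1 h2 h3
      rw [mem_union, mem_biUnion] at h3
      rcases h3 with h3 | ⟨B, hB, h3⟩
      · rw [mem_dE'] at h3
        exact h3 ⟨fun _ => h.sub A hA h2, fun _ => h.sub A hA h1⟩
      · rw [mem_dE'] at h3
        by_cases hAB : A = B
        · subst hAB
          exact h3 ⟨fun _ => h2, fun _ => h1⟩
        · have hdis := h.disj A hA B hB hAB
          rw [Finset.disjoint_left] at hdis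
          exact h3 ⟨fun h4 => absurd h4 (hdis h1), fun h4 => absurd h4 (hdis h2)⟩
    have hbA : b ∈ A := by exact_mod_cast hb
    have hcA : c ∈ A := by exact_mod_cast hc
    obtain ⟨i, hi | hi⟩ := hlat
    · have ht : tgt (b, i) = c := hi.symm
      refine hno (b, i) hbA (by rw [ht]; exact hcA) (hS A' hA' ?_)
      rw [mem_dE', ht]
      exact fun h5 => hc' (h5.1 hb')
    · have ht : tgt (c, i) = b := hi.symm
      refine hno (c, i) hcA (by rw [ht]; exact hbA) (hS A' hA' ?_)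
      rw [mem_dE', ht]
      exact fun h5 => hc' (h5.2 hb')

theorem family_subset {Λ : Finset (Pt d)} {l : ℕ} {H : Finset (Pt d)}
    {𝒜 𝒜' : Finset (Finset (Pt d))} (h : Adm Λ l H 𝒜) (h' : Adm Λ l H 𝒜')
    (hU : 𝒜.biUnion id = 𝒜'.biUnion id)
    (hS : dE H ∪ 𝒜.biUnion dE = dE H ∪ 𝒜'.biUnion dE) : 𝒜 ⊆ 𝒜' := by
  intro A hA
  have hne : A.Nonempty := card_pos.1 (by have := h.two A hA; omega)
  obtain ⟨x, hx⟩ := hne
  have hxU : x ∈ 𝒜'.biUnion id := by
    rw [← hU, mem_biUnion]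
    exact ⟨A, hA, hx⟩
  rw [mem_biUnion] at hxU
  obtain ⟨A', hA', hx'⟩ := hxU
  have h1 : A ⊆ A' := key_subset h (fun B hB e he => by
    rw [hS, mem_union, mem_biUnion]; exact Or.inr ⟨B, hB, he⟩) hA hA' hx hx'
  have h2 : A' ⊆ A := key_subset h' (fun B hB e he => by
    rw [← hS, mem_union, mem_biUnion]; exact Or.inr ⟨B, hB, he⟩) hA' hA hx' hx
  rw [Finset.Subset.antisymm h1 h2]
  exact hA'

/-- The edges near a given edge. -/
noncomputable def nb (e : Ed d) : Finset (Ed d) :=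
  (Fintype.piFinset (fun k => Finset.Icc (e.1 k - 1) (e.1 k + 1))) ×ˢ univ

theorem mem_nb {e f : Ed d} (h : near e f) : f ∈ nb e := by
  rw [nb, mem_product]
  refine ⟨?_, mem_univ _⟩
  rw [Fintype.mem_piFinset]
  intro k
  have := abs_le.1 (h k)
  rw [mem_Icc]
  constructor <;> linarith

theorem card_nb (e : Ed d) : (nb e).card ≤ d * 3 ^ d := by
  rw [nb, card_product, Fintype.card_piFinset]
  have h1 : ∀ k : Fin d, (Finset.Icc (e.1 k - 1) (e.1 k + 1)).card = 3 := by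
    intro k
    rw [Int.card_Icc]
    omega
  rw [prod_congr rfl (fun k _ => h1 k)]
  simp [mul_comm]

end EntropyAux

open EntropyAux

open Classical in
theorem entropy (hd : 1 ≤ d) (Λ : Finset (Pt d)) (l : ℕ) (hl : 1 ≤ l) (z : ℝ) (hz : 0 ≤ z)
    (hz2 : 4 * ((d : ℝ) * 3 ^ d) ^ 2 * z ≤ 1 / 2) :
    ∑ P ∈ (Λ.powerset ×ˢ Λ.powerset.powerset).filter (fun P => Adm Λ l P.1 P.2),
      z ^ (dE P.1 ∪ P.2.biUnion dE).card ≤
      Real.exp (2 * (EB Λ).card * (4 * ((d : ℝ) * 3 ^ d) ^ 2 * z) ^ l) := by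
  set 𝒮 := (EB Λ).powerset.filter (fun S => Thick near l S) with h𝒮
  set 𝒬 : Finset (Σ _ : Finset (Ed d), Finset (Ed d) × Finset (Ed d)) :=
    𝒮.sigma (fun S => S.powerset ×ˢ S.powerset) with h𝒬
  set 𝒢 := (Λ.powerset ×ˢ Λ.powerset.powerset).filter (fun P => Adm Λ l P.1 P.2) with h𝒢
  let Φ : Finset (Pt d) × Finset (Finset (Pt d)) →
      (Σ _ : Finset (Ed d), Finset (Ed d) × Finset (Ed d)) :=
    fun P => ⟨dE P.1 ∪ P.2.biUnion dE, (dE P.1, dE (P.2.biUnion id))⟩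
  have hinj : Set.InjOn Φ (𝒢 : Set (Finset (Pt d) × Finset (Finset (Pt d)))) := by
    rintro ⟨H, 𝒜⟩ hP ⟨H', 𝒜'⟩ hP' hΦ
    have hA : Adm Λ l H 𝒜 := (mem_filter.1 (mem_coe.1 hP)).2
    have hA' : Adm Λ l H' 𝒜' := (mem_filter.1 (mem_coe.1 hP')).2
    have e1 : dE H ∪ 𝒜.biUnion dE = dE H' ∪ 𝒜'.biUnion dE := congrArg (fun s => s.1) hΦ
    have e2 : dE H = dE H' := congrArg (fun s => s.2.1) hΦ
    have e3 : dE (𝒜.biUnion id) = dE (𝒜'.biUnion id) := congrArg (fun s => s.2.2) hΦ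
    have hH : H = H' := dE_inj hd e2
    subst hH
    have hU : 𝒜.biUnion id = 𝒜'.biUnion id := dE_inj hd e3
    have h1 := family_subset hA hA' hU e1
    have h2 := family_subset hA' hA hU.symm e1.symm
    rw [Finset.Subset.antisymm h1 h2]
  have himg : 𝒢.image Φ ⊆ 𝒬 := by
    intro s hs
    rw [mem_image] at hs
    obtain ⟨⟨H, 𝒜⟩, hP, rfl⟩ := hs
    have hA : Adm Λ l H 𝒜 := (mem_filter.1 hP).2
    have hsubB : ∀ V : Finset (Pt d), V ⊆ Λ → dE V ⊆ EB Λ := fun V hV =>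
      sdiff_subset.trans (EB_mono hV)
    rw [h𝒬, mem_sigma]
    constructor
    · show dE H ∪ 𝒜.biUnion dE ∈ 𝒮
      rw [h𝒮, mem_filter, mem_powerset]
      refine ⟨union_subset (hsubB H hA.hH) ?_, hA.thick⟩
      rw [biUnion_subset]
      exact fun A hAA => hsubB A ((hA.sub A hAA).trans hA.hH)
    · show (dE H, dE (𝒜.biUnion id)) ∈ (dE H ∪ 𝒜.biUnion dE).powerset ×ˢ
        (dE H ∪ 𝒜.biUnion dE).powerset
      rw [mem_product, mem_powerset, mem_powerset]
      refine ⟨subset_union_left, ?_⟩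
      intro e he
      rw [mem_dE] at he
      rw [mem_union, mem_biUnion]
      right
      simp only [mem_biUnion, id, not_exists, not_and] at he
      rcases he with ⟨⟨A, hAA, h1⟩, h2⟩ | ⟨h2, ⟨A, hAA, h1⟩⟩
      · exact ⟨A, hAA, mem_dE.2 (Or.inl ⟨h1, h2 A hAA⟩)⟩
      · exact ⟨A, hAA, mem_dE.2 (Or.inr ⟨h2 A hAA, h1⟩)⟩
  have hstep : ∑ P ∈ 𝒢, z ^ (dE P.1 ∪ P.2.biUnion dE).card ≤
      ∑ S ∈ 𝒮, (4 * z) ^ S.card := by
    calc ∑ P ∈ 𝒢, z ^ (dE P.1 ∪ P.2.biUnion dE).card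
        = ∑ P ∈ 𝒢, z ^ (Φ P).1.card := rfl
      _ = ∑ s ∈ 𝒢.image Φ, z ^ s.1.card :=
          (sum_image (f := fun s : (Σ _ : Finset (Ed d), Finset (Ed d) × Finset (Ed d)) =>
            z ^ s.1.card) hinj).symm
      _ ≤ ∑ s ∈ 𝒬, z ^ s.1.card :=
          sum_le_sum_of_subset_of_nonneg himg (fun _ _ _ => pow_nonneg hz _)
      _ = ∑ S ∈ 𝒮, ∑ _T ∈ S.powerset ×ˢ S.powerset, z ^ S.card := by
          rw [h𝒬, sum_sigma]
      _ = ∑ S ∈ 𝒮, (4 * z) ^ S.card := by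
          apply sum_congr rfl
          intro S _
          rw [sum_const, card_product, card_powerset, nsmul_eq_mul, mul_pow]
          congr 1
          push_cast
          rw [← mul_pow]
          norm_num
  refine hstep.trans ?_
  have hΔ1 : 1 ≤ d * 3 ^ d := Nat.one_le_iff_ne_zero.2 (by positivity)
  have hcast : (((d * 3 ^ d : ℕ) : ℝ)) = (d : ℝ) * 3 ^ d := by push_cast; ring
  have hmain := sum_thick_le (near (d := d)) (fun x y h => near_symm h) nb
    (fun x y h => mem_nb h) (d * 3 ^ d) card_nb hΔ1 (EB Λ) l hl (4 * z) (by linarith)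
    (by rw [hcast]; linarith)
  rw [hcast] at hmain
  have e : ((d : ℝ) * 3 ^ d) ^ 2 * (4 * z) = 4 * ((d : ℝ) * 3 ^ d) ^ 2 * z := by ring
  rw [e] at hmain
  convert hmain using 2

end Pool.Agent.Lib.MP_31386d_pr
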