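import Pool.Agent.Lib.MP_31386d_pr.Base

/-!
# Random-cluster weights through linear algebra

`kap V ω` is the number of clusters of `ω` that are contained in the finite set `V`; it is defined
as the dimension of the space of functions supported in `V` and constant along `ω`.
-/

set_option autoImplicit false

namespace Pool.Agent.Lib.MP_31386d_pr

open Finset
open scoped FinsetFamily

variable {d : ℕ}

/-- Functions supported in `V` and constant along the edges of `ω`. -/
def L (V : Finset (Pt d)) (ω : Finset (Ed d)) : Submodule ℚ (Pt d → ℚ) where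
  carrier := {g | (∀ x, x ∉ V → g x = 0) ∧ ∀ e ∈ ω, g e.1 = g (tgt e)}
  add_mem' {g h} hg hh := ⟨fun x hx => by simp [hg.1 x hx, hh.1 x hx],
    fun e he => by simp [hg.2 e he, hh.2 e he]⟩
  zero_mem' := ⟨fun _ _ => rfl, fun _ _ => rfl⟩
  smul_mem' c g hg := ⟨fun x hx => by simp [hg.1 x hx], fun e he => by simp [hg.2 e he]⟩

theorem mem_L {V : Finset (Pt d)} {ω : Finset (Ed d)} {g : Pt d → ℚ} :
    g ∈ L V ω ↔ (∀ x, x ∉ V → g x = 0) ∧ ∀ e ∈ ω, g e.1 = g (tgt e) := Iff.rfl

/-- The number of clusters of `ω` contained in `V`. -/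
noncomputable def kap (V : Finset (Pt d)) (ω : Finset (Ed d)) : ℕ := Module.finrank ℚ (L V ω)

/-- Restriction to `V`. -/
def resV (V : Finset (Pt d)) (ω : Finset (Ed d)) : L V ω →ₗ[ℚ] (V → ℚ) where
  toFun g := fun x => g.1 x
  map_add' _ _ := rfl
  map_smul' _ _ := rfl

theorem resV_injective (V : Finset (Pt d)) (ω : Finset (Ed d)) :
    Function.Injective (resV V ω) := by
  intro g h hgh
  apply Subtype.ext
  funext x
  by_cases hx : x ∈ V
  · exact congrFun hgh ⟨x, hx⟩
  · rw [g.2.1 x hx, h.2.1 x hx]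

instance finL (V : Finset (Pt d)) (ω : Finset (Ed d)) : FiniteDimensional ℚ (L V ω) :=
  FiniteDimensional.of_injective (resV V ω) (resV_injective V ω)

theorem kap_le_card (V : Finset (Pt d)) (ω : Finset (Ed d)) : kap V ω ≤ V.card := by
  have h := LinearMap.finrank_le_finrank_of_injective (resV_injective V ω)
  simpa [kap] using h

theorem kap_mono {V V' : Finset (Pt d)} {ω ω' : Finset (Ed d)} (hV : V ⊆ V') (hω : ω' ⊆ ω) :
    kap V ω ≤ kap V' ω' := by
  apply Submodule.finrank_mono
  intro g hg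
  exact ⟨fun x hx => hg.1 x (fun h => hx (hV h)), fun e he => hg.2 e (hω he)⟩

theorem kap_inf_sup (V W : Finset (Pt d)) (ω ω' : Finset (Ed d)) :
    kap V ω + kap W ω' ≤ kap (V ∩ W) (ω ∪ ω') + kap (V ∪ W) (ω ∩ ω') := by
  have h1 := Submodule.finrank_sup_add_finrank_inf_eq (L V ω) (L W ω')
  have h2 : Module.finrank ℚ ((L V ω ⊓ L W ω' : Submodule ℚ (Pt d → ℚ))) ≤
      kap (V ∩ W) (ω ∪ ω') := by
    apply Submodule.finrank_mono
    rintro g ⟨hg, hg'⟩
    refine ⟨fun x hx => ?_, fun e he => ?_⟩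
    · by_cases hV : x ∈ V
      · exact hg'.1 x (fun h => hx (mem_inter.mpr ⟨hV, h⟩))
      · exact hg.1 x hV
    · rcases mem_union.mp he with he | he
      · exact hg.2 e he
      · exact hg'.2 e he
  have h3 : Module.finrank ℚ ((L V ω ⊔ L W ω' : Submodule ℚ (Pt d → ℚ))) ≤
      kap (V ∪ W) (ω ∩ ω') := by
    apply Submodule.finrank_mono
    refine sup_le ?_ ?_
    · intro g hg
      exact ⟨fun x hx => hg.1 x (fun h => hx (mem_union_left _ h)),
        fun e he => hg.2 e (mem_inter.mp he).1⟩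
    · intro g hg
      exact ⟨fun x hx => hg.1 x (fun h => hx (mem_union_right _ h)),
        fun e he => hg.2 e (mem_inter.mp he).2⟩
  unfold kap at *
  omega

theorem kap_inf_sup' (V W : Finset (Pt d)) (ω ω' : Finset (Ed d)) :
    kap V ω + kap W ω' ≤ kap (V ∪ W) (ω ∩ ω') + kap (V ∩ W) (ω ∪ ω') := by
  rw [add_comm (kap (V ∪ W) _)]
  exact kap_inf_sup V W ω ω'

/-- Opening one edge removes at most one cluster. -/
theorem kap_insert (V : Finset (Pt d)) (ω : Finset (Ed d)) (e : Ed d) :
    kap V ω ≤ kap V (insert e ω) + 1 := by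
  let φ : L V ω →ₗ[ℚ] ℚ :=
    { toFun := fun g => g.1 e.1 - g.1 (tgt e)
      map_add' := fun g h => by
        simp only [Submodule.coe_add, Pi.add_apply]
        ring
      map_smul' := fun c g => by
        simp only [Submodule.coe_smul, Pi.smul_apply, smul_eq_mul, RingHom.id_apply]
        ring }
  have h1 := LinearMap.finrank_range_add_finrank_ker φ
  have h2 : Module.finrank ℚ (LinearMap.range φ) ≤ 1 := by
    have := Submodule.finrank_le (LinearMap.range φ)
    simpa using this
  have h3 : Module.finrank ℚ (LinearMap.ker φ) ≤ kap V (insert e ω) := by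
    let ψ : LinearMap.ker φ →ₗ[ℚ] L V (insert e ω) :=
      { toFun := fun g => ⟨g.1.1, g.1.2.1, fun f hf => by
          rcases mem_insert.mp hf with rfl | hf
          · have := g.2
            rw [LinearMap.mem_ker] at this
            exact sub_eq_zero.mp this
          · exact g.1.2.2 f hf⟩
        map_add' := fun _ _ => rfl
        map_smul' := fun _ _ => rfl }
    apply LinearMap.finrank_le_finrank_of_injective (f := ψ)
    intro g h hgh
    apply Subtype.ext
    apply Subtype.ext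
    exact congrArg (fun k : L V (insert e ω) => k.1) hgh
  unfold kap at *
  omega

/-- Edges that do not touch `V` are irrelevant. -/
theorem kap_congr {V : Finset (Pt d)} {ω ω' : Finset (Ed d)}
    (h : ∀ e, (e.1 ∈ V ∨ tgt e ∈ V) → (e ∈ ω ↔ e ∈ ω')) : kap V ω = kap V ω' := by
  have : L V ω = L V ω' := by
    apply le_antisymm
    · intro g hg
      refine ⟨hg.1, fun e he => ?_⟩
      by_cases ht : e.1 ∈ V ∨ tgt e ∈ V
      · exact hg.2 e ((h e ht).mpr he)
      · push Not at ht
        rw [hg.1 _ ht.1, hg.1 _ ht.2]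
    · intro g hg
      refine ⟨hg.1, fun e he => ?_⟩
      by_cases ht : e.1 ∈ V ∨ tgt e ∈ V
      · exact hg.2 e ((h e ht).mp he)
      · push Not at ht
        rw [hg.1 _ ht.1, hg.1 _ ht.2]
  unfold kap
  rw [this]

/-- If no edge of `ω` joins `V` and `W`, the clusters are counted separately. -/
theorem kap_union {V W : Finset (Pt d)} {ω : Finset (Ed d)} (hVW : Disjoint V W)
    (h : ∀ e ∈ ω, ¬ (e.1 ∈ V ∧ tgt e ∈ W) ∧ ¬ (e.1 ∈ W ∧ tgt e ∈ V)) :
    kap (V ∪ W) ω = kap V ω + kap W ω := by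
  have h1 := Submodule.finrank_sup_add_finrank_inf_eq (L V ω) (L W ω)
  have hd : ∀ x, x ∈ V → x ∉ W := fun x hx hx' => Finset.disjoint_left.mp hVW hx hx'
  have h2 : (L V ω ⊓ L W ω : Submodule ℚ (Pt d → ℚ)) = ⊥ := by
    rw [eq_bot_iff]
    rintro g ⟨hg, hg'⟩
    rw [Submodule.mem_bot]
    funext x
    by_cases hx : x ∈ V
    · exact hg'.1 x (hd x hx)
    · exact hg.1 x hx
  have h3 : (L V ω ⊔ L W ω : Submodule ℚ (Pt d → ℚ)) = L (V ∪ W) ω := by
    apply le_antisymm
    · refine sup_le ?_ ?_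
      · intro g hg
        exact ⟨fun x hx => hg.1 x (fun h => hx (mem_union_left _ h)), hg.2⟩
      · intro g hg
        exact ⟨fun x hx => hg.1 x (fun h => hx (mem_union_right _ h)), hg.2⟩
    · intro g hg
      rw [Submodule.mem_sup]
      classical
      refine ⟨fun x => if x ∈ V then g x else 0, ⟨fun x hx => by simp [hx], fun e he => ?_⟩,
        fun x => if x ∈ W then g x else 0, ⟨fun x hx => by simp [hx], fun e he => ?_⟩, ?_⟩
      · have he1 := hg.2 e he
        have he2 := h e he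
        by_cases h1 : e.1 ∈ V
        · by_cases h2 : tgt e ∈ V
          · simp only [h1, h2, if_true]
            exact he1
          · have h3 : tgt e ∉ W := fun h => he2.1 ⟨h1, h⟩
            have h4 : g (tgt e) = 0 := hg.1 _ (by
              rw [mem_union]
              tauto)
            simp only [h1, h2, if_true, if_false]
            rw [he1, h4]
        · by_cases h2 : tgt e ∈ V
          · have h3 : e.1 ∉ W := fun h => he2.2 ⟨h, h2⟩
            have h4 : g e.1 = 0 := hg.1 _ (by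
              rw [mem_union]
              tauto)
            simp only [h1, h2, if_true, if_false]
            rw [← he1, h4]
          · simp only [h1, h2, if_false]
      · have he1 := hg.2 e he
        have he2 := h e he
        by_cases h1 : e.1 ∈ W
        · by_cases h2 : tgt e ∈ W
          · simp only [h1, h2, if_true]
            exact he1
          · have h3 : tgt e ∉ V := fun h => he2.2 ⟨h1, h⟩
            have h4 : g (tgt e) = 0 := hg.1 _ (by
              rw [mem_union]
              tauto)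
            simp only [h1, h2, if_true, if_false]
            rw [he1, h4]
        · by_cases h2 : tgt e ∈ W
          · have h3 : e.1 ∉ V := fun h => he2.1 ⟨h, h2⟩
            have h4 : g e.1 = 0 := hg.1 _ (by
              rw [mem_union]
              tauto)
            simp only [h1, h2, if_true, if_false]
            rw [← he1, h4]
          · simp only [h1, h2, if_false]
      · funext x
        simp only [Pi.add_apply]
        by_cases h1 : x ∈ V
        · have h2 : x ∉ W := hd x h1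
          simp only [h1, h2, if_true, if_false, add_zero]
        · by_cases h2 : x ∈ W
          · simp only [h1, h2, if_true, if_false, zero_add]
          · have h4 : g x = 0 := hg.1 _ (by
              rw [mem_union]
              tauto)
            simp only [h1, h2, if_false, add_zero]
            exact h4.symm
  rw [h3, h2, finrank_bot] at h1
  unfold kap
  omega

theorem kap_empty_left (ω : Finset (Ed d)) : kap (∅ : Finset (Pt d)) ω = 0 := by
  have := kap_le_card (∅ : Finset (Pt d)) ω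
  simpa using this

theorem kap_singleton_empty (x : Pt d) : kap {x} ∅ = 1 := by
  classical
  have h : L {x} (∅ : Finset (Ed d)) = Submodule.span ℚ {(Pi.single x 1 : Pt d → ℚ)} := by
    apply le_antisymm
    · intro g hg
      rw [Submodule.mem_span_singleton]
      refine ⟨g x, ?_⟩
      funext y
      by_cases hy : y = x
      · subst hy
        simp
      · rw [hg.1 y (by simpa using hy)]
        simp [hy]
    · rw [Submodule.span_singleton_le_iff_mem]
      refine ⟨fun y hy => ?_, fun e he => ?_⟩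
      · have : y ≠ x := by simpa using hy
        simp [this]
      · simp at he
  unfold kap
  rw [h]
  apply finrank_span_singleton
  intro h0
  have := congrFun h0 x
  simp at this

theorem kap_empty (V : Finset (Pt d)) : kap V ∅ = V.card := by
  classical
  induction V using Finset.induction_on with
  | empty => exact kap_empty_left _
  | insert x V hx ih =>
    rw [Finset.card_insert_of_notMem hx, Finset.insert_eq,
      kap_union (by simpa using hx) (by simp), ih, kap_singleton_empty, add_comm]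

/-! ### Weights and sums -/

/-- The random-cluster weight. -/
noncomputable def wt (u q : ℝ) (V : Finset (Pt d)) (ω : Finset (Ed d)) : ℝ :=
  u ^ ω.card * q ^ kap V ω

/-- Weighted sum of `f`. -/
noncomputable def Zs (u q : ℝ) (V : Finset (Pt d)) (E : Finset (Ed d))
    (f : Finset (Ed d) → ℝ) : ℝ := ∑ ω ∈ E.powerset, wt u q V ω * f ω

/-- Partition function. -/
noncomputable def Z (u q : ℝ) (V : Finset (Pt d)) (E : Finset (Ed d)) : ℝ :=
  ∑ ω ∈ E.powerset, wt u q V ω

variable {u q : ℝ}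

theorem Zs_one (V : Finset (Pt d)) (E : Finset (Ed d)) :
    Zs u q V E (fun _ => 1) = Z u q V E := by
  simp [Zs, Z]

theorem wt_pos (hu : 0 < u) (hq : 1 ≤ q) (V : Finset (Pt d)) (ω : Finset (Ed d)) :
    0 < wt u q V ω := by
  unfold wt
  have : 0 < q := by linarith
  positivity

theorem Z_pos (hu : 0 < u) (hq : 1 ≤ q) (V : Finset (Pt d)) (E : Finset (Ed d)) :
    0 < Z u q V E :=
  Finset.sum_pos (fun _ _ => wt_pos hu hq _ _) ⟨∅, by simp⟩

theorem powerset_infs_powerset (E : Finset (Ed d)) : E.powerset ⊼ E.powerset = E.powerset := by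
  ext s
  rw [Finset.mem_infs]
  constructor
  · rintro ⟨a, ha, b, hb, rfl⟩
    rw [mem_powerset] at *
    exact (inter_subset_left).trans ha
  · intro hs
    exact ⟨s, hs, s, hs, inf_idem s⟩

theorem powerset_sups_powerset (E : Finset (Ed d)) : E.powerset ⊻ E.powerset = E.powerset := by
  ext s
  rw [Finset.mem_sups]
  constructor
  · rintro ⟨a, ha, b, hb, rfl⟩
    rw [mem_powerset] at *
    exact union_subset ha hb
  · intro hs
    exact ⟨s, hs, s, hs, sup_idem s⟩

theorem four_fun (E : Finset (Ed d)) {f₁ f₂ f₃ f₄ : Finset (Ed d) → ℝ}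
    (h₁ : ∀ ω, 0 ≤ f₁ ω) (h₂ : ∀ ω, 0 ≤ f₂ ω) (h₃ : ∀ ω, 0 ≤ f₃ ω) (h₄ : ∀ ω, 0 ≤ f₄ ω)
    (h : ∀ s, s ⊆ E → ∀ t, t ⊆ E → f₁ s * f₂ t ≤ f₃ (s ∩ t) * f₄ (s ∪ t)) :
    (∑ ω ∈ E.powerset, f₁ ω) * ∑ ω ∈ E.powerset, f₂ ω ≤
      (∑ ω ∈ E.powerset, f₃ ω) * ∑ ω ∈ E.powerset, f₄ ω := by
  have := Finset.four_functions_theorem E (f₁ := f₁) (f₂ := f₂) (f₃ := f₃) (f₄ := f₄) h₁ h₂ h₃ h₄
    (fun s hs t ht => h s hs t ht) (𝒜 := E.powerset) (ℬ := E.powerset) (subset_refl _)
    (subset_refl _)
  rwa [powerset_infs_powerset, powerset_sups_powerset] at this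

theorem wt_mul_le (hu : 0 < u) (hq : 1 ≤ q) (V W : Finset (Pt d)) (s t : Finset (Ed d)) :
    wt u q V s * wt u q W t ≤ wt u q (V ∪ W) (s ∩ t) * wt u q (V ∩ W) (s ∪ t) := by
  unfold wt
  have h1 : u ^ s.card * u ^ t.card = u ^ (s ∩ t).card * u ^ (s ∪ t).card := by
    rw [← pow_add, ← pow_add, add_comm (s ∩ t).card, card_union_add_card_inter]
  have h2 : q ^ kap V s * q ^ kap W t ≤ q ^ kap (V ∪ W) (s ∩ t) * q ^ kap (V ∩ W) (s ∪ t) := by
    rw [← pow_add, ← pow_add]
    exact pow_le_pow_right₀ hq (kap_inf_sup' V W s t)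
  calc u ^ s.card * q ^ kap V s * (u ^ t.card * q ^ kap W t)
      = (u ^ s.card * u ^ t.card) * (q ^ kap V s * q ^ kap W t) := by ring
    _ ≤ (u ^ s.card * u ^ t.card) * (q ^ kap (V ∪ W) (s ∩ t) * q ^ kap (V ∩ W) (s ∪ t)) :=
        mul_le_mul_of_nonneg_left h2 (by positivity)
    _ = _ := by
        rw [h1]
        ring

/-- The wired partition functions are supermodular (fixed edge set). -/
theorem Z_supermod (hu : 0 < u) (hq : 1 ≤ q) (V W : Finset (Pt d)) (E : Finset (Ed d)) :
    Z u q V E * Z u q W E ≤ Z u q (V ∪ W) E * Z u q (V ∩ W) E :=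
  four_fun E (fun _ => (wt_pos hu hq _ _).le) (fun _ => (wt_pos hu hq _ _).le)
    (fun _ => (wt_pos hu hq _ _).le) (fun _ => (wt_pos hu hq _ _).le)
    (fun s _ t _ => wt_mul_le hu hq V W s t)

/-- Stochastic domination: more wiring (smaller `V`) makes increasing functions larger. -/
theorem Zs_dom (hu : 0 < u) (hq : 1 ≤ q) {V V' : Finset (Pt d)} (hV : V' ⊆ V)
    (E : Finset (Ed d)) {f : Finset (Ed d) → ℝ} (hf0 : ∀ ω, 0 ≤ f ω)
    (hf : ∀ s t, s ⊆ t → f s ≤ f t) :
    Zs u q V E f * Z u q V' E ≤ Z u q V E * Zs u q V' E f := by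
  refine four_fun E (fun ω => mul_nonneg (wt_pos hu hq _ _).le (hf0 ω))
    (fun _ => (wt_pos hu hq _ _).le) (fun _ => (wt_pos hu hq _ _).le)
    (fun ω => mul_nonneg (wt_pos hu hq _ _).le (hf0 ω)) (fun s _ t _ => ?_)
  have h1 := wt_mul_le hu hq V V' s t
  rw [union_eq_left.mpr hV, inter_eq_right.mpr hV] at h1
  calc wt u q V s * f s * wt u q V' t = (wt u q V s * wt u q V' t) * f s := by ring
    _ ≤ (wt u q V (s ∩ t) * wt u q V' (s ∪ t)) * f (s ∪ t) :=
        mul_le_mul h1 (hf _ _ subset_union_left) (hf0 _)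
          (mul_nonneg (wt_pos hu hq _ _).le (wt_pos hu hq _ _).le)
    _ = _ := by ring

/-- FKG inequality. -/
theorem Zs_fkg (hu : 0 < u) (hq : 1 ≤ q) (V : Finset (Pt d)) (E : Finset (Ed d))
    {f g : Finset (Ed d) → ℝ} (hf0 : ∀ ω, 0 ≤ f ω) (hg0 : ∀ ω, 0 ≤ g ω)
    (hf : ∀ s t, s ⊆ t → f s ≤ f t) (hg : ∀ s t, s ⊆ t → g s ≤ g t) :
    Zs u q V E f * Zs u q V E g ≤ Z u q V E * Zs u q V E (fun ω => f ω * g ω) := by
  refine four_fun E (fun ω => mul_nonneg (wt_pos hu hq _ _).le (hf0 ω))
    (fun ω => mul_nonneg (wt_pos hu hq _ _).le (hg0 ω)) (fun _ => (wt_pos hu hq _ _).le)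
    (fun ω => mul_nonneg (wt_pos hu hq _ _).le (mul_nonneg (hf0 ω) (hg0 ω))) (fun s _ t _ => ?_)
  have h1 := wt_mul_le hu hq V V s t
  rw [union_self, inter_self] at h1
  have h2 : f s * g t ≤ f (s ∪ t) * g (s ∪ t) :=
    mul_le_mul (hf _ _ subset_union_left) (hg _ _ subset_union_right) (hg0 _) (hf0 _)
  calc wt u q V s * f s * (wt u q V t * g t) = (wt u q V s * wt u q V t) * (f s * g t) := by ring
    _ ≤ (wt u q V (s ∩ t) * wt u q V (s ∪ t)) * (f (s ∪ t) * g (s ∪ t)) :=
        mul_le_mul h1 h2 (mul_nonneg (hf0 _) (hg0 _))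
          (mul_nonneg (wt_pos hu hq _ _).le (wt_pos hu hq _ _).le)
    _ = _ := by ring

theorem Zs_add (V : Finset (Pt d)) (E : Finset (Ed d)) (f g : Finset (Ed d) → ℝ) :
    Zs u q V E (fun ω => f ω + g ω) = Zs u q V E f + Zs u q V E g := by
  simp only [Zs, mul_add, sum_add_distrib]

theorem Zs_sub (V : Finset (Pt d)) (E : Finset (Ed d)) (f g : Finset (Ed d) → ℝ) :
    Zs u q V E (fun ω => f ω - g ω) = Zs u q V E f - Zs u q V E g := by
  simp only [Zs, mul_sub, sum_sub_distrib]

theorem Zs_const_mul (V : Finset (Pt d)) (E : Finset (Ed d)) (c : ℝ) (f : Finset (Ed d) → ℝ) :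
    Zs u q V E (fun ω => c * f ω) = c * Zs u q V E f := by
  simp only [Zs, mul_sum]
  exact sum_congr rfl fun _ _ => by ring

theorem Zs_mono (hu : 0 < u) (hq : 1 ≤ q) (V : Finset (Pt d)) (E : Finset (Ed d))
    {f g : Finset (Ed d) → ℝ} (h : ∀ ω, ω ⊆ E → f ω ≤ g ω) : Zs u q V E f ≤ Zs u q V E g :=
  sum_le_sum fun ω hω => mul_le_mul_of_nonneg_left (h ω (mem_powerset.mp hω))
    (wt_pos hu hq _ _).le

theorem Zs_congr (V : Finset (Pt d)) (E : Finset (Ed d))
    {f g : Finset (Ed d) → ℝ} (h : ∀ ω, ω ⊆ E → f ω = g ω) : Zs u q V E f = Zs u q V E g :=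
  sum_congr rfl fun ω hω => by rw [h ω (mem_powerset.mp hω)]

theorem Zs_nonneg (hu : 0 < u) (hq : 1 ≤ q) (V : Finset (Pt d)) (E : Finset (Ed d))
    {f : Finset (Ed d) → ℝ} (h : ∀ ω, ω ⊆ E → 0 ≤ f ω) : 0 ≤ Zs u q V E f :=
  sum_nonneg fun ω hω => mul_nonneg (wt_pos hu hq _ _).le (h ω (mem_powerset.mp hω))

/-- FKG, increasing times decreasing. -/
theorem Zs_fkg_anti (hu : 0 < u) (hq : 1 ≤ q) (V : Finset (Pt d)) (E : Finset (Ed d))
    {f g : Finset (Ed d) → ℝ} (hf0 : ∀ ω, 0 ≤ f ω) (hg0 : ∀ ω, 0 ≤ g ω)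
    (hf : ∀ s t, s ⊆ t → f s ≤ f t) (hg : ∀ s t, s ⊆ t → g t ≤ g s) :
    Z u q V E * Zs u q V E (fun ω => f ω * g ω) ≤ Zs u q V E f * Zs u q V E g := by
  have h := Zs_fkg hu hq V E (f := f) (g := fun ω => g ∅ - g ω) hf0
    (fun ω => by
      have := hg ∅ ω (empty_subset _)
      linarith) hf
    (fun s t hst => by
      have := hg s t hst
      linarith)
  have h1 : Zs u q V E (fun ω => g ∅ - g ω) = g ∅ * Z u q V E - Zs u q V E g := by
    have := Zs_sub (u := u) (q := q) V E (fun _ => g ∅) g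
    rw [this]
    congr 1
    have h2 := Zs_const_mul (u := u) (q := q) V E (g ∅) (fun _ => 1)
    simp only [mul_one] at h2
    rw [h2, Zs_one]
  have h2 : Zs u q V E (fun ω => f ω * (g ∅ - g ω)) =
      g ∅ * Zs u q V E f - Zs u q V E (fun ω => f ω * g ω) := by
    rw [← Zs_const_mul, ← Zs_sub]
    apply Zs_congr
    intro ω _
    ring
  rw [h1, h2] at h
  nlinarith [h]

/-- FKG for two decreasing functions. -/
theorem Zs_fkg_anti2 (hu : 0 < u) (hq : 1 ≤ q) (V : Finset (Pt d)) (E : Finset (Ed d))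
    {f g : Finset (Ed d) → ℝ} (hf0 : ∀ ω, 0 ≤ f ω) (hg0 : ∀ ω, 0 ≤ g ω)
    (hf : ∀ s t, s ⊆ t → f t ≤ f s) (hg : ∀ s t, s ⊆ t → g t ≤ g s) :
    Zs u q V E f * Zs u q V E g ≤ Z u q V E * Zs u q V E (fun ω => f ω * g ω) := by
  have h := Zs_fkg_anti hu hq V E (f := fun ω => f ∅ - f ω) (g := g)
    (fun ω => by
      have := hf ∅ ω (empty_subset _)
      linarith) hg0
    (fun s t hst => by
      have := hf s t hst
      linarith) hg
  have h1 : Zs u q V E (fun ω => f ∅ - f ω) = f ∅ * Z u q V E - Zs u q V E f := by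
    have := Zs_sub (u := u) (q := q) V E (fun _ => f ∅) f
    rw [this]
    congr 1
    have h2 := Zs_const_mul (u := u) (q := q) V E (f ∅) (fun _ => 1)
    simp only [mul_one] at h2
    rw [h2, Zs_one]
  have h2 : Zs u q V E (fun ω => (f ∅ - f ω) * g ω) =
      f ∅ * Zs u q V E g - Zs u q V E (fun ω => f ω * g ω) := by
    rw [← Zs_const_mul, ← Zs_sub]
    apply Zs_congr
    intro ω _
    ring
  rw [h1, h2] at h
  nlinarith [h]

/-! ### Splitting sums over disjoint edge sets -/

theorem sum_powerset_union {M : Type*} [AddCommMonoid M] {E₁ E₂ : Finset (Ed d)}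
    (h : Disjoint E₁ E₂) (F : Finset (Ed d) → M) :
    ∑ ω ∈ (E₁ ∪ E₂).powerset, F ω =
      ∑ ω₁ ∈ E₁.powerset, ∑ ω₂ ∈ E₂.powerset, F (ω₁ ∪ ω₂) := by
  rw [← sum_product']
  symm
  refine sum_nbij' (fun p => p.1 ∪ p.2) (fun ω => (ω ∩ E₁, ω ∩ E₂)) ?_ ?_ ?_ ?_ ?_
  · rintro ⟨a, b⟩ hab
    simp only [mem_product, mem_powerset] at hab ⊢
    exact union_subset_union hab.1 hab.2
  · intro ω _
    simp only [mem_product, mem_powerset]
    exact ⟨inter_subset_right, inter_subset_right⟩
  · rintro ⟨a, b⟩ hab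
    simp only [mem_product, mem_powerset] at hab
    have h1 : (a ∪ b) ∩ E₁ = a := by
      ext e
      simp only [mem_inter, mem_union]
      constructor
      · rintro ⟨h1 | h1, h2⟩
        · exact h1
        · exact absurd h2 (fun h2 => Finset.disjoint_left.mp h h2 (hab.2 h1))
      · intro h1
        exact ⟨Or.inl h1, hab.1 h1⟩
    have h2 : (a ∪ b) ∩ E₂ = b := by
      ext e
      simp only [mem_inter, mem_union]
      constructor
      · rintro ⟨h1 | h1, h2⟩
        · exact absurd h2 (fun h2 => Finset.disjoint_left.mp h (hab.1 h1) h2)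
        · exact h1
      · intro h1
        exact ⟨Or.inr h1, hab.2 h1⟩
    rw [h1, h2]
  · intro ω hω
    rw [mem_powerset] at hω
    rw [← inter_union_distrib_left, inter_eq_left]
    exact hω
  · intro _ _
    rfl

end Pool.Agent.Lib.MP_31386d_pr
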