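import Pool.Agent.Lib.MP_31386d_pr.Moment

/-!
# The giant cluster of the free box
-/

set_option autoImplicit false

namespace Pool.Agent.Lib.MP_31386d_pr

open Finset

variable {d : ℕ} {u q : ℝ}

open Classical in
/-- Isolated vertices. -/
noncomputable def Iso (Λ : Finset (Pt d)) (ω : Finset (Ed d)) : Finset (Pt d) :=
  Λ.filter (fun x => ∀ e ∈ ω, e.1 ≠ x ∧ tgt e ≠ x)

open Classical in
/-- Enclosed vertices. -/
noncomputable def EnS (Λ : Finset (Pt d)) (n : ℕ) (ω : Finset (Ed d)) : Finset (Pt d) :=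
  Λ.filter (fun x => Encl Λ n ω x)

theorem iso_count {N : ℕ} (hN : 2 ≤ N) {ω : Finset (Ed d)} (hω : ω ⊆ EI (Box d N)) :
    (Iso (Box d N) ω).card * d ≤ (EI (Box d N) \ ω).card * 2 := by
  classical
  apply card_mul_le_card_mul (fun (x : Pt d) (e : Ed d) => e.1 = x ∨ tgt e = x)
  · intro x hx
    unfold Iso at hx
    rw [mem_filter] at hx
    obtain ⟨hxB, hx⟩ := hx
    have hxB' := mem_Box.mp hxB
    -- an edge in each direction
    let g : Fin d → Ed d := fun i => if x i + 1 < N then (x, i) else (x - Pi.single i 1, i)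
    have hg2 : ∀ i, (g i).2 = i := by
      intro i
      simp only [g]
      split_ifs <;> rfl
    have hinc : ∀ i, (g i).1 = x ∨ tgt (g i) = x := by
      intro i
      simp only [g]
      split_ifs
      · exact Or.inl rfl
      · right
        simp [tgt]
    have hEI : ∀ i, g i ∈ EI (Box d N) := by
      intro i
      simp only [g]
      split_ifs with h
      · rw [mem_EI]
        refine ⟨hxB, ?_⟩
        rw [mem_Box]
        intro j
        simp only [tgt, Pi.add_apply]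
        by_cases hj : j = i
        · subst hj
          simp only [Pi.single_eq_same]
          have := hxB' j
          omega
        · rw [Pi.single_eq_of_ne hj]
          have := hxB' j
          omega
      · rw [mem_EI]
        constructor
        · rw [mem_Box]
          intro j
          simp only [Pi.sub_apply]
          by_cases hj : j = i
          · subst hj
            simp only [Pi.single_eq_same]
            have := hxB' j
            omega
          · rw [Pi.single_eq_of_ne hj]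
            have := hxB' j
            omega
        · have : tgt (x - Pi.single i 1, i) = x := by simp [tgt]
          rw [this]
          exact hxB
    have hcard : (univ.image g).card = d := by
      rw [card_image_of_injective, card_univ, Fintype.card_fin]
      intro i j hij
      rw [← hg2 i, ← hg2 j, hij]
    refine le_trans (le_of_eq hcard.symm) ?_
    apply card_le_card
    intro e he
    rw [mem_image] at he
    obtain ⟨i, _, rfl⟩ := he
    rw [mem_bipartiteAbove, mem_sdiff]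
    refine ⟨⟨hEI i, fun hmem => ?_⟩, hinc i⟩
    have := hx _ hmem
    rcases hinc i with h | h
    · exact this.1 h
    · exact this.2 h
  · intro e _
    have : bipartiteBelow (fun (x : Pt d) (e : Ed d) => e.1 = x ∨ tgt e = x)
        (Iso (Box d N) ω) e ⊆ {e.1, tgt e} := by
      intro x hx
      rw [mem_bipartiteBelow] at hx
      rw [mem_insert, mem_singleton]
      rcases hx.2 with h | h
      · exact Or.inl h.symm
      · exact Or.inr h.symm
    exact (card_le_card this).trans card_le_two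

/-- The cardinality hypotheses of the line counting lemma for the regions of a configuration
without giant cluster. -/
theorem no_giant_regions (hd : 1 ≤ d) {N m : ℕ} (hN : 2 ≤ N) {ω : Finset (Ed d)}
    (hω : ω ⊆ EI (Box d N)) {η₁ η₂ : ℝ}
    (hden : (1 - 2 * η₁) * d * (N : ℝ) ^ d < ω.card)
    (hen : ((EnS (Box d N) (m ^ d) ω).card : ℝ) < η₂ * (N : ℝ) ^ d)
    (hng : ¬ Giant N ω) {𝒜 : Finset (Finset (Pt d))} (hg : Good (Box d N) m ω (Box d N) 𝒜) :
    ((Box d N \ 𝒜.biUnion id).card : ℝ) ≤ (4 * η₁ + η₂) * (N : ℝ) ^ d ∧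
      ∀ A ∈ 𝒜, (A.card : ℝ) ≤ (4 / 5 + η₂) * (N : ℝ) ^ d := by
  classical
  constructor
  · have h1 : Box d N \ 𝒜.biUnion id ⊆ Iso (Box d N) ω ∪ EnS (Box d N) (m ^ d) ω := by
      intro x hx
      rw [mem_sdiff, mem_biUnion] at hx
      rw [mem_union]
      unfold Iso EnS
      rw [mem_filter, mem_filter]
      rcases hg.rest x hx.1 (fun A hA hxA => hx.2 ⟨A, hA, hxA⟩) with h | h
      · exact Or.inl ⟨hx.1, h⟩
      · exact Or.inr ⟨hx.1, h⟩
    have h2 := (card_le_card h1).trans (card_union_le _ _)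
    have h3 : ((Box d N \ 𝒜.biUnion id).card : ℝ) ≤
        (Iso (Box d N) ω).card + (EnS (Box d N) (m ^ d) ω).card := by exact_mod_cast h2
    have h4 := iso_count hN hω
    have h5 : (EI (Box d N) \ ω).card + ω.card = (EI (Box d N)).card :=
      card_sdiff_add_card_eq_card hω
    have h6 : (EI (Box d N)).card ≤ d * N ^ d := by
      have h7 := two_card_EI (Box d N)
      rw [card_Box] at h7
      nlinarith
    have h4' : ((Iso (Box d N) ω).card : ℝ) * d ≤ (EI (Box d N) \ ω).card * 2 := by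
      exact_mod_cast h4
    have h5' : ((EI (Box d N) \ ω).card : ℝ) + ω.card = (EI (Box d N)).card := by
      exact_mod_cast h5
    have h6' : ((EI (Box d N)).card : ℝ) ≤ d * (N : ℝ) ^ d := by exact_mod_cast h6
    have hd0 : (0 : ℝ) < d := by exact_mod_cast hd
    have h8 : ((Iso (Box d N) ω).card : ℝ) * d ≤ (4 * η₁ * (N : ℝ) ^ d) * d := by
      nlinarith
    have h9 : ((Iso (Box d N) ω).card : ℝ) ≤ 4 * η₁ * (N : ℝ) ^ d :=
      le_of_mul_le_mul_right h8 hd0
    linarith
  · intro A hA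
    obtain ⟨x, hx⟩ := hg.inA A hA
    have hAB : A ⊆ Box d N := hg.adm.sub A hA
    set C := A.filter (fun y => Conn ω x y) with hC
    have h1 : A ⊆ C ∪ EnS (Box d N) (m ^ d) ω := by
      intro y hy
      rw [mem_union, hC]
      unfold EnS
      rw [mem_filter, mem_filter]
      rcases hx y hy with h | h
      · exact Or.inl ⟨hy, h⟩
      · exact Or.inr ⟨hAB hy, h⟩
    have h2 := (card_le_card h1).trans (card_union_le _ _)
    have h3 : ¬ (4 * N ^ d ≤ 5 * C.card) := by
      intro h4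
      apply hng
      refine ⟨x, C, (filter_subset _ _).trans hAB, h4, fun y hy => ?_⟩
      rw [inter_eq_left.mpr hω]
      rw [hC, mem_filter] at hy
      exact hy.2
    push Not at h3
    have h4 : (5 : ℝ) * C.card < 4 * (N : ℝ) ^ d := by exact_mod_cast h3
    have h5 : (A.card : ℝ) ≤ C.card + (EnS (Box d N) (m ^ d) ω).card := by exact_mod_cast h2
    linarith

theorem dE_empty : dE (∅ : Finset (Pt d)) = ∅ := by
  ext e
  rw [mem_dE]
  simp

theorem card_EB_Box_le (hd : 1 ≤ d) {N : ℕ} (hN : 1 ≤ N) :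
    (EB (Box d N)).card ≤ 2 * d * N ^ d := by
  have h1 := two_card_EB (Box d N)
  rw [card_Box, card_dE_Box hd hN] at h1
  have h2 : N ^ (d - 1) ≤ N ^ d := Nat.pow_le_pow_right hN (by omega)
  have h3 : 2 * d * N ^ (d - 1) ≤ 2 * d * N ^ d := Nat.mul_le_mul_left _ h2
  omega

/-- **No giant cluster is unlikely** (at high density and with few enclosed vertices). -/
theorem giant_main (hd : 2 ≤ d) (hu : 0 < u) (hq : 1 ≤ q) {β : ℝ}
    (hβ : 1 + u = Real.exp (2 * β)) (hβ2 : 40 * d + 10 ≤ β)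
    (hz : 4 * ((d : ℝ) * 3 ^ d) ^ 2 * Real.exp (-(β / (100 * d))) ≤ 1 / 2)
    {η₁ η₂ : ℝ} (h1 : 0 ≤ η₁) (h2 : 0 ≤ η₂) (h12 : (4 * d + 4) * (4 * η₁ + η₂) ≤ 1 / 5)
    (m : ℕ) (hm : 1 ≤ m) (hqm : q ≤ Real.exp (β * m / (25 * d)))
    (hG : ∀ ω : Finset (Ed d), ω ⊆ EB (Box d (4 ^ m)) →
      ∃ (H : Finset (Pt d)) (𝒜 : Finset (Finset (Pt d))), Good (Box d (4 ^ m)) m ω H 𝒜)
    (hconn : RConn Lat ((Box d (4 ^ m) : Finset (Pt d)) : Set (Pt d)))
    (hent : ∑ P ∈ AdmSet (Box d (4 ^ m)) (2 * m),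
        (Real.exp (-(β / (100 * d)))) ^ (dE P.1 ∪ P.2.biUnion dE).card ≤
        Real.exp (2 * (EB (Box d (4 ^ m))).card *
          (4 * ((d : ℝ) * 3 ^ d) ^ 2 * Real.exp (-(β / (100 * d)))) ^ (2 * m)))
    (hlines : ∀ (N : ℕ), 1 ≤ N → ∀ (𝒜 : Finset (Finset (Pt d))),
      (∀ A ∈ 𝒜, A ⊆ Box d N) → (∀ A ∈ 𝒜, ∀ B ∈ 𝒜, A ≠ B → Disjoint A B) →
      ∀ (η γ : ℝ), 0 ≤ γ →
      (((Box d N \ 𝒜.biUnion id).card : ℝ) ≤ η * (N : ℝ) ^ d) →
      (∀ A ∈ 𝒜, (A.card : ℝ) ≤ γ * (N : ℝ) ^ d) →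
      (2 * d * (1 - η) + 2 * (1 - γ - (d + 1) * η)) * (N : ℝ) ^ (d - 1) ≤
        ∑ A ∈ 𝒜, ((dE A).card : ℝ)) :
    Pb u q (Box d (4 ^ m)) (EI (Box d (4 ^ m)))
      (fun ω => ¬ Giant (4 ^ m) ω ∧ (1 - 2 * η₁) * d * ((4 ^ m : ℕ) : ℝ) ^ d < ω.card ∧
        ((EnS (Box d (4 ^ m)) (m ^ d) ω).card : ℝ) < η₂ * ((4 ^ m : ℕ) : ℝ) ^ d) ≤
      Real.exp (-((4 ^ m : ℕ) : ℝ) ^ (d - 1)) := by
  classical
  set N := 4 ^ m with hN
  have hN4 : 4 ≤ N := by
    rw [hN]
    calc 4 = 4 ^ 1 := by norm_num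
      _ ≤ 4 ^ m := Nat.pow_le_pow_right (by norm_num) hm
  have hmN : m ≤ N := (Nat.lt_pow_self (by norm_num)).le
  have hd1 : 1 ≤ d := by omega
  have hd0 : (0 : ℝ) < d := by exact_mod_cast hd1
  have hd2 : (2 : ℝ) ≤ d := by exact_mod_cast hd
  set Λ := Box d N with hΛ
  set b := Real.exp β with hb
  have hβ0 : 0 < β := by nlinarith
  have hb1 : 1 ≤ b := Real.one_le_exp hβ0.le
  have hb2 : b ^ 2 = 1 + u := by
    rw [hβ, hb, ← Real.exp_nat_mul]
    norm_num
  have hbpow : ∀ n : ℕ, b ^ n = Real.exp (β * n) := by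
    intro n
    rw [hb, ← Real.exp_nat_mul]
    congr 1
    ring
  set M : ℝ := ((N : ℕ) : ℝ) ^ (d - 1) with hM
  have hM0 : 0 < M := by
    have : (0 : ℝ) < N := by exact_mod_cast (by omega : 0 < N)
    positivity
  set t : ℝ := β / (100 * d) with ht
  have ht0 : 0 < t := by positivity
  set Q : Finset (Ed d) → Prop := fun ω => ¬ Giant N ω ∧
    (1 - 2 * η₁) * d * ((N : ℕ) : ℝ) ^ d < ω.card ∧
        ((EnS Λ (m ^ d) ω).card : ℝ) < η₂ * ((N : ℕ) : ℝ) ^ d with hQ
  set P : Finset (Pt d) → Finset (Finset (Pt d)) → Prop := fun H 𝒜 => H = Λ ∧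
    (2 * d + 1 / 5) * M ≤ ∑ A ∈ 𝒜, ((dE A).card : ℝ) with hP
  -- step 1: from configurations to admissible pairs
  have hstep1 : ∀ ω ⊆ EI Λ, Q ω → ∃ (H : Finset (Pt d)) (𝒜 : Finset (Finset (Pt d))),
      Good Λ m ω H 𝒜 ∧ P H 𝒜 := by
    intro ω hω hQω
    obtain ⟨H, 𝒜, hg⟩ := hG ω (hω.trans (EI_subset_EB _))
    have hHΛ : H = Λ := hg.free hω hconn (by
      rw [hΛ, card_Box]
      exact Nat.pow_le_pow_left hmN d)
    subst hHΛ
    refine ⟨Λ, 𝒜, hg, rfl, ?_⟩
    obtain ⟨c1, c2⟩ := no_giant_regions hd1 (by omega) hω hQω.2.1 hQω.2.2 hQω.1 hg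
    have c3 := hlines N (by omega) 𝒜 (fun A hA => hg.adm.sub A hA) hg.adm.disj
      (4 * η₁ + η₂) (4 / 5 + η₂) (by positivity) c1 c2
    refine le_trans ?_ c3
    apply mul_le_mul_of_nonneg_right _ hM0.le
    nlinarith
  have hsum := sum_le_sum_adm hu hq (Λ := Λ) (E := EI Λ) m Q P hstep1 (fun _ => 1)
    (fun _ => zero_le_one)
  simp only [mul_one, one_mul] at hsum
  -- step 2: weight of each pair
  have hstep2 : ∀ p ∈ AdmP Λ (2 * m) P,
      Cw u q Λ (EI Λ) p.1 p.2 ≤
      (Real.exp (pr d u q * Λ.card) * Real.exp (-β * (2 * d + 1 / 10) * M)) *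
        (Real.exp (-t)) ^ (dE p.1 ∪ p.2.biUnion dE).card := by
    rintro ⟨H, 𝒜⟩ hp
    rw [mem_AdmP] at hp
    obtain ⟨hA, hHΛ, hbig⟩ := hp
    have hA := mem_AdmSet.mp hA
    simp only at hHΛ hbig
    subst hHΛ
    simp only
    have w1 := weight_bound hd1 hu hq hb1 hb2 hA.hH hA.sub hA.disj (EI_subset_EB Λ) (Λ := Λ)
    rw [sdiff_self, bot_eq_empty, dE_empty, empty_inter, empty_sdiff, card_empty, pow_zero,
      div_one, mul_one] at w1
    set Sg : ℝ := ∑ A ∈ 𝒜, ((dE A).card : ℝ) with hSg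
    set τ : ℝ := 1 / (50 * d) with hτ
    have hτ0 : 0 < τ := by positivity
    have hτd : τ * d = 1 / 50 := by
      rw [hτ]
      field_simp
    have w2 : ∏ A ∈ 𝒜, (q / b ^ (dE A).card) ≤
        ∏ A ∈ 𝒜, Real.exp (-((1 - τ) * β) * (dE A).card) := by
      apply prod_le_prod
      · intro A _
        have : 0 < q := by linarith
        positivity
      · intro A hAA
        rw [hbpow, div_le_iff₀ (Real.exp_pos _), ← Real.exp_add]
        refine hqm.trans (Real.exp_le_exp.mpr ?_)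
        have h5 := hA.big A hAA
        have h6 : (2 : ℝ) * m ≤ ((dE A).card : ℝ) := by exact_mod_cast h5
        have h7 : β * m / (25 * d) = τ * β * (2 * m) := by
          rw [hτ]
          field_simp
          ring
        rw [h7]
        have h8 : τ * β * (2 * m) ≤ τ * β * (dE A).card :=
          mul_le_mul_of_nonneg_left h6 (by positivity)
        refine h8.trans (le_of_eq ?_)
        ring
    rw [← Real.exp_sum, ← mul_sum, ← hSg] at w2
    have w3 : ((dE Λ ∪ 𝒜.biUnion dE).card : ℝ) ≤ 2 * d * M + Sg := by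
      have h5 := card_union_dE_le Λ 𝒜
      have h6 : ((dE Λ ∪ 𝒜.biUnion dE).card : ℝ) ≤ (dE Λ).card + Sg := by
        rw [hSg]
        exact_mod_cast h5
      have h7 : ((dE Λ).card : ℝ) = 2 * d * M := by
        rw [hΛ, card_dE_Box hd1 (by omega), hM]
        push_cast
        ring
      rw [← h7]
      exact h6
    refine w1.trans ?_
    rw [mul_assoc]
    apply mul_le_mul_of_nonneg_left _ (Real.exp_pos _).le
    refine w2.trans ?_
    have h9 : (Real.exp (-t)) ^ (dE Λ ∪ 𝒜.biUnion dE).card =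
        Real.exp (-t * (dE Λ ∪ 𝒜.biUnion dE).card) := by
      rw [← Real.exp_nat_mul]
      congr 1
      ring
    rw [h9, ← Real.exp_add]
    apply Real.exp_le_exp.mpr
    -- arithmetic
    have e1 : t * ((dE Λ ∪ 𝒜.biUnion dE).card : ℝ) ≤ τ * β * Sg := by
      have e2 : t = τ * β / 2 := by
        rw [ht, hτ]
        field_simp
        ring
      have e3 : ((dE Λ ∪ 𝒜.biUnion dE).card : ℝ) ≤ 2 * Sg := by
        have : 2 * d * M ≤ (2 * d + 1 / 5) * M := by nlinarith
        linarith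
      rw [e2]
      have e4 : 0 ≤ τ * β / 2 := by positivity
      calc τ * β / 2 * ((dE Λ ∪ 𝒜.biUnion dE).card : ℝ) ≤ τ * β / 2 * (2 * Sg) :=
            mul_le_mul_of_nonneg_left e3 e4
        _ = _ := by ring
    have e5 : (2 * d + 1 / 10) * M ≤ (1 - 2 * τ) * Sg := by
      have e6 : 2 * τ * (2 * d + 1 / 5) ≤ 1 / 10 := by
        have : τ ≤ 1 / 100 := by
          rw [hτ]
          apply one_div_le_one_div_of_le (by norm_num)
          linarith
        nlinarith
      have e7 : 0 ≤ 1 - 2 * τ := by nlinarith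
      calc (2 * d + 1 / 10) * M ≤ ((1 - 2 * τ) * (2 * d + 1 / 5)) * M := by
            apply mul_le_mul_of_nonneg_right _ hM0.le
            nlinarith
        _ = (1 - 2 * τ) * ((2 * d + 1 / 5) * M) := by ring
        _ ≤ (1 - 2 * τ) * Sg := mul_le_mul_of_nonneg_left hbig e7
    have e8 : β * ((2 * d + 1 / 10) * M) ≤ β * ((1 - 2 * τ) * Sg) :=
      mul_le_mul_of_nonneg_left e5 hβ0.le
    have e9 : -((1 - τ) * β) * Sg = -(β * ((1 - 2 * τ) * Sg)) - τ * β * Sg := by ring
    rw [e9]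
    linarith
  -- step 3: entropy
  have hstep3 : ∑ p ∈ AdmP Λ (2 * m) P,
      (Real.exp (-t)) ^ (dE p.1 ∪ p.2.biUnion dE).card ≤ Real.exp (4 * d * M) := by
    refine (sum_le_sum_of_subset_of_nonneg (AdmP_subset _ _ _)
      (fun _ _ _ => by positivity)).trans (hent.trans ?_)
    apply Real.exp_le_exp.mpr
    have e1 : (4 * ((d : ℝ) * 3 ^ d) ^ 2 * Real.exp (-t)) ^ (2 * m) ≤ 1 / (N : ℝ) := by
      calc (4 * ((d : ℝ) * 3 ^ d) ^ 2 * Real.exp (-t)) ^ (2 * m) ≤ (1 / 2 : ℝ) ^ (2 * m) :=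
            pow_le_pow_left₀ (by positivity) hz _
        _ = 1 / (N : ℝ) := by
            rw [pow_mul, hN]
            push_cast
            rw [← one_div_pow]
            norm_num
    have e2 : ((EB Λ).card : ℝ) ≤ 2 * d * (N : ℝ) ^ d := by
      exact_mod_cast card_EB_Box_le hd1 (by omega : 1 ≤ N)
    have hNpos : (0 : ℝ) < N := by exact_mod_cast (by omega : 0 < N)
    have e3 : (N : ℝ) ^ d = N * M := by
      rw [hM, ← pow_succ']
      congr 1
      omega
    calc 2 * ((EB Λ).card : ℝ) * (4 * ((d : ℝ) * 3 ^ d) ^ 2 * Real.exp (-t)) ^ (2 * m)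
        ≤ 2 * (2 * d * (N : ℝ) ^ d) * (1 / (N : ℝ)) := by
          apply mul_le_mul _ e1 (by positivity) (by positivity)
          linarith
      _ = 4 * d * M := by
          rw [e3]
          field_simp
          ring
  -- step 4: conclusion
  have hZ := Z_pos hu hq Λ (EI Λ)
  have hD := exp_lower hd1 hu hq hb1 hb2 (by omega : 1 ≤ N) (subset_refl (EI Λ))
  have hD' : Real.exp (pr d u q * Λ.card) ≤ Z u q Λ (EI Λ) * Real.exp (β * (2 * d * M)) := by
    rw [div_le_iff₀ (by positivity), hbpow, ← hΛ] at hD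
    have h7 : ((dE Λ).card : ℝ) = 2 * d * M := by
      rw [hΛ, card_dE_Box hd1 (by omega), hM]
      push_cast
      ring
    rwa [h7] at hD
  have hPb := Pb_mul_Z hu hq Λ (EI Λ) Q
  have hfin : Pb u q Λ (EI Λ) Q * Z u q Λ (EI Λ) ≤
      Real.exp (-M) * Z u q Λ (EI Λ) := by
    rw [hPb]
    refine hsum.trans ((sum_le_sum hstep2).trans ?_)
    rw [← mul_sum]
    calc Real.exp (pr d u q * Λ.card) * Real.exp (-β * (2 * d + 1 / 10) * M) *
          ∑ p ∈ AdmP Λ (2 * m) P,
            (Real.exp (-t)) ^ (dE p.1 ∪ p.2.biUnion dE).card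
        ≤ (Z u q Λ (EI Λ) * Real.exp (β * (2 * d * M))) *
          Real.exp (-β * (2 * d + 1 / 10) * M) * Real.exp (4 * d * M) := by
          gcongr
      _ = Real.exp (β * (2 * d * M) + -β * (2 * d + 1 / 10) * M + 4 * d * M) *
          Z u q Λ (EI Λ) := by
          rw [Real.exp_add, Real.exp_add]
          ring
      _ ≤ Real.exp (-M) * Z u q Λ (EI Λ) := by
          apply mul_le_mul_of_nonneg_right _ hZ.le
          apply Real.exp_le_exp.mpr
          nlinarith
  have hres := le_of_mul_le_mul_right hfin hZ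
  exact hres

end Pool.Agent.Lib.MP_31386d_pr
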