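import Pool.Agent.Lib.MP_31386d_pr.FK

/-!
# Free and wired partition functions on the lattice
-/

set_option autoImplicit false

namespace Pool.Agent.Lib.MP_31386d_pr

open Finset

variable {d : ℕ}

/-- Edges inside `V`. -/
def EI (V : Finset (Pt d)) : Finset (Ed d) := (V ×ˢ univ).filter (fun e => tgt e ∈ V)

/-- Edges touching `V`. -/
def EB (V : Finset (Pt d)) : Finset (Ed d) :=
  (V ×ˢ univ) ∪ (V ×ˢ univ).image (fun e => (e.1 - Pi.single e.2 1, e.2))

/-- Boundary edges of `V`. -/
def dE (V : Finset (Pt d)) : Finset (Ed d) := EB V \ EI V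

theorem mem_EI {V : Finset (Pt d)} {e : Ed d} : e ∈ EI V ↔ e.1 ∈ V ∧ tgt e ∈ V := by
  simp [EI, mem_filter, mem_product]

theorem mem_EB {V : Finset (Pt d)} {e : Ed d} : e ∈ EB V ↔ e.1 ∈ V ∨ tgt e ∈ V := by
  simp only [EB, mem_union, mem_product, mem_univ, and_true, mem_image]
  constructor
  · rintro (h | ⟨f, hf, rfl⟩)
    · exact Or.inl h
    · right
      simpa [tgt] using hf
  · rintro (h | h)
    · exact Or.inl h
    · right
      refine ⟨(tgt e, e.2), h, ?_⟩
      apply Prod.ext
      · simp [tgt]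
      · rfl

theorem EI_subset_EB (V : Finset (Pt d)) : EI V ⊆ EB V := by
  intro e he
  rw [mem_EI] at he
  rw [mem_EB]
  exact Or.inl he.1

theorem mem_dE {V : Finset (Pt d)} {e : Ed d} :
    e ∈ dE V ↔ (e.1 ∈ V ∧ tgt e ∉ V) ∨ (e.1 ∉ V ∧ tgt e ∈ V) := by
  simp only [dE, mem_sdiff, mem_EI, mem_EB]
  tauto

theorem EI_mono {V W : Finset (Pt d)} (h : V ⊆ W) : EI V ⊆ EI W := by
  intro e he
  rw [mem_EI] at *
  exact ⟨h he.1, h he.2⟩

theorem EB_mono {V W : Finset (Pt d)} (h : V ⊆ W) : EB V ⊆ EB W := by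
  intro e he
  rw [mem_EB] at *
  exact he.imp (fun h1 => h h1) (fun h1 => h h1)

theorem card_EI_add_EB (V : Finset (Pt d)) : (EI V).card + (EB V).card = 2 * d * V.card := by
  have h1 : ((V ×ˢ (univ : Finset (Fin d))) ∩
      (V ×ˢ univ).image (fun e => (e.1 - Pi.single e.2 1, e.2))) = EI V := by
    ext e
    rw [mem_EI, mem_inter, mem_product, mem_image]
    constructor
    · rintro ⟨h1, f, hf, rfl⟩
      refine ⟨h1.1, ?_⟩
      simp only [mem_product, mem_univ, and_true] at hf
      simpa [tgt] using hf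
    · rintro ⟨h1, h2⟩
      refine ⟨⟨h1, mem_univ _⟩, (tgt e, e.2), by simpa using h2, ?_⟩
      apply Prod.ext
      · simp [tgt]
      · rfl
  have h2 := card_union_add_card_inter (V ×ˢ (univ : Finset (Fin d)))
    ((V ×ˢ univ).image (fun e => (e.1 - Pi.single e.2 1, e.2)))
  rw [h1] at h2
  have h3 : ((V ×ˢ (univ : Finset (Fin d))).image
      (fun e => (e.1 - Pi.single e.2 1, e.2))).card = V.card * d := by
    rw [card_image_of_injective]
    · simp
    · rintro ⟨x, i⟩ ⟨y, j⟩ h
      simp only [Prod.mk.injEq] at h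
      obtain ⟨h1, rfl⟩ := h
      rw [sub_left_inj] at h1
      rw [h1]
  have h4 : (V ×ˢ (univ : Finset (Fin d))).card = V.card * d := by simp
  rw [h3, h4] at h2
  unfold EB
  rw [add_comm, h2]
  ring

theorem card_EB_eq (V : Finset (Pt d)) : (EB V).card = (EI V).card + (dE V).card := by
  unfold dE
  rw [card_sdiff_of_subset (EI_subset_EB V)]
  have := card_le_card (EI_subset_EB V)
  omega

theorem two_card_EI (V : Finset (Pt d)) : 2 * (EI V).card + (dE V).card = 2 * d * V.card := by
  have h1 := card_EI_add_EB V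
  have h2 := card_EB_eq V
  omega

theorem two_card_EB (V : Finset (Pt d)) : 2 * (EB V).card = 2 * d * V.card + (dE V).card := by
  have h1 := card_EI_add_EB V
  have h2 := card_EB_eq V
  omega

variable {u q : ℝ}

/-- Free partition function. -/
noncomputable def Z0 (u q : ℝ) (V : Finset (Pt d)) : ℝ := Z u q V (EI V)

/-- Wired partition function. -/
noncomputable def Zw (u q : ℝ) (V : Finset (Pt d)) : ℝ := Z u q V (EB V)

theorem sum_pow_card (E : Finset (Ed d)) (u : ℝ) :
    ∑ ω ∈ E.powerset, u ^ ω.card = (1 + u) ^ E.card := by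
  have := Finset.sum_pow_mul_eq_add_pow u 1 E
  simp only [one_pow, mul_one] at this
  rw [this, add_comm]

theorem Z_union_le (hu : 0 < u) (hq : 1 ≤ q) (V : Finset (Pt d)) {E F : Finset (Ed d)}
    (hEF : Disjoint E F) : Z u q V (E ∪ F) ≤ (1 + u) ^ F.card * Z u q V E := by
  unfold Z
  rw [sum_powerset_union hEF, mul_sum]
  apply sum_le_sum
  intro ω₁ hω₁
  rw [← sum_pow_card F u, sum_mul]
  apply sum_le_sum
  intro ω₂ hω₂
  rw [mem_powerset] at hω₁ hω₂
  unfold wt
  have h1 : (ω₁ ∪ ω₂).card = ω₁.card + ω₂.card :=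
    card_union_of_disjoint (disjoint_of_subset_left hω₁ (disjoint_of_subset_right hω₂ hEF))
  rw [h1, pow_add]
  have h2 : q ^ kap V (ω₁ ∪ ω₂) ≤ q ^ kap V ω₁ :=
    pow_le_pow_right₀ hq (kap_mono (subset_refl _) subset_union_left)
  calc u ^ ω₁.card * u ^ ω₂.card * q ^ kap V (ω₁ ∪ ω₂)
      ≤ u ^ ω₁.card * u ^ ω₂.card * q ^ kap V ω₁ := mul_le_mul_of_nonneg_left h2 (by positivity)
    _ = _ := by ring

theorem Z_union_eq (V : Finset (Pt d)) {E F : Finset (Ed d)}
    (hEF : Disjoint E F)
    (h : ∀ ω₁, ω₁ ⊆ E → ∀ ω₂, ω₂ ⊆ F → kap V (ω₁ ∪ ω₂) = kap V ω₁) :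
    Z u q V (E ∪ F) = (1 + u) ^ F.card * Z u q V E := by
  unfold Z
  rw [sum_powerset_union hEF, mul_sum]
  apply sum_congr rfl
  intro ω₁ hω₁
  rw [← sum_pow_card F u, sum_mul]
  apply sum_congr rfl
  intro ω₂ hω₂
  rw [mem_powerset] at hω₁ hω₂
  unfold wt
  have h1 : (ω₁ ∪ ω₂).card = ω₁.card + ω₂.card :=
    card_union_of_disjoint (disjoint_of_subset_left hω₁ (disjoint_of_subset_right hω₂ hEF))
  rw [h1, pow_add, h _ hω₁ _ hω₂]
  ring

/-- Adding edges that do not touch `V`. -/
theorem Z_union_irrel (V : Finset (Pt d)) {E F : Finset (Ed d)}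
    (hEF : Disjoint E F) (h : ∀ e ∈ F, e.1 ∉ V ∧ tgt e ∉ V) :
    Z u q V (E ∪ F) = (1 + u) ^ F.card * Z u q V E := by
  apply Z_union_eq V hEF
  intro ω₁ _ ω₂ h2
  apply kap_congr
  intro e he
  rw [mem_union]
  constructor
  · rintro (h1 | h1)
    · exact h1
    · have := h e (h2 h1)
      tauto
  · exact Or.inl

theorem Z_mono_edges (hu : 0 < u) (hq : 1 ≤ q) (V : Finset (Pt d)) {E F : Finset (Ed d)}
    (h : E ⊆ F) : Z u q V E ≤ Z u q V F :=
  sum_le_sum_of_subset_of_nonneg (powerset_mono.mpr h) (fun _ _ _ => (wt_pos hu hq _ _).le)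

theorem Z_mono_vert (hu : 0 < u) (hq : 1 ≤ q) {V W : Finset (Pt d)} (E : Finset (Ed d))
    (h : V ⊆ W) : Z u q V E ≤ Z u q W E := by
  apply sum_le_sum
  intro ω _
  unfold wt
  exact mul_le_mul_of_nonneg_left (pow_le_pow_right₀ hq (kap_mono h (subset_refl _)))
    (by positivity)

/-- Product formula for separated regions. -/
theorem Zs_prod (V W : Finset (Pt d)) (hVW : Disjoint V W) {E F : Finset (Ed d)}
    (hE : ∀ e ∈ E, e.1 ∉ W ∧ tgt e ∉ W) (hF : ∀ e ∈ F, e.1 ∉ V ∧ tgt e ∉ V)
    (hEF : Disjoint E F) (f : Finset (Ed d) → ℝ) :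
    Zs u q (V ∪ W) (E ∪ F) f =
      ∑ ω₁ ∈ E.powerset, ∑ ω₂ ∈ F.powerset, wt u q V ω₁ * wt u q W ω₂ * f (ω₁ ∪ ω₂) := by
  unfold Zs
  rw [sum_powerset_union hEF]
  apply sum_congr rfl
  intro ω₁ hω₁
  apply sum_congr rfl
  intro ω₂ hω₂
  rw [mem_powerset] at hω₁ hω₂
  have h1 : (ω₁ ∪ ω₂).card = ω₁.card + ω₂.card :=
    card_union_of_disjoint (disjoint_of_subset_left hω₁ (disjoint_of_subset_right hω₂ hEF))
  have h2 : kap (V ∪ W) (ω₁ ∪ ω₂) = kap V ω₁ + kap W ω₂ := by
    rw [kap_union hVW]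
    · congr 1
      · apply kap_congr
        intro e he
        rw [mem_union]
        constructor
        · rintro (h | h)
          · exact h
          · have := hF e (hω₂ h)
            tauto
        · exact Or.inl
      · apply kap_congr
        intro e he
        rw [mem_union]
        constructor
        · rintro (h | h)
          · have := hE e (hω₁ h)
            tauto
          · exact h
        · exact Or.inr
    · intro e he
      rw [mem_union] at he
      rcases he with he | he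
      · have := hE e (hω₁ he)
        tauto
      · have := hF e (hω₂ he)
        tauto
  unfold wt
  rw [h1, h2, pow_add, pow_add]
  ring

theorem Z_prod (V W : Finset (Pt d)) (hVW : Disjoint V W) {E F : Finset (Ed d)}
    (hE : ∀ e ∈ E, e.1 ∉ W ∧ tgt e ∉ W) (hF : ∀ e ∈ F, e.1 ∉ V ∧ tgt e ∉ V)
    (hEF : Disjoint E F) :
    Z u q (V ∪ W) (E ∪ F) = Z u q V E * Z u q W F := by
  rw [← Zs_one, Zs_prod V W hVW hE hF hEF]
  unfold Z
  rw [sum_mul_sum]
  simp

theorem disjoint_EI {V W : Finset (Pt d)} (h : Disjoint V W) : Disjoint (EI V) (EI W) := by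
  rw [Finset.disjoint_left]
  intro e he he'
  rw [mem_EI] at he he'
  exact Finset.disjoint_left.mp h he.1 he'.1

theorem Z0_union (V W : Finset (Pt d)) (hVW : Disjoint V W) :
    Z u q (V ∪ W) (EI V ∪ EI W) = Z0 u q V * Z0 u q W := by
  apply Z_prod V W hVW _ _ (disjoint_EI hVW)
  · intro e he
    rw [mem_EI] at he
    exact ⟨fun h => Finset.disjoint_left.mp hVW he.1 h,
      fun h => Finset.disjoint_left.mp hVW he.2 h⟩
  · intro e he
    rw [mem_EI] at he
    exact ⟨fun h => Finset.disjoint_left.mp hVW h he.1,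
      fun h => Finset.disjoint_left.mp hVW h he.2⟩

theorem EI_union_subset (V W : Finset (Pt d)) : EI V ∪ EI W ⊆ EI (V ∪ W) :=
  union_subset (EI_mono subset_union_left) (EI_mono subset_union_right)

theorem Z0_pos (hu : 0 < u) (hq : 1 ≤ q) (V : Finset (Pt d)) : 0 < Z0 u q V := Z_pos hu hq _ _

theorem Zw_pos (hu : 0 < u) (hq : 1 ≤ q) (V : Finset (Pt d)) : 0 < Zw u q V := Z_pos hu hq _ _

theorem Z0_supermult (hu : 0 < u) (hq : 1 ≤ q) {V W : Finset (Pt d)} (hVW : Disjoint V W) :
    Z0 u q V * Z0 u q W ≤ Z0 u q (V ∪ W) := by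
  rw [← Z0_union V W hVW]
  exact Z_mono_edges hu hq _ (EI_union_subset V W)

/-- The boundary-corrected partition function is submultiplicative. -/
theorem M_submult (hu : 0 < u) (hq : 1 ≤ q) {b : ℝ} (hb : 0 < b) (hb2 : b ^ 2 = 1 + u)
    {V W : Finset (Pt d)} (hVW : Disjoint V W) :
    Z0 u q (V ∪ W) * b ^ (dE (V ∪ W)).card ≤
      (Z0 u q V * b ^ (dE V).card) * (Z0 u q W * b ^ (dE W).card) := by
  set C := EI (V ∪ W) \ (EI V ∪ EI W) with hC
  have h1 : EI (V ∪ W) = (EI V ∪ EI W) ∪ C := by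
    rw [hC, union_sdiff_of_subset (EI_union_subset V W)]
  have hd : Disjoint (EI V ∪ EI W) C := disjoint_sdiff
  have h2 : Z0 u q (V ∪ W) ≤ (1 + u) ^ C.card * (Z0 u q V * Z0 u q W) := by
    rw [← Z0_union V W hVW]
    unfold Z0
    rw [h1]
    exact Z_union_le hu hq _ hd
  have h3 : (dE V).card + (dE W).card = (dE (V ∪ W)).card + 2 * C.card := by
    have e1 := two_card_EI V
    have e2 := two_card_EI W
    have e3 := two_card_EI (V ∪ W)
    rw [card_union_of_disjoint hVW] at e3
    have e4 : (EI (V ∪ W)).card = (EI V).card + (EI W).card + C.card := by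
      rw [h1, card_union_of_disjoint hd, card_union_of_disjoint (disjoint_EI hVW)]
    rw [mul_add] at e3
    omega
  calc Z0 u q (V ∪ W) * b ^ (dE (V ∪ W)).card
      ≤ ((1 + u) ^ C.card * (Z0 u q V * Z0 u q W)) * b ^ (dE (V ∪ W)).card :=
        mul_le_mul_of_nonneg_right h2 (by positivity)
    _ = (Z0 u q V * Z0 u q W) * b ^ ((dE V).card + (dE W).card) := by
        rw [h3, pow_add, pow_mul, hb2]
        ring
    _ = _ := by
        rw [pow_add]
        ring

/-- Supermodularity of the free partition function. -/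
theorem Z0_supermod (hu : 0 < u) (hq : 1 ≤ q) (V W : Finset (Pt d)) :
    Z0 u q V * Z0 u q W ≤ Z0 u q (V ∪ W) * Z0 u q (V ∩ W) := by
  classical
  have key : ∀ (A B : Finset (Pt d)) (s : Finset (Ed d)), A ⊆ B → s ⊆ EI A →
      kap B s = kap A s + (B \ A).card := by
    intro A B s hAB hs
    have h1 : B = A ∪ (B \ A) := (union_sdiff_of_subset hAB).symm
    conv_lhs => rw [h1]
    rw [kap_union disjoint_sdiff]
    · congr 1
      rw [← kap_empty (B \ A)]
      apply kap_congr
      intro e he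
      constructor
      · intro h
        have := mem_EI.mp (hs h)
        simp only [mem_sdiff] at he
        tauto
      · intro h
        simp at h
    · intro e he
      have := mem_EI.mp (hs he)
      simp only [mem_sdiff]
      tauto
  have ext : ∀ A : Finset (Pt d), A ⊆ V ∪ W → Z0 u q A =
      ∑ ω ∈ (EI (V ∪ W)).powerset, (if ω ⊆ EI A then wt u q A ω else 0) := by
    intro A hA
    unfold Z0 Z
    rw [← sum_filter]
    apply sum_congr _ (fun _ _ => rfl)
    ext ω
    simp only [mem_powerset, mem_filter]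
    constructor
    · intro h
      exact ⟨h.trans (EI_mono hA), h⟩
    · exact fun h => h.2
  rw [ext V subset_union_left, ext W subset_union_right, ext (V ∪ W) (subset_refl _),
    ext (V ∩ W) (inter_subset_left.trans subset_union_left), mul_comm (∑ ω ∈ _, _)
      (∑ ω ∈ (EI (V ∪ W)).powerset, if ω ⊆ EI (V ∩ W) then wt u q (V ∩ W) ω else 0)]
  have nn : ∀ (A : Finset (Pt d)) (ω : Finset (Ed d)),
      0 ≤ (if ω ⊆ EI A then wt u q A ω else 0) := by
    intro A ω
    split_ifs
    · exact (wt_pos hu hq _ _).le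
    · exact le_rfl
  rw [mul_comm (∑ ω ∈ (EI (V ∪ W)).powerset, if ω ⊆ EI V then wt u q V ω else 0)]
  rw [mul_comm (∑ ω ∈ (EI (V ∪ W)).powerset, if ω ⊆ EI W then wt u q W ω else 0)]
  refine four_fun _ (nn V) (nn W) (nn (V ∩ W)) (nn (V ∪ W)) ?_
  intro s hs t ht
  by_cases h1 : s ⊆ EI V
  · by_cases h2 : t ⊆ EI W
    · have h3 : s ∩ t ⊆ EI (V ∩ W) := by
        intro e he
        rw [mem_inter] at he
        have := mem_EI.mp (h1 he.1)
        have := mem_EI.mp (h2 he.2)
        rw [mem_EI, mem_inter, mem_inter]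
        tauto
      rw [if_pos h1, if_pos h2, if_pos h3, if_pos (union_subset hs ht)]
      unfold wt
      have h4 : u ^ s.card * u ^ t.card = u ^ (s ∩ t).card * u ^ (s ∪ t).card := by
        rw [← pow_add, ← pow_add, add_comm (s ∩ t).card, card_union_add_card_inter]
      have h5 : kap V s + kap W t ≤ kap (V ∩ W) (s ∩ t) + kap (V ∪ W) (s ∪ t) := by
        have e1 := kap_inf_sup (V ∪ W) (V ∪ W) s t
        rw [inter_self, union_self, key V (V ∪ W) s subset_union_left h1,
          key W (V ∪ W) t subset_union_right h2,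
          key (V ∩ W) (V ∪ W) (s ∩ t) (inter_subset_left.trans subset_union_left) h3] at e1
        have c1 := card_sdiff_add_card_eq_card (subset_union_left : V ⊆ V ∪ W)
        have c2 := card_sdiff_add_card_eq_card (subset_union_right : W ⊆ V ∪ W)
        have c3 := card_sdiff_add_card_eq_card
          (inter_subset_left.trans subset_union_left : V ∩ W ⊆ V ∪ W)
        have c4 := card_union_add_card_inter V W
        omega
      have h6 : q ^ kap V s * q ^ kap W t ≤ q ^ kap (V ∩ W) (s ∩ t) * q ^ kap (V ∪ W) (s ∪ t) := by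
        rw [← pow_add, ← pow_add]
        exact pow_le_pow_right₀ hq h5
      calc u ^ s.card * q ^ kap V s * (u ^ t.card * q ^ kap W t)
          = (u ^ s.card * u ^ t.card) * (q ^ kap V s * q ^ kap W t) := by ring
        _ ≤ (u ^ s.card * u ^ t.card) * (q ^ kap (V ∩ W) (s ∩ t) * q ^ kap (V ∪ W) (s ∪ t)) :=
            mul_le_mul_of_nonneg_left h6 (by positivity)
        _ = _ := by
            rw [h4]
            ring
    · rw [if_neg h2, mul_zero]
      exact mul_nonneg (nn _ _) (nn _ _)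
  · rw [if_neg h1, zero_mul]
    exact mul_nonneg (nn _ _) (nn _ _)

theorem Z0_le_Zw (hu : 0 < u) (hq : 1 ≤ q) (V : Finset (Pt d)) : Z0 u q V ≤ Zw u q V :=
  Z_mono_edges hu hq _ (EI_subset_EB V)

theorem Zw_le (hu : 0 < u) (hq : 1 ≤ q) (V : Finset (Pt d)) :
    Zw u q V ≤ (1 + u) ^ (dE V).card * Z0 u q V := by
  unfold Zw Z0
  have h1 : EB V = EI V ∪ dE V := by
    unfold dE
    rw [union_sdiff_of_subset (EI_subset_EB V)]
  rw [h1]
  exact Z_union_le hu hq _ disjoint_sdiff

theorem Z_empty (E : Finset (Ed d)) : Z u q ∅ E = (1 + u) ^ E.card := by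
  unfold Z wt
  simp only [kap_empty_left, pow_zero, mul_one]
  exact sum_pow_card E u

theorem Z0_upper (hu : 0 < u) (hq : 1 ≤ q) (V : Finset (Pt d)) :
    Z0 u q V ≤ (1 + u) ^ (d * V.card) * q ^ V.card := by
  unfold Z0
  have h1 : Z u q V (EI V) ≤ ∑ ω ∈ (EI V).powerset, u ^ ω.card * q ^ V.card := by
    apply sum_le_sum
    intro ω _
    unfold wt
    exact mul_le_mul_of_nonneg_left (pow_le_pow_right₀ hq (kap_le_card _ _)) (by positivity)
  rw [← sum_mul, sum_pow_card] at h1
  refine h1.trans (mul_le_mul_of_nonneg_right ?_ (by positivity))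
  apply pow_le_pow_right₀ (by linarith)
  have := two_card_EI V
  nlinarith

theorem one_le_Z0 (hu : 0 < u) (hq : 1 ≤ q) (V : Finset (Pt d)) : q ^ V.card ≤ Z0 u q V := by
  unfold Z0 Z
  have h1 : wt u q V ∅ ≤ ∑ ω ∈ (EI V).powerset, wt u q V ω :=
    single_le_sum (f := fun ω => wt u q V ω) (fun _ _ => (wt_pos hu hq _ _).le) (by simp)
  unfold wt at h1 ⊢
  rw [kap_empty] at h1
  simpa using h1

/-! ### Translations -/

/-- Translation of a set of points. -/
def shV (t : Pt d) (V : Finset (Pt d)) : Finset (Pt d) := V.map (addRightEmbedding t)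

/-- Translation of a set of edges. -/
def shE (t : Pt d) (E : Finset (Ed d)) : Finset (Ed d) :=
  E.map ⟨fun e => (e.1 + t, e.2), fun e f h => by
    simp only [Prod.mk.injEq, add_left_inj] at h
    exact Prod.ext h.1 h.2⟩

theorem mem_shV {t x : Pt d} {V : Finset (Pt d)} : x ∈ shV t V ↔ x - t ∈ V := by
  simp only [shV, mem_map, addRightEmbedding_apply]
  constructor
  · rintro ⟨y, hy, rfl⟩
    simpa using hy
  · intro h
    exact ⟨x - t, h, by simp⟩

theorem mem_shE {t : Pt d} {e : Ed d} {E : Finset (Ed d)} :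
    e ∈ shE t E ↔ (e.1 - t, e.2) ∈ E := by
  simp only [shE, mem_map, Function.Embedding.coeFn_mk]
  constructor
  · rintro ⟨f, hf, rfl⟩
    simpa using hf
  · intro h
    exact ⟨_, h, by simp⟩

theorem card_shV (t : Pt d) (V : Finset (Pt d)) : (shV t V).card = V.card := card_map _

theorem card_shE (t : Pt d) (E : Finset (Ed d)) : (shE t E).card = E.card := card_map _

theorem tgt_sub (t : Pt d) (e : Ed d) : tgt (e.1 - t, e.2) = tgt e - t := by
  simp only [tgt]
  abel

theorem EI_shV (t : Pt d) (V : Finset (Pt d)) : EI (shV t V) = shE t (EI V) := by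
  ext e
  rw [mem_EI, mem_shE, mem_EI, mem_shV, mem_shV, tgt_sub]

theorem EB_shV (t : Pt d) (V : Finset (Pt d)) : EB (shV t V) = shE t (EB V) := by
  ext e
  rw [mem_EB, mem_shE, mem_EB, mem_shV, mem_shV, tgt_sub]

theorem dE_shV (t : Pt d) (V : Finset (Pt d)) : dE (shV t V) = shE t (dE V) := by
  ext e
  rw [mem_dE, mem_shE, mem_dE, mem_shV, mem_shV, tgt_sub]

theorem kap_shV (t : Pt d) (V : Finset (Pt d)) (ω : Finset (Ed d)) :
    kap (shV t V) (shE t ω) = kap V ω := by
  unfold kap
  apply LinearEquiv.finrank_eq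
  refine LinearEquiv.ofLinear
    { toFun := fun g => ⟨fun x => g.1 (x + t), fun x hx => g.2.1 _ (by
        rw [mem_shV]
        simpa using hx), fun e he => by
          have := g.2.2 (e.1 + t, e.2) (by
            rw [mem_shE]
            simpa using he)
          simp only [tgt] at this ⊢
          rw [this]
          congr 1
          abel⟩
      map_add' := fun _ _ => rfl
      map_smul' := fun _ _ => rfl }
    { toFun := fun g => ⟨fun x => g.1 (x - t), fun x hx => g.2.1 _ (by
        rw [mem_shV] at hx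
        exact hx), fun e he => by
          rw [mem_shE] at he
          have := g.2.2 _ he
          rw [tgt_sub] at this
          exact this⟩
      map_add' := fun _ _ => rfl
      map_smul' := fun _ _ => rfl } ?_ ?_
  · ext g x
    simp
  · ext g x
    simp

theorem sum_shE {M : Type*} [AddCommMonoid M] (t : Pt d) (E : Finset (Ed d))
    (F : Finset (Ed d) → M) :
    ∑ ω ∈ (shE t E).powerset, F ω = ∑ ω ∈ E.powerset, F (shE t ω) := by
  symm
  apply sum_nbij' (fun ω => shE t ω) (fun ω => shE (-t) ω)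
  · intro ω hω
    rw [mem_powerset] at *
    intro e he
    rw [mem_shE] at *
    exact hω he
  · intro ω hω
    rw [mem_powerset] at *
    intro e he
    rw [mem_shE] at he
    have := hω he
    rw [mem_shE] at this
    simpa using this
  · intro ω _
    ext e
    rw [mem_shE, mem_shE]
    simp
  · intro ω _
    ext e
    rw [mem_shE, mem_shE]
    simp
  · intro _ _
    rfl

theorem Z_shV (t : Pt d) (V : Finset (Pt d)) (E : Finset (Ed d)) :
    Z u q (shV t V) (shE t E) = Z u q V E := by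
  unfold Z
  rw [sum_shE]
  apply sum_congr rfl
  intro ω _
  unfold wt
  rw [kap_shV, card_shE]

theorem Z0_shV (t : Pt d) (V : Finset (Pt d)) : Z0 u q (shV t V) = Z0 u q V := by
  unfold Z0
  rw [EI_shV, Z_shV]

theorem Zw_shV (t : Pt d) (V : Finset (Pt d)) : Zw u q (shV t V) = Zw u q V := by
  unfold Zw
  rw [EB_shV, Z_shV]

/-! ### Boxes -/

/-- The box `[0, N)^d`. -/
noncomputable def Box (d N : ℕ) : Finset (Pt d) := Fintype.piFinset (fun _ => Finset.Ico (0 : ℤ) N)

theorem mem_Box {N : ℕ} {x : Pt d} : x ∈ Box d N ↔ ∀ i, 0 ≤ x i ∧ x i < N := by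
  simp [Box, Fintype.mem_piFinset]

theorem card_Box (N : ℕ) : (Box d N).card = N ^ d := by
  simp [Box, Fintype.card_piFinset]

theorem card_EI_Box (N : ℕ) : (EI (Box d N)).card = d * ((N - 1) * N ^ (d - 1)) := by
  classical
  have h1 : EI (Box d N) = univ.biUnion (fun i : Fin d =>
      (Fintype.piFinset (fun j => Finset.Ico (0 : ℤ) (if j = i then ((N - 1 : ℕ) : ℤ) else N))).map
        ⟨fun x => (x, i), fun x y h => (Prod.mk.inj h).1⟩) := by
    ext e
    simp only [mem_EI, mem_Box, mem_biUnion, mem_univ, true_and, mem_map,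
      Function.Embedding.coeFn_mk, Fintype.mem_piFinset, mem_Ico]
    constructor
    · rintro ⟨h1, h2⟩
      refine ⟨e.2, e.1, fun j => ⟨(h1 j).1, ?_⟩, rfl⟩
      split_ifs with hj
      · subst hj
        have := (h2 e.2).2
        simp only [tgt, Pi.add_apply, Pi.single_eq_same] at this
        omega
      · exact (h1 j).2
    · rintro ⟨i, x, hx, rfl⟩
      have hN : ∀ j, 0 ≤ x j ∧ x j < N ∧ (j = i → x j + 1 < N) := by
        intro j
        have := hx j
        split_ifs at this with hj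
        · refine ⟨this.1, ?_, fun _ => ?_⟩ <;> omega
        · exact ⟨this.1, this.2, fun h => absurd h hj⟩
      refine ⟨fun j => ⟨(hN j).1, (hN j).2.1⟩, fun j => ?_⟩
      simp only [tgt, Pi.add_apply]
      by_cases hj : j = i
      · subst hj
        simp only [Pi.single_eq_same]
        have := hN j
        have := this.2.2 rfl
        omega
      · simp only [Pi.single_eq_of_ne hj]
        have := hN j
        omega
  rw [h1, card_biUnion]
  · simp only [card_map, Fintype.card_piFinset, Int.card_Ico, sub_zero]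
    have h2 : ∀ i : Fin d, ∏ j : Fin d, (if j = i then ((N - 1 : ℕ) : ℤ) else (N : ℤ)).toNat =
        (N - 1) * N ^ (d - 1) := by
      intro i
      rw [← mul_prod_erase univ _ (mem_univ i)]
      rw [if_pos rfl, Int.toNat_natCast]
      congr 1
      rw [prod_congr rfl (g := fun _ => N)]
      · rw [prod_const, card_erase_of_mem (mem_univ i), card_univ, Fintype.card_fin]
      · intro j hj
        rw [if_neg (ne_of_mem_erase hj), Int.toNat_natCast]
    rw [sum_congr rfl (fun i _ => h2 i), sum_const, card_univ, Fintype.card_fin, smul_eq_mul]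
  · intro i _ j _ hij
    rw [Function.onFun, Finset.disjoint_left]
    intro e he he'
    rw [mem_map] at he he'
    obtain ⟨x, _, rfl⟩ := he
    obtain ⟨y, _, h⟩ := he'
    exact hij (Prod.mk.inj h).2.symm

theorem card_dE_Box (hd : 1 ≤ d) {N : ℕ} (hN : 1 ≤ N) :
    (dE (Box d N)).card = 2 * d * N ^ (d - 1) := by
  have h1 := two_card_EI (Box d N)
  rw [card_EI_Box, card_Box] at h1
  obtain ⟨n, rfl⟩ : ∃ n, N = n + 1 := ⟨N - 1, by omega⟩
  obtain ⟨k, rfl⟩ : ∃ k, d = k + 1 := ⟨d - 1, by omega⟩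
  simp only [Nat.add_sub_cancel] at h1 ⊢
  have h2 : (n + 1) ^ (k + 1) = n * (n + 1) ^ k + (n + 1) ^ k := by ring
  rw [h2] at h1
  nlinarith [h1]

end Pool.Agent.Lib.MP_31386d_pr
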