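import Pool.Agent.Lib.MP_31386d_pr.Defs

/-!
# Projections, boundaries and lines
-/

set_option autoImplicit false

namespace Pool.Agent.Lib.MP_31386d_pr

open Finset

variable {d : ℕ}

namespace LinesAux

/-- The projection along direction `j`. -/
def pj (j : Fin d) (x : Pt d) : Pt d := Function.update x j 0

theorem pj_add (j : Fin d) (x : Pt d) (t : ℤ) : pj j (x + Pi.single j t) = pj j x := by
  funext k
  unfold pj
  by_cases hk : k = j
  · subst hk; rw [Function.update_self, Function.update_self]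
  · rw [Function.update_of_ne hk, Function.update_of_ne hk, Pi.add_apply,
      Pi.single_eq_of_ne hk, add_zero]

theorem card_top (A : Finset (Pt d)) (j : Fin d) :
    (A.image (pj j)).card ≤ (A.filter (fun x => x + Pi.single j 1 ∉ A)).card := by
  classical
  refine le_trans (card_le_card (t := (A.filter (fun x => x + Pi.single j 1 ∉ A)).image (pj j))
    ?_) card_image_le
  intro p hp
  rw [mem_image] at hp
  obtain ⟨x0, hx0, hp0⟩ := hp
  have hne : (A.filter (fun x => pj j x = p)).Nonempty := ⟨x0, mem_filter.2 ⟨hx0, hp0⟩⟩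
  obtain ⟨x, hx, hmax⟩ := exists_max_image (A.filter (fun x => pj j x = p)) (fun x => x j) hne
  rw [mem_filter] at hx
  rw [mem_image]
  refine ⟨x, mem_filter.2 ⟨hx.1, fun h => ?_⟩, hx.2⟩
  have h1 := hmax (x + Pi.single j 1) (mem_filter.2 ⟨h, by rw [pj_add, hx.2]⟩)
  simp only [Pi.add_apply, Pi.single_eq_same] at h1
  omega

theorem card_bot (A : Finset (Pt d)) (j : Fin d) :
    (A.image (pj j)).card ≤ (A.filter (fun x => x - Pi.single j 1 ∉ A)).card := by
  classical
  refine le_trans (card_le_card (t := (A.filter (fun x => x - Pi.single j 1 ∉ A)).image (pj j))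
    ?_) card_image_le
  intro p hp
  rw [mem_image] at hp
  obtain ⟨x0, hx0, hp0⟩ := hp
  have hne : (A.filter (fun x => pj j x = p)).Nonempty := ⟨x0, mem_filter.2 ⟨hx0, hp0⟩⟩
  obtain ⟨x, hx, hmin⟩ := exists_min_image (A.filter (fun x => pj j x = p)) (fun x => x j) hne
  rw [mem_filter] at hx
  rw [mem_image]
  refine ⟨x, mem_filter.2 ⟨hx.1, fun h => ?_⟩, hx.2⟩
  have h2 : pj j (x - Pi.single j 1) = p := by
    have h3 := pj_add j (x - Pi.single j 1) 1
    rw [sub_add_cancel] at h3
    rw [← h3, hx.2]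
  have h1 := hmin (x - Pi.single j 1) (mem_filter.2 ⟨h, h2⟩)
  simp only [Pi.sub_apply, Pi.single_eq_same] at h1
  omega

theorem two_mul_le_fiber (A : Finset (Pt d)) (j : Fin d) :
    2 * (A.image (pj j)).card ≤ ((dE A).filter (fun e => e.2 = j)).card := by
  classical
  set T := (A.filter (fun x => x + Pi.single j 1 ∉ A)).image
    (fun x => ((x, j) : Ed d)) with hT
  set B := (A.filter (fun x => x - Pi.single j 1 ∉ A)).image
    (fun x => ((x - Pi.single j 1, j) : Ed d)) with hB
  have hTc : T.card = (A.filter (fun x => x + Pi.single j 1 ∉ A)).card := by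
    rw [hT, card_image_of_injective]
    intro x y h
    exact (Prod.mk.inj h).1
  have hBc : B.card = (A.filter (fun x => x - Pi.single j 1 ∉ A)).card := by
    rw [hB, card_image_of_injective]
    intro x y h
    have := (Prod.mk.inj h).1
    exact sub_left_injective this
  have hdisj : Disjoint T B := by
    rw [Finset.disjoint_left]
    intro e he he'
    rw [hT, mem_image] at he
    rw [hB, mem_image] at he'
    obtain ⟨x, hx, rfl⟩ := he
    obtain ⟨y, hy, hxy⟩ := he'
    rw [mem_filter] at hx hy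
    have := (Prod.mk.inj hxy).1
    apply hy.2
    rw [this]
    exact hx.1
  have hsub : T ∪ B ⊆ (dE A).filter (fun e => e.2 = j) := by
    intro e he
    rw [mem_union] at he
    rw [mem_filter, mem_dE]
    rcases he with he | he
    · rw [hT, mem_image] at he
      obtain ⟨x, hx, rfl⟩ := he
      rw [mem_filter] at hx
      exact ⟨Or.inl ⟨hx.1, hx.2⟩, rfl⟩
    · rw [hB, mem_image] at he
      obtain ⟨x, hx, rfl⟩ := he
      rw [mem_filter] at hx
      refine ⟨Or.inr ⟨hx.2, ?_⟩, rfl⟩
      unfold tgt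
      rw [sub_add_cancel]
      exact hx.1
  have h1 : T.card + B.card ≤ ((dE A).filter (fun e => e.2 = j)).card := by
    rw [← card_union_of_disjoint hdisj]
    exact card_le_card hsub
  have h2 : (A.image (pj j)).card ≤ T.card := by
    rw [hTc]; exact card_top A j
  have h3 : (A.image (pj j)).card ≤ B.card := by
    rw [hBc]; exact card_bot A j
  calc 2 * (A.image (pj j)).card = (A.image (pj j)).card + (A.image (pj j)).card := two_mul _
    _ ≤ T.card + B.card := Nat.add_le_add h2 h3
    _ ≤ _ := h1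

theorem proj_sum_le (A : Finset (Pt d)) :
    2 * ∑ j : Fin d, (A.image (pj j)).card ≤ (dE A).card := by
  classical
  rw [card_eq_sum_card_fiberwise (f := fun e : Ed d => e.2) (t := univ)
    (fun _ _ => mem_coe.2 (mem_univ _)), mul_sum]
  exact sum_le_sum fun j _ => two_mul_le_fiber A j

end LinesAux

open LinesAux

theorem two_mul_proj_le (A : Finset (Pt d)) :
    2 * ∑ j : Fin d, (A.image (fun x => Function.update x j 0)).card ≤ (dE A).card :=
  proj_sum_le A

theorem four_d_le (A : Finset (Pt d)) (hA : 2 ≤ A.card) : 4 * d - 2 ≤ (dE A).card := by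
  classical
  obtain ⟨x, hx, y, hy, hxy⟩ := one_lt_card.1 (show 1 < A.card by omega)
  obtain ⟨i, hi⟩ : ∃ i, x i ≠ y i := Function.ne_iff.1 hxy
  have h1 := proj_sum_le A
  have h2 : ∀ j : Fin d, (if j = i then 1 else 2) ≤ (A.image (pj j)).card := by
    intro j
    split_ifs with hj
    · exact card_pos.2 ⟨pj j x, mem_image_of_mem _ hx⟩
    · refine one_lt_card.2 ⟨pj j x, mem_image_of_mem _ hx, pj j y, mem_image_of_mem _ hy, ?_⟩
      intro h
      apply hi
      have := congrFun h i
      unfold pj at this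
      rwa [Function.update_of_ne (Ne.symm hj), Function.update_of_ne (Ne.symm hj)] at this
  have h3 : ∑ j : Fin d, (if j = i then 1 else 2) ≤ ∑ j : Fin d, (A.image (pj j)).card :=
    sum_le_sum fun j _ => h2 j
  have h4 : ∑ j : Fin d, (if j = i then 1 else 2) = 2 * d - 1 := by
    rw [← add_sum_erase univ _ (mem_univ i), if_pos rfl,
      sum_congr rfl (g := fun _ => 2) (fun j hj => if_neg (ne_of_mem_erase hj)), sum_const,
      card_erase_of_mem (mem_univ i), card_univ, Fintype.card_fin, smul_eq_mul]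
    have := i.2
    omega
  have := i.2
  omega

theorem iso (hd : 2 ≤ d) (A : Finset (Pt d)) (hA : A.Nonempty) (k : ℕ) (hk : k ^ d ≤ A.card) :
    2 * k ≤ (dE A).card := by
  classical
  have h1 := proj_sum_le A
  have h2 : ∀ i : Fin d, (A.image (fun x => x i)).card ≤ (dE A).card / 2 := by
    intro i
    obtain ⟨j, hj⟩ : ∃ j : Fin d, j ≠ i := by
      by_cases h0 : i.1 = 0
      · exact ⟨⟨1, by omega⟩, fun h => by rw [← h] at h0; simp at h0⟩
      · exact ⟨⟨0, by omega⟩, fun h => h0 (by rw [← h])⟩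
    have h3 : A.image (fun x => x i) ⊆ (A.image (pj j)).image (fun x => x i) := by
      intro v hv
      rw [mem_image] at hv
      obtain ⟨x, hx, rfl⟩ := hv
      rw [mem_image]
      refine ⟨pj j x, mem_image_of_mem _ hx, ?_⟩
      unfold pj
      rw [Function.update_of_ne (Ne.symm hj)]
    have h4 := (card_le_card h3).trans card_image_le
    have h5 : (A.image (pj j)).card ≤ ∑ j : Fin d, (A.image (pj j)).card :=
      single_le_sum (f := fun j => (A.image (pj j)).card) (fun _ _ => Nat.zero_le _) (mem_univ j)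
    omega
  have h3 : A ⊆ Fintype.piFinset (fun i => A.image (fun x => x i)) := by
    intro x hx
    rw [Fintype.mem_piFinset]
    intro i
    exact mem_image_of_mem _ hx
  have h4 := card_le_card h3
  rw [Fintype.card_piFinset] at h4
  have h5 : ∏ i : Fin d, (A.image (fun x => x i)).card ≤ ((dE A).card / 2) ^ d := by
    calc ∏ i : Fin d, (A.image (fun x => x i)).card ≤ ∏ _i : Fin d, (dE A).card / 2 :=
          prod_le_prod' fun i _ => h2 i
      _ = ((dE A).card / 2) ^ d := by rw [prod_const, card_univ, Fintype.card_fin]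
  have h6 : k ^ d ≤ ((dE A).card / 2) ^ d := hk.trans (h4.trans h5)
  have h7 : k ≤ (dE A).card / 2 := by
    by_contra hcon
    have := Nat.pow_lt_pow_left (not_le.1 hcon) (show d ≠ 0 by omega)
    omega
  omega

namespace LinesAux

/-- Lines of direction `j` in the box. -/
noncomputable def Ln (d N : ℕ) (j : Fin d) : Finset (Pt d) := (Box d N).image (pj j)

theorem pj_mem_Box {N : ℕ} (hN : 1 ≤ N) {x : Pt d} (hx : x ∈ Box d N) (j : Fin d) :
    pj j x ∈ Box d N := by
  rw [mem_Box] at *
  intro i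
  unfold pj
  by_cases hi : i = j
  · subst hi; rw [Function.update_self]; omega
  · rw [Function.update_of_ne hi]; exact hx i

theorem update_mem_Box {N : ℕ} {x : Pt d} (hx : x ∈ Box d N) (j : Fin d) {t : ℤ}
    (ht : t ∈ Finset.Ico (0 : ℤ) N) : Function.update x j t ∈ Box d N := by
  rw [mem_Ico] at ht
  rw [mem_Box] at *
  intro i
  by_cases hi : i = j
  · subst hi; rw [Function.update_self]; exact ht
  · rw [Function.update_of_ne hi]; exact hx i

theorem mem_Ln_zero {N : ℕ} {j : Fin d} {p : Pt d} (hp : p ∈ Ln d N j) : p j = 0 := by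
  unfold Ln at hp
  rw [mem_image] at hp
  obtain ⟨x, _, rfl⟩ := hp
  unfold pj
  rw [Function.update_self]

theorem mem_Ln_Box {N : ℕ} (hN : 1 ≤ N) {j : Fin d} {p : Pt d} (hp : p ∈ Ln d N j) :
    p ∈ Box d N := by
  unfold Ln at hp
  rw [mem_image] at hp
  obtain ⟨x, hx, rfl⟩ := hp
  exact pj_mem_Box hN hx j

theorem pj_update (j : Fin d) (p : Pt d) (t : ℤ) (hp : p j = 0) :
    pj j (Function.update p j t) = p := by
  unfold pj
  rw [Function.update_idem]
  conv_rhs => rw [← Function.update_eq_self j p, hp]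

theorem update_pj (j : Fin d) (x : Pt d) : Function.update (pj j x) j (x j) = x := by
  unfold pj
  rw [Function.update_idem, Function.update_eq_self]

/-- The points of a set of lines. -/
theorem card_lines {N : ℕ} (hN : 1 ≤ N) (j : Fin d) (S : Finset (Pt d)) (hS : S ⊆ Ln d N j) :
    ((Box d N).filter (fun x => pj j x ∈ S)).card = S.card * N := by
  classical
  have h1 : (S ×ˢ Finset.Ico (0 : ℤ) N).card = S.card * N := by
    rw [card_product, Int.card_Ico, sub_zero, Int.toNat_natCast]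
  rw [← h1]
  refine card_nbij' (fun x => (pj j x, x j)) (fun q => Function.update q.1 j q.2) ?_ ?_ ?_ ?_
  · intro x hx
    rw [mem_coe, mem_filter] at hx
    rw [mem_coe, mem_product, mem_Ico]
    exact ⟨hx.2, (mem_Box.1 hx.1) j⟩
  · intro q hq
    rw [mem_coe, mem_product] at hq
    rw [mem_coe, mem_filter, pj_update j _ _ (mem_Ln_zero (hS hq.1))]
    exact ⟨update_mem_Box (mem_Ln_Box hN (hS hq.1)) j hq.2, hq.1⟩
  · intro x _
    exact update_pj j x
  · intro q hq
    rw [mem_coe, mem_product] at hq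
    dsimp only
    rw [pj_update j _ _ (mem_Ln_zero (hS hq.1)), Function.update_self]

theorem card_Ln {N : ℕ} (hN : 1 ≤ N) (j : Fin d) : (Ln d N j).card * N = N ^ d := by
  rw [← card_lines hN j _ Subset.rfl, ← card_Box (d := d) N]
  congr 1
  apply filter_true_of_mem
  intro x hx
  exact mem_image_of_mem _ hx

/-- Coordinates below `j` from `y`, the others from `x`. -/
def mix (j : ℕ) (x y : Pt d) : Pt d := fun k => if (k : ℕ) < j then y k else x k

theorem mix_mem_Box {N : ℕ} {x y : Pt d} (hx : x ∈ Box d N) (hy : y ∈ Box d N) (j : ℕ) :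
    mix j x y ∈ Box d N := by
  rw [mem_Box] at *
  intro i
  unfold mix
  split_ifs
  · exact hy i
  · exact hx i

theorem mix_mix (j : ℕ) (x y : Pt d) : mix j (mix j x y) (mix j y x) = x := by
  funext k
  unfold mix
  split_ifs <;> rfl

theorem card_mix {N : ℕ} (j : ℕ) (Q : Pt d → Prop) [DecidablePred Q] :
    ((Box d N ×ˢ Box d N).filter (fun q => Q (mix j q.1 q.2))).card =
      ((Box d N).filter Q).card * N ^ d := by
  classical
  have h1 : ((Box d N).filter Q ×ˢ Box d N).card = ((Box d N).filter Q).card * N ^ d := by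
    rw [card_product, card_Box]
  rw [← h1]
  refine card_nbij' (fun q => (mix j q.1 q.2, mix j q.2 q.1))
    (fun q => (mix j q.1 q.2, mix j q.2 q.1)) ?_ ?_ ?_ ?_
  · intro q hq
    rw [mem_coe, mem_filter, mem_product] at hq
    rw [mem_coe, mem_product, mem_filter]
    exact ⟨⟨mix_mem_Box hq.1.1 hq.1.2 j, hq.2⟩, mix_mem_Box hq.1.2 hq.1.1 j⟩
  · intro q hq
    rw [mem_coe, mem_product, mem_filter] at hq
    rw [mem_coe, mem_filter, mem_product]
    refine ⟨⟨mix_mem_Box hq.1.1 hq.2 j, mix_mem_Box hq.2 hq.1.1 j⟩, ?_⟩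
    rw [mix_mix]
    exact hq.1.2
  · intro q _
    exact Prod.ext (mix_mix j q.1 q.2) (mix_mix j q.2 q.1)
  · intro q _
    exact Prod.ext (mix_mix j q.1 q.2) (mix_mix j q.2 q.1)

theorem mix_zero (x y : Pt d) : mix 0 x y = x := by
  funext k; unfold mix; rw [if_neg (Nat.not_lt_zero _)]

theorem mix_d (x y : Pt d) : mix d x y = y := by
  funext k; unfold mix; rw [if_pos k.2]

theorem pj_mix_succ (j : Fin d) (x y : Pt d) :
    pj j (mix (j.1 + 1) x y) = pj j (mix j.1 x y) := by
  funext k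
  unfold pj
  by_cases hk : k = j
  · subst hk; rw [Function.update_self, Function.update_self]
  · rw [Function.update_of_ne hk, Function.update_of_ne hk]
    unfold mix
    have hkj : (k : ℕ) ≠ (j : ℕ) := fun h => hk (Fin.ext h)
    by_cases h : (k : ℕ) < (j : ℕ)
    · rw [if_pos h, if_pos (by omega)]
    · rw [if_neg h, if_neg (by omega)]

end LinesAux

open Classical in
theorem lines_bound (hd : 1 ≤ d) (N : ℕ) (hN : 1 ≤ N) (𝒜 : Finset (Finset (Pt d)))
    (hsub : ∀ A ∈ 𝒜, A ⊆ Box d N) (hdisj : ∀ A ∈ 𝒜, ∀ B ∈ 𝒜, A ≠ B → Disjoint A B)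
    (η γ : ℝ) (hγ0 : 0 ≤ γ) (hcov : ((Box d N \ 𝒜.biUnion id).card : ℝ) ≤ η * (N : ℝ) ^ d)
    (hγ : ∀ A ∈ 𝒜, (A.card : ℝ) ≤ γ * (N : ℝ) ^ d) :
    (2 * d * (1 - η) + 2 * (1 - γ - (d + 1) * η)) * (N : ℝ) ^ (d - 1) ≤
      ∑ A ∈ 𝒜, ((dE A).card : ℝ) := by
  set U := Box d N \ 𝒜.biUnion id with hU
  -- number of sets meeting a line
  set nu : Fin d → Pt d → ℕ := fun j p => (𝒜.filter (fun A => p ∈ A.image (pj j))).card with hnu
  set S0 : Fin d → Finset (Pt d) := fun j => (Ln d N j).filter (fun p => nu j p = 0) with hS0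
  set S2 : Fin d → Finset (Pt d) := fun j => (Ln d N j).filter (fun p => 2 ≤ nu j p) with hS2
  have covered : ∀ x ∈ Box d N, x ∉ U → ∃ A ∈ 𝒜, x ∈ A := by
    intro x hx hxU
    by_contra hcon
    push Not at hcon
    apply hxU
    rw [hU, mem_sdiff, mem_biUnion]
    refine ⟨hx, ?_⟩
    rintro ⟨A, hA, hxA⟩
    exact hcon A hA hxA
  -- (F1)
  have F1 : ∀ j, (S0 j).card * N ≤ U.card := by
    intro j
    rw [← card_lines hN j (S0 j) (filter_subset _ _)]
    refine card_le_card fun x hx => ?_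
    rw [mem_filter] at hx
    rw [hU, mem_sdiff, mem_biUnion]
    refine ⟨hx.1, ?_⟩
    rintro ⟨A, hA, hxA⟩
    have h1 := hx.2
    simp only [hS0, mem_filter, hnu] at h1
    have h2 := card_eq_zero.1 h1.2
    have h3 : A ∈ 𝒜.filter (fun A => pj j x ∈ A.image (pj j)) :=
      mem_filter.2 ⟨hA, mem_image_of_mem _ hxA⟩
    rw [h2] at h3
    exact absurd h3 (notMem_empty _)
  -- (F3)
  have F3 : ∀ j, (Ln d N j).card + (S2 j).card ≤
      ∑ A ∈ 𝒜, (A.image (pj j)).card + (S0 j).card := by
    intro j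
    have h1 : ∑ A ∈ 𝒜, (A.image (pj j)).card = ∑ p ∈ Ln d N j, nu j p := by
      have h2 : ∀ A ∈ 𝒜, (A.image (pj j)).card =
          ∑ p ∈ Ln d N j, if p ∈ A.image (pj j) then 1 else 0 := by
        intro A hA
        rw [← card_filter]
        congr 1
        ext p
        rw [mem_filter]
        refine ⟨fun hp => ⟨?_, hp⟩, fun hp => hp.2⟩
        rw [mem_image] at hp
        obtain ⟨x, hx, rfl⟩ := hp
        exact mem_image_of_mem _ (hsub A hA hx)
      rw [sum_congr rfl h2, sum_comm]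
      refine sum_congr rfl fun p _ => ?_
      simp only [hnu]
      rw [card_filter]
    rw [h1]
    have h3 : (Ln d N j).card = ∑ p ∈ Ln d N j, 1 := by rw [card_eq_sum_ones]
    have h4 : (S2 j).card = ∑ p ∈ Ln d N j, if 2 ≤ nu j p then 1 else 0 := by
      rw [hS2, card_filter]
    have h5 : (S0 j).card = ∑ p ∈ Ln d N j, if nu j p = 0 then 1 else 0 := by
      rw [hS0, card_filter]
    rw [h3, h4, h5, ← sum_add_distrib, ← sum_add_distrib]
    refine sum_le_sum fun p _ => ?_
    split_ifs <;> omega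
  -- (F4)
  have F4 : N ^ d * N ^ d ≤ (d + 1) * (U.card * N ^ d) + ∑ A ∈ 𝒜, A.card * A.card +
      ∑ j : Fin d, (S2 j).card * N * N ^ d := by
    have h1 : Box d N ×ˢ Box d N ⊆
        ((range (d + 1)).biUnion fun j =>
          (Box d N ×ˢ Box d N).filter (fun q => mix j q.1 q.2 ∈ U)) ∪
        (𝒜.biUnion fun A => A ×ˢ A) ∪
        ((univ : Finset (Fin d)).biUnion fun j =>
          (Box d N ×ˢ Box d N).filter (fun q => pj j (mix j.1 q.1 q.2) ∈ S2 j)) := by
      intro q hq
      by_contra hcon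
      rw [mem_union, mem_union, not_or, not_or] at hcon
      obtain ⟨⟨hc1, hc2⟩, hc3⟩ := hcon
      have hq' := mem_product.1 hq
      have hcorner : ∀ j ≤ d, ∃ A ∈ 𝒜, mix j q.1 q.2 ∈ A := by
        intro j hj
        apply covered _ (mix_mem_Box hq'.1 hq'.2 j)
        intro hm
        apply hc1
        rw [mem_biUnion]
        exact ⟨j, mem_range.2 (by omega), mem_filter.2 ⟨hq, hm⟩⟩
      obtain ⟨A, hA, hxA⟩ := hcorner 0 (Nat.zero_le _)
      have hall : ∀ j ≤ d, mix j q.1 q.2 ∈ A := by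
        intro j
        induction j with
        | zero => intro _; exact hxA
        | succ j ih =>
          intro hj
          have h2 := ih (by omega)
          obtain ⟨B, hB, hxB⟩ := hcorner (j + 1) hj
          by_cases hAB : A = B
          · rw [hAB]; exact hxB
          · exfalso
            apply hc3
            rw [mem_biUnion]
            refine ⟨⟨j, by omega⟩, mem_univ _, mem_filter.2 ⟨hq, ?_⟩⟩
            simp only [hS2]
            rw [mem_filter]
            refine ⟨mem_image_of_mem _ (mix_mem_Box hq'.1 hq'.2 j), ?_⟩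
            simp only [hnu]
            refine one_lt_card.2 ⟨A, mem_filter.2 ⟨hA, mem_image_of_mem _ h2⟩, B,
              mem_filter.2 ⟨hB, ?_⟩, hAB⟩
            rw [← pj_mix_succ ⟨j, by omega⟩]
            exact mem_image_of_mem _ hxB
      apply hc2
      rw [mem_biUnion]
      refine ⟨A, hA, mem_product.2 ⟨?_, ?_⟩⟩
      · have := hall 0 (Nat.zero_le _)
        rwa [mix_zero] at this
      · have := hall d le_rfl
        rwa [mix_d] at this
    have h2 := card_le_card h1
    rw [card_product, card_Box] at h2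
    refine h2.trans ((card_union_le _ _).trans (Nat.add_le_add ((card_union_le _ _).trans
      (Nat.add_le_add ?_ ?_)) ?_))
    · refine card_biUnion_le.trans ?_
      have h3 : ∀ j ∈ range (d + 1),
          ((Box d N ×ˢ Box d N).filter (fun q => mix j q.1 q.2 ∈ U)).card ≤ U.card * N ^ d := by
        intro j _
        have h4 := card_mix (d := d) (N := N) j (fun x => x ∈ U)
        refine le_trans (le_of_eq h4) (Nat.mul_le_mul_right _ (card_le_card ?_))
        intro x hx
        exact (mem_filter.1 hx).2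
      refine (sum_le_sum h3).trans (le_of_eq ?_)
      rw [sum_const, card_range, smul_eq_mul]
    · refine card_biUnion_le.trans (le_of_eq (sum_congr rfl fun A _ => card_product _ _))
    · refine card_biUnion_le.trans (sum_le_sum fun j _ => le_of_eq ?_)
      have h4 := card_mix (d := d) (N := N) j.1 (fun x => pj j x ∈ S2 j)
      refine h4.trans ?_
      rw [← card_lines hN j (S2 j) (filter_subset _ _)]
  -- the final computation
  have hNpos : (0 : ℝ) < (N : ℝ) := by exact_mod_cast hN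
  have hNd : (N : ℝ) ^ d = (N : ℝ) ^ (d - 1) * (N : ℝ) := by
    rw [← pow_succ]; congr 1; omega
  set P : ℝ := (N : ℝ) ^ (d - 1) with hP
  have hPpos : 0 < P := by positivity
  have G1 : ∀ j, ((S0 j).card : ℝ) ≤ η * P := by
    intro j
    have h1 : ((S0 j).card : ℝ) * N ≤ (U.card : ℝ) := by exact_mod_cast F1 j
    have h2 : ((S0 j).card : ℝ) * N ≤ (η * P) * N := by
      calc ((S0 j).card : ℝ) * N ≤ (U.card : ℝ) := h1
        _ ≤ η * (N : ℝ) ^ d := hcov
        _ = (η * P) * N := by rw [hNd]; ring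
    exact le_of_mul_le_mul_right h2 hNpos
  have G2 : ∀ j : Fin d, ((Ln d N j).card : ℝ) = P := by
    intro j
    have h1 : ((Ln d N j).card : ℝ) * N = (N : ℝ) ^ d := by exact_mod_cast card_Ln hN j
    rw [hNd] at h1
    exact mul_right_cancel₀ hNpos.ne' h1
  have G3 : ∀ j, P * (1 - η) + ((S2 j).card : ℝ) ≤ ∑ A ∈ 𝒜, ((A.image (pj j)).card : ℝ) := by
    intro j
    have h1 : ((Ln d N j).card : ℝ) + ((S2 j).card : ℝ) ≤
        ∑ A ∈ 𝒜, ((A.image (pj j)).card : ℝ) + ((S0 j).card : ℝ) := by exact_mod_cast F3 j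
    have h2 := G1 j
    rw [G2 j] at h1
    linarith
  have G4 : 2 * ∑ j : Fin d, ∑ A ∈ 𝒜, ((A.image (pj j)).card : ℝ) ≤
      ∑ A ∈ 𝒜, ((dE A).card : ℝ) := by
    rw [sum_comm, mul_sum]
    refine sum_le_sum fun A _ => ?_
    have := proj_sum_le A
    exact_mod_cast this
  have G5 : 2 * (d * (P * (1 - η)) + ∑ j : Fin d, ((S2 j).card : ℝ)) ≤
      ∑ A ∈ 𝒜, ((dE A).card : ℝ) := by
    refine le_trans (mul_le_mul_of_nonneg_left ?_ (by norm_num)) G4
    calc (d * (P * (1 - η)) + ∑ j : Fin d, ((S2 j).card : ℝ))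
        = ∑ j : Fin d, (P * (1 - η) + ((S2 j).card : ℝ)) := by
          rw [sum_add_distrib, sum_const, card_univ, Fintype.card_fin, nsmul_eq_mul]
      _ ≤ _ := sum_le_sum fun j _ => G3 j
  -- sum of squares
  have G6 : ∑ A ∈ 𝒜, (A.card : ℝ) ≤ (N : ℝ) ^ d := by
    have h1 : (𝒜.biUnion id).card = ∑ A ∈ 𝒜, A.card := by
      rw [card_biUnion]
      · rfl
      · intro A hA B hB hAB
        exact hdisj A hA B hB hAB
    have h2 : (𝒜.biUnion id).card ≤ N ^ d := by
      rw [← card_Box (d := d) N]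
      refine card_le_card ?_
      intro x hx
      rw [mem_biUnion] at hx
      obtain ⟨A, hA, hxA⟩ := hx
      exact hsub A hA hxA
    rw [h1] at h2
    exact_mod_cast h2
  have G7 : ∑ A ∈ 𝒜, (A.card : ℝ) * (A.card : ℝ) ≤ γ * (N : ℝ) ^ d * (N : ℝ) ^ d := by
    calc ∑ A ∈ 𝒜, (A.card : ℝ) * (A.card : ℝ)
        ≤ ∑ A ∈ 𝒜, (γ * (N : ℝ) ^ d) * (A.card : ℝ) :=
          sum_le_sum fun A hA => mul_le_mul_of_nonneg_right (hγ A hA) (Nat.cast_nonneg _)
      _ = (γ * (N : ℝ) ^ d) * ∑ A ∈ 𝒜, (A.card : ℝ) := by rw [mul_sum]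
      _ ≤ _ := mul_le_mul_of_nonneg_left G6 (by positivity)
  have G8 : (N : ℝ) ^ d * (N : ℝ) ^ d ≤ (d + 1) * ((U.card : ℝ) * (N : ℝ) ^ d) +
      ∑ A ∈ 𝒜, (A.card : ℝ) * (A.card : ℝ) +
      ∑ j : Fin d, ((S2 j).card : ℝ) * N * (N : ℝ) ^ d := by exact_mod_cast F4
  have G9 : (1 - γ - (d + 1) * η) * P ≤ ∑ j : Fin d, ((S2 j).card : ℝ) := by
    rw [← sum_mul, ← sum_mul] at G8
    have hM : (0 : ℝ) < (N : ℝ) ^ d := by positivity
    have h1 : (d + 1) * ((U.card : ℝ) * (N : ℝ) ^ d) ≤
        (d + 1) * ((η * (N : ℝ) ^ d) * (N : ℝ) ^ d) := by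
      refine mul_le_mul_of_nonneg_left (mul_le_mul_of_nonneg_right hcov hM.le) (by positivity)
    have h2 : ((1 - γ - (d + 1) * η) * (N : ℝ) ^ d) * (N : ℝ) ^ d ≤
        ((∑ j : Fin d, ((S2 j).card : ℝ)) * N) * (N : ℝ) ^ d := by
      nlinarith [h1, G7, G8]
    have h3 := le_of_mul_le_mul_right h2 hM
    rw [hNd] at h3
    have h4 : ((1 - γ - (d + 1) * η) * P) * N ≤ (∑ j : Fin d, ((S2 j).card : ℝ)) * N := by
      calc ((1 - γ - (d + 1) * η) * P) * N = (1 - γ - (d + 1) * η) * (P * N) := by ring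
        _ ≤ _ := h3
    exact le_of_mul_le_mul_right h4 hNpos
  calc (2 * d * (1 - η) + 2 * (1 - γ - (d + 1) * η)) * P
      = 2 * (d * (P * (1 - η)) + (1 - γ - (d + 1) * η) * P) := by ring
    _ ≤ 2 * (d * (P * (1 - η)) + ∑ j : Fin d, ((S2 j).card : ℝ)) := by linarith
    _ ≤ _ := G5

end Pool.Agent.Lib.MP_31386d_pr
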