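import Pool.Agent.Lib.MP_31386d_pr.Moment
import Pool.Agent.Lib.MP_31386d_pr.Arm

/-!
# Small edge parameter: no percolation
-/

set_option autoImplicit false

namespace Pool.Agent.Lib.MP_31386d_pr

open Finset

variable {d : ℕ} {u q : ℝ}

open Classical in
/-- The vertices of `Λ` connected to the outside. -/
noncomputable def OutS (Λ : Finset (Pt d)) (ω : Finset (Ed d)) : Finset (Pt d) :=
  Λ.filter (fun x => Out Λ ω x)

theorem mem_OutS {Λ : Finset (Pt d)} {ω : Finset (Ed d)} {x : Pt d} :
    x ∈ OutS Λ ω ↔ x ∈ Λ ∧ Out Λ ω x := by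
  classical
  unfold OutS
  rw [mem_filter]

/-- The mean number of vertices connected to the outside. -/
theorem Ex_card_OutS (Λ : Finset (Pt d)) (E : Finset (Ed d)) :
    Ex u q Λ E (fun ω => ((OutS Λ ω).card : ℝ)) = ∑ x ∈ Λ, Pb u q Λ E (fun ω => Out Λ ω x) := by
  classical
  unfold Pb
  rw [← Ex_sum]
  apply Ex_congr
  intro ω _
  unfold OutS
  rw [card_filter]
  push_cast
  rfl

/-- The weight of the configurations with a given set of vertices connected to the outside. -/
theorem weight_out (hu : 0 < u) (hq : 1 ≤ q) {Λ K : Finset (Pt d)} (hK : K ⊆ Λ) :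
    ∑ ω ∈ Cfg (EB Λ) (fun ω => OutS Λ ω = K), wt u q Λ ω ≤
      (1 + u) ^ (EB K \ dE (Λ \ K)).card * Z0 u q (Λ \ K) := by
  classical
  set H := Λ \ K with hH
  have hΛ : Λ = K ∪ H := (union_sdiff_of_subset hK).symm
  have hdΛ : Disjoint K H := disjoint_sdiff
  set E₁ := EB K \ dE H with hE₁
  have hE₁H : ∀ e ∈ E₁, e.1 ∉ H ∧ tgt e ∉ H := by
    intro e he
    rw [hE₁, mem_sdiff, mem_EB, mem_dE, hH, mem_sdiff, mem_sdiff] at he
    rw [hH, mem_sdiff, mem_sdiff]
    tauto
  have hE₂ : ∀ e ∈ EI H, e.1 ∉ K ∧ tgt e ∉ K := by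
    intro e he
    rw [mem_EI, hH, mem_sdiff, mem_sdiff] at he
    tauto
  have hdis : Disjoint E₁ (EI H) := by
    rw [Finset.disjoint_left]
    intro e he he'
    exact (hE₁H e he).1 (mem_EI.mp he').1
  have h1 : ∑ ω ∈ Cfg (EB Λ) (fun ω => OutS Λ ω = K), wt u q Λ ω ≤
      ∑ ω ∈ Cfg (E₁ ∪ EI H) (fun ω => OutS Λ ω = K), wt u q Λ ω := by
    apply sum_le_sum_of_subset_of_nonneg
    · intro ω hω
      rw [mem_Cfg] at hω ⊢
      refine ⟨fun e he => ?_, hω.2⟩
      have h3 := mem_EB.mp (hω.1 he)
      -- both ends are out or none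
      have hboth : Out Λ ω e.1 ↔ Out Λ ω (tgt e) := by
        have hadj : Conn ω e.1 (tgt e) := Adj.conn ⟨e, he, Or.inl ⟨rfl, rfl⟩⟩
        constructor
        · rintro ⟨z, hz, h⟩
          exact ⟨z, hz, hadj.symm.trans h⟩
        · rintro ⟨z, hz, h⟩
          exact ⟨z, hz, hadj.trans h⟩
      have hin : ∀ x, x ∈ K ↔ x ∈ Λ ∧ Out Λ ω x := by
        intro x
        rw [← hω.2, mem_OutS]
      have hnot : ∀ x, x ∉ Λ → Out Λ ω x := fun x hx => out_of_notMem hx
      rw [mem_union, hE₁, mem_sdiff, mem_EB, mem_dE, mem_EI, hH, mem_sdiff, mem_sdiff, hin, hin]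
      have h4 := hnot e.1
      have h5 := hnot (tgt e)
      tauto
    · intro _ _ _
      exact (wt_pos hu hq _ _).le
  refine h1.trans ?_
  unfold Cfg Z0 Z
  rw [sum_filter, sum_powerset_union hdis, ← sum_pow_card E₁ u, sum_mul_sum]
  apply sum_le_sum
  intro ω₁ hω₁
  apply sum_le_sum
  intro ω₂ hω₂
  rw [mem_powerset] at hω₁ hω₂
  split_ifs with hC
  · have hw := wt_union (u := u) (q := q) hdΛ (ω₁ := ω₁) (ω₂ := ω₂)
      (fun e he => hE₁H e (hω₁ he)) (fun e he => hE₂ e (hω₂ he))
      (disjoint_of_subset_left hω₁ (disjoint_of_subset_right hω₂ hdis))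
    rw [← hΛ] at hw
    rw [hw]
    -- every function counted in `kap K ω₁` vanishes
    have hk : kap K ω₁ = 0 := by
      have hL : L K ω₁ = ⊥ := by
        rw [eq_bot_iff]
        intro g hg
        rw [Submodule.mem_bot]
        funext x
        by_cases hx : x ∈ K
        · have hx' := hx
          rw [← hC, mem_OutS] at hx'
          obtain ⟨z, hz, hcz⟩ := hx'.2
          have hg' : g ∈ L K (ω₁ ∪ ω₂) := by
            refine ⟨hg.1, fun e he => ?_⟩
            rcases mem_union.mp he with he | he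
            · exact hg.2 e he
            · have := hE₂ e (hω₂ he)
              rw [hg.1 _ this.1, hg.1 _ this.2]
          rw [hcz.const hg'.2]
          exact hg.1 z (fun h => hz (hK h))
        · exact hg.1 x hx
      unfold kap
      rw [hL]
      exact finrank_bot ℚ (Pt d → ℚ)
    have : wt u q K ω₁ = u ^ ω₁.card := by
      unfold wt
      rw [hk, pow_zero, mul_one]
    rw [this]
  · exact mul_nonneg (by positivity) (wt_pos hu hq _ _).le

theorem card_E1 {Λ K : Finset (Pt d)} (hK : K ⊆ Λ) :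
    2 * (EB K \ dE (Λ \ K)).card ≤ 2 * d * K.card + (dE Λ).card := by
  have h1 : EB K \ dE (Λ \ K) ⊆ EI K ∪ (dE K ∩ dE Λ) := by
    intro e he
    rw [mem_sdiff, mem_EB, mem_dE, mem_sdiff, mem_sdiff] at he
    rw [mem_union, mem_inter, mem_EI, mem_dE, mem_dE]
    have h2 : e.1 ∈ K → e.1 ∈ Λ := fun h => hK h
    have h3 : tgt e ∈ K → tgt e ∈ Λ := fun h => hK h
    tauto
  have h2 := (card_le_card h1).trans (card_union_le _ _)
  have h3 := two_card_EI K
  have h4 : (dE K ∩ dE Λ).card ≤ (dE K).card := card_le_card inter_subset_left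
  have h5 : (dE K ∩ dE Λ).card ≤ (dE Λ).card := card_le_card inter_subset_right
  omega

theorem sum_pow_card_gen {α : Type*} (s : Finset α) (y : ℝ) :
    ∑ K ∈ s.powerset, y ^ K.card = (1 + y) ^ s.card := by
  have := Finset.sum_pow_mul_eq_add_pow y 1 s
  simp only [one_pow, mul_one] at this
  rw [this, add_comm]

/-- **Small `u`.** -/
theorem small_u (hd : 1 ≤ d) (hu : 0 < u) (hq : 1 ≤ q) {t : ℝ} (ht : 0 ≤ t)
    (hut : 1 + u = Real.exp (16 * t)) (hqt : Real.exp ((16 * d + 4) * t) ≤ q)
    {c : ℝ} (hc : ∀ r : ℕ, c ≤ thw d u q r) : c ≤ Real.exp (1 - 4 * t) := by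
  classical
  -- the main bound for each box
  have key : ∀ N : ℕ, 1 ≤ N → c * (N : ℝ) ^ d ≤
      8 * t * (2 * d * (N : ℝ) ^ (d - 1)) + Real.exp (1 - 4 * t) * (N : ℝ) ^ d := by
    intro N hN
    set Λ := Box d N with hΛ
    have hZ := Z_pos hu hq Λ (EB Λ)
    have hJ := Ex_jensen hu hq Λ (EB Λ) (fun ω => ((OutS Λ ω).card : ℝ))
    have hE : c * (N : ℝ) ^ d ≤ Ex u q Λ (EB Λ) (fun ω => ((OutS Λ ω).card : ℝ)) := by
      rw [Ex_card_OutS]
      have h1 : ∀ x ∈ Λ, c ≤ Pb u q Λ (EB Λ) (fun ω => Out Λ ω x) :=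
        fun x hx => (hc N).trans (thw_le_Box hu hq hx)
      have h2 := card_nsmul_le_sum _ _ _ h1
      rw [nsmul_eq_mul, hΛ, card_Box] at h2
      push_cast at h2
      linarith
    have hbd : Ex u q Λ (EB Λ) (fun ω => Real.exp ((OutS Λ ω).card : ℝ)) ≤
        Real.exp (8 * t * (dE Λ).card + Real.exp (1 - 4 * t) * Λ.card) := by
      unfold Ex
      rw [div_le_iff₀ hZ]
      unfold Zs
      -- partition according to the set of out vertices
      have h1 : ∑ ω ∈ (EB Λ).powerset, wt u q Λ ω * Real.exp ((OutS Λ ω).card : ℝ) =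
          ∑ K ∈ Λ.powerset, ∑ ω ∈ Cfg (EB Λ) (fun ω => OutS Λ ω = K),
            wt u q Λ ω * Real.exp ((OutS Λ ω).card : ℝ) := by
        rw [← sum_fiberwise_of_maps_to (g := fun ω => OutS Λ ω) (t := Λ.powerset)]
        · apply sum_congr rfl
          intro K _
          apply sum_congr _ (fun _ _ => rfl)
          ext ω
          rw [mem_filter, mem_Cfg, mem_powerset]
        · intro ω _
          rw [mem_powerset]
          intro x hx
          exact (mem_OutS.mp hx).1
      rw [h1]
      have h2 : ∀ K ∈ Λ.powerset, ∑ ω ∈ Cfg (EB Λ) (fun ω => OutS Λ ω = K),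
            wt u q Λ ω * Real.exp ((OutS Λ ω).card : ℝ) ≤
          (Real.exp (8 * t * (dE Λ).card) * Z u q Λ (EB Λ)) *
            (Real.exp (1 - 4 * t)) ^ K.card := by
        intro K hK
        rw [mem_powerset] at hK
        have h3 : ∑ ω ∈ Cfg (EB Λ) (fun ω => OutS Λ ω = K),
            wt u q Λ ω * Real.exp ((OutS Λ ω).card : ℝ) =
            (∑ ω ∈ Cfg (EB Λ) (fun ω => OutS Λ ω = K), wt u q Λ ω) *
              Real.exp (K.card : ℝ) := by
          rw [sum_mul]
          apply sum_congr rfl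
          intro ω hω
          rw [(mem_Cfg.mp hω).2]
        rw [h3]
        have h4 := weight_out hu hq hK
        have h5 : Z0 u q (Λ \ K) * q ^ K.card ≤ Z u q Λ (EB Λ) := by
          have e1 := Z0_supermult hu hq (V := Λ \ K) (W := K) sdiff_disjoint
          rw [sdiff_union_of_subset hK] at e1
          have e2 := one_le_Z0 hu hq K
          have e3 := Z0_le_Zw hu hq Λ
          have e4 := Z0_pos hu hq (Λ \ K)
          calc Z0 u q (Λ \ K) * q ^ K.card ≤ Z0 u q (Λ \ K) * Z0 u q K :=
                mul_le_mul_of_nonneg_left e2 e4.le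
            _ ≤ Z0 u q Λ := e1
            _ ≤ _ := e3
        have h6 : (1 + u) ^ (EB K \ dE (Λ \ K)).card ≤
            Real.exp (8 * t * (dE Λ).card) * q ^ K.card * Real.exp (-(4 * t) * K.card) := by
          have e1 := card_E1 hK
          have e2 : (2 : ℝ) * (EB K \ dE (Λ \ K)).card ≤ 2 * d * K.card + (dE Λ).card := by
            exact_mod_cast e1
          have e3 : (Real.exp ((16 * d + 4) * t)) ^ K.card ≤ q ^ K.card :=
            pow_le_pow_left₀ (Real.exp_pos _).le hqt _
          calc (1 + u) ^ (EB K \ dE (Λ \ K)).card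
              = Real.exp (16 * t * (EB K \ dE (Λ \ K)).card) := by
                rw [hut, ← Real.exp_nat_mul]
                congr 1
                ring
            _ ≤ Real.exp (8 * t * (dE Λ).card + ((16 * d + 4) * t) * K.card +
                  -(4 * t) * K.card) := by
                apply Real.exp_le_exp.mpr
                nlinarith
            _ = Real.exp (8 * t * (dE Λ).card) * (Real.exp ((16 * d + 4) * t)) ^ K.card *
                  Real.exp (-(4 * t) * K.card) := by
                rw [Real.exp_add, Real.exp_add, ← Real.exp_nat_mul]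
                congr 3
                ring
            _ ≤ _ := by gcongr
        have h7 : (Real.exp (1 - 4 * t)) ^ K.card =
            Real.exp (K.card : ℝ) * Real.exp (-(4 * t) * K.card) := by
          rw [← Real.exp_nat_mul, ← Real.exp_add]
          congr 1
          ring
        have hZ0 := Z0_pos hu hq (Λ \ K)
        calc (∑ ω ∈ Cfg (EB Λ) (fun ω => OutS Λ ω = K), wt u q Λ ω) * Real.exp (K.card : ℝ)
            ≤ ((Real.exp (8 * t * (dE Λ).card) * q ^ K.card * Real.exp (-(4 * t) * K.card)) *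
                Z0 u q (Λ \ K)) * Real.exp (K.card : ℝ) := by
              apply mul_le_mul_of_nonneg_right _ (Real.exp_pos _).le
              exact h4.trans (mul_le_mul_of_nonneg_right h6 hZ0.le)
          _ = Real.exp (8 * t * (dE Λ).card) * (Z0 u q (Λ \ K) * q ^ K.card) *
                (Real.exp (1 - 4 * t)) ^ K.card := by
              rw [h7]
              ring
          _ ≤ Real.exp (8 * t * (dE Λ).card) * Z u q Λ (EB Λ) *
                (Real.exp (1 - 4 * t)) ^ K.card := by gcongr
      refine (sum_le_sum h2).trans ?_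
      rw [← mul_sum, sum_pow_card_gen]
      have h8 : (1 + Real.exp (1 - 4 * t)) ^ Λ.card ≤
          Real.exp (Real.exp (1 - 4 * t) * Λ.card) := by
        have e1 : 1 + Real.exp (1 - 4 * t) ≤ Real.exp (Real.exp (1 - 4 * t)) := by
          have := Real.add_one_le_exp (Real.exp (1 - 4 * t))
          linarith
        calc (1 + Real.exp (1 - 4 * t)) ^ Λ.card ≤ (Real.exp (Real.exp (1 - 4 * t))) ^ Λ.card :=
              pow_le_pow_left₀ (by positivity) e1 _
          _ = _ := by
              rw [← Real.exp_nat_mul]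
              congr 1
              ring
      rw [Real.exp_add]
      calc Real.exp (8 * t * (dE Λ).card) * Z u q Λ (EB Λ) *
            (1 + Real.exp (1 - 4 * t)) ^ Λ.card
          ≤ Real.exp (8 * t * (dE Λ).card) * Z u q Λ (EB Λ) *
            Real.exp (Real.exp (1 - 4 * t) * Λ.card) := by gcongr
        _ = _ := by ring
    have h9 := Real.exp_le_exp.mp (hJ.trans hbd)
    rw [hΛ, card_dE_Box hd hN, card_Box] at h9
    rw [← hΛ] at h9
    push_cast at h9
    linarith
  -- let `N → ∞`
  have hlim : Filter.Tendsto (fun N : ℕ => 16 * t * d * ((1 : ℝ) / N) + Real.exp (1 - 4 * t)) Filter.atTop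
      (nhds (16 * t * d * 0 + Real.exp (1 - 4 * t))) :=
    (tendsto_one_div_atTop_nhds_zero_nat.const_mul _).add_const _
  rw [mul_zero, zero_add] at hlim
  apply ge_of_tendsto hlim
  filter_upwards [Filter.eventually_ge_atTop 1] with N hN
  have h1 := key N hN
  have hN0 : (0 : ℝ) < N := by exact_mod_cast hN
  have h2 : (N : ℝ) ^ d = (N : ℝ) ^ (d - 1) * N := by
    rw [← pow_succ]
    congr 1
    omega
  have h3 : (0 : ℝ) < (N : ℝ) ^ (d - 1) := by positivity
  rw [h2] at h1
  have h4 : c * N ≤ 16 * t * d + Real.exp (1 - 4 * t) * N := by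
    have h5 : (N : ℝ) ^ (d - 1) * (c * N) ≤
        (N : ℝ) ^ (d - 1) * (16 * t * d + Real.exp (1 - 4 * t) * N) := by
      nlinarith
    exact le_of_mul_le_mul_left h5 h3
  have h6 : 16 * t * d * ((1 : ℝ) / N) + Real.exp (1 - 4 * t) =
      (16 * t * d + Real.exp (1 - 4 * t) * N) / N := by
    field_simp
  rw [h6, le_div_iff₀ hN0]
  exact h4

end Pool.Agent.Lib.MP_31386d_pr
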