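import Pool.Agent.Lib.MP_31386d_pr.Dichotomy
import Pool.Agent.Lib.MP_31386d_pr.Density
import Pool.Agent.Lib.MP_31386d_pr.Encl
import Pool.Agent.Lib.MP_31386d_pr.Entropy
import Pool.Agent.Lib.MP_31386d_pr.Lines
import Pool.Agent.Lib.MP_31386d_pr.Giant
import Pool.Agent.Lib.MP_31386d_pr.SmallU

/-!
# Assembly: giant clusters in free boxes above the threshold, for large `q`
-/

set_option autoImplicit false

namespace Pool.Agent.Lib.MP_31386d_pr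

open Finset

variable {d : ℕ} {u q : ℝ}

/-- The square of the number of edges near a given edge. -/
noncomputable def Dl (d : ℕ) : ℝ := ((d : ℝ) * 3 ^ d) ^ 2

theorem ent (hd : 2 ≤ d) {t : ℝ} (hz : 4 * ((d : ℝ) * 3 ^ d) ^ 2 * Real.exp (-t) ≤ 1 / 2)
    (Λ : Finset (Pt d)) (l : ℕ) (hl : 1 ≤ l) :
    ∑ P ∈ AdmSet Λ l, (Real.exp (-t)) ^ (dE P.1 ∪ P.2.biUnion dE).card ≤
      Real.exp (2 * (EB Λ).card * (4 * ((d : ℝ) * 3 ^ d) ^ 2 * Real.exp (-t)) ^ l) := by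
  have h := entropy (by omega : 1 ≤ d) Λ l hl (Real.exp (-t)) (Real.exp_pos _).le hz
  refine le_trans (le_of_eq ?_) h
  unfold AdmSet
  rfl

/-- The moment bound in terms of `t = log (1 + u) / 16`. -/
theorem mom_of (hd : 2 ≤ d)
    (hG : ∀ (N k : ℕ) (ω : Finset (Ed d)), 1 ≤ N → 1 ≤ k → ω ⊆ EB (Box d N) →
      ∃ (H : Finset (Pt d)) (𝒜 : Finset (Finset (Pt d))), Good (Box d N) k ω H 𝒜)
    (hu : 0 < u) (hq : 1 ≤ q) {t : ℝ} (ht : 1 / 2 ≤ t)
    (hut : 1 + u = Real.exp (16 * t)) (hqt : q ≤ Real.exp ((16 * d + 4) * t))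
    (hz : 4 * ((d : ℝ) * 3 ^ d) ^ 2 * Real.exp (-t) ≤ 1 / 2) :
    Mom d u q (4 * ((d : ℝ) * 3 ^ d) ^ 2 * Real.exp (-t)) :=
  moment hd hu hq ht hut hqt hz hG (fun Λ l hl => ent hd hz Λ l hl) (fun A hA => four_d_le A hA)

theorem enclBound (hd : 1 ≤ d) : Dich.EnclBound d := fun Λ ω m => encl_card hd Λ ω m

/-- The dichotomy in terms of `t`. -/
theorem dich_of (hd : 2 ≤ d)
    (hG : ∀ (N k : ℕ) (ω : Finset (Ed d)), 1 ≤ N → 1 ≤ k → ω ⊆ EB (Box d N) →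
      ∃ (H : Finset (Pt d)) (𝒜 : Finset (Finset (Pt d))), Good (Box d N) k ω H 𝒜)
    (hu : 0 < u) (hq : 1 ≤ q) {t : ℝ} (ht : 1 / 2 ≤ t)
    (hut : 1 + u = Real.exp (16 * t)) (hqt : q ≤ Real.exp ((16 * d + 4) * t))
    (hz : 4 * ((d : ℝ) * 3 ^ d) ^ 2 * Real.exp (-t) ≤ 1 / 2)
    (hρ2 : 2 ^ d * (4 * ((d : ℝ) * 3 ^ d) ^ 2 * Real.exp (-t)) ≤ 1)
    (hθ : ∃ c : ℝ, 0 < c ∧ ∀ r : ℕ, c ≤ thw d u q r) (r : ℕ) :
    1 - 32 * d * (4 * ((d : ℝ) * 3 ^ d) ^ 2 * Real.exp (-t)) ≤ thw d u q r := by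
  have hd0 : (0 : ℝ) < d := by exact_mod_cast (by omega : 0 < d)
  exact Dich.dichotomy (enclBound (by omega)) hd hu hq (by positivity) hρ2
    (mom_of hd hG hu hq ht hut hqt hz) hG hθ r

theorem lim_a {κ C : ℝ} (hκ : 0 < κ) (hd : 1 ≤ d) :
    Filter.Tendsto (fun m : ℕ => Real.exp (-κ * (((4 ^ m : ℕ) : ℝ)) ^ d +
      C * (((4 ^ m : ℕ) : ℝ)) ^ (d - 1))) Filter.atTop (nhds 0) := by
  apply Real.tendsto_exp_atBot.comp
  have h1 : Filter.Tendsto (fun m : ℕ => (((4 ^ m : ℕ) : ℝ))) Filter.atTop Filter.atTop := by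
    push_cast
    exact tendsto_pow_atTop_atTop_of_one_lt (by norm_num)
  have h2 : Filter.Tendsto (fun x : ℝ => -κ * x + C) Filter.atTop Filter.atBot := by
    apply Filter.tendsto_atBot_add_const_right
    exact Filter.tendsto_id.const_mul_atTop_of_neg (by linarith)
  have h3 : Filter.Tendsto (fun x : ℝ => x ^ (d - 1) * (-κ * x + C)) Filter.atTop
      Filter.atBot := by
    rcases Nat.eq_zero_or_pos (d - 1) with h | h
    · rw [h]
      simpa using h2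
    · exact (Filter.tendsto_pow_atTop (by omega)).atTop_mul_atBot₀ h2
  refine (h3.comp h1).congr (fun m => ?_)
  simp only [Function.comp]
  obtain ⟨k, rfl⟩ : ∃ k, d = k + 1 := ⟨d - 1, by omega⟩
  simp only [Nat.add_sub_cancel]
  ring

theorem lim_b (hd : 2 ≤ d) :
    Filter.Tendsto (fun m : ℕ => Real.exp (-(((4 ^ m : ℕ) : ℝ)) ^ (d - 1)))
      Filter.atTop (nhds 0) := by
  apply Real.tendsto_exp_atBot.comp
  have h1 : Filter.Tendsto (fun m : ℕ => (((4 ^ m : ℕ) : ℝ))) Filter.atTop Filter.atTop := by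
    push_cast
    exact tendsto_pow_atTop_atTop_of_one_lt (by norm_num)
  have h2 := (Filter.tendsto_pow_atTop (α := ℝ) (n := d - 1) (by omega)).comp h1
  exact Filter.tendsto_neg_atTop_atBot.comp h2

theorem lim_c {A η₂ : ℝ} (hη : 0 < η₂) (hd : 1 ≤ d) :
    Filter.Tendsto (fun m : ℕ => (48 * (m : ℝ) ^ (d + 1) *
      (2 * d * (((4 ^ m : ℕ) : ℝ)) ^ (d - 1)) + A * (((4 ^ m : ℕ) : ℝ)) ^ d) /
      (η₂ * (((4 ^ m : ℕ) : ℝ)) ^ d)) Filter.atTop (nhds (A / η₂)) := by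
  have h1 : Filter.Tendsto (fun m : ℕ => (m : ℝ) ^ (d + 1) / (4 : ℝ) ^ m) Filter.atTop
      (nhds 0) := tendsto_pow_const_div_const_pow_of_one_lt (d + 1) (by norm_num)
  have h2 : Filter.Tendsto (fun m : ℕ => (96 * d / η₂) * ((m : ℝ) ^ (d + 1) / (4 : ℝ) ^ m) +
      A / η₂) Filter.atTop (nhds ((96 * d / η₂) * 0 + A / η₂)) :=
    (h1.const_mul _).add_const _
  rw [mul_zero, zero_add] at h2
  refine h2.congr (fun m => ?_)
  obtain ⟨k, rfl⟩ : ∃ k, d = k + 1 := ⟨d - 1, by omega⟩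
  simp only [Nat.add_sub_cancel]
  push_cast
  have h4 : (0 : ℝ) < 4 ^ m := by positivity
  field_simp
  ring

/-- **Giant clusters in free boxes.** -/
theorem giant_eventually (hd : 2 ≤ d)
    (hG : ∀ (N k : ℕ) (ω : Finset (Ed d)), 1 ≤ N → 1 ≤ k → ω ⊆ EB (Box d N) →
      ∃ (H : Finset (Pt d)) (𝒜 : Finset (Finset (Pt d))), Good (Box d N) k ω H 𝒜)
    (hconn : ∀ N : ℕ, RConn Lat ((Box d N : Finset (Pt d)) : Set (Pt d)))
    {u' η η₂ ε t' : ℝ} (hu : 0 < u) (huu : u < u') (hq : 1 ≤ q)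
    (hη : 0 ≤ η) (hη₂ : 0 < η₂) (hε : 0 < ε)
    (hθ : ∀ r : ℕ, 1 - η ≤ thw d u q r)
    (ht : 1 / 2 ≤ t') (hut : 1 + u' = Real.exp (16 * t'))
    (hqt : q ≤ Real.exp ((16 * d + 4) * t'))
    (hz : 4 * ((d : ℝ) * 3 ^ d) ^ 2 * Real.exp (-t') ≤ 1 / 2)
    (hρ2 : 2 ^ d * (4 * ((d : ℝ) * 3 ^ d) ^ 2 * Real.exp (-t')) ≤ 1)
    (hz2 : 4 * ((d : ℝ) * 3 ^ d) ^ 2 * Real.exp (-(8 * t' / (100 * d))) ≤ 1 / 2)
    (hβ2 : 40 * d + 10 ≤ 8 * t')
    (h12 : (4 * d + 4) * (4 * (2 * η + 1 / u) + η₂) ≤ 1 / 5)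
    (hsm : 32 * d * (4 * ((d : ℝ) * 3 ^ d) ^ 2 * Real.exp (-t')) / η₂ < ε) :
    ∃ N : ℕ, 12 ≤ N ∧ 2 ∣ N ∧
      Pb u' q (Box d N) (EI (Box d N)) (fun ω => ¬ Giant N ω) ≤ ε := by
  classical
  have hu' : 0 < u' := hu.trans huu
  have hd1 : 1 ≤ d := by omega
  have hd0 : (0 : ℝ) < d := by exact_mod_cast hd1
  set ρ := 4 * ((d : ℝ) * 3 ^ d) ^ 2 * Real.exp (-t') with hρ
  have hρ0 : 0 < ρ := by positivity
  set η₁ := 2 * η + 1 / u with hη₁
  have hη₁0 : 0 < η₁ := by positivity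
  have hM := mom_of hd hG hu' hq ht hut hqt hz
  have hlog : 0 < Real.log u' - Real.log u := by
    have := Real.log_lt_log hu huu
    linarith
  have l1 := lim_a (d := d) (κ := (Real.log u' - Real.log u) * η₁ * d)
    (C := Real.log (1 + u') * d) (by positivity) hd1
  have l2 := lim_b hd
  have l3 := lim_c (d := d) (A := 32 * d * ρ) hη₂ hd1
  have l4 := (l1.add l2).add l3
  rw [zero_add, zero_add] at l4
  -- all conditions hold for large `m`
  have e1 := l4.eventually (gt_mem_nhds hsm)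
  have e2 : ∀ᶠ m : ℕ in Filter.atTop, q ≤ Real.exp (8 * t' * m / (25 * d)) := by
    have h1 : Filter.Tendsto (fun m : ℕ => 8 * t' * m / (25 * d)) Filter.atTop
        Filter.atTop := by
      have h2 : Filter.Tendsto (fun m : ℕ => (8 * t' / (25 * d)) * (m : ℝ)) Filter.atTop
          Filter.atTop :=
        Filter.Tendsto.const_mul_atTop (by positivity) tendsto_natCast_atTop_atTop
      refine h2.congr (fun m => ?_)
      ring
    filter_upwards [(Real.tendsto_exp_atTop.comp h1).eventually_ge_atTop q] with m hm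
    exact hm
  obtain ⟨m, ⟨hm1, hm2⟩, hm3⟩ := ((e1.and e2).and (Filter.eventually_ge_atTop 2)).exists
  refine ⟨4 ^ m, ?_, ?_, ?_⟩
  · calc 12 ≤ 4 ^ 2 := by norm_num
      _ ≤ 4 ^ m := Nat.pow_le_pow_right (by norm_num) hm3
  · exact (Dvd.intro 2 rfl : 2 ∣ 4).trans (dvd_pow_self 4 (by omega))
  set N := 4 ^ m with hN
  have hN1 : 1 ≤ N := Nat.one_le_pow _ _ (by norm_num)
  have hN0 : (0 : ℝ) < (N : ℝ) ^ d := by
    have : (0 : ℝ) < N := by exact_mod_cast hN1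
    positivity
  -- decomposition
  have hdec : Pb u' q (Box d N) (EI (Box d N)) (fun ω => ¬ Giant N ω) ≤
      Pb u' q (Box d N) (EI (Box d N))
        (fun ω => (ω.card : ℝ) ≤ (1 - 2 * η₁) * d * (N : ℝ) ^ d) +
      Pb u' q (Box d N) (EI (Box d N))
        (fun ω => ¬ Giant N ω ∧ (1 - 2 * η₁) * d * ((N : ℕ) : ℝ) ^ d < ω.card ∧
          ((EnS (Box d N) (m ^ d) ω).card : ℝ) < η₂ * ((N : ℕ) : ℝ) ^ d) +
      Pb u' q (Box d N) (EI (Box d N))
        (fun ω => η₂ * (N : ℝ) ^ d ≤ ((EnS (Box d N) (m ^ d) ω).card : ℝ)) := by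
    refine le_trans ?_ (add_le_add_left (Pb_or_le hu' hq _ _) _)
    refine le_trans ?_ (Pb_or_le hu' hq _ _)
    apply Pb_mono hu' hq
    intro ω _ h
    by_cases h1 : (ω.card : ℝ) ≤ (1 - 2 * η₁) * d * (N : ℝ) ^ d
    · exact Or.inl (Or.inl h1)
    · by_cases h2 : η₂ * (N : ℝ) ^ d ≤ ((EnS (Box d N) (m ^ d) ω).card : ℝ)
      · exact Or.inr h2
      · push Not at h1 h2
        exact Or.inl (Or.inr ⟨h, h1, h2⟩)
  have b1 := density hd1 hu huu hq hθ N hN1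
  have b2 := giant_main hd hu' hq (β := 8 * t') (by rw [hut]; congr 1; ring) hβ2 hz2
    hη₁0.le hη₂.le h12 m (by omega) (by
      refine hm2.trans (le_of_eq ?_)
      ring_nf) (fun ω hω => hG _ _ ω hN1 (by omega) hω) (hconn _)
    (ent hd hz2 _ _ (by omega))
    (fun N' hN' 𝒜 c1 c2 η' γ c3 c4 c5 => lines_bound hd1 N' hN' 𝒜 c1 c2 η' γ c3 c4 c5)
  have b3 : Pb u' q (Box d N) (EI (Box d N))
        (fun ω => η₂ * (N : ℝ) ^ d ≤ ((EnS (Box d N) (m ^ d) ω).card : ℝ)) ≤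
      (48 * (m : ℝ) ^ (d + 1) * (2 * d * (((4 ^ m : ℕ) : ℝ)) ^ (d - 1)) +
        32 * d * ρ * (((4 ^ m : ℕ) : ℝ)) ^ d) / (η₂ * (((4 ^ m : ℕ) : ℝ)) ^ d) := by
    have h1 := Pb_markov (u := u') (q := q) (V := Box d N) (E := EI (Box d N)) hu' hq
      (f := fun ω => ((EnS (Box d N) (m ^ d) ω).card : ℝ)) (c := η₂ * (N : ℝ) ^ d)
      (by positivity) (fun ω _ => Nat.cast_nonneg _)
    have h2 := Dich.sum_encl_le (enclBound hd1) hd hu' hq hρ0 hρ2 hM hN1 (m := m)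
      (E := EI (Box d N)) (Or.inl rfl)
    have h3 : Ex u' q (Box d N) (EI (Box d N))
        (fun ω => ((EnS (Box d N) (m ^ d) ω).card : ℝ)) ≤
        48 * (m : ℝ) ^ (d + 1) * (dE (Box d N)).card + 32 * d * ρ * (N : ℝ) ^ d := by
      refine le_trans (le_of_eq ?_) h2
      apply Ex_congr
      intro ω _
      unfold EnS
      rfl
    refine h1.trans ?_
    rw [card_dE_Box hd1 hN1] at h3
    have h4 : (((4 ^ m : ℕ) : ℝ)) = (N : ℝ) := rfl
    rw [h4]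
    have h5 : ((2 * d * N ^ (d - 1) : ℕ) : ℝ) = 2 * d * (N : ℝ) ^ (d - 1) := by push_cast; ring
    rw [h5] at h3
    exact div_le_div_of_nonneg_right h3 (by positivity)
  refine hdec.trans ?_
  have b1' : Pb u' q (Box d N) (EI (Box d N))
        (fun ω => (ω.card : ℝ) ≤ (1 - 2 * η₁) * d * (N : ℝ) ^ d) ≤
      Real.exp (-((Real.log u' - Real.log u) * η₁ * d) * (((4 ^ m : ℕ) : ℝ)) ^ d +
      (Real.log (1 + u') * d) * (((4 ^ m : ℕ) : ℝ)) ^ (d - 1)) := by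
    refine b1.trans (Real.exp_le_exp.mpr (le_of_eq ?_))
    ring
  linarith [b1', b2, b3, hm1]

/-- Conditions satisfied for all large `t`. -/
theorem exists_T (d : ℕ) (hd : 1 ≤ d) (ε : ℝ) (hε : 0 < ε) : ∃ T : ℝ, ∀ t : ℝ, T ≤ t →
    1 / 2 ≤ t ∧ 4 * ((d : ℝ) * 3 ^ d) ^ 2 * Real.exp (-t) ≤ 1 / 2 ∧
    2 ^ d * (4 * ((d : ℝ) * 3 ^ d) ^ 2 * Real.exp (-t)) ≤ 1 ∧
    Real.exp (1 - 4 * t) < 1 - 32 * d * (4 * ((d : ℝ) * 3 ^ d) ^ 2 * Real.exp (-t)) ∧
    (4 * d + 4) * (4 * (2 * (32 * d * (4 * ((d : ℝ) * 3 ^ d) ^ 2 * Real.exp (-t))) +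
      1 / (Real.exp (16 * t) - 1)) + 1 / (40 * (d + 1))) ≤ 1 / 5 ∧
    40 * d + 10 ≤ 8 * t ∧
    4 * ((d : ℝ) * 3 ^ d) ^ 2 * Real.exp (-(8 * t / (100 * d))) ≤ 1 / 2 ∧
    32 * d * (4 * ((d : ℝ) * 3 ^ d) ^ 2 * Real.exp (-t)) / (1 / (40 * (d + 1))) < ε := by
  have hd0 : (0 : ℝ) < d := by exact_mod_cast hd
  have g0 : Filter.Tendsto (fun t : ℝ => Real.exp (-t)) Filter.atTop (nhds 0) :=
    Real.tendsto_exp_neg_atTop_nhds_zero
  have g1 : Filter.Tendsto (fun t : ℝ => 4 * ((d : ℝ) * 3 ^ d) ^ 2 * Real.exp (-t))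
      Filter.atTop (nhds 0) := by
    have := g0.const_mul (4 * ((d : ℝ) * 3 ^ d) ^ 2)
    rwa [mul_zero] at this
  have g2 : Filter.Tendsto (fun t : ℝ => 2 ^ d * (4 * ((d : ℝ) * 3 ^ d) ^ 2 * Real.exp (-t)))
      Filter.atTop (nhds 0) := by
    have := g1.const_mul ((2 : ℝ) ^ d)
    rwa [mul_zero] at this
  have g3 : Filter.Tendsto (fun t : ℝ => Real.exp (1 - 4 * t) +
      32 * d * (4 * ((d : ℝ) * 3 ^ d) ^ 2 * Real.exp (-t))) Filter.atTop (nhds 0) := by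
    have h1 : Filter.Tendsto (fun t : ℝ => Real.exp (1 - 4 * t)) Filter.atTop (nhds 0) := by
      apply Real.tendsto_exp_atBot.comp
      have : Filter.Tendsto (fun t : ℝ => -4 * t + 1) Filter.atTop Filter.atBot := by
        apply Filter.tendsto_atBot_add_const_right
        exact Filter.tendsto_id.const_mul_atTop_of_neg (by norm_num)
      refine this.congr (fun t => ?_)
      ring
    have h2 := g1.const_mul (32 * (d : ℝ))
    rw [mul_zero] at h2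
    have := h1.add h2
    rwa [zero_add] at this
  have g4 : Filter.Tendsto (fun t : ℝ => (4 * (d : ℝ) + 4) *
      (4 * (2 * (32 * d * (4 * ((d : ℝ) * 3 ^ d) ^ 2 * Real.exp (-t))) +
      1 / (Real.exp (16 * t) - 1)) + 1 / (40 * (d + 1)))) Filter.atTop
      (nhds ((4 * (d : ℝ) + 4) * (4 * (2 * (32 * d * 0) + 0) + 1 / (40 * (d + 1))))) := by
    have h1 : Filter.Tendsto (fun t : ℝ => 1 / (Real.exp (16 * t) - 1)) Filter.atTop
        (nhds 0) := by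
      have h2 : Filter.Tendsto (fun t : ℝ => Real.exp (16 * t) - 1) Filter.atTop
          Filter.atTop := by
        apply Filter.tendsto_atTop_add_const_right
        exact Real.tendsto_exp_atTop.comp
          (Filter.Tendsto.const_mul_atTop (by norm_num) Filter.tendsto_id)
      refine (tendsto_inv_atTop_zero.comp h2).congr (fun t => ?_)
      simp [one_div]
    have h3 := (g1.const_mul (32 * (d : ℝ))).const_mul 2
    exact (((h3.add h1).const_mul 4).add_const _).const_mul _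
  have g5 : Filter.Tendsto (fun t : ℝ => 4 * ((d : ℝ) * 3 ^ d) ^ 2 *
      Real.exp (-(8 * t / (100 * d)))) Filter.atTop (nhds 0) := by
    have h1 : Filter.Tendsto (fun t : ℝ => Real.exp (-(8 * t / (100 * d)))) Filter.atTop
        (nhds 0) := by
      apply Real.tendsto_exp_atBot.comp
      apply Filter.tendsto_neg_atTop_atBot.comp
      have h2 : Filter.Tendsto (fun t : ℝ => (8 / (100 * (d : ℝ))) * t) Filter.atTop
          Filter.atTop := Filter.Tendsto.const_mul_atTop (by positivity) Filter.tendsto_id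
      refine h2.congr (fun t => ?_)
      ring
    have := h1.const_mul (4 * ((d : ℝ) * 3 ^ d) ^ 2)
    rwa [mul_zero] at this
  have g6 : Filter.Tendsto (fun t : ℝ =>
      32 * d * (4 * ((d : ℝ) * 3 ^ d) ^ 2 * Real.exp (-t)) / (1 / (40 * (d + 1))))
      Filter.atTop (nhds 0) := by
    have h2 := (g1.const_mul (32 * (d : ℝ))).div_const (1 / (40 * ((d : ℝ) + 1)))
    rwa [mul_zero, zero_div] at h2
  have hlim4 : (4 * (d : ℝ) + 4) * (4 * (2 * (32 * d * 0) + 0) + 1 / (40 * (d + 1))) <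
      1 / 5 := by
    have h1 : (4 * (d : ℝ) + 4) * (4 * (2 * (32 * d * 0) + 0) + 1 / (40 * (d + 1))) =
        1 / 10 := by
      field_simp
      ring
    rw [h1]
    norm_num
  have ev := (((((((Filter.eventually_ge_atTop (1 / 2 : ℝ)).and
    (g1.eventually (gt_mem_nhds (show (0 : ℝ) < 1 / 2 by norm_num)))).and
    (g2.eventually (gt_mem_nhds (show (0 : ℝ) < 1 by norm_num)))).and
    (g3.eventually (gt_mem_nhds (show (0 : ℝ) < 1 by norm_num)))).and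
    (g4.eventually (gt_mem_nhds hlim4))).and
    (Filter.eventually_ge_atTop ((40 * (d : ℝ) + 10) / 8))).and
    (g5.eventually (gt_mem_nhds (show (0 : ℝ) < 1 / 2 by norm_num)))).and
    (g6.eventually (gt_mem_nhds hε))
  obtain ⟨T, hT⟩ := Filter.eventually_atTop.mp ev
  refine ⟨T, fun t ht => ?_⟩
  obtain ⟨⟨⟨⟨⟨⟨⟨c1, c2⟩, c3⟩, c4⟩, c5⟩, c6⟩, c7⟩, c8⟩ := hT t ht
  refine ⟨c1, c2.le, c3.le, by linarith, c5.le, ?_, c7.le, c8⟩
  have := (div_le_iff₀ (by norm_num : (0 : ℝ) < 8)).mp c6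
  linarith

/-- The numerical conditions used in the proof. -/
def Cond (d : ℕ) (ε t : ℝ) : Prop :=
    1 / 2 ≤ t ∧ 4 * ((d : ℝ) * 3 ^ d) ^ 2 * Real.exp (-t) ≤ 1 / 2 ∧
    2 ^ d * (4 * ((d : ℝ) * 3 ^ d) ^ 2 * Real.exp (-t)) ≤ 1 ∧
    Real.exp (1 - 4 * t) < 1 - 32 * d * (4 * ((d : ℝ) * 3 ^ d) ^ 2 * Real.exp (-t)) ∧
    (4 * d + 4) * (4 * (2 * (32 * d * (4 * ((d : ℝ) * 3 ^ d) ^ 2 * Real.exp (-t))) +
      1 / (Real.exp (16 * t) - 1)) + 1 / (40 * (d + 1))) ≤ 1 / 5 ∧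
    40 * d + 10 ≤ 8 * t ∧
    4 * ((d : ℝ) * 3 ^ d) ^ 2 * Real.exp (-(8 * t / (100 * d))) ≤ 1 / 2 ∧
    32 * d * (4 * ((d : ℝ) * 3 ^ d) ^ 2 * Real.exp (-t)) / (1 / (40 * (d + 1))) < ε

/-- **Main statement.** For large `q`, percolation of the wired measure at `u` implies the slab
property at every `u' > u`. -/
theorem main_slab (d : ℕ) (hd : 3 ≤ d)
    (hG : ∀ (N k : ℕ) (ω : Finset (Ed d)), 1 ≤ N → 1 ≤ k → ω ⊆ EB (Box d N) →
      ∃ (H : Finset (Pt d)) (𝒜 : Finset (Finset (Pt d))), Good (Box d N) k ω H 𝒜)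
    (hconn : ∀ N : ℕ, RConn Lat ((Box d N : Finset (Pt d)) : Set (Pt d)))
    {ε : ℝ} (hε : 0 < ε) (hS : ∀ (u q : ℝ), 0 < u → 1 ≤ q →
      ∀ N : ℕ, 12 ≤ N → 2 ∣ N →
      Pb u q (Box d N) (EI (Box d N)) (fun ω => ¬ Giant N ω) ≤ ε →
      ∀ L : ℕ, N ≤ L → ∃ α : ℝ, 0 < α ∧ ∀ n : ℕ, ∀ x ∈ slab d L n,
        α < Pb u q (slab d L n) (EI (slab d L n)) (fun ω => Conn ω 0 x))
    {T : ℝ} (hT : ∀ t : ℝ, T ≤ t → Cond d ε t)
    {q : ℝ} (hq : 1 ≤ q) (hqT : Real.exp ((16 * d + 4) * T) ≤ q) :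
      ∀ u u' : ℝ, 0 < u → u < u' → (∃ c : ℝ, 0 < c ∧ ∀ r : ℕ, c ≤ thw d u q r) →
      ∃ L₀ : ℕ, ∀ L : ℕ, L₀ ≤ L → ∃ α : ℝ, 0 < α ∧ ∀ n : ℕ, ∀ x ∈ slab d L n,
        α < Pb u' q (slab d L n) (EI (slab d L n)) (fun ω => Conn ω 0 x) := by
  have hd2 : 2 ≤ d := by omega
  have hd1 : 1 ≤ d := by omega
  have hd0 : (0 : ℝ) < d := by exact_mod_cast hd1
  intro u u' hu huu hθ
  have hqpos : 0 < q := by linarith
  set a : ℝ := 16 * d + 4 with ha
  have ha0 : 0 < a := by positivity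
  -- the threshold
  set ts := Real.log q / a with hts
  have hTts : T ≤ ts := by
    rw [hts, le_div_iff₀ ha0]
    have := (Real.le_log_iff_exp_le hqpos).mpr hqT
    linarith
  have hqts : Real.exp (a * ts) = q := by
    rw [hts, mul_div_cancel₀ _ ha0.ne', Real.exp_log hqpos]
  obtain ⟨s1, s2, s3, s4, s5, s6, s7, s8⟩ := hT ts hTts
  have hgt : Real.exp (16 * ts) - 1 < u := by
    by_contra hcon
    push Not at hcon
    set us := Real.exp (16 * ts) - 1 with hus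
    have hus0 : 0 < us := lt_of_lt_of_le hu hcon
    obtain ⟨c, hc, hcr⟩ := hθ
    have hθs : ∃ c : ℝ, 0 < c ∧ ∀ r : ℕ, c ≤ thw d us q r :=
      ⟨c, hc, fun r => (hcr r).trans (thw_mono_u hu hcon hq r)⟩
    have h1 : 1 + us = Real.exp (16 * ts) := by rw [hus]; ring
    have h2 := dich_of hd2 hG hus0 hq s1 h1 hqts.ge s2 s3 hθs
    have h3 := small_u hd1 hus0 hq (by linarith) h1 hqts.le h2
    linarith
  -- the parameter of `u`
  set t := Real.log (1 + u) / 16 with ht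
  have hut : 1 + u = Real.exp (16 * t) := by
    rw [ht, mul_div_cancel₀ _ (by norm_num), Real.exp_log (by linarith)]
  have htt : ts < t := by
    have h1 : Real.exp (16 * ts) < Real.exp (16 * t) := by
      rw [← hut]
      linarith
    have := Real.exp_lt_exp.mp h1
    linarith
  obtain ⟨r1, r2, r3, r4, r5, r6, r7, r8⟩ := hT t (hTts.trans htt.le)
  have hqt : q ≤ Real.exp ((16 * d + 4) * t) := by
    rw [← hqts]
    exact Real.exp_le_exp.mpr (mul_le_mul_of_nonneg_left htt.le ha0.le)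
  have hD := dich_of hd2 hG hu hq r1 hut hqt r2 r3 hθ
  -- the parameter of `u'`
  have hu' : 0 < u' := hu.trans huu
  set t' := Real.log (1 + u') / 16 with ht'
  have hut' : 1 + u' = Real.exp (16 * t') := by
    rw [ht', mul_div_cancel₀ _ (by norm_num), Real.exp_log (by linarith)]
  have htt' : t < t' := by
    have h1 : Real.exp (16 * t) < Real.exp (16 * t') := by
      rw [← hut, ← hut']
      linarith
    have := Real.exp_lt_exp.mp h1
    linarith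
  obtain ⟨v1, v2, v3, v4, v5, v6, v7, v8⟩ := hT t' (hTts.trans (htt.le.trans htt'.le))
  have hqt' : q ≤ Real.exp ((16 * d + 4) * t') := by
    refine hqt.trans (Real.exp_le_exp.mpr (mul_le_mul_of_nonneg_left htt'.le ha0.le))
  have hueq : Real.exp (16 * t) - 1 = u := by rw [← hut]; ring
  rw [hueq] at r5
  obtain ⟨N, hN1, hN2, hN3⟩ := giant_eventually hd2 hG hconn (η₂ := 1 / (40 * (d + 1)))
    hu huu hq (by positivity) (by positivity) hε hD v1 hut' hqt' v2 v3 v7 v6 r5 v8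
  exact ⟨N, fun L hL => hS u' q hu' hq N hN1 hN2 hN3 L hL⟩

end Pool.Agent.Lib.MP_31386d_pr
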