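import Pool.Agent.Lib.MP_31386d_pr.Moment

/-!
# Exponential moments, general size functions
-/

set_option autoImplicit false

namespace Pool.Agent.Lib.MP_31386d_pr

open Finset

variable {d : ℕ} {u q : ℝ}

/-- Sum over configurations is bounded by a sum over admissible pairs. -/
theorem sum_le_sum_admG (hu : 0 < u) (hq : 1 ≤ q) {Λ : Finset (Pt d)} {E : Finset (Ed d)}
    (Sf : Finset (Ed d) → Finset (Ed d)) (l : ℕ) (Q : Finset (Ed d) → Prop) (P : Finset (Pt d) → Finset (Finset (Pt d)) → Prop)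
    (hG : ∀ ω ⊆ E, Q ω → ∃ (H : Finset (Pt d)) (𝒜 : Finset (Finset (Pt d))),
      Adm Λ l H 𝒜 ∧ Compat Λ ω H 𝒜 ∧ dE H ∪ 𝒜.biUnion dE = Sf ω ∧ P H 𝒜)
    (F : ℕ → ℝ) (hF : ∀ n, 0 ≤ F n) :
    ∑ ω ∈ Cfg E Q, wt u q Λ ω * F (Sf ω).card ≤
      ∑ p ∈ AdmP Λ l P,
        F (dE p.1 ∪ p.2.biUnion dE).card * Cw u q Λ E p.1 p.2 := by
  classical
  have h1 : ∀ ω ∈ Cfg E Q, wt u q Λ ω * F (Sf ω).card ≤
      ∑ p ∈ AdmP Λ l P,
        F (dE p.1 ∪ p.2.biUnion dE).card *
          (if Compat Λ ω p.1 p.2 then wt u q Λ ω else 0) := by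
    intro ω hω
    rw [mem_Cfg] at hω
    obtain ⟨H, 𝒜, hadm, hcompat, heq, hP⟩ := hG ω hω.1 hω.2
    have hmem : (H, 𝒜) ∈ AdmP Λ l P := mem_AdmP.mpr ⟨mem_AdmSet.mpr hadm, hP⟩
    refine le_trans (le_of_eq ?_) (single_le_sum (f := fun p : Finset (Pt d) ×
        Finset (Finset (Pt d)) => F (dE p.1 ∪ p.2.biUnion dE).card *
          (if Compat Λ ω p.1 p.2 then wt u q Λ ω else 0)) (fun p _ => ?_) hmem)
    · simp only
      rw [if_pos hcompat, heq]
      ring
    · apply mul_nonneg (hF _)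
      split_ifs
      · exact (wt_pos hu hq _ _).le
      · exact le_rfl
  refine (sum_le_sum h1).trans ?_
  rw [sum_comm]
  apply sum_le_sum
  intro p _
  rw [← mul_sum]
  apply mul_le_mul_of_nonneg_left _ (hF _)
  unfold Cw
  rw [← sum_filter]
  apply sum_le_sum_of_subset_of_nonneg
  · intro ω hω
    rw [mem_filter, mem_Cfg] at hω
    rw [mem_filter, mem_powerset]
    exact ⟨hω.1.1, hω.2⟩
  · intro ω _ _
    exact (wt_pos hu hq _ _).le

/-- **Moment bound.** -/
theorem moment_gen (hd : 2 ≤ d) (hu : 0 < u) (hq : 1 ≤ q) {t : ℝ} (ht : 1 / 2 ≤ t)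
    (hut : 1 + u = Real.exp (16 * t)) (hqt : q ≤ Real.exp ((16 * d + 4) * t))
    (hz : 4 * ((d : ℝ) * 3 ^ d) ^ 2 * Real.exp (-t) ≤ 1 / 2)
    {N : ℕ} (hN : 1 ≤ N) {E : Finset (Ed d)} (hE : E = EI (Box d N) ∨ E = EB (Box d N))
    (Sf : Finset (Ed d) → Finset (Ed d)) {l : ℕ} (hl : 1 ≤ l)
    (hG : ∀ ω : Finset (Ed d), ω ⊆ E →
      ∃ (H : Finset (Pt d)) (𝒜 : Finset (Finset (Pt d))), Adm (Box d N) l H 𝒜 ∧
        Compat (Box d N) ω H 𝒜 ∧ dE H ∪ 𝒜.biUnion dE = Sf ω)
    (hent : ∀ (Λ : Finset (Pt d)) (l : ℕ), 1 ≤ l →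
      ∑ P ∈ AdmSet Λ l, (Real.exp (-t)) ^ (dE P.1 ∪ P.2.biUnion dE).card ≤
        Real.exp (2 * (EB Λ).card * (4 * ((d : ℝ) * 3 ^ d) ^ 2 * Real.exp (-t)) ^ l))
    (h4 : ∀ A : Finset (Pt d), 2 ≤ A.card → 4 * d - 2 ≤ (dE A).card) :
    Ex u q (Box d N) E (fun ω => ((Sf ω).card : ℝ)) ≤
      24 * (dE (Box d N)).card + 4 * (EB (Box d N)).card *
        (4 * ((d : ℝ) * 3 ^ d) ^ 2 * Real.exp (-t)) ^ l := by
  classical
  have hd1 : 1 ≤ d := by omega
  have ht0 : 0 < t := by linarith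
  set Λ := Box d N with hΛ
  set ρ := 4 * ((d : ℝ) * 3 ^ d) ^ 2 * Real.exp (-t) with hρ
  set b := Real.exp (8 * t) with hb
  have hb1 : 1 ≤ b := Real.one_le_exp (by linarith)
  have hb2 : b ^ 2 = 1 + u := by
    rw [hut, hb, ← Real.exp_nat_mul]
    congr 1
    push_cast
    ring
  have hEI : EI Λ ⊆ E := by
    rcases hE with rfl | rfl
    · exact subset_refl _
    · exact EI_subset_EB _
  have hEB : E ⊆ EB Λ := by
    rcases hE with rfl | rfl
    · exact EI_subset_EB _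
    · exact subset_refl _
  have hbpow : ∀ n : ℕ, b ^ n = Real.exp (8 * t * n) := by
    intro n
    rw [hb, ← Real.exp_nat_mul]
    congr 1
    ring
  -- weights of admissible pairs
  have hB : ∀ P ∈ AdmSet Λ l,
      Real.exp (t * ((dE P.1 ∪ P.2.biUnion dE).card : ℝ)) * Cw u q Λ E P.1 P.2 ≤
      (Real.exp (pr d u q * Λ.card) * b ^ (2 * (dE Λ).card)) *
        (Real.exp (-t)) ^ (dE P.1 ∪ P.2.biUnion dE).card := by
    rintro ⟨H, 𝒜⟩ hP
    have hA := mem_AdmSet.mp hP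
    simp only
    set s := (dE H ∪ 𝒜.biUnion dE).card with hs
    have h1 := weight_bound hd1 hu hq hb1 hb2 hA.hH hA.sub hA.disj hEB
    have h2 : ∏ A ∈ 𝒜, (q / b ^ (dE A).card) ≤
        ∏ A ∈ 𝒜, Real.exp (-(2 * t) * (dE A).card) := by
      apply prod_le_prod
      · intro A _
        have : 0 < q := by linarith
        positivity
      · intro A hAA
        rw [hbpow, div_le_iff₀ (Real.exp_pos _), ← Real.exp_add]
        refine hqt.trans (Real.exp_le_exp.mpr ?_)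
        have h5 := h4 A (hA.two A hAA)
        have h6 : (4 : ℝ) * d - 2 ≤ ((dE A).card : ℝ) := by
          have : 4 * d ≤ (dE A).card + 2 := by omega
          have : (4 * (d : ℝ)) ≤ (dE A).card + 2 := by exact_mod_cast this
          linarith
        have h7 : (2 : ℝ) ≤ d := by exact_mod_cast hd
        nlinarith
    have h3 : (dE H).card ≤ (dE (Λ \ H) \ dE Λ).card + (dE Λ).card := by
      rw [← card_union_of_disjoint sdiff_disjoint]
      apply card_le_card
      intro e he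
      rw [mem_union, mem_sdiff]
      by_cases hΛe : e ∈ dE Λ
      · exact Or.inr hΛe
      · left
        refine ⟨?_, hΛe⟩
        rw [mem_dE] at he hΛe ⊢
        rw [mem_sdiff, mem_sdiff]
        have h5 : e.1 ∈ H → e.1 ∈ Λ := fun h => hA.hH h
        have h6 : tgt e ∈ H → tgt e ∈ Λ := fun h => hA.hH h
        tauto
    have h5 : b ^ (dE (Λ \ H) ∩ dE Λ).card / b ^ (dE (Λ \ H) \ dE Λ).card ≤
        b ^ (2 * (dE Λ).card) * Real.exp (-(2 * t) * (dE H).card) := by
      have h6 : (dE (Λ \ H) ∩ dE Λ).card ≤ (dE Λ).card := card_le_card inter_subset_right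
      rw [hbpow, hbpow, hbpow, div_le_iff₀ (Real.exp_pos _), ← Real.exp_add, ← Real.exp_add]
      apply Real.exp_le_exp.mpr
      have h7 : ((dE (Λ \ H) ∩ dE Λ).card : ℝ) ≤ (dE Λ).card := by exact_mod_cast h6
      have h8 : ((dE H).card : ℝ) ≤ (dE (Λ \ H) \ dE Λ).card + (dE Λ).card := by
        exact_mod_cast h3
      push_cast
      have h9 : (0 : ℝ) ≤ (dE H).card := Nat.cast_nonneg _
      have h10 : (0 : ℝ) ≤ (dE Λ).card := Nat.cast_nonneg _
      nlinarith
    have h6 : (0 : ℝ) ≤ ∏ A ∈ 𝒜, (q / b ^ (dE A).card) := by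
      apply prod_nonneg
      intro A _
      have : 0 < q := by linarith
      positivity
    have h7 : Cw u q Λ E H 𝒜 ≤ Real.exp (pr d u q * Λ.card) *
        (b ^ (2 * (dE Λ).card) * Real.exp (-(2 * t) * (dE H).card)) *
        ∏ A ∈ 𝒜, Real.exp (-(2 * t) * (dE A).card) := by
      refine h1.trans (mul_le_mul ?_ h2 h6 (by positivity))
      exact mul_le_mul_of_nonneg_left h5 (Real.exp_pos _).le
    rw [← Real.exp_sum, ← mul_sum] at h7
    have h8 : (s : ℝ) ≤ (dE H).card + ∑ A ∈ 𝒜, ((dE A).card : ℝ) := by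
      have := card_union_dE_le H 𝒜
      exact_mod_cast this
    calc Real.exp (t * (s : ℝ)) * Cw u q Λ E H 𝒜
        ≤ Real.exp (t * (s : ℝ)) * (Real.exp (pr d u q * Λ.card) *
          (b ^ (2 * (dE Λ).card) * Real.exp (-(2 * t) * (dE H).card)) *
          Real.exp (-(2 * t) * ∑ A ∈ 𝒜, ((dE A).card : ℝ))) :=
          mul_le_mul_of_nonneg_left h7 (Real.exp_pos _).le
      _ = (Real.exp (pr d u q * Λ.card) * b ^ (2 * (dE Λ).card)) *
          Real.exp (t * s + -(2 * t) * (dE H).card +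
            -(2 * t) * ∑ A ∈ 𝒜, ((dE A).card : ℝ)) := by
          rw [Real.exp_add, Real.exp_add]
          ring
      _ ≤ (Real.exp (pr d u q * Λ.card) * b ^ (2 * (dE Λ).card)) *
          (Real.exp (-t)) ^ s := by
          have h9 : (Real.exp (-t)) ^ s = Real.exp (-t * s) := by
            rw [← Real.exp_nat_mul]
            congr 1
            ring
          rw [h9]
          apply mul_le_mul_of_nonneg_left _ (by positivity)
          apply Real.exp_le_exp.mpr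
          nlinarith
  have hA : Zs u q Λ E (fun ω => Real.exp (t * ((Sf ω).card : ℝ))) ≤
      (Real.exp (pr d u q * Λ.card) * b ^ (2 * (dE Λ).card)) *
        Real.exp (2 * (EB Λ).card * ρ ^ l) := by
    have h1 := sum_le_sum_admG hu hq (Λ := Λ) (E := E) Sf l (fun _ => True) (fun _ _ => True)
      (fun ω hω _ => by
        obtain ⟨H, 𝒜, h1, h2, h3⟩ := hG ω hω
        exact ⟨H, 𝒜, h1, h2, h3, trivial⟩)
      (fun n => Real.exp (t * (n : ℝ))) (fun n => (Real.exp_pos _).le)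
    rw [Cfg_true, AdmP_true] at h1
    unfold Zs
    refine h1.trans ((sum_le_sum hB).trans ?_)
    rw [← mul_sum]
    apply mul_le_mul_of_nonneg_left (hent Λ l hl) (by positivity)
  have hZ := Z_pos hu hq Λ E
  have hD := exp_lower hd1 hu hq hb1 hb2 hN hEI
  have hJ := Ex_jensen hu hq Λ E (fun ω => t * ((Sf ω).card : ℝ))
  rw [Ex_const_mul] at hJ
  have hfin : Real.exp (t * Ex u q Λ E (fun ω => ((Sf ω).card : ℝ))) ≤
      Real.exp (24 * t * (dE Λ).card + 2 * (EB Λ).card * ρ ^ l) := by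
    refine hJ.trans ?_
    unfold Ex
    rw [div_le_iff₀ hZ]
    refine hA.trans ?_
    have h1 : Real.exp (pr d u q * Λ.card) ≤ Z u q Λ E * b ^ (dE Λ).card := by
      rwa [div_le_iff₀ (by positivity)] at hD
    calc Real.exp (pr d u q * Λ.card) * b ^ (2 * (dE Λ).card) *
          Real.exp (2 * (EB Λ).card * ρ ^ l)
        ≤ (Z u q Λ E * b ^ (dE Λ).card) * b ^ (2 * (dE Λ).card) *
          Real.exp (2 * (EB Λ).card * ρ ^ l) := by gcongr
      _ = Z u q Λ E * (b ^ (3 * (dE Λ).card) *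
          Real.exp (2 * (EB Λ).card * ρ ^ l)) := by
          ring
      _ = Real.exp (24 * t * (dE Λ).card + 2 * (EB Λ).card * ρ ^ l) * Z u q Λ E := by
          rw [hbpow, ← Real.exp_add, mul_comm (Z u q Λ E)]
          congr 3
          push_cast
          ring
  have h9 := Real.exp_le_exp.mp hfin
  have h10 : (0 : ℝ) ≤ 2 * (EB Λ).card * ρ ^ l := by positivity
  have h11 : t * Ex u q Λ E (fun ω => ((Sf ω).card : ℝ)) ≤
      t * (24 * (dE Λ).card + 4 * (EB Λ).card * ρ ^ l) := by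
    refine h9.trans ?_
    nlinarith
  exact le_of_mul_le_mul_left h11 ht0

end Pool.Agent.Lib.MP_31386d_pr
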