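import Pool.Agent.Lib.MP_31386d_pr.Main

/-!
# Explicit values of the constants
-/

set_option autoImplicit false

namespace Pool.Agent.Lib.MP_31386d_pr

theorem eps_lower {D : ℕ} (hD : 2 ≤ D) :
    Real.exp (-(4 * (((D + 1 : ℕ) : ℝ) * 3 ^ D))) ≤
      (min (1 / (2 * 25 ^ D * (2 ^ D + 4))) 1 : ℝ) ^ (3 ^ D) := by
  have h2 : (4 : ℝ) ≤ 2 ^ D := by
    calc (4 : ℝ) = 2 ^ 2 := by norm_num
      _ ≤ 2 ^ D := pow_le_pow_right₀ (by norm_num) hD
  have h25 : (1 : ℝ) ≤ 25 ^ D := one_le_pow₀ (by norm_num)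
  have hpos : (0 : ℝ) < 2 * 25 ^ D * (2 ^ D + 4) := by positivity
  have hge1 : (1 : ℝ) ≤ 2 * 25 ^ D * (2 ^ D + 4) := by nlinarith
  have hmin : (min (1 / (2 * 25 ^ D * (2 ^ D + 4))) 1 : ℝ) = 1 / (2 * 25 ^ D * (2 ^ D + 4)) := by
    apply min_eq_left
    rw [div_le_one hpos]
    exact hge1
  rw [hmin]
  have h50 : (2 * 25 ^ D * (2 ^ D + 4) : ℝ) ≤ 50 ^ (D + 1) := by
    have : (50 : ℝ) ^ (D + 1) = 50 * (25 ^ D * 2 ^ D) := by
      rw [pow_succ, ← mul_pow]
      norm_num
      ring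
    rw [this]
    nlinarith [mul_le_mul_of_nonneg_left h2 (by positivity : (0 : ℝ) ≤ 25 ^ D)]
  have he4 : (50 : ℝ) ≤ Real.exp 4 := by
    have h1 : (2.7182818283 : ℝ) < Real.exp 1 := Real.exp_one_gt_d9
    have h3 : Real.exp 4 = Real.exp 1 ^ 4 := by
      rw [← Real.exp_nat_mul]
      norm_num
    rw [h3]
    calc (50 : ℝ) ≤ 2.7182818283 ^ 4 := by norm_num
      _ ≤ Real.exp 1 ^ 4 := pow_le_pow_left₀ (by norm_num) h1.le 4
  have hexp : (2 * 25 ^ D * (2 ^ D + 4) : ℝ) ≤ Real.exp (4 * (D + 1 : ℕ)) := by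
    refine h50.trans ?_
    calc (50 : ℝ) ^ (D + 1) ≤ Real.exp 4 ^ (D + 1) := pow_le_pow_left₀ (by norm_num) he4 _
      _ = Real.exp (4 * (D + 1 : ℕ)) := by
          rw [← Real.exp_nat_mul]
          congr 1
          ring
  calc Real.exp (-(4 * (((D + 1 : ℕ) : ℝ) * 3 ^ D)))
      = (Real.exp (-(4 * (D + 1 : ℕ)))) ^ (3 ^ D) := by
        rw [← Real.exp_nat_mul]
        congr 1
        push_cast
        ring
    _ ≤ (1 / (2 * 25 ^ D * (2 ^ D + 4))) ^ (3 ^ D) := by
        apply pow_le_pow_left₀ (Real.exp_pos _).le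
        rw [Real.exp_neg, ← one_div]
        exact one_div_le_one_div_of_le hpos hexp

/-- The conditions hold for `t ≥ 4 d ^ 2 3 ^ d`. -/
theorem cond_explicit {D : ℕ} (hD : 2 ≤ D) {t : ℝ}
    (ht : 4 * ((D + 1 : ℕ) : ℝ) ^ 2 * 3 ^ (D + 1) ≤ t) :
    Cond (D + 1) ((min (1 / (2 * 25 ^ D * (2 ^ D + 4))) 1 : ℝ) ^ (3 ^ D)) t := by
  set d := D + 1 with hd
  set y : ℝ := (d : ℝ) * 3 ^ d with hy
  have hd3 : (3 : ℝ) ≤ d := by
    have : 3 ≤ d := by omega
    exact_mod_cast this
  have h3d : (27 : ℝ) ≤ 3 ^ d := by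
    calc (27 : ℝ) = 3 ^ 3 := by norm_num
      _ ≤ 3 ^ d := pow_le_pow_right₀ (by norm_num) (by omega)
  have hy81 : 81 ≤ y := by rw [hy]; nlinarith
  have hy0 : 0 < y := by linarith
  have hdy : (d : ℝ) ≤ y := by rw [hy]; nlinarith
  have h2d : (2 : ℝ) ^ d ≤ y := by
    rw [hy]
    have h1 : (2 : ℝ) ^ d ≤ 3 ^ d := pow_le_pow_left₀ (by norm_num) (by norm_num) _
    nlinarith
  have hd1y : (d : ℝ) * (d + 1) ≤ y := by
    rw [hy]
    have h1 : (d : ℝ) + 1 ≤ 3 ^ d := by
      have h2 : d + 1 ≤ 3 ^ d := by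
        have : d < 3 ^ d := Nat.lt_pow_self (by norm_num)
        omega
      exact_mod_cast h2
    nlinarith
  have ht12 : 12 * y ≤ t := by
    have h1 : 12 * y ≤ 4 * (d : ℝ) ^ 2 * 3 ^ d := by
      rw [hy]
      have : 0 < (d : ℝ) * 3 ^ d := by positivity
      nlinarith
    linarith
  have htd : 4 * d * y ≤ t := by
    have h1 : 4 * d * y = 4 * (d : ℝ) ^ 2 * 3 ^ d := by
      rw [hy]
      ring
    linarith
  -- bounds for the exponential
  have hX : ∀ n : ℕ, Real.exp (-t) * (12 * y) ^ n ≤ n.factorial := by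
    intro n
    have h1 := Real.pow_div_factorial_le_exp (12 * y) (by positivity) n
    have h2 : Real.exp (12 * y) ≤ Real.exp t := Real.exp_le_exp.mpr ht12
    have h3 : (12 * y) ^ n ≤ n.factorial * Real.exp t := by
      rw [div_le_iff₀ (by positivity)] at h1
      nlinarith [Nat.cast_pos (α := ℝ) |>.mpr n.factorial_pos]
    calc Real.exp (-t) * (12 * y) ^ n ≤ Real.exp (-t) * (n.factorial * Real.exp t) :=
          mul_le_mul_of_nonneg_left h3 (Real.exp_pos _).le
      _ = n.factorial * (Real.exp (-t) * Real.exp t) := by ring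
      _ = n.factorial := by rw [← Real.exp_add]; simp
  set X := Real.exp (-t) with hXdef
  have hX0 : 0 < X := Real.exp_pos _
  have hX2 : X * y ^ 2 ≤ 1 / 72 := by
    have := hX 2
    norm_num [Nat.factorial] at this
    nlinarith
  have hX3 : X * y ^ 3 ≤ 1 / 288 := by
    have := hX 3
    norm_num [Nat.factorial] at this
    nlinarith
  have hX5 : X * y ^ 4 ≤ 1 / 160000 := by
    have h6 := hX 6
    norm_num [Nat.factorial] at h6
    have h7 : X * y ^ 6 ≤ 1 / 4000 := by nlinarith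
    have h8 : X * y ^ 4 * 6561 ≤ X * y ^ 6 := by
      have : X * y ^ 6 = X * y ^ 4 * y ^ 2 := by ring
      rw [this]
      apply mul_le_mul_of_nonneg_left _ (by positivity)
      nlinarith
    linarith
  unfold Cond
  refine ⟨by linarith, by nlinarith, ?_, ?_, ?_, ?_, ?_, ?_⟩
  · calc 2 ^ d * (4 * y ^ 2 * X) ≤ y * (4 * y ^ 2 * X) :=
          mul_le_mul_of_nonneg_right h2d (by positivity)
      _ = 4 * (X * y ^ 3) := by ring
      _ ≤ 1 := by linarith
  · have h1 : Real.exp (1 - 4 * t) ≤ 1 / 2 := by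
      have h2 : Real.exp (1 - 4 * t) ≤ Real.exp (-1) := Real.exp_le_exp.mpr (by linarith)
      have h3 : Real.exp (-1) ≤ 1 / 2 := by
        rw [Real.exp_neg, ← one_div]
        apply one_div_le_one_div_of_le (by norm_num)
        have := Real.exp_one_gt_d9
        linarith
      exact h2.trans h3
    have h4 : 32 * d * (4 * y ^ 2 * X) ≤ 128 * (X * y ^ 3) := by
      have : 32 * d * (4 * y ^ 2 * X) = 128 * (X * y ^ 2) * d := by ring
      rw [this]
      have h5 : 128 * (X * y ^ 3) = 128 * (X * y ^ 2) * y := by ring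
      rw [h5]
      exact mul_le_mul_of_nonneg_left hdy (by positivity)
    linarith
  · have h1 : 1 / (Real.exp (16 * t) - 1) ≤ 1 / (640 * y) := by
      apply one_div_le_one_div_of_le (by positivity)
      have h2 := Real.pow_div_factorial_le_exp (16 * t) (by linarith) 2
      norm_num [Nat.factorial] at h2
      have h3 : (192 * y) ^ 2 ≤ (16 * t) ^ 2 := pow_le_pow_left₀ (by positivity) (by linarith) _
      nlinarith
    have h4 : 2 * (32 * d * (4 * y ^ 2 * X)) = 256 * (X * y ^ 2) * d := by ring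
    have h5 : (16 * (d : ℝ) + 16) ≤ 32 * y := by linarith
    have h6 : (16 * (d : ℝ) + 16) * (256 * (X * y ^ 2) * d) ≤ 1 / 19 := by
      calc (16 * (d : ℝ) + 16) * (256 * (X * y ^ 2) * d) ≤ (32 * y) * (256 * (X * y ^ 2) * y) := by
            apply mul_le_mul h5 _ (by positivity) (by positivity)
            exact mul_le_mul_of_nonneg_left hdy (by positivity)
        _ = 8192 * (X * y ^ 4) := by ring
        _ ≤ 1 / 19 := by linarith
    have h6' : (16 * (d : ℝ) + 16) * (256 * (X * y ^ 2) * d) ≤ 1 / 19 := h6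
    have h7 : (16 * (d : ℝ) + 16) * (1 / (Real.exp (16 * t) - 1)) ≤ 1 / 21 := by
      have h8 : (16 * (d : ℝ) + 16) * (1 / (640 * y)) ≤ 1 / 21 := by
        rw [mul_one_div, div_le_iff₀ (by positivity)]
        have h9 : 27 * (d : ℝ) ≤ y := by rw [hy]; nlinarith
        linarith
      refine le_trans (mul_le_mul_of_nonneg_left h1 (by positivity)) h8
    have h10 : (4 * (d : ℝ) + 4) * (1 / (40 * (d + 1))) = 1 / 10 := by
      field_simp
      ring
    rw [h4]
    have h11 : (4 * (d : ℝ) + 4) * (4 * (256 * (X * y ^ 2) * d + 1 / (Real.exp (16 * t) - 1)) +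
        1 / (40 * (d + 1))) = (16 * (d : ℝ) + 16) * (256 * (X * y ^ 2) * d) +
        (16 * (d : ℝ) + 16) * (1 / (Real.exp (16 * t) - 1)) +
        (4 * (d : ℝ) + 4) * (1 / (40 * (d + 1))) := by ring
    rw [h11, h10]
    have h12 : 8192 * (X * y ^ 4) ≤ 8192 / 160000 := by linarith
    have h13 : (16 * (d : ℝ) + 16) * (256 * (X * y ^ 2) * d) ≤ 8192 * (X * y ^ 4) := by
      calc (16 * (d : ℝ) + 16) * (256 * (X * y ^ 2) * d) ≤ (32 * y) * (256 * (X * y ^ 2) * y) := by
            apply mul_le_mul h5 _ (by positivity) (by positivity)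
            exact mul_le_mul_of_nonneg_left hdy (by positivity)
        _ = 8192 * (X * y ^ 4) := by ring
    norm_num at h12
    linarith
  · nlinarith
  · have h1 : 8 * 4 / 100 * y ≤ 8 * t / (100 * d) := by
      rw [le_div_iff₀ (by positivity)]
      nlinarith
    have h2 : Real.exp (-(8 * t / (100 * d))) ≤ Real.exp (-(8 * 4 / 100 * y)) :=
      Real.exp_le_exp.mpr (by linarith)
    have h3 := Real.pow_div_factorial_le_exp (8 * 4 / 100 * y) (by positivity) 6
    norm_num [Nat.factorial] at h3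
    have h4 : 8 * y ^ 2 ≤ Real.exp (8 * 4 / 100 * y) := by
      have h5 : 8 * y ^ 2 ≤ (8 * 4 / 100 * y) ^ 6 / 720 := by
        have h6 : (81 : ℝ) ^ 4 ≤ y ^ 4 := pow_le_pow_left₀ (by norm_num) hy81 4
        have h7 : (8 * 4 / 100 * y) ^ 6 / 720 = y ^ 2 * (y ^ 4 * ((8 * 4 / 100) ^ 6 / 720)) := by
          ring
        rw [h7, mul_comm 8]
        apply mul_le_mul_of_nonneg_left _ (by positivity)
        calc (8 : ℝ) ≤ 81 ^ 4 * ((8 * 4 / 100) ^ 6 / 720) := by norm_num
          _ ≤ y ^ 4 * ((8 * 4 / 100) ^ 6 / 720) :=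
              mul_le_mul_of_nonneg_right h6 (by positivity)
      refine h5.trans ?_
      norm_num
      linarith
    calc 4 * y ^ 2 * Real.exp (-(8 * t / (100 * d)))
        ≤ 4 * y ^ 2 * Real.exp (-(8 * 4 / 100 * y)) :=
          mul_le_mul_of_nonneg_left h2 (by positivity)
      _ ≤ (Real.exp (8 * 4 / 100 * y) / 2) * Real.exp (-(8 * 4 / 100 * y)) :=
          mul_le_mul_of_nonneg_right (by linarith) (Real.exp_pos _).le
      _ = 1 / 2 := by
          rw [div_mul_eq_mul_div, ← Real.exp_add]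
          simp
  · have h0 := eps_lower hD
    refine lt_of_lt_of_le ?_ h0
    have h1 : 4 * (((D + 1 : ℕ) : ℝ) * 3 ^ D) = 4 * y / 3 := by
      rw [hy, hd, pow_succ]
      ring
    rw [h1]
    have h2 : 32 * d * (4 * y ^ 2 * X) / (1 / (40 * ((d : ℝ) + 1))) =
        5120 * ((d : ℝ) * (d + 1)) * (y ^ 2 * X) := by
      field_simp
      ring
    rw [h2]
    have h3 : 5120 * ((d : ℝ) * (d + 1)) * (y ^ 2 * X) ≤ 5120 * y ^ 3 * X := by
      calc 5120 * ((d : ℝ) * (d + 1)) * (y ^ 2 * X) ≤ 5120 * y * (y ^ 2 * X) := by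
            apply mul_le_mul_of_nonneg_right _ (by positivity)
            linarith
        _ = _ := by ring
    have h4 : X ≤ Real.exp (-(10 * y)) * Real.exp (-(4 * y / 3)) := by
      rw [← Real.exp_add, hXdef]
      apply Real.exp_le_exp.mpr
      linarith
    have h5 : 5120 * y ^ 3 * Real.exp (-(10 * y)) < 1 := by
      have h6 := Real.pow_div_factorial_le_exp (10 * y) (by positivity) 4
      norm_num [Nat.factorial] at h6
      have h7 : 5120 * y ^ 3 < Real.exp (10 * y) := by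
        have h8 : 5120 * y ^ 3 < (10 * y) ^ 4 / 24 := by
          have h9 : (10 * y) ^ 4 / 24 = y ^ 3 * (y * (10000 / 24)) := by ring
          rw [h9, mul_comm 5120]
          apply mul_lt_mul_of_pos_left _ (by positivity)
          linarith
        linarith
      calc 5120 * y ^ 3 * Real.exp (-(10 * y)) < Real.exp (10 * y) * Real.exp (-(10 * y)) :=
            mul_lt_mul_of_pos_right h7 (Real.exp_pos _)
        _ = 1 := by rw [← Real.exp_add]; simp
    calc 5120 * ((d : ℝ) * (d + 1)) * (y ^ 2 * X) ≤ 5120 * y ^ 3 * X := h3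
      _ ≤ 5120 * y ^ 3 * (Real.exp (-(10 * y)) * Real.exp (-(4 * y / 3))) :=
          mul_le_mul_of_nonneg_left h4 (by positivity)
      _ = (5120 * y ^ 3 * Real.exp (-(10 * y))) * Real.exp (-(4 * y / 3)) := by ring
      _ < 1 * Real.exp (-(4 * y / 3)) := mul_lt_mul_of_pos_right h5 (Real.exp_pos _)
      _ = _ := one_mul _

end Pool.Agent.Lib.MP_31386d_pr
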