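import Pool.Agent.Lib.MP_31386d_pr.Lattice

/-!
# The pressure, and the two upper bounds for general domains
-/

set_option autoImplicit false

namespace Pool.Agent.Lib.MP_31386d_pr

open Finset Filter Topology

variable {d : ℕ} {u q : ℝ}

/-- The core of a supermodular function is non-empty. -/
theorem exists_core {α : Type*} [DecidableEq α] (Φ : Finset α → ℝ) (h0 : Φ ∅ = 0)
    (Λ : Finset α) (hsm : ∀ V W, V ⊆ Λ → W ⊆ Λ → Φ V + Φ W ≤ Φ (V ∪ W) + Φ (V ∩ W))
    (hmono : ∀ V W, V ⊆ W → W ⊆ Λ → Φ V ≤ Φ W) :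
    ∃ δ : α → ℝ, (∀ x, 0 ≤ δ x) ∧ (∀ x, x ∉ Λ → δ x = 0) ∧ ∑ x ∈ Λ, δ x = Φ Λ ∧
      ∀ V, V ⊆ Λ → Φ V ≤ ∑ x ∈ V, δ x := by
  induction Λ using Finset.induction_on with
  | empty =>
    refine ⟨fun _ => 0, fun _ => le_rfl, fun _ _ => rfl, by simp [h0], fun V hV => ?_⟩
    rw [subset_empty] at hV
    rw [hV, h0]
    simp
  | insert a Λ ha ih =>
    obtain ⟨δ, hδ0, hδΛ, hδs, hδ⟩ := ih
      (fun V W hV hW => hsm V W (hV.trans (subset_insert _ _)) (hW.trans (subset_insert _ _)))
      (fun V W hVW hW => hmono V W hVW (hW.trans (subset_insert _ _)))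
    set δ' : α → ℝ := fun x => if x = a then Φ (insert a Λ) - Φ Λ else δ x with hδ'
    have hΛ : ∀ V, a ∉ V → ∑ x ∈ V, δ' x = ∑ x ∈ V, δ x := by
      intro V hV
      apply sum_congr rfl
      intro x hx
      rw [hδ']
      simp only
      rw [if_neg]
      rintro rfl
      exact hV hx
    refine ⟨δ', fun x => ?_, fun x hx => ?_, ?_, fun V hV => ?_⟩
    · rw [hδ']
      simp only
      split_ifs
      · have := hmono Λ (insert a Λ) (subset_insert _ _) (subset_refl _)
        linarith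
      · exact hδ0 x
    · rw [mem_insert, not_or] at hx
      rw [hδ']
      simp only
      rw [if_neg hx.1]
      exact hδΛ x hx.2
    · rw [sum_insert ha, hΛ Λ ha, hδs, hδ']
      simp
    · by_cases haV : a ∈ V
      · have hV' : V.erase a ⊆ Λ := by
          intro x hx
          rw [mem_erase] at hx
          exact (mem_insert.mp (hV hx.2)).resolve_left hx.1
        have h1 := hsm V Λ hV (subset_insert _ _)
        have h2 : V ∪ Λ = insert a Λ := by
          ext x
          simp only [mem_union, mem_insert]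
          constructor
          · rintro (h | h)
            · exact mem_insert.mp (hV h)
            · exact Or.inr h
          · rintro (rfl | h)
            · exact Or.inl haV
            · exact Or.inr h
        have h3 : V ∩ Λ = V.erase a := by
          ext x
          simp only [mem_inter, mem_erase]
          constructor
          · rintro ⟨h, h'⟩
            exact ⟨fun h'' => ha (h'' ▸ h'), h⟩
          · rintro ⟨h, h'⟩
            exact ⟨h', hV' (mem_erase.mpr ⟨h, h'⟩)⟩
        rw [h2, h3] at h1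
        have h4 := hδ _ hV'
        rw [← insert_erase haV, sum_insert (notMem_erase _ _), hΛ _ (notMem_erase _ _),
          insert_erase haV]
        have h5 : δ' a = Φ (insert a Λ) - Φ Λ := by
          rw [hδ']
          simp
        rw [h5]
        linarith
      · rw [hΛ V haV]
        apply hδ
        intro x hx
        exact (mem_insert.mp (hV hx)).resolve_left (fun h => haV (h ▸ hx))

/-- Translates of `V ⊆ Box r` inside `Box n`. -/
theorem core_translate (Φ : Finset (Pt d) → ℝ) (h0 : Φ ∅ = 0) (n r : ℕ) (hrn : r ≤ n)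
    (hsm : ∀ V W, V ⊆ Box d n → W ⊆ Box d n → Φ V + Φ W ≤ Φ (V ∪ W) + Φ (V ∩ W))
    (hmono : ∀ V W, V ⊆ W → W ⊆ Box d n → Φ V ≤ Φ W)
    (V : Finset (Pt d)) (hV : V ⊆ Box d r)
    (htr : ∀ t, shV t V ⊆ Box d n → Φ (shV t V) = Φ V) :
    (((n - r : ℕ) : ℝ)) ^ d * Φ V ≤ V.card * Φ (Box d n) := by
  obtain ⟨δ, hδ0, -, hδs, hδ⟩ := exists_core Φ h0 (Box d n) hsm hmono
  have hin : ∀ t ∈ Box d (n - r), shV t V ⊆ Box d n := by
    intro t ht x hx
    rw [mem_shV] at hx
    have h1 := mem_Box.mp (hV hx)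
    rw [mem_Box] at ht ⊢
    intro i
    have h2 := h1 i
    have h3 := ht i
    simp only [Pi.sub_apply] at h2
    omega
  have h1 : ∀ t ∈ Box d (n - r), Φ V ≤ ∑ x ∈ V, δ (x + t) := by
    intro t ht
    rw [← htr t (hin t ht)]
    refine (hδ _ (hin t ht)).trans (le_of_eq ?_)
    unfold shV
    rw [sum_map]
    rfl
  have h2 : ((Box d (n - r)).card : ℝ) * Φ V ≤ ∑ t ∈ Box d (n - r), ∑ x ∈ V, δ (x + t) := by
    rw [← nsmul_eq_mul]
    exact card_nsmul_le_sum _ _ _ h1
  rw [sum_comm] at h2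
  have h3 : ∀ x ∈ V, ∑ t ∈ Box d (n - r), δ (x + t) ≤ Φ (Box d n) := by
    intro x hx
    rw [← hδs, ← sum_image (s := Box d (n - r)) (g := fun t => x + t)
      (by intro a _ b _ hab; simpa using hab)]
    apply sum_le_sum_of_subset_of_nonneg
    · intro y hy
      rw [mem_image] at hy
      obtain ⟨t, ht, rfl⟩ := hy
      have := hin t ht (mem_shV.mpr (show x + t - t ∈ V by simpa using hx))
      exact this
    · intro _ _ _
      exact hδ0 _
  have h4 := sum_le_card_nsmul _ _ _ h3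
  rw [nsmul_eq_mul] at h4
  rw [card_Box] at h2
  push_cast at h2
  exact h2.trans h4

/-- Every finite set has a translate in a box with nonnegative coordinates. -/
theorem exists_shV_subset_Box (V : Finset (Pt d)) : ∃ (t : Pt d) (r : ℕ), shV t V ⊆ Box d r := by
  obtain ⟨R, hR⟩ : ∃ R : ℕ, ∀ x ∈ V, ∀ i, |x i| ≤ R := by
    refine ⟨∑ x ∈ V, ∑ i, (x i).natAbs, fun x hx i => ?_⟩
    have h1 : (x i).natAbs ≤ ∑ i, (x i).natAbs :=
      single_le_sum (f := fun i => (x i).natAbs) (fun _ _ => Nat.zero_le _) (mem_univ i)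
    have h2 : ∑ i, (x i).natAbs ≤ ∑ x ∈ V, ∑ i, (x i).natAbs :=
      single_le_sum (f := fun x : Pt d => ∑ i, (x i).natAbs) (fun _ _ => Nat.zero_le _) hx
    have h3 := h1.trans h2
    rw [Int.abs_eq_natAbs]
    exact_mod_cast h3
  refine ⟨fun _ => (R : ℤ), 2 * R + 1, fun x hx => ?_⟩
  rw [mem_shV] at hx
  rw [mem_Box]
  intro i
  have := hR _ hx i
  simp only [Pi.sub_apply] at this
  rw [abs_le] at this
  push_cast
  constructor <;> linarith [this.1, this.2]

theorem limit_le (a c C : ℝ) (r : ℕ) (d : ℕ)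
    (h : ∀ n : ℕ, r ≤ n → 1 ≤ n → ((n - r : ℕ) : ℝ) ^ d * a ≤ (n : ℝ) ^ d * c + C * (n : ℝ) ^ (d - 1))
    (hd : 1 ≤ d) : a ≤ c := by
  have h1 : Tendsto (fun n : ℕ => (1 - (r : ℝ) / n) ^ d * a) atTop (𝓝 ((1 - 0) ^ d * a)) := by
    apply Tendsto.mul_const
    apply Tendsto.pow
    apply Tendsto.const_sub
    exact tendsto_const_div_atTop_nhds_zero_nat _
  have h2 : Tendsto (fun n : ℕ => c + C / n) atTop (𝓝 (c + 0)) :=
    Tendsto.const_add _ (tendsto_const_div_atTop_nhds_zero_nat _)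
  rw [sub_zero, one_pow, one_mul] at h1
  rw [add_zero] at h2
  apply le_of_tendsto_of_tendsto h1 h2
  filter_upwards [eventually_ge_atTop (max r 1)] with n hn
  have hn1 : r ≤ n := (le_max_left _ _).trans hn
  have hn2 : 1 ≤ n := (le_max_right _ _).trans hn
  have hn0 : (0 : ℝ) < n := by exact_mod_cast hn2
  have h3 := h n hn1 hn2
  rw [Nat.cast_sub hn1] at h3
  have h4 : (1 - (r : ℝ) / n) = ((n : ℝ) - r) / n := by
    field_simp
  rw [h4, div_pow, div_mul_eq_mul_div, div_le_iff₀ (by positivity)]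
  refine h3.trans (le_of_eq ?_)
  obtain ⟨k, rfl⟩ : ∃ k, d = k + 1 := ⟨d - 1, by omega⟩
  simp only [Nat.add_sub_cancel]
  field_simp
  ring

/-- The pressure. -/
noncomputable def pr (d : ℕ) (u q : ℝ) : ℝ :=
  sSup {r | ∃ V : Finset (Pt d), V.Nonempty ∧ r = Real.log (Z0 u q V) / V.card}

theorem pr_bdd (hu : 0 < u) (hq : 1 ≤ q) :
    BddAbove {r | ∃ V : Finset (Pt d), V.Nonempty ∧ r = Real.log (Z0 u q V) / V.card} := by
  refine ⟨d * Real.log (1 + u) + Real.log q, ?_⟩
  rintro r ⟨V, hV, rfl⟩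
  have hc : (0 : ℝ) < V.card := by exact_mod_cast hV.card_pos
  rw [div_le_iff₀ hc]
  have h1 := Real.log_le_log (Z0_pos hu hq V) (Z0_upper hu hq V)
  rw [Real.log_mul (by positivity) (by positivity), Real.log_pow, Real.log_pow] at h1
  push_cast at h1
  linarith

theorem log_Z0_le (hu : 0 < u) (hq : 1 ≤ q) (V : Finset (Pt d)) :
    Real.log (Z0 u q V) ≤ pr d u q * V.card := by
  rcases V.eq_empty_or_nonempty with rfl | hV
  · have h : Z0 u q (∅ : Finset (Pt d)) = 1 := by
      unfold Z0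
      rw [Z_empty]
      simp [EI]
    rw [h]
    simp
  · have hc : (0 : ℝ) < V.card := by exact_mod_cast hV.card_pos
    rw [← div_le_iff₀ hc]
    exact le_csSup (pr_bdd hu hq) ⟨V, hV, rfl⟩

/-- First upper bound. -/
theorem F1 (hu : 0 < u) (hq : 1 ≤ q) (V : Finset (Pt d)) :
    Z0 u q V ≤ Real.exp (pr d u q * V.card) := by
  rw [← Real.log_le_iff_le_exp (Z0_pos hu hq V)]
  exact log_Z0_le hu hq V

theorem pr_nonneg (hu : 0 < u) (hq : 1 ≤ q) : 0 ≤ pr d u q := by
  have h1 := log_Z0_le hu hq ({0} : Finset (Pt d))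
  have h2 : 0 ≤ Real.log (Z0 u q ({0} : Finset (Pt d))) := by
    apply Real.log_nonneg
    refine le_trans ?_ (one_le_Z0 hu hq _)
    exact one_le_pow₀ hq
  simpa using h2.trans h1

/-- Comparison with boxes. -/
theorem log_Z0_box (hu : 0 < u) (hq : 1 ≤ q) (V : Finset (Pt d)) :
    ∃ r : ℕ, ∀ n : ℕ, r ≤ n →
      ((n - r : ℕ) : ℝ) ^ d * Real.log (Z0 u q V) ≤ V.card * Real.log (Z0 u q (Box d n)) := by
  obtain ⟨t, r, hr⟩ := exists_shV_subset_Box V
  refine ⟨r, fun n hn => ?_⟩
  have h := core_translate (fun W => Real.log (Z0 u q W)) (by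
      have h : Z0 u q (∅ : Finset (Pt d)) = 1 := by
        unfold Z0
        rw [Z_empty]
        simp [EI]
      simp only [h, Real.log_one]) n r hn
    (fun V W _ _ => by
      rw [← Real.log_mul (Z0_pos hu hq _).ne' (Z0_pos hu hq _).ne',
        ← Real.log_mul (Z0_pos hu hq _).ne' (Z0_pos hu hq _).ne']
      exact Real.log_le_log (mul_pos (Z0_pos hu hq _) (Z0_pos hu hq _)) (Z0_supermod hu hq V W))
    (fun V W hVW _ => by
      apply Real.log_le_log (Z0_pos hu hq _)
      have h1 := Z0_supermult hu hq (V := V) (W := W \ V) disjoint_sdiff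
      rw [union_sdiff_of_subset hVW] at h1
      have h2 : 1 ≤ Z0 u q (W \ V) := le_trans (one_le_pow₀ hq) (one_le_Z0 hu hq _)
      nlinarith [Z0_pos hu hq V])
    (shV t V) hr
    (fun s _ => by
      rw [Z0_shV])
  simp only [Z0_shV, card_shV] at h
  exact h

/-- Tiling a large box by small ones. -/
theorem tile_bound (hu : 0 < u) (hq : 1 ≤ q) {b : ℝ} (hb : 1 ≤ b) (hb2 : b ^ 2 = 1 + u)
    (N K : ℕ) (hN : 1 ≤ N) :
    Z0 u q (Box d (K * N)) ≤ (Z0 u q (Box d N) * b ^ (dE (Box d N)).card) ^ K ^ d := by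
  classical
  set T : Pt d → Finset (Pt d) := fun k => shV (fun i => (N : ℤ) * k i) (Box d N) with hT
  have hNz : (0 : ℤ) < N := by exact_mod_cast hN
  have hmem : ∀ k x, x ∈ T k ↔ ∀ i, x i / (N : ℤ) = k i := by
    intro k x
    rw [hT, mem_shV, mem_Box]
    apply forall_congr'
    intro i
    simp only [Pi.sub_apply]
    rw [Int.ediv_eq_iff_of_pos hNz]
    constructor
    · rintro ⟨h1, h2⟩
      constructor <;> nlinarith
    · rintro ⟨h1, h2⟩
      constructor <;> nlinarith
  have hdisj : ∀ k k', k ≠ k' → Disjoint (T k) (T k') := by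
    intro k k' hk
    rw [Finset.disjoint_left]
    intro x hx hx'
    rw [hmem] at hx hx'
    apply hk
    funext i
    rw [← hx i, ← hx' i]
  have hind : ∀ s : Finset (Pt d), Z0 u q (s.biUnion T) * b ^ (dE (s.biUnion T)).card ≤
      (Z0 u q (Box d N) * b ^ (dE (Box d N)).card) ^ s.card := by
    intro s
    induction s using Finset.induction_on with
    | empty =>
      have h : Z0 u q (∅ : Finset (Pt d)) = 1 := by
        unfold Z0
        rw [Z_empty]
        simp [EI]
      simp only [biUnion_empty, card_empty, pow_zero]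
      rw [h]
      simp [dE, EB]
    | insert k s hk ih =>
      rw [biUnion_insert, card_insert_of_notMem hk, pow_succ']
      have hd : Disjoint (T k) (s.biUnion T) := by
        rw [Finset.disjoint_biUnion_right]
        intro k' hk'
        exact hdisj k k' (fun h => hk (h ▸ hk'))
      refine (M_submult hu hq (by linarith) hb2 hd).trans ?_
      have h1 : Z0 u q (T k) * b ^ (dE (T k)).card =
          Z0 u q (Box d N) * b ^ (dE (Box d N)).card := by
        rw [hT]
        simp only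
        rw [Z0_shV, dE_shV, card_shE]
      rw [h1]
      apply mul_le_mul_of_nonneg_left ih
      have := Z0_pos hu hq (Box d N)
      positivity
  have hbox : (Box d K).biUnion T = Box d (K * N) := by
    ext x
    rw [mem_biUnion, mem_Box]
    constructor
    · rintro ⟨k, hk, hx⟩ i
      rw [hmem] at hx
      rw [mem_Box] at hk
      have h1 := hk i
      have h2 := hx i
      rw [Int.ediv_eq_iff_of_pos hNz] at h2
      push_cast
      constructor
      · nlinarith
      · nlinarith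
    · intro hx
      refine ⟨fun i => x i / (N : ℤ), ?_, (hmem _ _).mpr (fun _ => rfl)⟩
      rw [mem_Box]
      intro i
      have := hx i
      push_cast at this
      exact ⟨Int.ediv_nonneg this.1 hNz.le, Int.ediv_lt_of_lt_mul hNz this.2⟩
  have h := hind (Box d K)
  rw [hbox, card_Box] at h
  refine le_trans ?_ h
  have := Z0_pos hu hq (Box d (K * N))
  exact le_mul_of_one_le_right this.le (one_le_pow₀ hb)

/-- Lower bound for the free partition function of a box. -/
theorem A1 (hd : 1 ≤ d) (hu : 0 < u) (hq : 1 ≤ q) {b : ℝ} (hb : 1 ≤ b) (hb2 : b ^ 2 = 1 + u)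
    (N : ℕ) (hN : 1 ≤ N) :
    Real.exp (pr d u q * (N : ℝ) ^ d) ≤ Z0 u q (Box d N) * b ^ (2 * d * N ^ (d - 1)) := by
  set m : ℝ := Real.log (Z0 u q (Box d N) * b ^ (2 * d * N ^ (d - 1))) with hm
  have hM : 0 < Z0 u q (Box d N) * b ^ (2 * d * N ^ (d - 1)) := by
    have := Z0_pos hu hq (Box d N)
    positivity
  rw [← Real.le_log_iff_exp_le hM]
  have hN0 : (0 : ℝ) < (N : ℝ) ^ d := by positivity
  rw [← le_div_iff₀ hN0]
  apply csSup_le
  · exact ⟨_, {0}, by simp, rfl⟩
  rintro x ⟨V, hV, rfl⟩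
  have hc : (0 : ℝ) < V.card := by exact_mod_cast hV.card_pos
  obtain ⟨r, hr⟩ := log_Z0_box hu hq V
  have hm0 : 0 ≤ m := by
    apply Real.log_nonneg
    have h1 : 1 ≤ Z0 u q (Box d N) := le_trans (one_le_pow₀ hq) (one_le_Z0 hu hq _)
    have h2 : 1 ≤ b ^ (2 * d * N ^ (d - 1)) := one_le_pow₀ hb
    nlinarith
  -- use multiples of N
  have key : ∀ K : ℕ, r ≤ K * N →
      ((K * N - r : ℕ) : ℝ) ^ d * (Real.log (Z0 u q V) / V.card) ≤
        ((K * N : ℕ) : ℝ) ^ d * (m / (N : ℝ) ^ d) := by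
    intro K hK
    have h1 := hr (K * N) hK
    have h2 := Real.log_le_log (Z0_pos hu hq _) (tile_bound hu hq hb hb2 N K hN (d := d))
    rw [card_dE_Box hd hN, Real.log_pow] at h2
    push_cast at h2
    rw [← hm] at h2
    have h3 : ((K * N - r : ℕ) : ℝ) ^ d * Real.log (Z0 u q V) ≤ V.card * ((K : ℝ) ^ d * m) :=
      h1.trans (mul_le_mul_of_nonneg_left h2 hc.le)
    have h4 : ((K * N : ℕ) : ℝ) ^ d * (m / (N : ℝ) ^ d) = (K : ℝ) ^ d * m := by
      push_cast
      rw [mul_pow]
      field_simp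
    rw [h4, ← mul_div_assoc, div_le_iff₀ hc]
    linarith
  have h1 : Tendsto (fun K : ℕ => (1 - (r : ℝ) / ((K * N : ℕ) : ℝ)) ^ d *
      (Real.log (Z0 u q V) / V.card)) atTop
      (𝓝 ((1 - 0) ^ d * (Real.log (Z0 u q V) / V.card))) := by
    apply Tendsto.mul_const
    apply Tendsto.pow
    apply Tendsto.const_sub
    have := tendsto_const_div_atTop_nhds_zero_nat (r : ℝ)
    exact this.comp (tendsto_id.atTop_mul_const' hN)
  rw [sub_zero, one_pow, one_mul] at h1
  apply le_of_tendsto h1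
  filter_upwards [eventually_ge_atTop (max r 1)] with K hK
  have hK1 : r ≤ K := (le_max_left _ _).trans hK
  have hK2 : 1 ≤ K := (le_max_right _ _).trans hK
  have hKN : r ≤ K * N := hK1.trans (Nat.le_mul_of_pos_right _ hN)
  have h3 := key K hKN
  have hn0 : (0 : ℝ) < ((K * N : ℕ) : ℝ) := by
    have : 0 < K * N := Nat.mul_pos hK2 hN
    exact_mod_cast this
  rw [Nat.cast_sub hKN] at h3
  have h4 : (1 - (r : ℝ) / ((K * N : ℕ) : ℝ)) = (((K * N : ℕ) : ℝ) - r) / ((K * N : ℕ) : ℝ) := by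
    field_simp
  rw [h4, div_pow, div_mul_eq_mul_div, div_le_iff₀ (by positivity)]
  linarith

/-- The wired functional on subsets of a fixed region. -/
theorem Z_eq_Zw (V Λ : Finset (Pt d)) (h : V ⊆ Λ) :
    Z u q V (EB Λ) = (1 + u) ^ ((EB Λ).card - (EB V).card) * Zw u q V := by
  have h1 : EB Λ = EB V ∪ (EB Λ \ EB V) := (union_sdiff_of_subset (EB_mono h)).symm
  have h2 : (EB Λ \ EB V).card = (EB Λ).card - (EB V).card := card_sdiff_of_subset (EB_mono h)
  have h3 : ∀ e ∈ EB Λ \ EB V, e.1 ∉ V ∧ tgt e ∉ V := by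
    intro e he
    have h4 := (Finset.mem_sdiff.mp he).2
    rw [mem_EB] at h4
    tauto
  have h5 := Z_union_irrel (u := u) (q := q) V disjoint_sdiff h3
  rw [← h1, h2] at h5
  exact h5

/-- Second upper bound. -/
theorem W1 (hd : 1 ≤ d) (hu : 0 < u) (hq : 1 ≤ q) {b : ℝ} (hb : 1 ≤ b) (hb2 : b ^ 2 = 1 + u)
    (V : Finset (Pt d)) :
    Zw u q V ≤ Real.exp (pr d u q * V.card) * b ^ (dE V).card := by
  have hlu : 0 ≤ Real.log (1 + u) := Real.log_nonneg (by linarith)
  set H : Finset (Pt d) → ℝ := fun W => Real.log (Zw u q W) - (EB W).card * Real.log (1 + u)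
    with hH
  have hHΛ : ∀ W Λ : Finset (Pt d), W ⊆ Λ →
      Real.log (Z u q W (EB Λ)) = H W + (EB Λ).card * Real.log (1 + u) := by
    intro W Λ hW
    have hc := card_le_card (EB_mono hW)
    rw [Z_eq_Zw W Λ hW, Real.log_mul (by positivity) (Zw_pos hu hq W).ne', Real.log_pow,
      Nat.cast_sub hc, hH]
    ring
  have hH0 : H ∅ = 0 := by
    rw [hH]
    simp only [Zw]
    rw [Z_empty, Real.log_pow]
    ring
  have hHt : ∀ t W, H (shV t W) = H W := by
    intro t W
    rw [hH]
    simp only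
    rw [Zw_shV, EB_shV, card_shE]
  obtain ⟨t, r, hr⟩ := exists_shV_subset_Box V
  have h1 : ∀ n : ℕ, r ≤ n → ((n - r : ℕ) : ℝ) ^ d * H V ≤ V.card * H (Box d n) := by
    intro n hn
    have h := core_translate H hH0 n r hn
      (fun V W hV hW => by
        have e1 := hHΛ V _ hV
        have e2 := hHΛ W _ hW
        have e3 := hHΛ (V ∪ W) _ (union_subset hV hW)
        have e4 := hHΛ (V ∩ W) _ (inter_subset_left.trans hV)
        have e5 := Real.log_le_log (mul_pos (Z_pos hu hq _ _) (Z_pos hu hq _ _))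
          (Z_supermod hu hq V W (EB (Box d n)))
        rw [Real.log_mul (Z_pos hu hq _ _).ne' (Z_pos hu hq _ _).ne',
          Real.log_mul (Z_pos hu hq _ _).ne' (Z_pos hu hq _ _).ne'] at e5
        linarith)
      (fun V W hVW hW => by
        have e1 := hHΛ V _ (hVW.trans hW)
        have e2 := hHΛ W _ hW
        have e3 := Real.log_le_log (Z_pos hu hq _ _) (Z_mono_vert hu hq (EB (Box d n)) hVW)
        linarith)
      (shV t V) hr (fun s _ => by rw [hHt])
    rw [hHt, card_shV] at h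
    exact h
  have h2 : ∀ n : ℕ, 1 ≤ n → H (Box d n) ≤
      (n : ℝ) ^ d * (pr d u q - d * Real.log (1 + u)) + (d * Real.log (1 + u)) * (n : ℝ) ^ (d - 1) := by
    intro n hn
    have e1 := Real.log_le_log (Zw_pos hu hq _) (Zw_le hu hq (Box d n))
    rw [Real.log_mul (by positivity) (Z0_pos hu hq _).ne', Real.log_pow] at e1
    have e2 := log_Z0_le hu hq (Box d n)
    rw [card_Box] at e2
    have e3 := card_EB_eq (Box d n)
    have e4 := card_EI_Box (d := d) n
    have e5 : ((EB (Box d n)).card : ℝ) = (EI (Box d n)).card + (dE (Box d n)).card := by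
      exact_mod_cast e3
    have e6 : ((EI (Box d n)).card : ℝ) = d * (((n : ℝ) - 1) * (n : ℝ) ^ (d - 1)) := by
      rw [e4]
      push_cast [Nat.cast_sub hn]
      ring
    have e7 : (n : ℝ) * (n : ℝ) ^ (d - 1) = (n : ℝ) ^ d := by
      rw [← pow_succ', Nat.sub_add_cancel hd]
    rw [hH]
    simp only
    rw [e5, e6]
    push_cast at e2
    have e8 : ((n : ℝ) - 1) * (n : ℝ) ^ (d - 1) = (n : ℝ) ^ d - (n : ℝ) ^ (d - 1) := by
      rw [← e7]
      ring
    rw [e8]
    nlinarith
  have h3 : H V ≤ V.card * (pr d u q - d * Real.log (1 + u)) := by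
    apply limit_le (H V) _ (V.card * (d * Real.log (1 + u))) r d _ hd
    intro n hn hn1
    refine (h1 n hn).trans ?_
    have := mul_le_mul_of_nonneg_left (h2 n hn1) (Nat.cast_nonneg V.card : (0 : ℝ) ≤ V.card)
    refine this.trans (le_of_eq ?_)
    ring
  have h4 : Real.log (Zw u q V) ≤ pr d u q * V.card + (dE V).card * Real.log b := by
    have e1 : Real.log (1 + u) = 2 * Real.log b := by
      rw [← hb2, Real.log_pow]
      norm_num
    have e2 : (2 : ℝ) * (EB V).card = 2 * d * V.card + (dE V).card := by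
      exact_mod_cast two_card_EB V
    rw [hH] at h3
    simp only at h3
    rw [e1] at h3
    nlinarith
  have hZ := Zw_pos hu hq V
  rw [← Real.exp_log hZ]
  calc Real.exp (Real.log (Zw u q V)) ≤ Real.exp (pr d u q * V.card + (dE V).card * Real.log b) :=
        Real.exp_le_exp.mpr h4
    _ = _ := by
        rw [Real.exp_add, ← Real.log_pow, Real.exp_log (by positivity)]

end Pool.Agent.Lib.MP_31386d_pr
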