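import Pool.Agent.Lib.MP_31386d_pr.Arm
import Pool.Agent.Lib.MP_31386d_pr.Grid

/-!
# From a giant cluster in a block to uniform connectivity in slabs
-/

set_option autoImplicit false

namespace Pool.Agent.Lib.MP_31386d_pr

open Finset

variable {d : ℕ} {u q : ℝ}

namespace Slab

/-! ### Connectivity of boxes -/

theorem adj_of_lat {W : Finset (Pt d)} {x y : Pt d} (h : Lat x y) (hx : x ∈ W) (hy : y ∈ W) :
    Adj (EI W) x y := by
  obtain ⟨i, h | h⟩ := h
  · refine ⟨(x, i), ?_, Or.inl ⟨rfl, ?_⟩⟩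
    · rw [mem_EI]
      refine ⟨hx, ?_⟩
      show x + Pi.single i 1 ∈ W
      rw [← h]; exact hy
    · show x + Pi.single i 1 = y
      exact h.symm
  · refine ⟨(y, i), ?_, Or.inr ⟨rfl, ?_⟩⟩
    · rw [mem_EI]
      refine ⟨hy, ?_⟩
      show y + Pi.single i 1 ∈ W
      rw [← h]; exact hx
    · show y + Pi.single i 1 = x
      exact h.symm

theorem conn_Icc {W : Finset (Pt d)} {a b : Pt d} (hW : ∀ z, z ∈ W ↔ z ∈ Set.Icc a b)
    {x y : Pt d} (hx : x ∈ W) (hy : y ∈ W) : Conn (EI W) x y := by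
  have h := Grid.box_conn a b x y ((hW x).1 hx) ((hW y).1 hy)
  exact Relation.ReflTransGen.mono
    (fun p q h => adj_of_lat h.1 ((hW p).2 h.2.1) ((hW q).2 h.2.2)) _ _ h

/-! ### Giants in translated boxes -/

/-- The translate by `t` of the event `Giant`. -/
def GiantAt (N : ℕ) (t : Pt d) (ω : Finset (Ed d)) : Prop := Giant N (shE (-t) ω)

theorem giant_mono {N : ℕ} {ω ω' : Finset (Ed d)} (h : ω ⊆ ω') (hg : Giant N ω) : Giant N ω' := by
  obtain ⟨x, C, h1, h2, h3⟩ := hg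
  exact ⟨x, C, h1, h2, fun y hy => (h3 y hy).mono (inter_subset_inter_right h)⟩

theorem shE_mono {t : Pt d} {ω ω' : Finset (Ed d)} (h : ω ⊆ ω') : shE t ω ⊆ shE t ω' := by
  intro e he
  rw [mem_shE] at he ⊢
  exact h he

theorem giantAt_mono {N : ℕ} {t : Pt d} {ω ω' : Finset (Ed d)} (h : ω ⊆ ω')
    (hg : GiantAt N t ω) : GiantAt N t ω' := giant_mono (shE_mono h) hg

theorem shE_neg_shE (t : Pt d) (ω : Finset (Ed d)) : shE (-t) (shE t ω) = ω := by
  ext e
  rw [mem_shE, mem_shE]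
  simp

theorem shE_shE_neg (t : Pt d) (ω : Finset (Ed d)) : shE t (shE (-t) ω) = ω := by
  ext e
  rw [mem_shE, mem_shE]
  simp

theorem giant_inter {N : ℕ} {ω : Finset (Ed d)} :
    Giant N (ω ∩ EI (Box d N)) ↔ Giant N ω := by
  unfold Giant
  simp only [inter_assoc, inter_self]

theorem giantAt_inter {N : ℕ} {t : Pt d} {ω E : Finset (Ed d)} (hE : EI (shV t (Box d N)) ⊆ E) :
    GiantAt N t (ω ∩ E) ↔ GiantAt N t ω := by
  unfold GiantAt
  rw [← giant_inter, ← giant_inter (ω := shE (-t) ω)]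
  have : shE (-t) (ω ∩ E) ∩ EI (Box d N) = shE (-t) ω ∩ EI (Box d N) := by
    ext e
    simp only [mem_inter, mem_shE]
    constructor
    · rintro ⟨⟨h1, h2⟩, h3⟩
      exact ⟨h1, h3⟩
    · rintro ⟨h1, h3⟩
      refine ⟨⟨h1, hE ?_⟩, h3⟩
      rw [EI_shV, mem_shE]
      simpa using h3
  rw [this]

theorem GiantAt.out {N : ℕ} {t : Pt d} {ω : Finset (Ed d)} (h : GiantAt N t ω) :
    ∃ C : Finset (Pt d), C ⊆ shV t (Box d N) ∧ 4 * N ^ d ≤ 5 * C.card ∧
      ∀ y ∈ C, ∀ z ∈ C, Conn ω y z := by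
  obtain ⟨x, C, h1, h2, h3⟩ := h
  refine ⟨shV t C, ?_, ?_, ?_⟩
  · intro y hy
    rw [mem_shV] at hy ⊢
    exact h1 hy
  · rw [card_shV]; exact h2
  · have key : ∀ y ∈ shV t C, Conn ω (x + t) y := by
      intro y hy
      rw [mem_shV] at hy
      have h4 := (h3 _ hy).mono inter_subset_left
      rw [← conn_shE (t := t), shE_shE_neg] at h4
      simpa using h4
    intro y hy z hz
    exact (key y hy).symm.trans (key z hz)

/-- Two giants in strongly overlapping blocks meet. -/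
theorem giants_meet {N h : ℕ} (hN : N = 2 * h) (hh : 1 ≤ h) {t t' : Pt d} (i : Fin d) (s : ℤ)
    (hs : 0 ≤ s) (hs' : s ≤ h) (ht : t' = t + Pi.single i s) {C C' : Finset (Pt d)}
    (hC : C ⊆ shV t (Box d N)) (hC' : C' ⊆ shV t' (Box d N)) (c1 : 4 * N ^ d ≤ 5 * C.card)
    (c2 : 4 * N ^ d ≤ 5 * C'.card) : ∃ x, x ∈ C ∧ x ∈ C' := by
  classical
  by_contra hcon
  push Not at hcon
  have hdisj : Disjoint C C' := Finset.disjoint_left.2 hcon
  set U : Finset (Pt d) := Fintype.piFinset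
    (fun k => Finset.Ico (t k) (t k + (if k = i then (N : ℤ) + h else N))) with hU
  have hCU : C ∪ C' ⊆ U := by
    intro x hx
    rw [hU, Fintype.mem_piFinset]
    intro k
    rw [Finset.mem_Ico]
    rcases mem_union.1 hx with hx | hx
    · have := hC hx
      rw [mem_shV, mem_Box] at this
      have := this k
      simp only [Pi.sub_apply] at this
      split_ifs <;> constructor <;> omega
    · have := hC' hx
      rw [mem_shV, mem_Box] at this
      have := this k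
      rw [ht] at this
      simp only [Pi.sub_apply, Pi.add_apply] at this
      by_cases hk : k = i
      · subst hk
        rw [Pi.single_eq_same] at this
        rw [if_pos rfl]
        constructor <;> omega
      · rw [Pi.single_eq_of_ne hk] at this
        rw [if_neg hk]
        constructor <;> omega
  have hcard : U.card = (N + h) * N ^ (d - 1) := by
    rw [hU, Fintype.card_piFinset, Fintype.prod_eq_mul_prod_compl i]
    congr 1
    · rw [if_pos rfl, Int.card_Ico]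
      omega
    · rw [Finset.prod_congr rfl (g := fun _ => N)]
      · rw [Finset.prod_const, Finset.card_compl, Finset.card_singleton, Fintype.card_fin]
      · intro k hk
        rw [mem_compl, mem_singleton] at hk
        rw [if_neg hk, Int.card_Ico]
        omega
  have h1 := card_le_card hCU
  rw [card_union_of_disjoint hdisj, hcard] at h1
  have hd : 1 ≤ d := by
    have := i.2
    omega
  have h2 : N ^ d = 2 * h * N ^ (d - 1) := by
    obtain ⟨k, rfl⟩ : ∃ k, d = k + 1 := ⟨d - 1, by omega⟩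
    rw [pow_succ, Nat.add_sub_cancel, hN]
    ring
  have h3 : (N + h) * N ^ (d - 1) = 3 * (h * N ^ (d - 1)) := by
    rw [hN]; ring
  have h4 : 0 < h * N ^ (d - 1) := by
    have : 0 < N := by omega
    positivity
  rw [h3] at h1
  rw [h2] at c1 c2
  have h5 : 2 * h * N ^ (d - 1) = 2 * (h * N ^ (d - 1)) := by ring
  rw [h5] at c1 c2
  omega

/-! ### Probability that many blocks are bad -/

theorem Pb_anti_E (hu : 0 < u) (hq : 1 ≤ q) {V : Finset (Pt d)} {E E' : Finset (Ed d)}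
    (hE : E' ⊆ E) {P : Finset (Ed d) → Prop} (hP : ∀ s t, s ⊆ t → P t → P s) :
    Pb u q V E P ≤ Pb u q V E' P := by
  classical
  have h : Pb u q V E' (fun ω => ¬ P ω) ≤ Pb u q V E (fun ω => ¬ P ω) := by
    unfold Pb
    refine Ex_dom_E hu hq hE (fun ω => by split_ifs <;> norm_num) (fun s t hst => ?_)
    have := hP s t hst
    split_ifs with h1 h2
    · exact le_rfl
    · exact absurd (fun h => h1 (this h)) h2
    · norm_num
    · exact le_rfl
  rw [Pb_not hu hq, Pb_not hu hq] at h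
  linarith

theorem Pb_mono_E (hu : 0 < u) (hq : 1 ≤ q) {V : Finset (Pt d)} {E E' : Finset (Ed d)}
    (hE : E' ⊆ E) {P : Finset (Ed d) → Prop} (hP : ∀ s t, s ⊆ t → P s → P t) :
    Pb u q V E' P ≤ Pb u q V E P := by
  classical
  unfold Pb
  refine Ex_dom_E hu hq hE (fun ω => by split_ifs <;> norm_num) (fun s t hst => ?_)
  have := hP s t hst
  split_ifs with h1 h2
  · exact le_rfl
  · exact absurd (this h1) h2
  · norm_num
  · exact le_rfl

theorem Pb_split (hu : 0 < u) (hq : 1 ≤ q) {V W : Finset (Pt d)} (hW : W ⊆ V)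
    {P Q : Finset (Ed d) → Prop} (hP : ∀ s t, s ⊆ t → P t → P s)
    (hQ : ∀ s t, s ⊆ t → Q t → Q s) (hPl : ∀ ω, P (ω ∩ EI W) ↔ P ω)
    (hQl : ∀ ω, Q (ω ∩ EI (V \ W)) ↔ Q ω) :
    Pb u q V (EI V) (fun ω => P ω ∧ Q ω) ≤
      Pb u q W (EI W) P * Pb u q (V \ W) (EI (V \ W)) Q := by
  classical
  have hVW : W ∪ (V \ W) = V := union_sdiff_of_subset hW
  have hE : EI W ∪ EI (V \ W) ⊆ EI V := by
    rw [union_subset_iff]
    exact ⟨EI_mono hW, EI_mono sdiff_subset⟩
  have h1 := Pb_anti_E (u := u) (q := q) (V := V) hu hq hE (P := fun ω => P ω ∧ Q ω)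
    (fun s t hst h => ⟨hP s t hst h.1, hQ s t hst h.2⟩)
  refine h1.trans (le_of_eq ?_)
  unfold Pb
  have hd : ∀ e ∈ EI W, e.1 ∉ V \ W ∧ tgt e ∉ V \ W := by
    intro e he
    rw [mem_EI] at he
    rw [mem_sdiff, mem_sdiff]
    tauto
  have hd' : ∀ e ∈ EI (V \ W), e.1 ∉ W ∧ tgt e ∉ W := by
    intro e he
    rw [mem_EI, mem_sdiff, mem_sdiff] at he
    tauto
  have h2 := Ex_prod (u := u) (q := q) hu hq (V := W) (W := V \ W) (E := EI W)
    (F := EI (V \ W)) disjoint_sdiff hd hd' (disjoint_EI disjoint_sdiff)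
    (fun ω => if P ω then 1 else 0) (fun ω => if Q ω then 1 else 0)
  rw [hVW] at h2
  rw [← h2]
  apply Ex_congr
  intro ω _
  have a1 := hPl ω
  have a2 := hQl ω
  by_cases b1 : P ω <;> by_cases b2 : Q ω <;> simp [a1, a2, b1, b2]

theorem Pb_block (N : ℕ) (t : Pt d) :
    Pb u q (shV t (Box d N)) (EI (shV t (Box d N))) (fun ω => ¬ GiantAt N t ω) =
      Pb u q (Box d N) (EI (Box d N)) (fun ω => ¬ Giant N ω) := by
  unfold Pb
  rw [EI_shV, Ex_shV]
  apply Ex_congr
  intro ω _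
  have e : GiantAt N t (shE t ω) ↔ Giant N ω := by
    unfold GiantAt
    rw [shE_neg_shE]
  by_cases h : Giant N ω
  · rw [if_neg (not_not.2 (e.2 h)), if_neg (not_not.2 h)]
  · rw [if_pos (fun h' => h (e.1 h')), if_pos h]

theorem Pb_bad_le (hu : 0 < u) (hq : 1 ≤ q) {N : ℕ} {ε : ℝ} 
    (hε : Pb u q (Box d N) (EI (Box d N)) (fun ω => ¬ Giant N ω) ≤ ε) {ι : Type*}
    [DecidableEq ι] (t : ι → Pt d) (S : Finset ι) :
    ∀ V : Finset (Pt d), (∀ j ∈ S, shV (t j) (Box d N) ⊆ V) →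
      (∀ j ∈ S, ∀ k ∈ S, j ≠ k → Disjoint (shV (t j) (Box d N)) (shV (t k) (Box d N))) →
      Pb u q V (EI V) (fun ω => ∀ j ∈ S, ¬ GiantAt N (t j) ω) ≤ ε ^ S.card := by
  have hε0 : 0 ≤ ε := (Pb_nonneg hu hq _).trans hε
  induction S using Finset.induction_on with
  | empty =>
    intro V _ _
    rw [card_empty, pow_zero]
    exact Pb_le_one hu hq _
  | insert j S hj ih =>
    intro V hV hdis
    rw [card_insert_of_notMem hj, pow_succ']
    have h1 : ∀ k ∈ S, shV (t k) (Box d N) ⊆ V \ shV (t j) (Box d N) := by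
      intro k hk x hx
      rw [mem_sdiff]
      refine ⟨hV k (mem_insert_of_mem hk) hx, fun hx' => ?_⟩
      have := hdis j (mem_insert_self _ _) k (mem_insert_of_mem hk) (fun h => hj (h ▸ hk))
      exact Finset.disjoint_left.1 this hx' hx
    have h2 := ih _ h1 (fun a ha b hb => hdis a (mem_insert_of_mem ha) b (mem_insert_of_mem hb))
    have h3 := Pb_split (u := u) (q := q) hu hq (hV j (mem_insert_self _ _))
      (P := fun ω => ¬ GiantAt N (t j) ω) (Q := fun ω => ∀ k ∈ S, ¬ GiantAt N (t k) ω)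
      (fun s t' hst h h' => h (giantAt_mono hst h'))
      (fun s t' hst h k hk h' => h k hk (giantAt_mono hst h'))
      (fun ω => not_congr (giantAt_inter subset_rfl))
      (fun ω => by
        constructor
        · intro h k hk h'
          exact h k hk ((giantAt_inter (EI_mono (h1 k hk))).2 h')
        · intro h k hk h'
          exact h k hk ((giantAt_inter (EI_mono (h1 k hk))).1 h'))
    have h4 : (fun ω => ∀ k ∈ insert j S, ¬ GiantAt N (t k) ω) =
        fun ω : Finset (Ed d) => ¬ GiantAt N (t j) ω ∧ ∀ k ∈ S, ¬ GiantAt N (t k) ω := by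
      funext ω
      simp only [forall_mem_insert]
    rw [h4]
    refine h3.trans ?_
    rw [Pb_block]
    exact mul_le_mul hε h2 (Pb_nonneg hu hq _) hε0

/-! ### Positions of the blocks -/

/-- Position number `k` on an axis. -/
def pos (n h : ℕ) (k : ℤ) : ℤ := min (-(n : ℤ) + k * h) ((n : ℤ) - 2 * h + 1)

/-- Largest index of a position. -/
def num (n h : ℕ) : ℕ := (2 * n - h) / h

theorem num_spec {n h : ℕ} (hh : 1 ≤ h) (hn : h ≤ n) :
    2 * (n : ℤ) - 2 * h + 1 ≤ (num n h : ℤ) * h ∧ ((num n h : ℤ) - 1) * h ≤ 2 * n - 2 * h := by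
  unfold num
  have h1 := Nat.div_add_mod (2 * n - h) h
  have h2 := Nat.mod_lt (2 * n - h) (show h > 0 by omega)
  set k := (2 * n - h) / h with hk
  set r := (2 * n - h) % h with hr
  have h3 : (h : ℤ) * k + r = 2 * n - h := by
    have : h * k + r + h = 2 * n := by omega
    have h4 : ((h * k + r + h : ℕ) : ℤ) = ((2 * n : ℕ) : ℤ) := by rw [this]
    push_cast at h4
    linarith
  have h5 : (r : ℤ) < h := by exact_mod_cast h2
  have h6 : (0 : ℤ) ≤ r := by positivity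
  constructor
  · nlinarith
  · nlinarith

theorem pos_ge {n h : ℕ} (hn : h ≤ n) {k : ℤ} (hk : 0 ≤ k) : -(n : ℤ) ≤ pos n h k := by
  unfold pos
  rw [le_min_iff]
  constructor
  · have : 0 ≤ k * (h : ℤ) := by positivity
    linarith
  · have : (h : ℤ) ≤ n := by exact_mod_cast hn
    linarith

theorem pos_le (n h : ℕ) (k : ℤ) : pos n h k ≤ (n : ℤ) - 2 * h + 1 := min_le_right _ _

theorem pos_step {n h : ℕ} (k : ℤ) :
    pos n h k ≤ pos n h (k + 1) ∧ pos n h (k + 1) ≤ pos n h k + h := by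
  unfold pos
  have h1 : (k + 1) * (h : ℤ) = k * h + h := by ring
  rw [h1]
  have h2 : (0 : ℤ) ≤ h := by positivity
  generalize k * (h : ℤ) = w
  omega

theorem pos_far {n h : ℕ} (hh : 1 ≤ h) (hn : h ≤ n) {k k' : ℤ} (hk : k + 3 ≤ k')
    (hk' : k' ≤ num n h) : pos n h k + 2 * h ≤ pos n h k' := by
  have h1 := (num_spec hh hn).2
  have h2 : (0 : ℤ) ≤ h := by positivity
  have h3 : (k + 2) * (h : ℤ) ≤ k' * h := mul_le_mul_of_nonneg_right (by linarith) h2
  have h4 : (k + 2) * (h : ℤ) ≤ ((num n h : ℤ) - 1) * h :=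
    mul_le_mul_of_nonneg_right (by linarith) h2
  have h5 : (k + 2) * (h : ℤ) = k * h + 2 * h := by ring
  rw [h5] at h3 h4
  unfold pos
  rw [le_min_iff]
  have h6 : min (-(n : ℤ) + k * h) ((n : ℤ) - 2 * h + 1) ≤ -(n : ℤ) + k * h := min_le_left _ _
  constructor <;> linarith

theorem pos_cover {n h : ℕ} (hh : 1 ≤ h) (hn : h ≤ n) {x : ℤ} (h1 : -(n : ℤ) ≤ x)
    (h2 : x ≤ n) : ∃ k : ℤ, (0 ≤ k ∧ k ≤ num n h) ∧ pos n h k ≤ x ∧ x < pos n h k + 2 * h := by
  have hs := (num_spec hh hn).1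
  have hh0 : (0 : ℤ) < h := by exact_mod_cast hh
  set k0 : ℤ := (x + n) / h with hk0
  have e1 := Int.mul_ediv_add_emod (x + n) h
  have e2 := Int.emod_nonneg (x + n) hh0.ne'
  have e3 := Int.emod_lt_of_pos (x + n) hh0
  rw [← hk0] at e1
  have k0n : 0 ≤ k0 := Int.ediv_nonneg (by linarith) hh0.le
  have e4 : (h : ℤ) * k0 = k0 * h := mul_comm _ _
  by_cases hc : k0 ≤ num n h
  · refine ⟨k0, ⟨k0n, hc⟩, ?_⟩
    unfold pos
    omega
  · push Not at hc
    refine ⟨num n h, ⟨by positivity, le_rfl⟩, ?_⟩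
    have e5 : (num n h : ℤ) * h ≤ k0 * h := mul_le_mul_of_nonneg_right hc.le hh0.le
    unfold pos
    omega

/-! ### The blocks -/

section blocks

variable {D n h : ℕ}

/-- Lower corner of the block number `j`. -/
def corner (n h : ℕ) (j : Pt D) : Pt (D + 1) := Fin.cons 0 (fun i => pos n h (j i))

theorem mem_block {N : ℕ} {j : Pt D} {x : Pt (D + 1)} :
    x ∈ shV (corner n h j) (Box (D + 1) N) ↔ (0 ≤ x 0 ∧ x 0 < N) ∧
      ∀ i : Fin D, pos n h (j i) ≤ x i.succ ∧ x i.succ < pos n h (j i) + N := by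
  rw [mem_shV, mem_Box, Fin.forall_fin_succ]
  simp only [Pi.sub_apply, corner, Fin.cons_zero, Fin.cons_succ, sub_zero, sub_nonneg]
  refine and_congr Iff.rfl (forall_congr' fun i => and_congr Iff.rfl ?_)
  rw [sub_lt_iff_lt_add']

theorem mem_slab' {L : ℕ} {x : Pt (D + 1)} : x ∈ slab (D + 1) L n ↔
    (0 ≤ x 0 ∧ x 0 ≤ (L : ℤ) - 1) ∧ ∀ i : Fin D, -(n : ℤ) ≤ x i.succ ∧ x i.succ ≤ n := by
  rw [mem_slab, Fin.forall_fin_succ]
  simp

/-- The block number `j`, extended in the first direction. -/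
noncomputable def bigBlock (N L n h : ℕ) (j : Pt D) : Finset (Pt (D + 1)) :=
  shV (corner n h j) (Fintype.piFinset
    (fun k : Fin (D + 1) => if k.val = 0 then Finset.Ico (0 : ℤ) L else Finset.Ico (0 : ℤ) N))

theorem mem_bigBlock {N L : ℕ} {j : Pt D} {x : Pt (D + 1)} :
    x ∈ bigBlock N L n h j ↔ (0 ≤ x 0 ∧ x 0 < L) ∧
      ∀ i : Fin D, pos n h (j i) ≤ x i.succ ∧ x i.succ < pos n h (j i) + N := by
  rw [bigBlock, mem_shV, Fintype.mem_piFinset, Fin.forall_fin_succ]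
  simp only [Pi.sub_apply, corner, Fin.cons_zero, Fin.cons_succ, sub_zero, Fin.val_zero,
    if_true, Fin.val_succ, Nat.succ_ne_zero, if_false, Finset.mem_Ico, sub_nonneg]
  refine and_congr Iff.rfl (forall_congr' fun i => and_congr Iff.rfl ?_)
  rw [sub_lt_iff_lt_add']

theorem card_EI_bigBlock (N L n h : ℕ) (j : Pt D) : (EI (bigBlock N L n h j)).card =
    (EI (Fintype.piFinset (fun k : Fin (D + 1) =>
      if k.val = 0 then Finset.Ico (0 : ℤ) L else Finset.Ico (0 : ℤ) N))).card := by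
  rw [bigBlock, EI_shV, card_shE]

theorem block_subset_big {N L : ℕ} (hNL : N ≤ L) (j : Pt D) :
    shV (corner n h j) (Box (D + 1) N) ⊆ bigBlock N L n h j := by
  intro x hx
  rw [mem_block] at hx
  rw [mem_bigBlock]
  refine ⟨⟨hx.1.1, ?_⟩, hx.2⟩
  have : (N : ℤ) ≤ L := by exact_mod_cast hNL
  linarith [hx.1.2]

theorem big_subset_slab {N L : ℕ} (hN : N = 2 * h) (hn : h ≤ n) {j : Pt D}
    (hj : ∀ i, 0 ≤ j i ∧ j i ≤ (num n h : ℤ)) : bigBlock N L n h j ⊆ slab (D + 1) L n := by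
  intro x hx
  rw [mem_bigBlock] at hx
  rw [mem_slab']
  refine ⟨⟨hx.1.1, by linarith [hx.1.2]⟩, fun i => ?_⟩
  have h1 := pos_ge hn (hj i).1
  have h2 := pos_le n h (j i)
  have h3 := hx.2 i
  rw [hN] at h3
  push_cast at h3
  constructor <;> linarith

theorem conn_bigBlock {N L : ℕ} {j : Pt D} {x y : Pt (D + 1)} (hx : x ∈ bigBlock N L n h j)
    (hy : y ∈ bigBlock N L n h j) : Conn (EI (bigBlock N L n h j)) x y := by
  refine conn_Icc (a := fun k => corner n h j k)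
    (b := fun k => corner n h j k + (if k.val = 0 then (L : ℤ) - 1 else (N : ℤ) - 1)) ?_ hx hy
  intro z
  rw [mem_bigBlock, Grid.mem_Icc', Fin.forall_fin_succ]
  simp only [corner, Fin.cons_zero, Fin.cons_succ, Fin.val_zero, if_true, Fin.val_succ,
    Nat.add_eq_zero_iff, one_ne_zero, and_false, if_false, zero_add]
  refine and_congr (and_congr Iff.rfl ?_) (forall_congr' fun i => and_congr Iff.rfl ?_)
  · constructor <;> intro h <;> linarith
  · constructor <;> intro h <;> linarith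

theorem conn_slab {L : ℕ} {x y : Pt d} (hx : x ∈ slab d L n) (hy : y ∈ slab d L n) :
    Conn (EI (slab d L n)) x y := by
  refine conn_Icc (a := fun i => if i.val = 0 then 0 else -(n : ℤ))
    (b := fun i => if i.val = 0 then (L : ℤ) - 1 else (n : ℤ)) ?_ hx hy
  intro z
  rw [mem_slab, Grid.mem_Icc']
  apply forall_congr'
  intro i
  by_cases h : i.val = 0 <;> simp [h]

theorem block_disjoint {N : ℕ} (hN : N = 2 * h) (hh : 1 ≤ h) (hn : h ≤ n) {j k : Pt D}
    (hj : ∀ i, 0 ≤ j i ∧ j i ≤ (num n h : ℤ)) (hk : ∀ i, 0 ≤ k i ∧ k i ≤ (num n h : ℤ))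
    (hjk : j ≠ k) (hmod : ∀ i, j i % 3 = k i % 3) :
    Disjoint (shV (corner n h j) (Box (D + 1) N)) (shV (corner n h k) (Box (D + 1) N)) := by
  rw [Finset.disjoint_left]
  intro x hx hx'
  rw [mem_block] at hx hx'
  apply hjk
  funext i
  by_contra hne
  have h1 := hmod i
  have h2 := hx.2 i
  have h3 := hx'.2 i
  rw [hN] at h2 h3
  push_cast at h2 h3
  rcases lt_or_gt_of_ne hne with hlt | hlt
  · have := pos_far hh hn (k := j i) (k' := k i) (by omega) (hk i).2
    linarith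
  · have := pos_far hh hn (k := k i) (k' := j i) (by omega) (hj i).2
    linarith

/-- Giants in neighbouring blocks meet. -/
theorem meet_of_lat {N : ℕ} (hN : N = 2 * h) (hh : 1 ≤ h) {j k : Pt D} (hjk : Lat j k)
    {C C' : Finset (Pt (D + 1))} (hC : C ⊆ shV (corner n h j) (Box (D + 1) N))
    (hC' : C' ⊆ shV (corner n h k) (Box (D + 1) N)) (c1 : 4 * N ^ (D + 1) ≤ 5 * C.card)
    (c2 : 4 * N ^ (D + 1) ≤ 5 * C'.card) : ∃ x, x ∈ C ∧ x ∈ C' := by
  have key : ∀ (j : Pt D) (i : Fin D), corner n h (j + Pi.single i 1) =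
      corner n h j + Pi.single i.succ (pos n h (j i + 1) - pos n h (j i)) := by
    intro j i
    funext l
    refine Fin.cases ?_ (fun l => ?_) l
    · simp [corner]
    · by_cases hl : l = i
      · subst hl
        simp [corner]
      · have hl' : l.succ ≠ i.succ := fun h => hl (Fin.succ_injective _ h)
        simp only [corner, Fin.cons_succ, Pi.add_apply, Pi.single_eq_of_ne hl,
          Pi.single_eq_of_ne hl', add_zero]
  obtain ⟨i, rfl | rfl⟩ := hjk
  · have h1 := pos_step (n := n) (h := h) (j i)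
    exact giants_meet hN hh i.succ _ (by linarith) (by linarith) (key j i) hC hC' c1 c2
  · have h1 := pos_step (n := n) (h := h) (k i)
    obtain ⟨x, h2, h3⟩ := giants_meet hN hh i.succ _ (by linarith) (by linarith) (key k i)
      hC' hC c2 c1
    exact ⟨x, h3, h2⟩

end blocks

/-- A large subset in one residue class. -/
theorem exists_class {D : ℕ} (S : Finset (Pt D)) :
    ∃ S' ⊆ S, S.card ≤ 3 ^ D * S'.card ∧ ∀ x ∈ S', ∀ y ∈ S', ∀ i, x i % 3 = y i % 3 := by
  classical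
  set T : Finset (Pt D) := Fintype.piFinset (fun _ => Finset.Ico (0 : ℤ) 3) with hT
  have hTc : T.card = 3 ^ D := by
    rw [hT, Fintype.card_piFinset]
    simp
  set f : Pt D → Pt D := fun x i => x i % 3 with hf
  have hfT : ∀ x ∈ S, f x ∈ T := by
    intro x _
    rw [hT, Fintype.mem_piFinset]
    intro i
    rw [Finset.mem_Ico]
    exact ⟨Int.emod_nonneg _ (by norm_num), Int.emod_lt_of_pos _ (by norm_num)⟩
  have h1 := Finset.card_eq_sum_card_fiberwise hfT
  by_contra hcon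
  push Not at hcon
  have h2 : ∀ c ∈ T, 3 ^ D * (S.filter (fun x => f x = c)).card < S.card := by
    intro c _
    by_contra h3
    push Not at h3
    obtain ⟨x, hx, y, hy, i, hi⟩ := hcon _ (filter_subset (fun x => f x = c) S) h3
    rw [mem_filter] at hx hy
    apply hi
    have := congrFun (hx.2.trans hy.2.symm) i
    exact this
  have hne : T.Nonempty := by
    rw [← card_pos, hTc]
    positivity
  have h3 := Finset.sum_lt_sum_of_nonempty hne h2
  rw [← mul_sum, ← h1, sum_const, smul_eq_mul, hTc] at h3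
  exact lt_irrefl _ h3

/-- Two blocks are joined by a path of good blocks. -/
def Path {D : ℕ} (N n h : ℕ) (j k : Pt D) (ω : Finset (Ed (D + 1))) : Prop :=
  Relation.ReflTransGen (fun x y => Lat x y ∧ GiantAt N (corner n h x) ω ∧
    GiantAt N (corner n h y) ω) j k ∧ GiantAt N (corner n h j) ω

theorem Path.mono {D N n h : ℕ} {j k : Pt D} {ω ω' : Finset (Ed (D + 1))} (hω : ω ⊆ ω')
    (hp : Path N n h j k ω) : Path N n h j k ω' :=
  ⟨Relation.ReflTransGen.mono (fun _ _ h => ⟨h.1, giantAt_mono hω h.2.1, giantAt_mono hω h.2.2⟩)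
    _ _ hp.1, giantAt_mono hω hp.2⟩

theorem conn_of_path {D n h N L : ℕ} (hN : N = 2 * h) (hh : 1 ≤ h) (hNL : N ≤ L)
    {ω : Finset (Ed (D + 1))} {j k : Pt D} (hp : Path N n h j k ω)
    (hF1 : EI (bigBlock N L n h j) ⊆ ω) (hF2 : EI (bigBlock N L n h k) ⊆ ω)
    {x y : Pt (D + 1)} (hx : x ∈ bigBlock N L n h j) (hy : y ∈ bigBlock N L n h k) :
    Conn ω x y := by
  choose! C hC using fun (j : Pt D) (hj : GiantAt N (corner n h j) ω) => hj.out
  have hN0 : 0 < N ^ (D + 1) := by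
    have : 0 < N := by omega
    positivity
  have key : GiantAt N (corner n h k) ω ∧ ∀ a ∈ C j, ∀ b ∈ C k, Conn ω a b := by
    obtain ⟨hp1, hp2⟩ := hp
    clear hF2 hy
    induction hp1 with
    | refl => exact ⟨hp2, (hC j hp2).2.2⟩
    | tail _ hbc ih =>
      rename_i b c _
      refine ⟨hbc.2.2, fun a ha z hz => ?_⟩
      obtain ⟨w, hw1, hw2⟩ := meet_of_lat hN hh hbc.1 (hC b hbc.2.1).1 (hC c hbc.2.2).1
        (hC b hbc.2.1).2.1 (hC c hbc.2.2).2.1
      exact (ih.2 a ha w hw1).trans ((hC c hbc.2.2).2.2 w hw2 z hz)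
  have hne : ∀ l : Pt D, GiantAt N (corner n h l) ω → (C l).Nonempty := by
    intro l hl
    rw [← card_pos]
    have := (hC l hl).2.1
    omega
  obtain ⟨a, ha⟩ := hne j hp.2
  obtain ⟨b, hb⟩ := hne k key.1
  have h1 : Conn ω x a := (conn_bigBlock hx
    (block_subset_big hNL j ((hC j hp.2).1 ha))).mono hF1
  have h2 : Conn ω b y := (conn_bigBlock
    (block_subset_big hNL k ((hC k key.1).1 hb)) hy).mono hF2
  exact (h1.trans (key.2 a ha b hb)).trans h2

theorem sum_subtype_eq (V : Finset (Pt d)) (E : Finset (Ed d)) (P : Finset (Ed d) → Prop)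
    (_inst : DecidablePred (fun ω : {ω // ω ∈ E.powerset} => P ω.1)) :
    ∑ ω : {ω // ω ∈ E.powerset} with P ω.1, wt u q V ω.1 / Z u q V E = Pb u q V E P := by
  classical
  have h2 : ∑ ω ∈ E.powerset, (if P ω then wt u q V ω / Z u q V E else 0) =
      Pb u q V E P := by
    unfold Pb Ex Zs
    rw [sum_div]
    apply sum_congr rfl
    intro ω _
    by_cases h : P ω <;> simp [h]
  rw [Finset.sum_filter, ← h2, ← Finset.sum_coe_sort E.powerset]
  apply sum_congr rfl
  intro ω _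
  by_cases h : P ω.1 <;> simp [h]

/-- The conclusion of `grid_connect`. -/
def GridOk (D : ℕ) (ε₀ : ℝ) : Prop := by
  classical
  exact ∀ (Ω : Type) [Fintype Ω]
    (μ : Ω → ℝ) (_ : ∀ ω, 0 ≤ μ ω) (_ : ∑ ω, μ ω = 1)
    (m : ℕ) (bad : Ω → Pt D → Prop)
    (_ : ∀ S : Finset (Pt D), (∀ x ∈ S, ∀ i, 0 ≤ x i ∧ x i ≤ m) →
      ∑ ω with (∀ x ∈ S, bad ω x), μ ω ≤ ε₀ ^ S.card)
    (u w : Pt D) (_ : ∀ i, 0 ≤ u i ∧ u i ≤ m) (_ : ∀ i, 0 ≤ w i ∧ w i ≤ m),
    1 / 2 ≤ ∑ ω with (Relation.ReflTransGen (fun x y => Lat x y ∧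
      (¬ bad ω x ∧ ∀ i, 0 ≤ x i ∧ x i ≤ m) ∧ (¬ bad ω y ∧ ∀ i, 0 ≤ y i ∧ y i ≤ m)) u w ∧
      ¬ bad ω u), μ ω

theorem path_ge {D : ℕ} {ε₀ : ℝ} (h0 : 0 < ε₀) (hgrid : GridOk D ε₀)
    (hu : 0 < u) (hq : 1 ≤ q) {N h n L : ℕ} (hN : N = 2 * h) (hh : 1 ≤ h) (hn : h ≤ n)
    (hNL : N ≤ L)
    (hε : Pb u q (Box (D + 1) N) (EI (Box (D + 1) N)) (fun ω => ¬ Giant N ω) ≤
      (min ε₀ 1) ^ (3 ^ D)) {j k : Pt D} (hj : ∀ i, 0 ≤ j i ∧ j i ≤ (num n h : ℤ))
    (hk : ∀ i, 0 ≤ k i ∧ k i ≤ (num n h : ℤ)) :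
    1 / 2 ≤ Pb u q (slab (D + 1) L n) (EI (slab (D + 1) L n)) (Path N n h j k) := by
  set V := slab (D + 1) L n with hV
  have h1 := hgrid {ω // ω ∈ (EI V).powerset} (fun ω => wt u q V ω.1 / Z u q V (EI V))
    (fun ω => div_nonneg (wt_pos hu hq _ _).le (Z_pos hu hq _ _).le)
    (by
      have h := sum_subtype_eq (u := u) (q := q) V (EI V) (fun _ => True) inferInstance
      rw [Finset.filter_true] at h
      rw [h]
      have h' := Ex_const (u := u) (q := q) (V := V) (E := EI V) hu hq 1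
      unfold Pb
      simpa using h')
    (num n h) (fun ω x => ¬ GiantAt N (corner n h x) ω.1)
    (by
      intro S hS
      rw [sum_subtype_eq (u := u) (q := q) V (EI V)
        (fun ω => ∀ x ∈ S, ¬ GiantAt N (corner n h x) ω) _]
      obtain ⟨S', hS', hc, hm⟩ := exists_class S
      have h4 : Pb u q V (EI V) (fun ω => ∀ x ∈ S, ¬ GiantAt N (corner n h x) ω) ≤
          Pb u q V (EI V) (fun ω => ∀ x ∈ S', ¬ GiantAt N (corner n h x) ω) :=
        Pb_mono hu hq (fun ω _ h x hx => h x (hS' hx))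
      have h5 := Pb_bad_le hu hq hε (fun x : Pt D => corner n h x) S' V
        (fun x hx => (block_subset_big hNL x).trans
          (big_subset_slab hN hn (fun i => hS x (hS' hx) i)))
        (fun x hx y hy hxy => block_disjoint hN hh hn (fun i => hS x (hS' hx) i)
          (fun i => hS y (hS' hy) i) hxy (hm x hx y hy))
      refine (h4.trans h5).trans ?_
      rw [← pow_mul]
      have h6 : 0 ≤ min ε₀ 1 := le_min h0.le zero_le_one
      calc (min ε₀ 1) ^ (3 ^ D * S'.card) ≤ (min ε₀ 1) ^ S.card :=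
            pow_le_pow_of_le_one h6 (min_le_right _ _) hc
        _ ≤ ε₀ ^ S.card := pow_le_pow_left₀ h6 (min_le_left _ _) _)
    j k hj hk
  rw [sum_subtype_eq (u := u) (q := q) V (EI V)
    (fun ω => Relation.ReflTransGen (fun x y => Lat x y ∧
        (¬ ¬ GiantAt N (corner n h x) ω ∧ ∀ i, 0 ≤ x i ∧ x i ≤ (num n h : ℤ)) ∧
        (¬ ¬ GiantAt N (corner n h y) ω ∧ ∀ i, 0 ≤ y i ∧ y i ≤ (num n h : ℤ))) j k ∧
        ¬ ¬ GiantAt N (corner n h j) ω) _] at h1
  refine h1.trans (Pb_mono hu hq (fun ω _ h => ?_))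
  exact ⟨Relation.ReflTransGen.mono (fun x y h => ⟨h.1, not_not.1 h.2.1.1, not_not.1 h.2.2.1⟩)
    _ _ h.1, not_not.1 h.2⟩

theorem slab_subset {L n n' : ℕ} (h : n ≤ n') : slab d L n ⊆ slab d L n' := by
  intro x hx
  rw [mem_slab] at hx ⊢
  intro i
  refine ⟨(hx i).1, fun hi => ?_⟩
  have h1 := (hx i).2 hi
  have h2 : (n : ℤ) ≤ n' := by exact_mod_cast h
  constructor <;> linarith [h1.1, h1.2]

theorem zero_mem_slab {L n : ℕ} (hL : 1 ≤ L) : (0 : Pt d) ∈ slab d L n := by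
  rw [mem_slab]
  intro i
  have h1 : (1 : ℤ) ≤ L := by exact_mod_cast hL
  refine ⟨fun _ => ⟨le_rfl, ?_⟩, fun _ => ⟨?_, ?_⟩⟩
  · show (0 : ℤ) ≤ _
    linarith
  · show _ ≤ (0 : ℤ)
    have : (0 : ℤ) ≤ n := by positivity
    linarith
  · show (0 : ℤ) ≤ _
    positivity

theorem exists_block {D n h N L : ℕ} (hN : N = 2 * h) (hh : 1 ≤ h) (hn : h ≤ n)
    {x : Pt (D + 1)} (hx : x ∈ slab (D + 1) L n) :
    ∃ j : Pt D, (∀ i, 0 ≤ j i ∧ j i ≤ (num n h : ℤ)) ∧ x ∈ bigBlock N L n h j := by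
  rw [mem_slab'] at hx
  choose j hj using fun i : Fin D => pos_cover (n := n) (h := h) hh hn (hx.2 i).1 (hx.2 i).2
  refine ⟨j, fun i => (hj i).1, ?_⟩
  rw [mem_bigBlock]
  refine ⟨⟨hx.1.1, by linarith [hx.1.2]⟩, fun i => ⟨(hj i).2.1, ?_⟩⟩
  rw [hN]
  push_cast
  exact (hj i).2.2

end Slab

open Slab in
/-- From a giant cluster in a block to uniform connectivity in slabs, explicit form. -/
theorem slab_connect_explicit (D : ℕ) (hd : 3 ≤ D + 1) : ∀ (u q : ℝ), 0 < u → 1 ≤ q →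
    ∀ N : ℕ, 12 ≤ N → 2 ∣ N →
    Pb u q (Box (D + 1) N) (EI (Box (D + 1) N)) (fun ω => ¬ Giant N ω) ≤
      (min (1 / (2 * 25 ^ D * (2 ^ D + 4))) 1) ^ (3 ^ D) →
    ∀ L : ℕ, N ≤ L → ∃ α : ℝ, 0 < α ∧ ∀ n : ℕ, ∀ x ∈ slab (D + 1) L n,
      α < Pb u q (slab (D + 1) L n) (EI (slab (D + 1) L n)) (fun ω => Conn ω 0 x) := by
  have hgrid := grid_connect_explicit D (by omega)
  set ε₀ : ℝ := 1 / (2 * 25 ^ D * (2 ^ D + 4)) with hε₀
  have h0 : 0 < ε₀ := by positivity
  intro u q hu hq N hN12 hN2 hε L hNL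
  obtain ⟨h, hN⟩ := hN2
  have hh : 1 ≤ h := by omega
  set c : ℝ := u / (u + q) with hc
  have hc0 : 0 < c := by
    have : 0 < q := by linarith
    positivity
  have hc1 : c ≤ 1 := by
    have : 0 < q := by linarith
    rw [hc, div_le_one (by positivity)]
    linarith
  set M : ℕ := (EI (Fintype.piFinset (fun k : Fin (D + 1) =>
      if k.val = 0 then Finset.Ico (0 : ℤ) L else Finset.Ico (0 : ℤ) N))).card with hM
  set M' : ℕ := (EI (slab (D + 1) L h)).card with hM'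
  refine ⟨min (c ^ (2 * M) / 4) (c ^ M' / 2), by positivity, ?_⟩
  intro n x hx
  have hz : (0 : Pt (D + 1)) ∈ slab (D + 1) L n := zero_mem_slab (by omega)
  by_cases hn : h ≤ n
  · obtain ⟨j, hj, hj0⟩ := exists_block (N := N) hN hh hn hz
    obtain ⟨k, hk, hkx⟩ := exists_block (N := N) hN hh hn hx
    have h1 := path_ge h0 hgrid hu hq hN hh hn hNL hε hj hk
    set V := slab (D + 1) L n with hV
    set F : Finset (Ed (D + 1)) := EI (bigBlock N L n h j) ∪ EI (bigBlock N L n h k) with hF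
    have hFV : F ⊆ EI V := union_subset (EI_mono (big_subset_slab hN hn hj))
      (EI_mono (big_subset_slab hN hn hk))
    have hFc : F.card ≤ 2 * M := by
      have := card_union_le (EI (bigBlock N L n h j)) (EI (bigBlock N L n h k))
      rw [card_EI_bigBlock, card_EI_bigBlock, ← hF, ← hM] at this
      omega
    have h2 := Pb_subset_ge (V := V) hu hq hFV
    have h3 : c ^ (2 * M) ≤ Pb u q V (EI V) (fun ω => F ⊆ ω) :=
      (pow_le_pow_of_le_one hc0.le hc1 hFc).trans h2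
    have h4 := Pb_fkg (u := u) (q := q) (V := V) (E := EI V) hu hq (P := Path N n h j k)
      (Q := fun ω => F ⊆ ω) (fun s t hst hp => hp.mono hst) (fun s t hst hp => hp.trans hst)
    have h5 : Pb u q V (EI V) (fun ω => Path N n h j k ω ∧ F ⊆ ω) ≤
        Pb u q V (EI V) (fun ω => Conn ω 0 x) := by
      refine Pb_mono hu hq (fun ω _ hp => ?_)
      exact conn_of_path hN hh hNL hp.1 (subset_union_left.trans hp.2)
        (subset_union_right.trans hp.2) hj0 hkx
    have h6 : 1 / 2 * c ^ (2 * M) ≤ Pb u q V (EI V) (Path N n h j k) *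
        Pb u q V (EI V) (fun ω => F ⊆ ω) :=
      mul_le_mul h1 h3 (by positivity) (by linarith)
    have h7 : 0 < c ^ (2 * M) := by positivity
    calc min (c ^ (2 * M) / 4) (c ^ M' / 2) ≤ c ^ (2 * M) / 4 := min_le_left _ _
      _ < 1 / 2 * c ^ (2 * M) := by linarith
      _ ≤ _ := h6.trans (h4.trans h5)
  · push Not at hn
    have h1 := Pb_subset_ge (u := u) (q := q) (V := slab (D + 1) L n) hu hq
      (subset_refl (EI (slab (D + 1) L n)))
    have h2 : (EI (slab (D + 1) L n)).card ≤ M' := card_le_card (EI_mono (slab_subset hn.le))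
    have h3 : c ^ M' ≤ _ := (pow_le_pow_of_le_one hc0.le hc1 h2).trans h1
    have h4 : Pb u q (slab (D + 1) L n) (EI (slab (D + 1) L n))
        (fun ω => EI (slab (D + 1) L n) ⊆ ω) ≤
        Pb u q (slab (D + 1) L n) (EI (slab (D + 1) L n)) (fun ω => Conn ω 0 x) :=
      Pb_mono hu hq (fun ω _ hp => (conn_slab hz hx).mono hp)
    have h7 : 0 < c ^ M' := by positivity
    calc min (c ^ (2 * M) / 4) (c ^ M' / 2) ≤ c ^ M' / 2 := min_le_right _ _
      _ < c ^ M' := by linarith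
      _ ≤ _ := h3.trans h4

/-- From a giant cluster in a block to uniform connectivity in slabs. -/
theorem slab_connect (d : ℕ) (hd : 3 ≤ d) : ∃ ε : ℝ, 0 < ε ∧ ∀ (u q : ℝ), 0 < u → 1 ≤ q →
    ∀ N : ℕ, 12 ≤ N → 2 ∣ N →
    Pb u q (Box d N) (EI (Box d N)) (fun ω => ¬ Giant N ω) ≤ ε →
    ∀ L : ℕ, N ≤ L → ∃ α : ℝ, 0 < α ∧ ∀ n : ℕ, ∀ x ∈ slab d L n,
      α < Pb u q (slab d L n) (EI (slab d L n)) (fun ω => Conn ω 0 x) := by
  obtain ⟨D, rfl⟩ : ∃ D, d = D + 1 := ⟨d - 1, by omega⟩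
  exact ⟨(min (1 / (2 * 25 ^ D * (2 ^ D + 4))) 1) ^ (3 ^ D), by positivity,
    slab_connect_explicit D hd⟩

end Pool.Agent.Lib.MP_31386d_pr
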