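import Pool.Agent.Lib.MP_31386d_pr.Defs
import Pool.Agent.Lib.MP_31386d_pr.Cut
import Pool.Agent.Lib.MP_31386d_pr.Lines
import Pool.Agent.Lib.MP_31386d_pr.Grid

/-!
# Regions attached to a configuration
-/

set_option autoImplicit false

namespace Pool.Agent.Lib.MP_31386d_pr

open Finset

variable {d : ℕ}

namespace Struct

open Relation

/-- Path inside `A`. -/
def Pa (A : Set (Pt d)) (x y : Pt d) : Prop := ReflTransGen (fun a b => Lat a b ∧ a ∈ A ∧ b ∈ A) x y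

theorem Pa.symm {A : Set (Pt d)} {x y : Pt d} (h : Pa A x y) : Pa A y x := Grid.conn_symm h

theorem Pa.mono {A B : Set (Pt d)} (hAB : A ⊆ B) {x y : Pt d} (h : Pa A x y) : Pa B x y :=
  ReflTransGen.mono (fun _ _ h => ⟨h.1, hAB h.2.1, hAB h.2.2⟩) _ _ h

theorem Pa.trans {A : Set (Pt d)} {x y z : Pt d} (h : Pa A x y) (h' : Pa A y z) : Pa A x z :=
  ReflTransGen.trans h h'

theorem Pa.refl (A : Set (Pt d)) (x : Pt d) : Pa A x x := ReflTransGen.refl

theorem Pa.single {A : Set (Pt d)} {x y : Pt d} (h : Lat x y) (hx : x ∈ A) (hy : y ∈ A) :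
    Pa A x y := ReflTransGen.single ⟨h, hx, hy⟩

theorem rconn_of_root {A : Set (Pt d)} (x : Pt d) (h : ∀ y ∈ A, Pa A x y) : RConn Lat A :=
  fun y hy z hz => (h y hy).symm.trans (h z hz)

theorem exit_path {R : Pt d → Pt d → Prop} {S : Set (Pt d)} {x y : Pt d}
    (h : ReflTransGen R x y) (hx : x ∈ S) : y ∉ S → ∃ a b, a ∈ S ∧ b ∉ S ∧ R a b := by
  induction h with
  | refl => exact fun hy => absurd hx hy
  | tail _ hbc ih =>
    rename_i b c _
    intro hy
    by_cases hb : b ∈ S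
    · exact ⟨b, c, hb, hy, hbc⟩
    · exact ih hb

/-- Whole lattice. -/
theorem exit {S : Set (Pt d)} {x y : Pt d} (hx : x ∈ S) (hy : y ∉ S) :
    ∃ a b, a ∈ S ∧ b ∉ S ∧ Lat a b := by
  obtain ⟨a, b, ha, hb, h⟩ := exit_path (Grid.box_conn (x ⊓ y) (x ⊔ y) x y
    ⟨inf_le_left, le_sup_left⟩ ⟨inf_le_right, le_sup_right⟩) hx hy
  exact ⟨a, b, ha, hb, h.1⟩

section comp

variable {K D D' S : Set (Pt d)}

theorem comp_ne (h : IsComp K D) : D.Nonempty := by
  obtain ⟨y, hy, rfl⟩ := h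
  exact ⟨y, ReflTransGen.refl⟩

theorem comp_sub (h : IsComp K D) {x : Pt d} (hx : x ∈ D) : x ∉ K := by
  obtain ⟨y, hy, rfl⟩ := h
  have hx' : ReflTransGen (fun a b => Lat a b ∧ a ∉ K ∧ b ∉ K) y x := hx
  cases hx' with
  | refl => exact hy
  | tail _ h => exact h.2.2

theorem comp_conn (h : IsComp K D) : RConn Lat D := by
  obtain ⟨y, hy, rfl⟩ := h
  apply rconn_of_root y
  intro z hz
  have hz' : ReflTransGen (fun a b => Lat a b ∧ a ∉ K ∧ b ∉ K) y z := hz
  induction hz' with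
  | refl => exact Pa.refl _ _
  | tail h1 h2 ih =>
    exact (ih h1).trans (Pa.single h2.1 h1 (h1.tail h2))

theorem comp_max (h : IsComp K D) {x y : Pt d} (hx : x ∈ D) (hxy : Lat x y) (hy : y ∉ K) :
    y ∈ D := by
  have hxK := comp_sub h hx
  obtain ⟨r, hr, rfl⟩ := h
  exact ReflTransGen.tail hx ⟨hxy, hxK, hy⟩

theorem comp_sup (h : IsComp K D) (hS : RConn Lat S) (hSK : ∀ s ∈ S, s ∉ K) {x : Pt d}
    (hxS : x ∈ S) (hxD : x ∈ D) : S ⊆ D := by
  intro z hz
  have hp := hS x hxS z hz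
  induction hp with
  | refl => exact hxD
  | tail _ h2 ih => exact comp_max h (ih h2.2.1) h2.1 (hSK _ h2.2.2)

theorem comp_exists {y : Pt d} (hy : y ∉ K) : ∃ D, IsComp K D ∧ y ∈ D :=
  ⟨_, ⟨y, hy, rfl⟩, ReflTransGen.refl⟩

theorem comp_eq (h : IsComp K D) (h' : IsComp K D') {x : Pt d} (hx : x ∈ D) (hx' : x ∈ D') :
    D = D' :=
  Set.Subset.antisymm (comp_sup h' (comp_conn h) (fun _ hs => comp_sub h hs) hx hx')
    (comp_sup h (comp_conn h') (fun _ hs => comp_sub h' hs) hx' hx)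

theorem comp_disj (h : IsComp K D) (h' : IsComp K D') (hne : D ≠ D') : D ⊆ D'ᶜ :=
  fun _ hx hx' => hne (comp_eq h h' hx hx')

/-- From a component one can exit into `K`. -/
theorem comp_exit (h : IsComp K D) (hne : K.Nonempty) : ∃ a b, a ∈ D ∧ b ∈ K ∧ b ∉ D ∧ Lat a b := by
  obtain ⟨x, hx⟩ := comp_ne h
  obtain ⟨y, hy⟩ := hne
  obtain ⟨a, b, ha, hb, hab⟩ := exit hx (fun hyD => comp_sub h hyD hy)
  exact ⟨a, b, ha, by_contra fun hbK => hb (comp_max h ha hab hbK), hb, hab⟩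

theorem conn_sat (hK : RConn Lat K) (hne : K.Nonempty) (hKS : K ⊆ S)
    (hS : ∀ D, IsComp K D → ∀ x ∈ D, x ∈ S → D ⊆ S) : RConn Lat S := by
  have key : ∀ x ∈ S, ∃ b ∈ K, Pa S x b := by
    intro x hx
    by_cases hxK : x ∈ K
    · exact ⟨x, hxK, Pa.refl _ _⟩
    · obtain ⟨D, hD, hxD⟩ := comp_exists hxK
      obtain ⟨a, b, ha, hb, -, hab⟩ := comp_exit hD hne
      have hDS := hS D hD x hxD hx
      exact ⟨b, hb, (Pa.mono hDS (comp_conn hD x hxD a ha)).trans
        (Pa.single hab (hDS ha) (hKS hb))⟩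
  intro x hx y hy
  obtain ⟨b, hb, h1⟩ := key x hx
  obtain ⟨b', hb', h2⟩ := key y hy
  exact (h1.trans (Pa.mono hKS (hK b hb b' hb'))).trans h2.symm

theorem compl_conn (h : IsComp K D) (hK : RConn Lat K) (hne : K.Nonempty) : RConn Lat Dᶜ := by
  apply conn_sat hK hne (fun x hx hxD => comp_sub h hxD hx)
  intro D' hD' x hx hxD
  exact comp_disj hD' h (fun e => hxD (e ▸ hx))

end comp

/-- Big components of the complement. -/
def Big (n : ℕ) (K D : Set (Pt d)) : Prop :=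
  IsComp K D ∧ (n : ℕ∞) ≤ D.encard ∧ (n : ℕ∞) ≤ (Dᶜ).encard

/-- The hat of a set. -/
def hat (n : ℕ) (K : Set (Pt d)) : Set (Pt d) := {x | ∀ D, Big n K D → x ∉ D}

section hat

variable {n : ℕ} {K K' D : Set (Pt d)}

theorem sub_hat : K ⊆ hat n K := fun _ hx _ hD hxD => comp_sub hD.1 hxD hx

theorem hat_comp {x : Pt d} (hD : IsComp K D) (hx : x ∈ D) (hx' : x ∈ hat n K) :
    ¬ Big n K D ∧ D ⊆ hat n K := by
  refine ⟨fun h => hx' D h hx, fun z hz D' hD' hzD' => ?_⟩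
  have := comp_eq hD hD'.1 hz hzD'
  subst this
  exact hx' D hD' hx

theorem hat_conn (hK : RConn Lat K) (hne : K.Nonempty) : RConn Lat (hat n K) :=
  conn_sat hK hne sub_hat (fun _ hD _ hx hx' => (hat_comp hD hx hx').2)

theorem not_hat {x : Pt d} (h : x ∉ hat n K) : ∃ D, Big n K D ∧ x ∈ D := by
  simp only [hat, Set.mem_ofPred_eq, not_forall, not_not] at h
  obtain ⟨D, h1, h2⟩ := h
  exact ⟨D, h1, h2⟩

/-- The inner end point of a boundary edge of the hat is in `K`. -/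
theorem hat_edge {a b : Pt d} (ha : a ∈ hat n K) (hb : b ∉ hat n K) (hab : Lat a b) :
    a ∈ K ∧ ∃ D, Big n K D ∧ b ∈ D ∧ a ∉ D := by
  obtain ⟨D, hD, hbD⟩ := not_hat hb
  have haD := ha D hD
  exact ⟨by_contra fun h => haD (comp_max hD.1 hbD hab.symm h), D, hD, hbD, haD⟩

theorem lat_tgt (e : Ed d) : Lat e.1 (tgt e) := ⟨e.2, Or.inl rfl⟩

theorem cut_hat {e : Ed d} : e ∈ cut (hat n K) ↔ ∃ D, Big n K D ∧ e ∈ cut D := by
  constructor
  · intro he
    simp only [cut, Set.mem_ofPred_eq] at he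
    by_cases h1 : e.1 ∈ hat n K
    · have h2 : tgt e ∉ hat n K := fun h => he ⟨fun _ => h, fun _ => h1⟩
      obtain ⟨-, D, hD, hb, ha⟩ := hat_edge h1 h2 (lat_tgt e)
      exact ⟨D, hD, fun h => ha (h.2 hb)⟩
    · have h2 : tgt e ∈ hat n K := by
        by_contra h
        exact he ⟨fun h' => absurd h' h1, fun h' => absurd h' h⟩
      obtain ⟨-, D, hD, hb, ha⟩ := hat_edge h2 h1 (lat_tgt e).symm
      exact ⟨D, hD, fun h => ha (h.1 hb)⟩
  · rintro ⟨D, hD, he⟩ h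
    apply he
    have key : ∀ a b : Pt d, Lat a b → a ∈ D → b ∉ D → (a ∈ hat n K ↔ b ∈ hat n K) → False := by
      intro a b hab ha hb h
      have hbK : b ∈ K := by_contra fun h' => hb (comp_max hD.1 ha hab h')
      exact (h.2 (sub_hat hbK)) D hD ha
    constructor
    · intro h1
      by_contra h2
      exact key _ _ (lat_tgt e) h1 h2 h
    · intro h1
      by_contra h2
      exact key _ _ (lat_tgt e).symm h1 h2 h.symm

theorem encard_mono' {A B : Set (Pt d)} (h : A ⊆ B) : A.encard ≤ B.encard := Set.encard_le_encard h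

theorem comp_big (hK : RConn Lat K) (hK' : RConn Lat K') (hne : K.Nonempty) (hne' : K'.Nonempty)
    (hdis : Disjoint K K') (h : K.Infinite ∨ ∃ D, Big n K D)
    (h' : K'.Infinite ∨ ∃ D, Big n K' D) : ∃ D, Big n K D ∧ K' ⊆ D := by
  obtain ⟨y, hy⟩ := hne'
  have hyK : y ∉ K := fun h => Set.disjoint_left.1 hdis h hy
  obtain ⟨D, hD, hyD⟩ := comp_exists hyK
  have hsub : K' ⊆ D := comp_sup hD hK' (fun s hs h => Set.disjoint_left.1 hdis h hs) hy hyD
  refine ⟨D, ⟨hD, ?_, ?_⟩, hsub⟩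
  · by_contra hlt
    rw [not_le] at hlt
    have hfin : D.Finite := Set.finite_of_encard_le_coe hlt.le
    rcases h' with h' | ⟨D2, hD2⟩
    · exact h' (hfin.subset hsub)
    · obtain ⟨x, hx⟩ := hne
      have hxK' : x ∉ K' := fun h => Set.disjoint_left.1 hdis hx h
      obtain ⟨D1, hD1, hxD1⟩ := comp_exists hxK'
      have hxD : x ∈ Dᶜ := fun h => comp_sub hD h hx
      have h1 : Dᶜ ⊆ D1 := comp_sup hD1 (compl_conn hD hK ⟨x, hx⟩)
        (fun s hs h => hs (hsub h)) hxD hxD1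
      have h2 : D1ᶜ ⊆ D := by
        intro z hz
        by_contra h3
        exact hz (h1 h3)
      by_cases he : D2 = D1
      · subst he
        exact absurd (hD2.2.2.trans (encard_mono' h2)) (not_le.2 hlt)
      · exact absurd (hD2.2.1.trans (encard_mono' ((comp_disj hD2.1 hD1 he).trans h2)))
          (not_le.2 hlt)
  · by_contra hlt
    rw [not_le] at hlt
    have hfin : (Dᶜ).Finite := Set.finite_of_encard_le_coe hlt.le
    rcases h with h | ⟨D2, hD2⟩
    · exact h (hfin.subset (fun x hx hxD => comp_sub hD hxD hx))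
    · by_cases he : D2 = D
      · subst he
        exact absurd hD2.2.2 (not_le.2 hlt)
      · exact absurd (hD2.2.1.trans (encard_mono' (comp_disj hD2.1 hD he))) (not_le.2 hlt)

theorem hat_disj (hK : RConn Lat K) (hK' : RConn Lat K') (hne : K.Nonempty) (hne' : K'.Nonempty)
    (hdis : Disjoint K K') (h : K.Infinite ∨ ∃ D, Big n K D)
    (h' : K'.Infinite ∨ ∃ D, Big n K' D) : Disjoint (hat n K) (hat n K') := by
  rw [Set.disjoint_left]
  intro x hx hx'
  obtain ⟨D1, hD1, hs1⟩ := comp_big hK hK' hne hne' hdis h h'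
  obtain ⟨D2, hD2, hs2⟩ := comp_big hK' hK hne' hne hdis.symm h' h
  have a1 : ∀ z ∈ hat n K, z ∉ K' := fun z hz hzK => hz D1 hD1 (hs1 hzK)
  have a2 : ∀ z ∈ hat n K', z ∉ K := fun z hz hzK => hz D2 hD2 (hs2 hzK)
  obtain ⟨E1, hE1, hxE1⟩ := comp_exists (a2 x hx')
  obtain ⟨E2, hE2, hxE2⟩ := comp_exists (a1 x hx)
  have b1 := (hat_comp hE1 hxE1 hx).2
  have b2 := (hat_comp hE2 hxE2 hx').2
  have e : E1 = E2 := Set.Subset.antisymm
    (comp_sup hE2 (comp_conn hE1) (fun s hs => a1 s (b1 hs)) hxE1 hxE2)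
    (comp_sup hE1 (comp_conn hE2) (fun s hs => a2 s (b2 hs)) hxE2 hxE1)
  subst e
  obtain ⟨a, b, ha, hb, hbE, hab⟩ := comp_exit hE1 hne
  have hbK' : b ∈ K' := by_contra fun h => hbE (comp_max hE2 ha hab h)
  exact Set.disjoint_left.1 hdis hb hbK'

end hat

/-! ### Clusters -/

/-- The outer cluster. -/
def K0 (Λ : Finset (Pt d)) (ω : Finset (Ed d)) : Set (Pt d) := {x | Out Λ ω x}

section clusters

variable {Λ : Finset (Pt d)} {ω : Finset (Ed d)} {K D : Set (Pt d)} {n : ℕ}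

theorem inf_compl (hd : 1 ≤ d) (Λ : Finset (Pt d)) : ((Λ : Set (Pt d))ᶜ).Infinite := by
  haveI : Nonempty (Fin d) := ⟨⟨0, hd⟩⟩
  haveI : Infinite (Pt d) := Pi.infinite_of_right
  exact Λ.finite_toSet.infinite_compl

theorem compl_sub_K0 : ((Λ : Set (Pt d))ᶜ) ⊆ K0 Λ ω := fun _ hx => out_of_notMem hx

theorem K0_inf (hd : 1 ≤ d) : (K0 Λ ω).Infinite := (inf_compl hd Λ).mono compl_sub_K0

theorem isCl_K0 (hd : 1 ≤ d) : IsCl Λ ω (K0 Λ ω) := by
  refine ⟨(K0_inf hd).nontrivial, ?_⟩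
  obtain ⟨x, hx⟩ := (inf_compl hd Λ).nonempty
  refine ⟨x, ?_⟩
  have hx' : Out Λ ω x := out_of_notMem hx
  ext y
  constructor
  · intro hy
    exact connP_of_out hx' hy
  · intro hy
    rcases ConnP.cases hy with h | h
    · exact ⟨x, hx, h.symm⟩
    · exact h.2

theorem cl_closed (hK : IsCl Λ ω K) {a b : Pt d} (ha : a ∈ K) (hab : ConnP Λ ω a b) : b ∈ K := by
  obtain ⟨-, x, rfl⟩ := hK
  exact ConnP.trans ha hab

theorem cl_eq_of_mem (hK : IsCl Λ ω K) {a : Pt d} (ha : a ∈ K) : K = {y | ConnP Λ ω a y} := by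
  obtain ⟨-, x, rfl⟩ := hK
  ext y
  exact ⟨fun h => (ConnP.symm ha).trans h, fun h => ConnP.trans ha h⟩

theorem cl_disj (hK : IsCl Λ ω K) {K' : Set (Pt d)} (hK' : IsCl Λ ω K') (hne : K ≠ K') :
    Disjoint K K' := by
  rw [Set.disjoint_left]
  intro x hx hx'
  exact hne ((cl_eq_of_mem hK hx).trans (cl_eq_of_mem hK' hx').symm)

/-- Inner clusters. -/
theorem cl_inner (hd : 1 ≤ d) (hK : IsCl Λ ω K) (hne : K ≠ K0 Λ ω) :
    (∀ y ∈ K, ¬ Out Λ ω y) ∧ (∀ x ∈ K, ∀ y ∈ K, Conn ω x y) := by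
  have h1 : ∀ y ∈ K, ¬ Out Λ ω y := fun y hy h =>
    Set.disjoint_left.1 (cl_disj hK (isCl_K0 hd) hne) hy h
  refine ⟨h1, fun x hx y hy => ?_⟩
  rw [cl_eq_of_mem hK hx] at hy
  rcases ConnP.cases hy with h | h
  · exact h
  · exact absurd h.1 (h1 x hx)

theorem inner_sub (hd : 1 ≤ d) (hK : IsCl Λ ω K) (hne : K ≠ K0 Λ ω) : K ⊆ (Λ : Set (Pt d)) := by
  intro x hx
  by_contra h
  exact (cl_inner hd hK hne).1 x hx (out_of_notMem h)

theorem conn_pa (hK : IsCl Λ ω K) {x y : Pt d} (hx : x ∈ K) (h : Conn ω x y) :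
    y ∈ K ∧ Pa K x y := by
  unfold Conn at h
  induction h with
  | refl => exact ⟨hx, Pa.refl _ _⟩
  | tail _ h2 ih =>
    have hc := cl_closed hK ih.1 (h2.conn.connP)
    exact ⟨hc, ih.2.trans (Pa.single h2.lat ih.1 hc)⟩

theorem cl_conn (hd : 1 ≤ d) (hΛ : RConn Lat ((Λ : Set (Pt d))ᶜ)) (hK : IsCl Λ ω K) :
    RConn Lat K := by
  by_cases hne : K = K0 Λ ω
  · subst hne
    intro x hx y hy
    obtain ⟨z, hz, h1⟩ := hx
    obtain ⟨z', hz', h2⟩ := hy
    exact ((conn_pa hK ⟨z, hz, h1⟩ h1).2.trans (Pa.mono compl_sub_K0 (hΛ z hz z' hz'))).trans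
      (conn_pa hK ⟨z', hz', h2⟩ h2).2.symm
  · intro x hx y hy
    exact (conn_pa hK hx ((cl_inner hd hK hne).2 x hx y hy)).2

theorem side (hd : 1 ≤ d) (hΛ : RConn Lat ((Λ : Set (Pt d))ᶜ)) (hK : IsCl Λ ω K)
    (hD : IsComp K D) : D ⊆ (Λ : Set (Pt d)) ∨ Dᶜ ⊆ (Λ : Set (Pt d)) := by
  by_cases hne : K = K0 Λ ω
  · left
    intro x hx
    by_contra h
    exact comp_sub hD hx (hne ▸ compl_sub_K0 h)
  · by_cases h : ∃ z ∈ D, z ∉ Λ
    · right
      obtain ⟨z, hz, hzΛ⟩ := h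
      have := comp_sup hD hΛ (fun s hs h => hs (inner_sub hd hK hne h)) hzΛ hz
      intro x hx
      by_contra h
      exact hx (this h)
    · left
      push Not at h
      exact h

/-- For an inner cluster, the component meeting the outside contains it. -/
theorem outer_sub (hd : 1 ≤ d) (hΛ : RConn Lat ((Λ : Set (Pt d))ᶜ)) (hK : IsCl Λ ω K)
    (hne : K ≠ K0 Λ ω) (hD : IsComp K D) {z : Pt d} (hz : z ∈ D) (hzΛ : z ∉ Λ) :
    ((Λ : Set (Pt d))ᶜ) ⊆ D :=
  comp_sup hD hΛ (fun s hs h => hs (inner_sub hd hK hne h)) hzΛ hz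

theorem outer_big (hd : 1 ≤ d) (hΛ : RConn Lat ((Λ : Set (Pt d))ᶜ)) (hK : IsCl Λ ω K)
    (hne : K ≠ K0 Λ ω) (hb : ∃ D, Big n K D) (hD : IsComp K D) {z : Pt d} (hz : z ∈ D)
    (hzΛ : z ∉ Λ) : Big n K D := by
  have h1 := outer_sub hd hΛ hK hne hD hz hzΛ
  have hinf : D.Infinite := (inf_compl hd Λ).mono h1
  obtain ⟨D', hD'⟩ := hb
  refine ⟨hD, by rw [hinf.encard_eq]; exact le_top, ?_⟩
  by_cases he : D' = D
  · subst he
    exact hD'.2.2
  · exact hD'.2.1.trans (encard_mono' (comp_disj hD'.1 hD he))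

theorem hat_sub (hd : 1 ≤ d) (hΛ : RConn Lat ((Λ : Set (Pt d))ᶜ)) (hK : IsCl Λ ω K)
    (hne : K ≠ K0 Λ ω) (hb : ∃ D, Big n K D) : hat n K ⊆ (Λ : Set (Pt d)) := by
  intro x hx
  by_contra h
  have hxK : x ∉ K := fun h' => h (inner_sub hd hK hne h')
  obtain ⟨D, hD, hxD⟩ := comp_exists hxK
  exact hx D (outer_big hd hΛ hK hne hb hD hxD h) hxD

/-- An open edge does not cross the boundary of a hat. -/
theorem hat_closed (hK : IsCl Λ ω K) {e : Ed d} (he : e ∈ ω) : e ∉ cut (hat n K) := by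
  intro h
  obtain ⟨D, hD, hcut⟩ := cut_hat.1 h
  apply hcut
  have hadj : Adj ω e.1 (tgt e) := ⟨e, he, Or.inl ⟨rfl, rfl⟩⟩
  have key : ∀ a b : Pt d, Adj ω a b → a ∈ D → b ∈ D := by
    intro a b hab ha
    by_contra hb
    have hbK : b ∈ K := by_contra fun h' => hb (comp_max hD.1 ha hab.lat h')
    exact comp_sub hD.1 ha (cl_closed hK hbK hab.symm.conn.connP)
  exact ⟨key _ _ hadj, key _ _ hadj.symm⟩

theorem exists_F (hd : 2 ≤ d) {k : ℕ} (hk : 1 ≤ k) (hD : Big (k ^ d) K D)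
    (hs : D ⊆ (Λ : Set (Pt d)) ∨ Dᶜ ⊆ (Λ : Set (Pt d))) :
    ∃ F : Finset (Pt d), (∀ e, e ∈ dE F ↔ e ∈ cut D) ∧ 2 * k ≤ (dE F).card := by
  have hn : 1 ≤ k ^ d := Nat.one_le_pow _ _ hk
  have key : ∀ B : Set (Pt d), B.Finite → ((k ^ d : ℕ) : ℕ∞) ≤ B.encard →
      (∀ e, e ∈ cut B ↔ e ∈ cut D) →
      ∃ F : Finset (Pt d), (∀ e, e ∈ dE F ↔ e ∈ cut D) ∧ 2 * k ≤ (dE F).card := by
    intro B hB hc hcut
    have hcard : k ^ d ≤ hB.toFinset.card := by
      rw [Set.Finite.encard_eq_coe_toFinset_card hB] at hc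
      exact_mod_cast hc
    refine ⟨hB.toFinset, fun e => ?_, iso hd _ ?_ k hcard⟩
    · rw [← hcut, mem_dE]
      simp only [Set.Finite.mem_toFinset, cut, Set.mem_ofPred_eq]
      tauto
    · rw [← Finset.card_pos]
      omega
  rcases hs with hs | hs
  · exact key D (Λ.finite_toSet.subset hs) hD.2.1 (fun e => Iff.rfl)
  · refine key Dᶜ (Λ.finite_toSet.subset hs) hD.2.2 (fun e => ?_)
    simp only [cut, Set.mem_ofPred_eq, Set.mem_compl_iff]
    tauto

theorem cut_sub_EB (hs : D ⊆ (Λ : Set (Pt d)) ∨ Dᶜ ⊆ (Λ : Set (Pt d))) {e : Ed d}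
    (he : e ∈ cut D) : e ∈ EB Λ := by
  rw [mem_EB]
  simp only [cut, Set.mem_ofPred_eq] at he
  rcases hs with hs | hs
  · by_cases h1 : e.1 ∈ D
    · exact Or.inl (hs h1)
    · by_cases h2 : tgt e ∈ D
      · exact Or.inr (hs h2)
      · exact absurd ⟨fun h => absurd h h1, fun h => absurd h h2⟩ he
  · by_cases h1 : e.1 ∈ Dᶜ
    · exact Or.inl (hs h1)
    · by_cases h2 : tgt e ∈ Dᶜ
      · exact Or.inr (hs h2)
      · rw [Set.mem_compl_iff, not_not] at h1 h2
        exact absurd ⟨fun _ => h2, fun _ => h1⟩ he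

theorem mem_Sk' (hd : 1 ≤ d) (hΛ : RConn Lat ((Λ : Set (Pt d))ᶜ)) {e : Ed d} :
    e ∈ Sk Λ n ω ↔ ∃ K D, IsCl Λ ω K ∧ Big n K D ∧ e ∈ cut D := by
  classical
  simp only [Sk, mem_filter]
  constructor
  · rintro ⟨-, K, D, h1, h2, h3, h4, h5⟩
    exact ⟨K, D, h1, ⟨h2, h3, h4⟩, h5⟩
  · rintro ⟨K, D, h1, h2, h3⟩
    exact ⟨cut_sub_EB (side hd hΛ h1 h2.1) h3, K, D, h1, h2.1, h2.2.1, h2.2.2, h3⟩

theorem conn_restrict (hK : IsCl Λ ω K) {A : Finset (Pt d)} (hA : K ⊆ (A : Set (Pt d))) {x y : Pt d}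
    (hx : x ∈ K) (h : Conn ω x y) : Conn (ω ∩ EI A) x y := by
  unfold Conn at h
  have : y ∈ K ∧ Conn (ω ∩ EI A) x y := by
    induction h with
    | refl => exact ⟨hx, Conn.refl _ _⟩
    | tail _ h2 ih =>
      have hc := cl_closed hK ih.1 (h2.conn.connP)
      refine ⟨hc, ih.2.trans (Adj.conn ?_)⟩
      obtain ⟨e, he, h⟩ := h2
      refine ⟨e, ?_, h⟩
      rw [mem_inter, mem_EI]
      refine ⟨he, ?_⟩
      rcases h with ⟨h, h'⟩ | ⟨h, h'⟩
      · rw [h, h']; exact ⟨hA ih.1, hA hc⟩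
      · rw [h, h']; exact ⟨hA hc, hA ih.1⟩
  exact this.2

end clusters

end Struct

open Struct in
theorem exists_good (hd : 2 ≤ d) (Λ : Finset (Pt d)) (hΛ : RConn Lat ((Λ : Set (Pt d))ᶜ))
    (ω : Finset (Ed d)) (hω : ω ⊆ EB Λ) (k : ℕ) (hk : 1 ≤ k) :
    ∃ (H : Finset (Pt d)) (𝒜 : Finset (Finset (Pt d))), Good Λ k ω H 𝒜 := by
  classical
  have hd1 : 1 ≤ d := by omega
  set n := k ^ d with hn
  set K₀ := K0 Λ ω with hK₀
  have hcl0 : IsCl Λ ω K₀ := isCl_K0 hd1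
  have hinf0 : K₀.Infinite := K0_inf hd1
  have hne0 : K₀.Nonempty := hinf0.nonempty
  have hc0 : RConn Lat K₀ := cl_conn hd1 hΛ hcl0
  set H : Finset (Pt d) := Λ.filter (fun x => x ∉ hat n K₀) with hH
  have memH : ∀ x, x ∈ H ↔ x ∉ hat n K₀ := by
    intro x
    rw [hH, mem_filter]
    refine ⟨fun h => h.2, fun h => ⟨?_, h⟩⟩
    by_contra hx
    exact h (sub_hat (compl_sub_K0 hx))
  set 𝒜 : Finset (Finset (Pt d)) := Λ.powerset.filter (fun A => ∃ K, IsCl Λ ω K ∧ K ≠ K₀ ∧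
    (∃ D, Big n K D) ∧ (A : Set (Pt d)) = hat n K) with h𝒜
  have memA : ∀ A ∈ 𝒜, ∃ K, IsCl Λ ω K ∧ K ≠ K₀ ∧
      (∃ D, Big n K D) ∧ (A : Set (Pt d)) = hat n K := by
    intro A hA
    rw [h𝒜, mem_filter] at hA
    exact hA.2
  have exA : ∀ K, IsCl Λ ω K → K ≠ K₀ → (∃ D, Big n K D) →
      ∃ A ∈ 𝒜, (A : Set (Pt d)) = hat n K := by
    intro K h1 h2 h3
    have hs := hat_sub hd1 hΛ h1 h2 h3
    have hfin : (hat n K).Finite := Λ.finite_toSet.subset hs
    refine ⟨hfin.toFinset, ?_, hfin.coe_toFinset⟩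
    rw [h𝒜, mem_filter, mem_powerset]
    refine ⟨?_, K, h1, h2, h3, hfin.coe_toFinset⟩
    intro x hx
    rw [Set.Finite.mem_toFinset] at hx
    exact hs hx
  have cutH : ∀ e, e ∈ dE H ↔ e ∈ cut (hat n K₀) := by
    intro e
    rw [mem_dE]
    simp only [cut, Set.mem_ofPred_eq, memH]
    tauto
  have cutA : ∀ (A : Finset (Pt d)) (K : Set (Pt d)), (A : Set (Pt d)) = hat n K →
      ∀ e, e ∈ dE A ↔ e ∈ cut (hat n K) := by
    intro A K hA e
    rw [← hA, mem_dE]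
    simp only [cut, Set.mem_ofPred_eq, Finset.mem_coe]
    tauto
  have eqSk : dE H ∪ 𝒜.biUnion dE = Sk Λ n ω := by
    ext e
    rw [mem_Sk' hd1 hΛ, mem_union, mem_biUnion]
    constructor
    · rintro (h | ⟨A, hA, h⟩)
      · rw [cutH, cut_hat] at h
        obtain ⟨D, hD, h⟩ := h
        exact ⟨K₀, D, hcl0, hD, h⟩
      · obtain ⟨K, h1, h2, h3, h4⟩ := memA A hA
        rw [cutA A K h4, cut_hat] at h
        obtain ⟨D, hD, h⟩ := h
        exact ⟨K, D, h1, hD, h⟩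
    · rintro ⟨K, D, h1, hD, h⟩
      by_cases hK : K = K₀
      · left
        rw [cutH, cut_hat]
        exact ⟨D, hK ▸ hD, h⟩
      · right
        obtain ⟨A, hA, hA'⟩ := exA K h1 hK ⟨D, hD⟩
        refine ⟨A, hA, ?_⟩
        rw [cutA A K hA', cut_hat]
        exact ⟨D, hD, h⟩
  have hdisj0 : ∀ K, IsCl Λ ω K → K ≠ K₀ → (∃ D, Big n K D) → Disjoint (hat n K) (hat n K₀) :=
    fun K h1 h2 h3 => hat_disj (cl_conn hd1 hΛ h1) hc0 h1.1.nonempty hne0 (cl_disj h1 hcl0 h2)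
      (Or.inr h3) (Or.inl hinf0)
  -- the inner end point of a boundary edge
  have touch : ∀ (K : Set (Pt d)) (x : Pt d), x ∈ hat n K →
      (∃ e ∈ cut (hat n K), e.1 = x ∨ tgt e = x) → x ∈ K := by
    rintro K x hx ⟨e, he, h⟩
    simp only [cut, Set.mem_ofPred_eq] at he
    rcases h with h | h
    · subst h
      have h2 : tgt e ∉ hat n K := fun h => he ⟨fun _ => h, fun _ => hx⟩
      exact (hat_edge hx h2 (lat_tgt e)).1
    · subst h
      have h2 : e.1 ∉ hat n K := fun h => he ⟨fun _ => hx, fun _ => h⟩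
      exact (hat_edge hx h2 (lat_tgt e).symm).1
  refine ⟨H, 𝒜, ?_⟩
  refine
    { adm :=
        { hH := Finset.filter_subset _ _
          sub := ?_
          disj := ?_
          conn := ?_
          two := ?_
          big := ?_
          thick := ?_ }
      compat :=
        { closed := ?_
          inner := ?_
          outer := ?_ }
      eq_Sk := eqSk
      out_H := ?_
      not_out_H := ?_
      rest := ?_
      inA := ?_
      free := ?_ }
  · -- sub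
    intro A hA x hx
    obtain ⟨K, h1, h2, h3, h4⟩ := memA A hA
    rw [memH]
    have hx' : x ∈ hat n K := by rw [← h4]; exact hx
    exact fun h => Set.disjoint_left.1 (hdisj0 K h1 h2 h3) hx' h
  · -- disj
    intro A hA B hB hAB
    obtain ⟨K, h1, h2, h3, h4⟩ := memA A hA
    obtain ⟨K', h1', h2', h3', h4'⟩ := memA B hB
    have hne : K ≠ K' := by
      rintro rfl
      exact hAB (Finset.coe_injective (h4.trans h4'.symm))
    rw [← Finset.disjoint_coe, h4, h4']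
    exact hat_disj (cl_conn hd1 hΛ h1) (cl_conn hd1 hΛ h1') h1.1.nonempty h1'.1.nonempty
      (cl_disj h1 h1' hne) (Or.inr h3) (Or.inr h3')
  · -- conn
    intro A hA
    obtain ⟨K, h1, h2, h3, h4⟩ := memA A hA
    rw [h4]
    exact hat_conn (cl_conn hd1 hΛ h1) h1.1.nonempty
  · -- two
    intro A hA
    obtain ⟨K, h1, h2, h3, h4⟩ := memA A hA
    obtain ⟨x, hx, y, hy, hxy⟩ := h1.1
    have hx' : x ∈ A := by rw [← Finset.mem_coe, h4]; exact sub_hat hx
    have hy' : y ∈ A := by rw [← Finset.mem_coe, h4]; exact sub_hat hy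
    exact Finset.one_lt_card.2 ⟨x, hx', y, hy', hxy⟩
  · -- big
    intro A hA
    obtain ⟨K, h1, h2, ⟨D, hD⟩, h4⟩ := memA A hA
    obtain ⟨F, hF, hF'⟩ := exists_F hd hk hD (side hd1 hΛ h1 hD.1)
    refine hF'.trans (Finset.card_le_card fun e he => ?_)
    rw [cutA A K h4, cut_hat]
    exact ⟨D, hD, (hF e).1 he⟩
  · -- thick
    rw [eqSk]
    intro e he
    obtain ⟨K, D, h1, hD, h⟩ := (mem_Sk' hd1 hΛ).1 he
    obtain ⟨F, hF, hF'⟩ := exists_F hd hk hD (side hd1 hΛ h1 hD.1)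
    refine ⟨dE F, fun f hf => (mem_Sk' hd1 hΛ).2 ⟨K, D, h1, hD, (hF f).1 hf⟩, (hF e).2 h, ?_, hF'⟩
    have : ((dE F : Finset (Ed d)) : Set (Ed d)) = cut D := Set.ext fun f => hF f
    rw [this]
    exact cut_connected D (comp_conn hD.1) (compl_conn hD.1 (cl_conn hd1 hΛ h1) h1.1.nonempty)
  · -- closed
    intro e he
    refine ⟨fun h => hat_closed hcl0 he ((cutH e).1 h), fun A hA h => ?_⟩
    obtain ⟨K, h1, h2, h3, h4⟩ := memA A hA
    exact hat_closed h1 he ((cutA A K h4 e).1 h)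
  · -- inner
    intro A hA x hx y hy hex hey
    obtain ⟨K, h1, h2, h3, h4⟩ := memA A hA
    have hxK : x ∈ K := by
      apply touch K x (by rw [← h4]; exact hx)
      obtain ⟨e, he, h⟩ := hex
      exact ⟨e, (cutA A K h4 e).1 he, h⟩
    have hyK : y ∈ K := by
      apply touch K y (by rw [← h4]; exact hy)
      obtain ⟨e, he, h⟩ := hey
      exact ⟨e, (cutA A K h4 e).1 he, h⟩
    exact conn_restrict h1 (by rw [h4]; exact sub_hat) hxK ((cl_inner hd1 h1 h2).2 x hxK y hyK)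
  · -- outer
    intro x hx hex
    rw [mem_sdiff, memH, not_not] at hx
    have hxK : x ∈ K₀ := by
      apply touch K₀ x hx.2
      obtain ⟨e, he, h⟩ := hex
      exact ⟨e, (cutH e).1 he, h⟩
    have h1 : Out (Λ \ H) ω x := Out.mono (Finset.Subset.refl _) Finset.sdiff_subset hxK
    obtain ⟨z, hz, h2⟩ := h1.restrict
    refine ⟨z, fun hzΛ => ?_, h2⟩
    have hzH : z ∈ H := by
      by_contra h
      exact hz (mem_sdiff.2 ⟨hzΛ, h⟩)
    have hzK : z ∈ K₀ := cl_closed hcl0 hxK ((h2.mono Finset.inter_subset_left).connP)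
    exact (memH z).1 hzH (sub_hat hzK)
  · -- out_H
    intro x hx
    rw [mem_sdiff, memH, not_not] at hx
    by_cases hxK : x ∈ K₀
    · exact Or.inl hxK
    · right
      obtain ⟨D, hD, hxD⟩ := comp_exists hxK
      have hDΛ : D ⊆ (Λ : Set (Pt d)) := fun z hz => by
        by_contra h
        exact comp_sub hD hz (compl_sub_K0 h)
      have hinf : (Dᶜ).Infinite := (inf_compl hd1 Λ).mono (Set.compl_subset_compl.2 hDΛ)
      refine ⟨K₀, D, hcl0, hD, Or.inl ⟨hxD, ?_⟩⟩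
      by_contra h
      rw [not_lt] at h
      exact (hat_comp hD hxD hx.2).1 ⟨hD, h, by rw [hinf.encard_eq]; exact le_top⟩
  · -- not_out_H
    intro x hx h
    exact (memH x).1 hx (sub_hat h)
  · -- rest
    intro x hx hxA
    by_cases hnt : ({y | ConnP Λ ω x y} : Set (Pt d)).Nontrivial
    · right
      have hcl : IsCl Λ ω {y | ConnP Λ ω x y} := ⟨hnt, x, rfl⟩
      set K : Set (Pt d) := {y | ConnP Λ ω x y} with hK
      have hxK : x ∈ K := ConnP.refl _ _ _
      have hxK0 : x ∉ K₀ := fun h => (memH x).1 hx (sub_hat h)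
      have hne : K ≠ K₀ := fun h => hxK0 (h ▸ hxK)
      have hnb : ¬ ∃ D, Big n K D := by
        intro hb
        obtain ⟨A, hA, hA'⟩ := exA K hcl hne hb
        apply hxA A hA
        rw [← Finset.mem_coe, hA']
        exact sub_hat hxK
      obtain ⟨z, hz⟩ := (inf_compl hd1 Λ).nonempty
      have hzK : z ∉ K := fun h => hz (inner_sub hd1 hcl hne h)
      obtain ⟨D, hD, hzD⟩ := comp_exists hzK
      have hsub := outer_sub hd1 hΛ hcl hne hD hzD hz
      have hinf : D.Infinite := (inf_compl hd1 Λ).mono hsub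
      refine ⟨K, D, hcl, hD, Or.inr ⟨fun h => comp_sub hD h hxK, ?_⟩⟩
      by_contra h
      rw [not_lt] at h
      exact hnb ⟨D, hD, by rw [hinf.encard_eq]; exact le_top, h⟩
    · left
      intro e he
      have htne : tgt e ≠ e.1 := by
        intro h
        have := congrFun h e.2
        simp [tgt] at this
      have hadj : Adj ω e.1 (tgt e) := ⟨e, he, Or.inl ⟨rfl, rfl⟩⟩
      constructor
      · intro h
        apply hnt
        refine ⟨x, ConnP.refl _ _ _, tgt e, ?_, ?_⟩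
        · show ConnP Λ ω x (tgt e)
          rw [← h]
          exact hadj.conn.connP
        · rw [← h]
          exact htne.symm
      · intro h
        apply hnt
        refine ⟨x, ConnP.refl _ _ _, e.1, ?_, ?_⟩
        · show ConnP Λ ω x e.1
          rw [← h]
          exact hadj.symm.conn.connP
        · rw [← h]
          exact htne
  · -- inA
    intro A hA
    obtain ⟨K, h1, h2, h3, h4⟩ := memA A hA
    obtain ⟨x, hx⟩ := h1.1.nonempty
    refine ⟨x, fun y hy => ?_⟩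
    have hy' : y ∈ hat n K := by rw [← h4]; exact hy
    by_cases hyK : y ∈ K
    · exact Or.inl ((cl_inner hd1 h1 h2).2 x hx y hyK)
    · right
      obtain ⟨D, hD, hyD⟩ := comp_exists hyK
      have hnb := (hat_comp hD hyD hy').1
      have hDΛ : D ⊆ (Λ : Set (Pt d)) := by
        intro z hz
        by_contra h
        exact hnb (outer_big hd1 hΛ h1 h2 h3 hD hz h)
      have hinf : (Dᶜ).Infinite := (inf_compl hd1 Λ).mono (Set.compl_subset_compl.2 hDΛ)
      refine ⟨K, D, h1, hD, Or.inl ⟨hyD, ?_⟩⟩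
      by_contra h
      rw [not_lt] at h
      exact hnb ⟨hD, h, by rw [hinf.encard_eq]; exact le_top⟩
  · -- free
    intro hωI hΛc hcard
    apply Finset.Subset.antisymm (Finset.filter_subset _ _)
    intro x hx
    rw [memH]
    have hout : ∀ y ∈ Λ, ¬ Out Λ ω y := by
      rintro y hy ⟨z, hz, h⟩
      apply hz
      unfold Conn at h
      induction h with
      | refl => exact hy
      | tail _ h2 ih =>
        rename_i b c _
        by_cases hb : b ∈ Λ
        · obtain ⟨e, he, h⟩ := h2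
          have := mem_EI.1 (hωI he)
          rcases h with ⟨h, h'⟩ | ⟨h, h'⟩
          · rw [← h']; exact this.2
          · rw [← h]; exact this.1
        · exact absurd (ih hb) hb
    have hxK : x ∉ K₀ := hout x hx
    obtain ⟨D, hD, hxD⟩ := comp_exists hxK
    have hs1 : (Λ : Set (Pt d)) ⊆ D := comp_sup hD hΛc (fun s hs => hout s hs) hx hxD
    have hs2 : D ⊆ (Λ : Set (Pt d)) := fun z hz => by
      by_contra h
      exact comp_sub hD hz (compl_sub_K0 h)
    have hDe : D = (Λ : Set (Pt d)) := Set.Subset.antisymm hs2 hs1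
    have hinf : (Dᶜ).Infinite := by rw [hDe]; exact inf_compl hd1 Λ
    have hbig : Big n K₀ D := by
      refine ⟨hD, ?_, by rw [hinf.encard_eq]; exact le_top⟩
      rw [hDe, Set.encard_coe_eq_coe_finsetCard]
      exact_mod_cast hcard
    exact fun h => h D hbig hxD

open Struct in
theorem rconn_Box (N : ℕ) : RConn Lat ((Box d N : Finset (Pt d)) : Set (Pt d)) := by
  have hsub : ∀ x : Pt d, x ∈ ((Box d N : Finset (Pt d)) : Set (Pt d)) ↔
      x ∈ Set.Icc (fun _ => (0 : ℤ) : Pt d) (fun _ => (N : ℤ) - 1 : Pt d) := by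
    intro x
    rw [Finset.mem_coe, mem_Box, Grid.mem_Icc']
    exact forall_congr' fun i => by omega
  intro x hx y hy
  exact Grid.conn_of_box (fun _ => (0 : ℤ)) (fun _ => (N : ℤ) - 1)
    (fun z hz => (hsub z).2 hz) ((hsub x).1 hx) ((hsub y).1 hy)

open Struct in
theorem rconn_Box_compl (hd : 2 ≤ d) (N : ℕ) :
    RConn Lat (((Box d N : Finset (Pt d)) : Set (Pt d))ᶜ) := by
  classical
  -- hyperplanes avoiding the box
  have key : ∀ (i : Fin d) (x y : Pt d), x i = y i → (x i < 0 ∨ (N : ℤ) ≤ x i) →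
      Pa (((Box d N : Finset (Pt d)) : Set (Pt d))ᶜ) x y := by
    intro i x y hxy hi
    refine Grid.conn_of_box (x ⊓ y) (x ⊔ y) (fun z hz => ?_) ⟨inf_le_left, le_sup_left⟩
      ⟨inf_le_right, le_sup_right⟩
    rw [Set.mem_compl_iff, Finset.mem_coe, mem_Box]
    intro h
    have h1 := h i
    have h2 := Grid.mem_Icc'.1 hz i
    simp only [Pi.inf_apply, Pi.sup_apply, hxy, inf_idem, sup_idem] at h2
    omega
  apply rconn_of_root (fun _ => (-1 : ℤ))
  intro x hx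
  rw [Set.mem_compl_iff, Finset.mem_coe, mem_Box] at hx
  push Not at hx
  obtain ⟨i, hi⟩ := hx
  have hi' : x i < 0 ∨ (N : ℤ) ≤ x i := by
    by_cases h : 0 ≤ x i
    · exact Or.inr (hi h)
    · exact Or.inl (by omega)
  obtain ⟨j, hj⟩ : ∃ j : Fin d, j ≠ i := by
    haveI : Nontrivial (Fin d) := Fin.nontrivial_iff_two_le.2 hd
    exact exists_ne i
  set y : Pt d := Function.update (fun _ => (-1 : ℤ)) i (x i) with hy
  have h1 : Pa (((Box d N : Finset (Pt d)) : Set (Pt d))ᶜ) x y :=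
    key i x y (by rw [hy, Function.update_self]) hi'
  have h2 : Pa (((Box d N : Finset (Pt d)) : Set (Pt d))ᶜ) (fun _ => (-1 : ℤ)) y :=
    key j _ y (by rw [hy, Function.update_of_ne hj]) (Or.inl (by norm_num))
  exact h2.trans h1.symm

end Pool.Agent.Lib.MP_31386d_pr
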