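import Pool.Agent.Lib.MP_31386d_pr.Arm

set_option autoImplicit false

namespace Pool.Agent.Lib.MP_31386d_pr

open scoped Classical in
/-- The frozen statement `S19251` for fixed `d` and `q` (literal text). -/
def FrozenFor (d : ℕ) (q : ℝ) : Prop :=
    ∀ (E : Finset (Fin d → ℤ) → Finset (Sym2 (Fin d → ℤ))),
    (∀ B : Finset (Fin d → ℤ), E B =
        ((B ×ˢ B).filter (fun z : (Fin d → ℤ) × (Fin d → ℤ) =>
          (∑ i : Fin d, |z.1 i - z.2 i|) = 1)).image
            (fun z : (Fin d → ℤ) × (Fin d → ℤ) => s(z.1, z.2))) →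
    ∀ (w : Finset (Fin d → ℤ) → Finset (Fin d → ℤ) → ℝ → Finset (Sym2 (Fin d → ℤ)) → ℝ),
    (∀ (B W : Finset (Fin d → ℤ)) (p : ℝ) (ω : Finset (Sym2 (Fin d → ℤ))),
        w B W p ω = p ^ ω.card * (1 - p) ^ ((E B).card - ω.card) *
        q ^ ((SimpleGraph.fromEdgeSet (((ω : Set (Sym2 (Fin d → ℤ)))) ∪
              {e : Sym2 (Fin d → ℤ) | ∃ u ∈ W, ∃ v ∈ W, e = s(u, v)})).connectedComponentMk ''
              (B : Set (Fin d → ℤ))).ncard) →
    ∀ (Prob : Finset (Fin d → ℤ) → Finset (Fin d → ℤ) → ℝ → (Finset (Sym2 (Fin d → ℤ)) → Prop) → ℝ),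
    (∀ (B W : Finset (Fin d → ℤ)) (p : ℝ) (A : Finset (Sym2 (Fin d → ℤ)) → Prop),
        Prob B W p A =
        (∑ ω ∈ (E B).powerset.filter A, w B W p ω) / (∑ ω ∈ (E B).powerset, w B W p ω)) →
    ∀ (Box Bd : ℕ → Finset (Fin d → ℤ)),
    (∀ n : ℕ, Box n = Fintype.piFinset (fun _ : Fin d => Finset.Icc (-(n : ℤ)) (n : ℤ))) →
    (∀ n : ℕ, Bd n = (Box n).filter (fun x : Fin d → ℤ => ∃ i : Fin d, |x i| = (n : ℤ))) →
    ∀ (Slab : ℕ → ℕ → Finset (Fin d → ℤ)),
    (∀ L n : ℕ, Slab L n = Fintype.piFinset (fun i : Fin d =>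
        if i.val = 0 then Finset.Icc (0 : ℤ) ((L : ℤ) - 1) else Finset.Icc (-(n : ℤ)) (n : ℤ))) →
    Filter.Tendsto
      (fun L : ℕ => sInf {p : ℝ | p ∈ Set.Icc (0 : ℝ) 1 ∧ ∃ α : ℝ, 0 < α ∧
          ∀ n : ℕ, ∀ x ∈ Slab L n,
            α < Prob (Slab L n) ∅ p
              (fun ω : Finset (Sym2 (Fin d → ℤ)) =>
                (SimpleGraph.fromEdgeSet (ω : Set (Sym2 (Fin d → ℤ)))).Reachable 0 x)})
      Filter.atTop
      (nhds (sInf {p : ℝ | p ∈ Set.Icc (0 : ℝ) 1 ∧ ∃ c : ℝ, 0 < c ∧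
          ∀ n : ℕ, c < Prob (Box n) (Bd n) p
            (fun ω : Finset (Sym2 (Fin d → ℤ)) => ∃ y ∈ Bd n,
              (SimpleGraph.fromEdgeSet (ω : Set (Sym2 (Fin d → ℤ)))).Reachable 0 y)}))

section Graph

open Finset

variable {d : ℕ}

/-- edge as an unordered pair -/
def ph (e : Ed d) : Sym2 (Pt d) := s(e.1, tgt e)

theorem tgt_apply (e : Ed d) (j : Fin d) : tgt e j = e.1 j + if j = e.2 then 1 else 0 := by
  simp only [tgt, Pi.add_apply]
  by_cases h : j = e.2
  · subst h; simp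
  · simp [h]

theorem tgt_ne' (e : Ed d) : e.1 ≠ tgt e := by
  intro h
  have := congrFun h e.2
  rw [tgt_apply] at this
  simp at this

theorem ph_eq_iff {e : Ed d} {x y : Pt d} :
    ph e = s(x, y) ↔ (e.1 = x ∧ tgt e = y) ∨ (e.1 = y ∧ tgt e = x) := by
  unfold ph
  rw [Sym2.eq_iff]

theorem ph_inj : Function.Injective (ph (d := d)) := by
  intro e f h
  have h' : ph e = s(f.1, tgt f) := h
  rw [ph_eq_iff] at h'
  rcases h' with ⟨h1, h2⟩ | ⟨h1, h2⟩
  · have h3 : e.2 = f.2 := by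
      by_contra hne
      have := congrFun h2 e.2
      rw [tgt_apply, tgt_apply, h1] at this
      simp [hne] at this
    exact Prod.ext h1 h3
  · exfalso
    have e1 := congrFun h1 e.2
    have e2 := congrFun h2 e.2
    rw [tgt_apply] at e1 e2
    simp only [if_true] at e2
    split_ifs at e1 with h3 <;> omega

theorem ph_image_inj : Function.Injective (fun s : Finset (Ed d) => s.map ⟨ph, ph_inj⟩) :=
  Finset.map_injective _

theorem lat_iff (x y : Pt d) : (∑ i : Fin d, |x i - y i|) = 1 ↔ Lat x y := by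
  constructor
  · intro h
    obtain ⟨i, hi⟩ : ∃ i, x i ≠ y i := by
      by_contra hcon
      push Not at hcon
      simp [hcon] at h
    have h1 : ∀ j, j ≠ i → x j = y j := by
      intro j hj
      by_contra hne
      have h2 : ∑ l ∈ ({i, j} : Finset (Fin d)), |x l - y l| ≤ ∑ l, |x l - y l| :=
        Finset.sum_le_sum_of_subset_of_nonneg (subset_univ _) (fun _ _ _ => abs_nonneg _)
      rw [sum_pair hj.symm, h] at h2
      have h3 : 1 ≤ |x i - y i| := Int.one_le_abs (sub_ne_zero.mpr hi)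
      have h4 : 1 ≤ |x j - y j| := Int.one_le_abs (sub_ne_zero.mpr hne)
      omega
    have h2 : |x i - y i| = 1 := by
      rw [← h]
      symm
      apply Finset.sum_eq_single i
      · intro j _ hj
        rw [h1 j hj]; simp
      · intro h; exact absurd (mem_univ i) h
    refine ⟨i, ?_⟩
    rcases (abs_eq (by norm_num)).mp h2 with h3 | h3
    · right
      funext j
      by_cases hj : j = i
      · subst hj
        simp; omega
      · simp [hj, h1 j hj]
    · left
      funext j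
      by_cases hj : j = i
      · subst hj
        simp; omega
      · simp [hj, h1 j hj]
  · rintro ⟨i, h | h⟩
    · rw [h]
      rw [Finset.sum_eq_single i]
      · simp
      · intro j _ hj
        simp [hj]
      · intro h; exact absurd (mem_univ i) h
    · rw [h]
      rw [Finset.sum_eq_single i]
      · simp
      · intro j _ hj
        simp [hj]
      · intro h; exact absurd (mem_univ i) h

/-- The edge set of the frozen statement. -/
theorem mem_E_iff (B : Finset (Pt d)) (z : Sym2 (Pt d)) :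
    (∃ a b : Pt d, a ∈ B ∧ b ∈ B ∧ (∑ i : Fin d, |a i - b i|) = 1 ∧ s(a, b) = z) ↔
      z ∈ (EI B).map ⟨ph, ph_inj⟩ := by
  simp only [Finset.mem_map, Function.Embedding.coeFn_mk, mem_EI]
  constructor
  · rintro ⟨a, b, ha, hb, h, rfl⟩
    rw [lat_iff] at h
    obtain ⟨i, h | h⟩ := h
    · refine ⟨(a, i), ⟨ha, ?_⟩, ?_⟩
      · show a + Pi.single i 1 ∈ B
        rw [← h]; exact hb
      · show s(a, a + Pi.single i 1) = s(a, b)
        rw [← h]
    · refine ⟨(b, i), ⟨hb, ?_⟩, ?_⟩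
      · show b + Pi.single i 1 ∈ B
        rw [← h]; exact ha
      · show s(b, b + Pi.single i 1) = s(a, b)
        rw [← h, Sym2.eq_swap]
  · rintro ⟨e, ⟨h1, h2⟩, rfl⟩
    refine ⟨e.1, tgt e, h1, h2, ?_, rfl⟩
    rw [lat_iff]
    exact ⟨e.2, Or.inl rfl⟩

theorem adj_iff (ω : Finset (Ed d)) (x y : Pt d) :
    (SimpleGraph.fromEdgeSet (((ω.map ⟨ph, ph_inj⟩ : Finset (Sym2 (Pt d))) :
      Set (Sym2 (Pt d))))).Adj x y ↔ Adj ω x y := by
  rw [SimpleGraph.fromEdgeSet_adj]
  simp only [Finset.coe_map, Function.Embedding.coeFn_mk, Set.mem_image, Finset.mem_coe]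
  constructor
  · rintro ⟨⟨e, he, h⟩, -⟩
    exact ⟨e, he, ph_eq_iff.mp h⟩
  · rintro ⟨e, he, h⟩
    refine ⟨⟨e, he, ph_eq_iff.mpr h⟩, ?_⟩
    rcases h with h | h
    · rw [← h.1, ← h.2]; exact tgt_ne' e
    · rw [← h.1, ← h.2]; exact (tgt_ne' e).symm

theorem reach_iff (ω : Finset (Ed d)) (x y : Pt d) :
    (SimpleGraph.fromEdgeSet (((ω.map ⟨ph, ph_inj⟩ : Finset (Sym2 (Pt d))) :
      Set (Sym2 (Pt d))))).Reachable x y ↔ Conn ω x y := by
  rw [SimpleGraph.reachable_iff_reflTransGen]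
  unfold Conn
  have : (SimpleGraph.fromEdgeSet (((ω.map ⟨ph, ph_inj⟩ : Finset (Sym2 (Pt d))) :
      Set (Sym2 (Pt d))))).Adj = Adj ω := by
    funext a b
    exact propext (adj_iff ω a b)
  rw [this]

open Classical in
/-- Number of components. -/
theorem ncard_comp (B W : Finset (Pt d)) (hW : W ⊆ B) (ω : Finset (Ed d)) (hω : ω ⊆ EI B) :
    ((SimpleGraph.fromEdgeSet (((ω.map ⟨ph, ph_inj⟩ : Finset (Sym2 (Pt d))) :
      Set (Sym2 (Pt d))) ∪ {e : Sym2 (Pt d) | ∃ u ∈ W, ∃ v ∈ W, e = s(u, v)})).connectedComponentMk ''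
        (B : Set (Pt d))).ncard = kap (B \ W) ω + (if W.Nonempty then 1 else 0) := by
  set G := SimpleGraph.fromEdgeSet (((ω.map ⟨ph, ph_inj⟩ : Finset (Sym2 (Pt d))) :
      Set (Sym2 (Pt d))) ∪ {e : Sym2 (Pt d) | ∃ u ∈ W, ∃ v ∈ W, e = s(u, v)}) with hG
  have hadj : ∀ a b, G.Adj a b ↔ (Adj ω a b ∨ (a ∈ W ∧ b ∈ W ∧ a ≠ b)) := by
    intro a b
    rw [hG, SimpleGraph.fromEdgeSet_adj]
    have h1 := adj_iff ω a b
    rw [SimpleGraph.fromEdgeSet_adj] at h1
    rw [← h1]
    have h2 : s(a, b) ∈ {e : Sym2 (Pt d) | ∃ u ∈ W, ∃ v ∈ W, e = s(u, v)} ↔ a ∈ W ∧ b ∈ W := by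
      simp only [Set.mem_ofPred_eq]
      constructor
      · rintro ⟨u, hu, v, hv, h⟩
        rw [Sym2.eq_iff] at h
        rcases h with ⟨rfl, rfl⟩ | ⟨rfl, rfl⟩
        · exact ⟨hu, hv⟩
        · exact ⟨hv, hu⟩
      · rintro ⟨h1, h2⟩
        exact ⟨a, h1, b, h2, rfl⟩
    rw [Set.mem_union, h2]
    tauto
  have hadjB : ∀ a b, G.Adj a b → a ∈ B ∧ b ∈ B := by
    intro a b h
    rw [hadj] at h
    rcases h with ⟨e, he, h⟩ | h
    · have h2 := mem_EI.mp (hω he)
      rcases h with h | h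
      · rw [← h.1, ← h.2]; exact h2
      · rw [← h.1, ← h.2]; exact h2.symm
    · exact ⟨hW h.1, hW h.2.1⟩
  have hreachB : ∀ a b, G.Reachable a b → a ∈ B → b ∈ B := by
    intro a b h ha
    rw [SimpleGraph.reachable_iff_reflTransGen] at h
    induction h with
    | refl => exact ha
    | tail _ hbc _ => exact (hadjB _ _ hbc).2
  set mk := G.connectedComponentMk with hmk
  have hmk_eq : ∀ a b, mk a = mk b ↔ G.Reachable a b := fun a b => SimpleGraph.ConnectedComponent.eq
  set C : Set G.ConnectedComponent := {c | c ∈ mk '' (B : Set (Pt d)) ∧ ∀ w ∈ W, c ≠ mk w} with hC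
  have hfin : (mk '' (B : Set (Pt d))).Finite := (B.finite_toSet).image _
  have hCfin : C.Finite := hfin.subset (fun c hc => hc.1)
  have : Fintype C := hCfin.fintype
  have hmem : ∀ x, mk x ∈ C → x ∈ B ∧ x ∉ W := by
    intro x hx
    obtain ⟨⟨b, hb, h⟩, h2⟩ := hx
    rw [hmk_eq] at h
    exact ⟨hreachB _ _ h hb, fun hw => h2 x hw rfl⟩
  let Φ : (C → ℚ) →ₗ[ℚ] (Pt d → ℚ) :=
    { toFun := fun h x => if hx : mk x ∈ C then h ⟨mk x, hx⟩ else 0
      map_add' := by
        intro h h'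
        funext x
        by_cases hx : mk x ∈ C
        · simp [hx]
        · simp [hx]
      map_smul' := by
        intro c h
        funext x
        by_cases hx : mk x ∈ C
        · simp [hx]
        · simp [hx] }
  have hΦ : ∀ h x, Φ h x = if hx : mk x ∈ C then h ⟨mk x, hx⟩ else 0 := fun _ _ => rfl
  have hinj : Function.Injective Φ := by
    intro h h' hh
    funext c
    obtain ⟨c, hc⟩ := c
    obtain ⟨⟨b, hb, rfl⟩, h2⟩ := hc
    have h3 := congrFun hh b
    have hc' : mk b ∈ C := ⟨⟨b, hb, rfl⟩, h2⟩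
    rw [hΦ, hΦ, dif_pos hc', dif_pos hc'] at h3
    exact h3
  have hrange : LinearMap.range Φ = L (B \ W) ω := by
    apply le_antisymm
    · rintro _ ⟨h, rfl⟩
      refine ⟨fun x hx => ?_, fun e he => ?_⟩
      · rw [hΦ, dif_neg]
        intro hx2
        have := hmem x hx2
        exact hx (mem_sdiff.mpr this)
      · have h1 : mk e.1 = mk (tgt e) := by
          rw [hmk_eq]
          apply SimpleGraph.Adj.reachable
          rw [hadj]
          exact Or.inl ⟨e, he, Or.inl ⟨rfl, rfl⟩⟩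
        rw [hΦ, hΦ]
        by_cases h2 : mk e.1 ∈ C
        · rw [dif_pos h2, dif_pos (h1 ▸ h2)]
          congr 1
          exact Subtype.ext h1
        · rw [dif_neg h2, dif_neg (h1 ▸ h2)]
    · intro g hg
      have hconst : ∀ a b, G.Reachable a b → g a = g b := by
        intro a b h
        rw [SimpleGraph.reachable_iff_reflTransGen] at h
        induction h with
        | refl => rfl
        | tail _ hbc ih =>
          rw [ih]
          rw [hadj] at hbc
          rcases hbc with ⟨e, he, h⟩ | h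
          · have := hg.2 e he
            rcases h with h | h
            · rw [← h.1, ← h.2]; exact this
            · rw [← h.1, ← h.2]; exact this.symm
          · rw [hg.1 _ (by simp [h.1]), hg.1 _ (by simp [h.2.1])]
      refine ⟨fun c => g (Quot.out c.1), ?_⟩
      funext x
      rw [hΦ]
      by_cases hx : mk x ∈ C
      · rw [dif_pos hx]
        apply hconst
        rw [← hmk_eq]
        exact Quot.out_eq (mk x)
      · rw [dif_neg hx]
        symm
        by_cases hxB : x ∈ B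
        · have : ∃ w ∈ W, mk x = mk w := by
            by_contra hcon
            push Not at hcon
            exact hx ⟨⟨x, hxB, rfl⟩, hcon⟩
          obtain ⟨w, hw, h⟩ := this
          rw [hconst x w ((hmk_eq _ _).mp h)]
          exact hg.1 _ (by simp [hw])
        · exact hg.1 _ (by simp [hxB])
  have hkap : kap (B \ W) ω = C.ncard := by
    unfold kap
    rw [← hrange, LinearMap.finrank_range_of_inj hinj, Module.finrank_fintype_fun_eq_card,
      Set.ncard_eq_toFinset_card', Set.toFinset_card]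
  rw [hkap]
  by_cases hWn : W.Nonempty
  · rw [if_pos hWn]
    obtain ⟨w₀, hw₀⟩ := hWn
    have hall : ∀ w ∈ W, mk w = mk w₀ := by
      intro w hw
      rw [hmk_eq]
      by_cases h : w = w₀
      · rw [h]
      · apply SimpleGraph.Adj.reachable
        rw [hadj]
        exact Or.inr ⟨hw, hw₀, h⟩
    have h1 : mk '' (B : Set (Pt d)) = insert (mk w₀) C := by
      ext c
      rw [Set.mem_insert_iff]
      constructor
      · intro hc
        by_cases h : c = mk w₀
        · exact Or.inl h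
        · right
          refine ⟨hc, fun w hw h2 => h ?_⟩
          rw [h2, hall w hw]
      · rintro (rfl | h)
        · exact ⟨w₀, hW hw₀, rfl⟩
        · exact h.1
    rw [h1, Set.ncard_insert_of_notMem (fun h => h.2 w₀ hw₀ rfl) hCfin]
  · rw [if_neg hWn, add_zero]
    congr 1
    ext c
    rw [Finset.not_nonempty_iff_eq_empty] at hWn
    constructor
    · intro hc
      exact ⟨hc, fun w hw => by rw [hWn] at hw; simp at hw⟩
    · exact fun hc => hc.1

/-- the edges inside `B`, as unordered pairs -/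
def EF (B : Finset (Pt d)) : Finset (Sym2 (Pt d)) := (EI B).map ⟨ph, ph_inj⟩

open Classical in
/-- the weight of the frozen statement -/
noncomputable def wF (q : ℝ) (B W : Finset (Pt d)) (p : ℝ) (ω : Finset (Sym2 (Pt d))) : ℝ :=
  p ^ ω.card * (1 - p) ^ ((EF B).card - ω.card) *
    q ^ ((SimpleGraph.fromEdgeSet (((ω : Set (Sym2 (Fin d → ℤ)))) ∪
      {e : Sym2 (Fin d → ℤ) | ∃ u ∈ W, ∃ v ∈ W, e = s(u, v)})).connectedComponentMk ''
        (B : Set (Fin d → ℤ))).ncard

open Classical in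
/-- the probability of the frozen statement -/
noncomputable def PrF (q : ℝ) (B W : Finset (Pt d)) (p : ℝ)
    (A : Finset (Sym2 (Pt d)) → Prop) : ℝ :=
  (∑ ω ∈ (EF B).powerset.filter A, wF q B W p ω) / (∑ ω ∈ (EF B).powerset, wF q B W p ω)

theorem sum_EF (B : Finset (Pt d)) (F : Finset (Sym2 (Pt d)) → ℝ) :
    ∑ ω ∈ (EF B).powerset, F ω = ∑ ω ∈ (EI B).powerset, F (ω.map ⟨ph, ph_inj⟩) := by
  classical
  have h : (EF B).powerset = (EI B).powerset.image (fun s => s.map ⟨ph, ph_inj⟩) := by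
    unfold EF
    rw [Finset.map_eq_image, Finset.powerset_image]
    congr 1
    funext s
    rw [Finset.map_eq_image]
  rw [h, Finset.sum_image]
  intro s _ t _ hst
  exact ph_image_inj hst

open Classical in
theorem wF_eq {q p : ℝ} (hp0 : 0 < p) (hp1 : p < 1) (B W : Finset (Pt d)) (hW : W ⊆ B)
    (ω : Finset (Ed d)) (hω : ω ⊆ EI B) :
    wF q B W p (ω.map ⟨ph, ph_inj⟩) =
      ((1 - p) ^ (EI B).card * q ^ (if W.Nonempty then 1 else 0)) *
        wt (p / (1 - p)) q (B \ W) ω := by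
  unfold wF wt
  rw [ncard_comp B W hW ω hω]
  have h1 : (EF B).card = (EI B).card := Finset.card_map _
  have h2 : ω.card ≤ (EI B).card := card_le_card hω
  rw [h1, Finset.card_map, pow_add, div_pow]
  have h3 : (1 - p) ^ (EI B).card = (1 - p) ^ ((EI B).card - ω.card) * (1 - p) ^ ω.card := by
    rw [← pow_add, Nat.sub_add_cancel h2]
  have h4 : (1 - p) ^ ω.card ≠ 0 := by
    apply pow_ne_zero
    linarith
  rw [h3]
  field_simp

open Classical in
theorem PrF_eq {q p : ℝ} (hq : 1 ≤ q) (hp0 : 0 < p) (hp1 : p < 1) (B W : Finset (Pt d))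
    (hW : W ⊆ B) (A : Finset (Sym2 (Pt d)) → Prop) :
    PrF q B W p A =
      Pb (p / (1 - p)) q (B \ W) (EI B) (fun ω => A (ω.map ⟨ph, ph_inj⟩)) := by
  have hq0 : 0 < q := by linarith
  have hp2 : 0 < 1 - p := by linarith
  set c : ℝ := ((1 - p) ^ (EI B).card * q ^ (if W.Nonempty then 1 else 0)) with hc
  have hc0 : c ≠ 0 := by positivity
  unfold PrF Pb Ex Zs Z
  rw [Finset.sum_filter, sum_EF, sum_EF]
  have h1 : ∑ ω ∈ (EI B).powerset, (if A (ω.map ⟨ph, ph_inj⟩) then
      wF q B W p (ω.map ⟨ph, ph_inj⟩) else 0) =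
      c * ∑ ω ∈ (EI B).powerset, wt (p / (1 - p)) q (B \ W) ω *
        (if A (ω.map ⟨ph, ph_inj⟩) then 1 else 0) := by
    rw [mul_sum]
    apply sum_congr rfl
    intro ω hω
    rw [wF_eq hp0 hp1 B W hW ω (mem_powerset.mp hω), ← hc]
    by_cases h : A (ω.map ⟨ph, ph_inj⟩)
    · rw [if_pos h, if_pos h]; ring
    · rw [if_neg h, if_neg h]; ring
  have h2 : ∑ ω ∈ (EI B).powerset, wF q B W p (ω.map ⟨ph, ph_inj⟩) =
      c * ∑ ω ∈ (EI B).powerset, wt (p / (1 - p)) q (B \ W) ω := by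
    rw [mul_sum]
    apply sum_congr rfl
    intro ω hω
    rw [wF_eq hp0 hp1 B W hW ω (mem_powerset.mp hω)]
  rw [h1, h2, mul_div_mul_left _ _ hc0]

open Classical in
theorem PrF_zero {q : ℝ} (B W : Finset (Pt d))
    (A : Finset (Sym2 (Pt d)) → Prop) (hA : ¬ A ∅) : PrF q B W 0 A = 0 := by
  unfold PrF
  rw [Finset.sum_eq_zero, zero_div]
  intro ω hω
  rw [mem_filter] at hω
  have h1 : ω ≠ ∅ := fun h => hA (h ▸ hω.2)
  have h2 : ω.card ≠ 0 := fun h => h1 (card_eq_zero.mp h)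
  unfold wF
  rw [zero_pow h2, zero_mul, zero_mul]

open Classical in
theorem PrF_one {q : ℝ} (hq : 1 ≤ q) (B W : Finset (Pt d))
    (A : Finset (Sym2 (Pt d)) → Prop) (hA : A (EF B)) : PrF q B W 1 A = 1 := by
  have hq0 : 0 < q := by linarith
  have hz : ∀ ω ∈ (EF B).powerset, ω ≠ EF B → wF q B W 1 ω = 0 := by
    intro ω hω hne
    rw [mem_powerset] at hω
    have h1 : ω.card < (EF B).card := card_lt_card (lt_of_le_of_ne hω hne)
    have h2 : (EF B).card - ω.card ≠ 0 := by omega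
    unfold wF
    rw [sub_self, zero_pow h2, mul_zero, zero_mul]
  have h1 : ∑ ω ∈ (EF B).powerset.filter A, wF q B W 1 ω = wF q B W 1 (EF B) := by
    apply Finset.sum_eq_single
    · intro ω hω hne
      exact hz ω (mem_filter.mp hω).1 hne
    · intro h
      exact absurd (mem_filter.mpr ⟨by simp, hA⟩) h
  have h2 : ∑ ω ∈ (EF B).powerset, wF q B W 1 ω = wF q B W 1 (EF B) := by
    apply Finset.sum_eq_single
    · intro ω hω hne
      exact hz ω hω hne
    · intro h
      exact absurd (by simp) h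
  rw [PrF, h1, h2, div_self]
  unfold wF
  rw [Nat.sub_self, pow_zero, one_pow]
  positivity

/-! ### Geometry of the cubes and slabs -/

theorem EI_cube_sub (n : ℕ) : EB (cube d n) ⊆ EI (cube d (n + 1)) := by
  intro e he
  rw [mem_EB] at he
  rw [mem_EI, mem_cube, mem_cube]
  have hc : ((n + 1 : ℕ) : ℤ) = (n : ℤ) + 1 := by push_cast; ring
  rcases he with he | he
  · rw [mem_cube] at he
    refine ⟨fun i => ?_, fun i => ?_⟩
    · have := he i; rw [hc]; omega
    · have := he i; rw [tgt_apply, hc]; split_ifs <;> omega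
  · rw [mem_cube] at he
    refine ⟨fun i => ?_, fun i => ?_⟩
    · have := he i; rw [tgt_apply] at this; rw [hc]; split_ifs at this <;> omega
    · have := he i; rw [hc]; omega

theorem conn_mem {B : Finset (Pt d)} {ω : Finset (Ed d)} (hω : ω ⊆ EI B) {x y : Pt d}
    (h : Conn ω x y) (hx : x ∈ B) : y ∈ B := by
  induction h with
  | refl => exact hx
  | tail _ hbc _ =>
    obtain ⟨e, he, h⟩ := hbc
    have := mem_EI.mp (hω he)
    rcases h with h | h
    · rw [← h.2]; exact this.2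
    · rw [← h.1]; exact this.1

/-- one step towards the origin inside a star-shaped box -/
theorem conn_zero_of_box {B : Finset (Pt d)}
    (hB : ∀ x ∈ B, ∀ y : Pt d, (∀ i, (0 ≤ y i ∧ y i ≤ x i) ∨ (x i ≤ y i ∧ y i ≤ 0)) → y ∈ B)
    (x : Pt d) (hx : x ∈ B) : Conn (EI B) 0 x := by
  generalize hN : (∑ i, |x i|).toNat = N
  induction N generalizing x with
  | zero =>
    have h0 : ∑ i, |x i| = 0 := by
      have : 0 ≤ ∑ i, |x i| := Finset.sum_nonneg (fun _ _ => abs_nonneg _)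
      omega
    have : x = 0 := by
      funext i
      have := (Finset.sum_eq_zero_iff_of_nonneg (fun i _ => abs_nonneg (x i))).mp h0 i (mem_univ i)
      exact abs_eq_zero.mp this
    rw [this]
    exact Conn.refl _ _
  | succ N ih =>
    obtain ⟨i, hi⟩ : ∃ i, x i ≠ 0 := by
      by_contra hcon
      push Not at hcon
      simp [hcon] at hN
    rcases lt_or_gt_of_ne hi with hneg | hpos
    · -- move up
      set y : Pt d := x + Pi.single i 1 with hy
      have hyj : ∀ j, y j = x j + if j = i then 1 else 0 := fun j => tgt_apply (x, i) j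
      have hyB : y ∈ B := by
        apply hB x hx
        intro j
        rw [hyj]
        by_cases hj : j = i
        · subst hj
          right; simp; omega
        · simp only [hj, if_false, add_zero]
          rcases le_total 0 (x j) with h | h
          · left; exact ⟨h, le_rfl⟩
          · right; exact ⟨le_rfl, h⟩
      have hsum : ∑ j, |y j| = (∑ j, |x j|) - 1 := by
        rw [← Finset.add_sum_erase _ _ (mem_univ i), ← Finset.add_sum_erase univ _ (mem_univ i)]
        have h1 : |y i| = |x i| - 1 := by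
          rw [hyj, if_pos rfl, abs_of_neg hneg, abs_of_nonpos (by omega)]
          ring
        have h2 : ∑ j ∈ univ.erase i, |y j| = ∑ j ∈ univ.erase i, |x j| := by
          apply sum_congr rfl
          intro j hj
          rw [hyj, if_neg (ne_of_mem_erase hj), add_zero]
        rw [h1, h2]
        ring
      have h3 := ih y hyB (by rw [hsum]; omega)
      refine h3.trans (Adj.conn ⟨(x, i), ?_, Or.inr ⟨rfl, rfl⟩⟩)
      rw [mem_EI]
      exact ⟨hx, hyB⟩
    · set y : Pt d := x - Pi.single i 1 with hy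
      have hyx : y + Pi.single i 1 = x := by rw [hy]; abel
      have hyj : ∀ j, y j = x j - if j = i then 1 else 0 := by
        intro j
        rw [hy, Pi.sub_apply]
        by_cases hj : j = i
        · subst hj; simp
        · simp [hj]
      have hyB : y ∈ B := by
        apply hB x hx
        intro j
        rw [hyj]
        by_cases hj : j = i
        · subst hj
          left; simp; omega
        · simp only [hj, if_false, sub_zero]
          rcases le_total 0 (x j) with h | h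
          · left; exact ⟨h, le_rfl⟩
          · right; exact ⟨le_rfl, h⟩
      have hsum : ∑ j, |y j| = (∑ j, |x j|) - 1 := by
        rw [← Finset.add_sum_erase _ _ (mem_univ i), ← Finset.add_sum_erase univ _ (mem_univ i)]
        have h1 : |y i| = |x i| - 1 := by
          rw [hyj, if_pos rfl, abs_of_pos hpos, abs_of_nonneg (by omega)]
        have h2 : ∑ j ∈ univ.erase i, |y j| = ∑ j ∈ univ.erase i, |x j| := by
          apply sum_congr rfl
          intro j hj
          rw [hyj, if_neg (ne_of_mem_erase hj), sub_zero]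
        rw [h1, h2]
        ring
      have h3 := ih y hyB (by rw [hsum]; omega)
      refine h3.trans (Adj.conn ⟨(y, i), ?_, Or.inl ⟨rfl, hyx⟩⟩)
      rw [mem_EI]
      refine ⟨hyB, ?_⟩
      show y + Pi.single i 1 ∈ B
      rw [hyx]; exact hx

theorem conn_cube (n : ℕ) (x : Pt d) (hx : x ∈ cube d n) : Conn (EI (cube d n)) 0 x := by
  apply conn_zero_of_box _ x hx
  intro x hx y hy
  rw [mem_cube] at *
  intro i
  have h1 := hx i
  rcases hy i with h2 | h2 <;> omega

theorem conn_slab {L : ℕ} (hL : 1 ≤ L) (n : ℕ) (x : Pt d) (hx : x ∈ slab d L n) :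
    Conn (EI (slab d L n)) 0 x := by
  apply conn_zero_of_box _ x hx
  intro x hx y hy
  rw [mem_slab] at *
  intro i
  have h1 := hx i
  refine ⟨fun h => ?_, fun h => ?_⟩
  · have h3 := h1.1 h
    rcases hy i with h2 | h2 <;> omega
  · have h3 := h1.2 h
    rcases hy i with h2 | h2 <;> omega

/-- The arm probability in any finite region is at most the wired one. -/
theorem Pb_out_free_le {u q : ℝ} (hu : 0 < u) (hq : 1 ≤ q) (V : Finset (Pt d)) (r : ℕ) :
    Pb u q V (EI V) (fun ω => Out (cube d r) ω 0) ≤ thw d u q r := by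
  classical
  set f : Finset (Ed d) → ℝ := fun ω => if Out (cube d r) ω 0 then 1 else 0 with hf
  have hf0 : ∀ ω, 0 ≤ f ω := fun ω => by rw [hf]; simp only; split_ifs <;> norm_num
  have hfm : ∀ s t, s ⊆ t → f s ≤ f t := by
    intro s t hst
    rw [hf]
    simp only
    split_ifs with h1 h2
    · exact le_rfl
    · exact absurd (h1.mono hst (subset_refl _)) h2
    · norm_num
    · exact le_rfl
  have e1 : Ex u q (V ∪ (cube d r \ V)) (EI V) f = Ex u q V (EI V) f := by
    apply Ex_isol hu hq disjoint_sdiff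
    intro e he
    rw [mem_EI] at he
    simp only [mem_sdiff]
    tauto
  have e2 : Ex u q (V ∪ (cube d r \ V)) (EI V) f ≤
      Ex u q (V ∪ (cube d r \ V)) (EI V ∪ EB (cube d r)) f :=
    Ex_dom_E hu hq subset_union_left hf0 hfm
  have e3 : Ex u q (V ∪ (cube d r \ V)) (EI V ∪ EB (cube d r)) f ≤
      Ex u q (cube d r) (EI V ∪ EB (cube d r)) f := by
    apply Ex_dom_V hu hq _ hf0 hfm
    rw [union_sdiff_self_eq_union]
    exact subset_union_right
  have e4 : Ex u q (cube d r) (EI V ∪ EB (cube d r)) f = Ex u q (cube d r) (EB (cube d r)) f := by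
    have h1 : EI V ∪ EB (cube d r) = EB (cube d r) ∪ (EI V \ EB (cube d r)) := by
      rw [union_sdiff_self_eq_union, union_comm]
    rw [h1]
    apply Ex_irrel hu hq disjoint_sdiff
    · intro e he
      have h2 := (mem_sdiff.mp he).2
      rw [mem_EB] at h2
      tauto
    · intro s t hs ht
      have h3 := out_union_irrel (V := cube d r) (s := s) (t := t)
        (disjoint_of_subset_left ht sdiff_disjoint) 0
      rw [hf]
      simp only [h3]
  have e5 : Pb u q V (EI V) (fun ω => Out (cube d r) ω 0) = Ex u q V (EI V) f := by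
    unfold Pb
    exact Ex_congr (fun ω _ => by rw [hf])
  have e6 : thw d u q r = Ex u q (cube d r) (EB (cube d r)) f := by
    unfold thw Pb
    exact Ex_congr (fun ω _ => by rw [hf])
  rw [e5, e6, ← e1, ← e4]
  exact e2.trans e3

/-- The wired box probability is the one-arm probability. -/
theorem Pb_box_eq {u q : ℝ} (hu : 0 < u) (hq : 1 ≤ q) (n : ℕ)
    (P : Finset (Ed d) → Prop)
    (hP : ∀ ω, ω ⊆ EI (cube d (n + 1)) → (P ω ↔ Out (cube d n) ω 0)) :
    Pb u q (cube d n) (EI (cube d (n + 1))) P = thw d u q n := by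
  classical
  set f : Finset (Ed d) → ℝ := fun ω => if Out (cube d n) ω 0 then 1 else 0 with hf
  have e1 : Pb u q (cube d n) (EI (cube d (n + 1))) P =
      Ex u q (cube d n) (EI (cube d (n + 1))) f := by
    unfold Pb
    apply Ex_congr
    intro ω hω
    rw [hf]
    have := hP ω hω
    by_cases h : P ω
    · rw [if_pos h]
      simp only
      rw [if_pos (this.mp h)]
    · rw [if_neg h]
      simp only
      rw [if_neg (fun h' => h (this.mpr h'))]
  have h1 : EI (cube d (n + 1)) = EB (cube d n) ∪ (EI (cube d (n + 1)) \ EB (cube d n)) := by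
    rw [union_sdiff_of_subset (EI_cube_sub n)]
  have e2 : Ex u q (cube d n) (EI (cube d (n + 1))) f = Ex u q (cube d n) (EB (cube d n)) f := by
    rw [h1]
    apply Ex_irrel hu hq disjoint_sdiff
    · intro e he
      have h2 := (mem_sdiff.mp he).2
      rw [mem_EB] at h2
      tauto
    · intro s t hs ht
      have h3 := out_union_irrel (V := cube d n) (s := s) (t := t)
        (disjoint_of_subset_left ht sdiff_disjoint) 0
      rw [hf]
      simp only [h3]
  rw [e1, e2]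
  unfold thw Pb
  exact Ex_congr (fun ω _ => by rw [hf])

/-! ### Assembly -/

/-- the boundary of the box -/
noncomputable def BdF (d n : ℕ) : Finset (Pt d) :=
  (cube d n).filter (fun x : Pt d => ∃ i : Fin d, |x i| = (n : ℤ))

/-- the reachability event -/
def RE (x y : Pt d) (ω : Finset (Sym2 (Pt d))) : Prop :=
  (SimpleGraph.fromEdgeSet (ω : Set (Sym2 (Fin d → ℤ)))).Reachable x y

theorem zero_mem_cube (n : ℕ) : (0 : Pt d) ∈ cube d n := by
  rw [mem_cube]
  intro i
  simp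

theorem zero_mem_slab {L : ℕ} (hL : 1 ≤ L) (n : ℕ) : (0 : Pt d) ∈ slab d L n := by
  rw [mem_slab]
  intro i
  simp
  omega

theorem mem_BdF {n : ℕ} {x : Pt d} : x ∈ BdF d n ↔ x ∈ cube d n ∧ ∃ i, |x i| = (n : ℤ) := by
  simp [BdF]

theorem BdF_sub (n : ℕ) : BdF d n ⊆ cube d n := Finset.filter_subset _ _

theorem notMem_cube_of_BdF {n : ℕ} {x : Pt d} (hx : x ∈ BdF d (n + 1)) : x ∉ cube d n := by
  rw [mem_BdF] at hx
  obtain ⟨-, i, hi⟩ := hx
  intro h
  rw [mem_cube] at h
  have h1 := h i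
  have h2 : |x i| ≤ n := abs_le.mpr h1
  rw [hi] at h2
  push_cast at h2
  omega

theorem mem_BdF_of {n : ℕ} {x : Pt d} (hx : x ∈ cube d (n + 1)) (hx' : x ∉ cube d n) :
    x ∈ BdF d (n + 1) := by
  rw [mem_BdF]
  refine ⟨hx, ?_⟩
  rw [mem_cube] at hx hx'
  push Not at hx'
  obtain ⟨i, hi⟩ := hx'
  refine ⟨i, ?_⟩
  have h1 := hx i
  push_cast at h1 ⊢
  rcases lt_or_ge (x i) (-(n : ℤ)) with h2 | h2
  · rw [abs_of_neg (by omega)]; omega
  · have := hi h2
    rw [abs_of_pos (by omega)]; omega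

theorem cube_sdiff (n : ℕ) : cube d (n + 1) \ BdF d (n + 1) = cube d n := by
  ext x
  rw [mem_sdiff]
  constructor
  · rintro ⟨h1, h2⟩
    by_contra h3
    exact h2 (mem_BdF_of h1 h3)
  · intro h
    exact ⟨cube_mono (by omega) h, fun h2 => notMem_cube_of_BdF h2 h⟩

theorem PrF_slab {q p : ℝ} (hq : 1 ≤ q) (hp0 : 0 < p) (hp1 : p < 1) (L n : ℕ) (x : Pt d) :
    PrF q (slab d L n) ∅ p (RE 0 x) =
      Pb (p / (1 - p)) q (slab d L n) (EI (slab d L n)) (fun ω => Conn ω 0 x) := by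
  rw [PrF_eq hq hp0 hp1 _ _ (empty_subset _), sdiff_empty]
  congr 1
  funext ω
  exact propext (reach_iff ω 0 x)

theorem PrF_box {q p : ℝ} (hq : 1 ≤ q) (hp0 : 0 < p) (hp1 : p < 1) (n : ℕ) :
    PrF q (cube d (n + 1)) (BdF d (n + 1)) p (fun ω => ∃ y ∈ BdF d (n + 1), RE 0 y ω) =
      thw d (p / (1 - p)) q n := by
  have hu : 0 < p / (1 - p) := by
    have : 0 < 1 - p := by linarith
    positivity
  rw [PrF_eq hq hp0 hp1 _ _ (BdF_sub _), cube_sdiff]
  apply Pb_box_eq hu hq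
  intro ω hω
  constructor
  · rintro ⟨y, hy, h⟩
    exact ⟨y, notMem_cube_of_BdF hy, (reach_iff ω 0 y).mp h⟩
  · rintro ⟨z, hz, h⟩
    refine ⟨z, mem_BdF_of (conn_mem hω h (zero_mem_cube _)) hz, (reach_iff ω 0 z).mpr h⟩

theorem PrF_box_zero {q p : ℝ} (hq : 1 ≤ q) (hp0 : 0 < p) (hp1 : p < 1) (hd : 1 ≤ d) :
    PrF q (cube d 0) (BdF d 0) p (fun ω => ∃ y ∈ BdF d 0, RE 0 y ω) = 1 := by
  have hu : 0 < p / (1 - p) := by
    have : 0 < 1 - p := by linarith
    positivity
  rw [PrF_eq hq hp0 hp1 _ _ (BdF_sub _)]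
  have h : (fun ω : Finset (Ed d) => (fun ω => ∃ y ∈ BdF d 0, RE 0 y ω)
      (ω.map ⟨ph, ph_inj⟩)) = fun _ => True := by
    funext ω
    apply propext
    refine ⟨fun _ => trivial, fun _ => ⟨0, ?_, ?_⟩⟩
    · rw [mem_BdF]
      exact ⟨zero_mem_cube _, ⟨0, hd⟩, by simp⟩
    · exact SimpleGraph.Reachable.refl _
  rw [h]
  unfold Pb
  refine Eq.trans (Ex_congr (g := fun _ => 1) (fun ω _ => ?_)) (Ex_const hu hq 1)
  simp

/-- the wired parameter set -/
def WS (d : ℕ) (q : ℝ) : Set ℝ := {p : ℝ | p ∈ Set.Icc (0 : ℝ) 1 ∧ ∃ c : ℝ, 0 < c ∧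
  ∀ n : ℕ, c < PrF q (cube d n) (BdF d n) p (fun ω => ∃ y ∈ BdF d n, RE 0 y ω)}

/-- the slab parameter set -/
def AS (d : ℕ) (q : ℝ) (L : ℕ) : Set ℝ := {p : ℝ | p ∈ Set.Icc (0 : ℝ) 1 ∧ ∃ α : ℝ, 0 < α ∧
  ∀ n : ℕ, ∀ x ∈ slab d L n, α < PrF q (slab d L n) ∅ p (RE 0 x)}

theorem mem_WS_iff {q p : ℝ} (hq : 1 ≤ q) (hp0 : 0 < p) (hp1 : p < 1) (hd : 1 ≤ d) :
    p ∈ WS d q ↔ ∃ c : ℝ, 0 < c ∧ ∀ r : ℕ, c ≤ thw d (p / (1 - p)) q r := by
  have hu : 0 < p / (1 - p) := by
    have : 0 < 1 - p := by linarith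
    positivity
  constructor
  · rintro ⟨-, c, hc, h⟩
    refine ⟨c, hc, fun r => ?_⟩
    have := h (r + 1)
    rw [PrF_box hq hp0 hp1] at this
    exact this.le
  · rintro ⟨c, hc, h⟩
    refine ⟨⟨hp0.le, hp1.le⟩, c / 2, by linarith, fun n => ?_⟩
    cases n with
    | zero =>
      rw [PrF_box_zero hq hp0 hp1 hd]
      have := (h 0).trans (thw_le_one hu hq 0)
      linarith
    | succ n =>
      rw [PrF_box hq hp0 hp1]
      have := h n
      linarith

theorem zero_notMem_WS {q : ℝ} : (0 : ℝ) ∉ WS d q := by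
  rintro ⟨-, c, hc, h⟩
  have h1 := h 1
  rw [PrF_zero] at h1
  · linarith
  · rintro ⟨y, hy, h2⟩
    have h3 : RE 0 y (∅ : Finset (Sym2 (Pt d))) := h2
    have h4 : (∅ : Finset (Sym2 (Pt d))) = (∅ : Finset (Ed d)).map ⟨ph, ph_inj⟩ := by simp
    rw [h4] at h3
    have h5 := (reach_iff ∅ 0 y).mp h3
    have h6 : y = 0 := by
      have : ∀ z, Conn (∅ : Finset (Ed d)) 0 z → z = 0 := by
        intro z hz
        induction hz with
        | refl => rfl
        | tail _ hbc _ =>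
          obtain ⟨e, he, _⟩ := hbc
          simp at he
      exact this y h5
    rw [h6] at hy
    exact notMem_cube_of_BdF (n := 0) hy (zero_mem_cube _)

theorem one_mem_WS {q : ℝ} (hq : 1 ≤ q) (hd : 1 ≤ d) : (1 : ℝ) ∈ WS d q := by
  refine ⟨⟨zero_le_one, le_rfl⟩, 1 / 2, by norm_num, fun n => ?_⟩
  rw [PrF_one hq]
  · norm_num
  · refine ⟨fun _ => (n : ℤ), ?_, ?_⟩
    · rw [mem_BdF, mem_cube]
      refine ⟨fun i => ⟨by omega, le_rfl⟩, ⟨0, hd⟩, by simp⟩
    · refine (reach_iff (EI (cube d n)) 0 _).mpr (conn_cube n _ ?_)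
      rw [mem_cube]
      exact fun i => ⟨by omega, le_rfl⟩

theorem one_mem_AS {q : ℝ} (hq : 1 ≤ q) {L : ℕ} (hL : 1 ≤ L) : (1 : ℝ) ∈ AS d q L := by
  refine ⟨⟨zero_le_one, le_rfl⟩, 1 / 2, by norm_num, fun n x hx => ?_⟩
  rw [PrF_one hq]
  · norm_num
  · exact (reach_iff (EI (slab d L n)) 0 _).mpr (conn_slab hL n x hx)

/-- the point `(0, n, 0, …)` -/
def pt1 (hd : 2 ≤ d) (n : ℕ) : Pt d := Pi.single ⟨1, hd⟩ (n : ℤ)

theorem pt1_mem (hd : 2 ≤ d) {L : ℕ} (hL : 1 ≤ L) (n : ℕ) : pt1 hd n ∈ slab d L n := by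
  rw [mem_slab]
  intro i
  unfold pt1
  constructor
  · intro h
    have h1 : i ≠ ⟨1, hd⟩ := by
      intro h2
      rw [h2] at h
      simp at h
    rw [Pi.single_eq_of_ne h1]
    omega
  · intro _
    by_cases h1 : i = ⟨1, hd⟩
    · rw [h1, Pi.single_eq_same]; omega
    · rw [Pi.single_eq_of_ne h1]; omega

theorem pt1_notMem (hd : 2 ≤ d) (n : ℕ) : pt1 hd (n + 1) ∉ cube d n := by
  rw [mem_cube]
  intro h
  have h1 := h ⟨1, hd⟩
  unfold pt1 at h1
  rw [Pi.single_eq_same] at h1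
  push_cast at h1
  omega

theorem zero_notMem_AS {q : ℝ} (hd : 2 ≤ d) {L : ℕ} (hL : 1 ≤ L) : (0 : ℝ) ∉ AS d q L := by
  rintro ⟨-, c, hc, h⟩
  have h1 := h 1 _ (pt1_mem hd hL 1)
  rw [PrF_zero] at h1
  · linarith
  · intro h2
    have h4 : (∅ : Finset (Sym2 (Pt d))) = (∅ : Finset (Ed d)).map ⟨ph, ph_inj⟩ := by simp
    rw [h4] at h2
    have h5 := (reach_iff ∅ 0 _).mp h2
    have h6 : pt1 hd 1 = 0 := by
      have : ∀ z, Conn (∅ : Finset (Ed d)) 0 z → z = 0 := by
        intro z hz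
        induction hz with
        | refl => rfl
        | tail _ hbc _ =>
          obtain ⟨e, he, _⟩ := hbc
          simp at he
      exact this _ h5
    have h7 := pt1_notMem hd 0
    rw [zero_add, h6] at h7
    exact h7 (zero_mem_cube _)

theorem AS_sub_WS {q p : ℝ} (hq : 1 ≤ q) (hd : 2 ≤ d) {L : ℕ} (hL : 1 ≤ L) (hp0 : 0 < p)
    (hp1 : p < 1) (hp : p ∈ AS d q L) : p ∈ WS d q := by
  have hu : 0 < p / (1 - p) := by
    have : 0 < 1 - p := by linarith
    positivity
  rw [mem_WS_iff hq hp0 hp1 (by omega)]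
  obtain ⟨-, α, hα, h⟩ := hp
  refine ⟨α, hα, fun r => ?_⟩
  have h1 := h (r + 1) _ (pt1_mem hd hL (r + 1))
  rw [PrF_slab hq hp0 hp1] at h1
  refine h1.le.trans (le_trans ?_ (Pb_out_free_le hu hq (slab d L (r + 1)) r))
  exact Pb_mono hu hq (fun ω _ hω => ⟨_, pt1_notMem hd r, hω⟩)

theorem translate_core (q : ℝ) (hd : 3 ≤ d) (hq : 1 ≤ q)
    (H : ∀ u u' : ℝ, 0 < u → u < u' → (∃ c : ℝ, 0 < c ∧ ∀ r : ℕ, c ≤ thw d u q r) →
      ∃ L₀ : ℕ, ∀ L : ℕ, L₀ ≤ L → ∃ α : ℝ, 0 < α ∧ ∀ n : ℕ, ∀ x ∈ slab d L n,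
        α < Pb u' q (slab d L n) (EI (slab d L n)) (fun ω => Conn ω 0 x)) :
    Filter.Tendsto (fun L : ℕ => sInf (AS d q L)) Filter.atTop (nhds (sInf (WS d q))) := by
  have hW1 : (1 : ℝ) ∈ WS d q := one_mem_WS hq (by omega)
  have hWb : BddBelow (WS d q) := ⟨0, fun p hp => hp.1.1⟩
  have hAb : ∀ L, BddBelow (AS d q L) := fun L => ⟨0, fun p hp => hp.1.1⟩
  have hpc1 : sInf (WS d q) ≤ 1 := csInf_le hWb hW1
  have hlow : ∀ L, 1 ≤ L → sInf (WS d q) ≤ sInf (AS d q L) := by
    intro L hL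
    apply le_csInf ⟨1, one_mem_AS hq hL⟩
    intro p hp
    rcases hp.1.1.lt_or_eq with h0 | h0
    · rcases hp.1.2.lt_or_eq with h1 | h1
      · exact csInf_le hWb (AS_sub_WS hq (by omega) hL h0 h1 hp)
      · rw [h1]; exact hpc1
    · exact absurd (h0 ▸ hp) (zero_notMem_AS (by omega) hL)
  have hup : ∀ p : ℝ, sInf (WS d q) < p → p < 1 → ∃ L₀, ∀ L, L₀ ≤ L → sInf (AS d q L) ≤ p := by
    intro p hp hp1
    obtain ⟨p₀, hp₀, hlt⟩ := exists_lt_of_csInf_lt ⟨1, hW1⟩ hp
    have hp₀0 : 0 < p₀ := by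
      rcases hp₀.1.1.lt_or_eq with h | h
      · exact h
      · exact absurd (h ▸ hp₀) zero_notMem_WS
    have hp₀1 : p₀ < 1 := hlt.trans hp1
    have hp0 : 0 < p := hp₀0.trans hlt
    have hu : 0 < p₀ / (1 - p₀) := by
      have : 0 < 1 - p₀ := by linarith
      positivity
    have huu : p₀ / (1 - p₀) < p / (1 - p) := by
      rw [div_lt_div_iff₀ (by linarith) (by linarith)]
      nlinarith
    obtain ⟨L₀, hL₀⟩ := H _ _ hu huu ((mem_WS_iff hq hp₀0 hp₀1 (by omega)).mp hp₀)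
    refine ⟨L₀, fun L hL => csInf_le (hAb L) ?_⟩
    obtain ⟨α, hα, h⟩ := hL₀ L hL
    refine ⟨⟨hp0.le, hp1.le⟩, α, hα, fun n x hx => ?_⟩
    rw [PrF_slab hq hp0 hp1]
    exact h n x hx
  rw [Metric.tendsto_atTop]
  intro ε hε
  rcases hpc1.lt_or_eq with hpc | hpc
  · obtain ⟨p, hp1, hp2⟩ := exists_between (lt_min hpc (by linarith : sInf (WS d q) <
      sInf (WS d q) + ε))
    rw [lt_min_iff] at hp2
    obtain ⟨L₀, hL₀⟩ := hup p hp1 hp2.1
    refine ⟨max L₀ 1, fun L hL => ?_⟩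
    have h1 := hlow L (le_trans (le_max_right _ _) hL)
    have h2 := hL₀ L (le_trans (le_max_left _ _) hL)
    rw [Real.dist_eq, abs_of_nonneg (by linarith)]
    linarith [hp2.2]
  · refine ⟨1, fun L hL => ?_⟩
    have h1 := hlow L hL
    have h2 : sInf (AS d q L) ≤ 1 := csInf_le (hAb L) (one_mem_AS hq hL)
    rw [Real.dist_eq, abs_of_nonneg (by linarith)]
    linarith

end Graph

theorem translate (d : ℕ) (hd : 3 ≤ d) (q : ℝ) (hq : 1 ≤ q)
    (H : ∀ u u' : ℝ, 0 < u → u < u' → (∃ c : ℝ, 0 < c ∧ ∀ r : ℕ, c ≤ thw d u q r) →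
      ∃ L₀ : ℕ, ∀ L : ℕ, L₀ ≤ L → ∃ α : ℝ, 0 < α ∧ ∀ n : ℕ, ∀ x ∈ slab d L n,
        α < Pb u' q (slab d L n) (EI (slab d L n)) (fun ω => Conn ω 0 x)) :
    FrozenFor d q := by
  intro E hE w hw Prob hProb Box Bd hBox hBd Slab hSlab
  have hE' : E = EF := by
    funext B
    rw [hE B]
    ext z
    rw [EF, ← mem_E_iff]
    simp only [Finset.mem_image, Finset.mem_filter, Finset.mem_product, Prod.exists]
    constructor
    · rintro ⟨a, b, ⟨⟨h1, h2⟩, h3⟩, h4⟩
      exact ⟨a, b, h1, h2, h3, h4⟩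
    · rintro ⟨a, b, h1, h2, h3, h4⟩
      exact ⟨a, b, ⟨⟨h1, h2⟩, h3⟩, h4⟩
  subst hE'
  have hw' : w = wF q := by
    funext B W p ω
    rw [hw]
    rfl
  subst hw'
  have hP' : Prob = PrF q := by
    funext B W p A
    rw [hProb]
    rfl
  subst hP'
  have hBox' : Box = cube d := by
    funext n
    rw [hBox]
    rfl
  subst hBox'
  have hBd' : Bd = BdF d := by
    funext n
    rw [hBd]
    ext x
    rw [mem_BdF, Finset.mem_filter]
  subst hBd'
  have hSlab' : Slab = slab d := by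
    funext L n
    rw [hSlab]
    rfl
  subst hSlab'
  exact translate_core q hd hq H

end Pool.Agent.Lib.MP_31386d_pr
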