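import Pool.Agent.Lib.MP_31386d_pr.Defs

/-!
# The weight of the configurations with given regions
-/

set_option autoImplicit false

namespace Pool.Agent.Lib.MP_31386d_pr

open Finset

variable {d : ℕ} {u q : ℝ}

theorem wt_union {V W : Finset (Pt d)} (hVW : Disjoint V W) {ω₁ ω₂ : Finset (Ed d)}
    (h1 : ∀ e ∈ ω₁, e.1 ∉ W ∧ tgt e ∉ W) (h2 : ∀ e ∈ ω₂, e.1 ∉ V ∧ tgt e ∉ V)
    (h12 : Disjoint ω₁ ω₂) :
    wt u q (V ∪ W) (ω₁ ∪ ω₂) = wt u q V ω₁ * wt u q W ω₂ := by
  have h3 : kap (V ∪ W) (ω₁ ∪ ω₂) = kap V ω₁ + kap W ω₂ := by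
    rw [kap_union hVW]
    · congr 1
      · apply kap_congr
        intro e he
        rw [mem_union]
        constructor
        · rintro (h | h)
          · exact h
          · have := h2 e h
            tauto
        · exact Or.inl
      · apply kap_congr
        intro e he
        rw [mem_union]
        constructor
        · rintro (h | h)
          · have := h1 e h
            tauto
          · exact h
        · exact Or.inr
    · intro e he
      rw [mem_union] at he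
      rcases he with he | he
      · have := h1 e he
        tauto
      · have := h2 e he
        tauto
  unfold wt
  rw [card_union_of_disjoint h12, h3, pow_add, pow_add]
  ring

/-- The boundary vertices of `A` are connected to each other in `ω`. -/
def Inner (A : Finset (Pt d)) (ω : Finset (Ed d)) : Prop :=
  ∀ x ∈ A, ∀ y ∈ A, (∃ e ∈ dE A, e.1 = x ∨ tgt e = x) →
    (∃ e ∈ dE A, e.1 = y ∨ tgt e = y) → Conn ω x y

/-- Wiring the boundary of `A` costs at most one cluster if the boundary is already connected. -/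
theorem kap_wire {A : Finset (Pt d)} {ω η : Finset (Ed d)} (hI : Inner A ω) (hη : η ⊆ dE A) :
    kap A ω ≤ kap A (ω ∪ η) + 1 := by
  classical
  rcases η.eq_empty_or_nonempty with rfl | ⟨e₀, he₀⟩
  · rw [union_empty]
    omega
  · -- a boundary vertex
    obtain ⟨x₀, hx₀A, hx₀⟩ : ∃ x₀ ∈ A, ∃ e ∈ dE A, e.1 = x₀ ∨ tgt e = x₀ := by
      have h := mem_dE.mp (hη he₀)
      rcases h with h | h
      · exact ⟨e₀.1, h.1, e₀, hη he₀, Or.inl rfl⟩
      · exact ⟨tgt e₀, h.2, e₀, hη he₀, Or.inr rfl⟩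
    let φ : L A ω →ₗ[ℚ] ℚ :=
      { toFun := fun g => g.1 x₀
        map_add' := fun g h => by
          simp only [Submodule.coe_add, Pi.add_apply]
        map_smul' := fun c g => by
          simp only [Submodule.coe_smul, Pi.smul_apply, smul_eq_mul, RingHom.id_apply] }
    have h1 := LinearMap.finrank_range_add_finrank_ker φ
    have h2 : Module.finrank ℚ (LinearMap.range φ) ≤ 1 := by
      have := Submodule.finrank_le (LinearMap.range φ)
      simpa using this
    have h3 : Module.finrank ℚ (LinearMap.ker φ) ≤ kap A (ω ∪ η) := by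
      have hker : ∀ g : LinearMap.ker φ, ∀ f ∈ ω ∪ η, g.1.1 f.1 = g.1.1 (tgt f) := by
        intro g f hf
        rcases mem_union.mp hf with hf | hf
        · exact g.1.2.2 f hf
        · have hg0 : g.1.1 x₀ = 0 := by
            have := g.2
            rw [LinearMap.mem_ker] at this
            exact this
          have hb : ∀ x ∈ A, (∃ e ∈ dE A, e.1 = x ∨ tgt e = x) → g.1.1 x = 0 := by
            intro x hx hxe
            rw [← hg0]
            exact (hI x hx x₀ hx₀A hxe hx₀).const g.1.2.2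
          have h := mem_dE.mp (hη hf)
          rcases h with h | h
          · rw [hb f.1 h.1 ⟨f, hη hf, Or.inl rfl⟩, g.1.2.1 _ h.2]
          · rw [hb (tgt f) h.2 ⟨f, hη hf, Or.inr rfl⟩, g.1.2.1 _ h.1]
      let ψ : LinearMap.ker φ →ₗ[ℚ] L A (ω ∪ η) :=
        { toFun := fun g => ⟨g.1.1, g.1.2.1, hker g⟩
          map_add' := fun _ _ => rfl
          map_smul' := fun _ _ => rfl }
      apply LinearMap.finrank_le_finrank_of_injective (f := ψ)
      intro g h hgh
      apply Subtype.ext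
      apply Subtype.ext
      exact congrArg (fun k : L A (ω ∪ η) => k.1) hgh
    unfold kap at *
    omega

open Classical in
/-- Weight of the inner configurations of a region. -/
noncomputable def Uw (u q : ℝ) (A : Finset (Pt d)) : ℝ :=
  ∑ ω ∈ (EI A).powerset.filter (fun ω => Inner A ω), wt u q A ω

theorem Uw_nonneg (hu : 0 < u) (hq : 1 ≤ q) (A : Finset (Pt d)) : 0 ≤ Uw u q A :=
  sum_nonneg fun _ _ => (wt_pos hu hq _ _).le

theorem EB_eq (A : Finset (Pt d)) : EB A = EI A ∪ dE A := by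
  unfold dE
  rw [union_sdiff_of_subset (EI_subset_EB A)]

theorem disjoint_EI_dE (A : Finset (Pt d)) : Disjoint (EI A) (dE A) := by
  unfold dE
  exact disjoint_sdiff

theorem Uw_le_Zw (hu : 0 < u) (hq : 1 ≤ q) (A : Finset (Pt d)) :
    (1 + u) ^ (dE A).card * Uw u q A ≤ q * Zw u q A := by
  classical
  have hq0 : 0 < q := by linarith
  unfold Zw Z Uw
  rw [EB_eq A, sum_powerset_union (disjoint_EI_dE A), mul_sum, mul_sum, sum_filter]
  apply sum_le_sum
  intro ω hω
  rw [mem_powerset] at hω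
  split_ifs with hI
  · rw [← sum_pow_card (dE A) u, sum_mul, mul_sum]
    apply sum_le_sum
    intro η hη
    rw [mem_powerset] at hη
    have h1 := kap_wire hI hη
    have h2 : (ω ∪ η).card = ω.card + η.card :=
      card_union_of_disjoint (disjoint_of_subset_left hω
        (disjoint_of_subset_right hη (disjoint_EI_dE A)))
    unfold wt
    rw [h2, pow_add]
    have h3 : q ^ kap A ω ≤ q ^ (kap A (ω ∪ η) + 1) := pow_le_pow_right₀ hq h1
    rw [pow_succ] at h3
    calc u ^ η.card * (u ^ ω.card * q ^ kap A ω)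
        = (u ^ ω.card * u ^ η.card) * q ^ kap A ω := by ring
      _ ≤ (u ^ ω.card * u ^ η.card) * (q ^ kap A (ω ∪ η) * q) :=
          mul_le_mul_of_nonneg_left h3 (by positivity)
      _ = _ := by ring
  · apply mul_nonneg hq0.le
    exact sum_nonneg fun _ _ => (wt_pos hu hq _ _).le

theorem U_bound (hd : 1 ≤ d) (hu : 0 < u) (hq : 1 ≤ q) {b : ℝ} (hb : 1 ≤ b)
    (hb2 : b ^ 2 = 1 + u) (A : Finset (Pt d)) :
    Uw u q A ≤ Real.exp (pr d u q * A.card) * (q / b ^ (dE A).card) := by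
  have h1 := Uw_le_Zw hu hq A
  have h2 := W1 hd hu hq hb hb2 A
  have hb0 : 0 < b := by linarith
  have hq0 : 0 < q := by linarith
  have h3 : (1 + u) ^ (dE A).card = b ^ (dE A).card * b ^ (dE A).card := by
    rw [← hb2, ← pow_mul, ← pow_add]
    congr 1
    ring
  rw [h3] at h1
  have hB : 0 < b ^ (dE A).card := by positivity
  rw [← mul_div_assoc, le_div_iff₀ hB]
  have h4 : b ^ (dE A).card * (Uw u q A * b ^ (dE A).card) ≤
      b ^ (dE A).card * (Real.exp (pr d u q * A.card) * q) := by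
    calc b ^ (dE A).card * (Uw u q A * b ^ (dE A).card)
        = b ^ (dE A).card * b ^ (dE A).card * Uw u q A := by ring
      _ ≤ q * Zw u q A := h1
      _ ≤ q * (Real.exp (pr d u q * A.card) * b ^ (dE A).card) :=
          mul_le_mul_of_nonneg_left h2 hq0.le
      _ = _ := by ring
  exact le_of_mul_le_mul_left h4 hB

/-- The boundary vertices of `Λ \ H` next to `H` are connected to the outside. -/
def Outer (Λ H : Finset (Pt d)) (ω : Finset (Ed d)) : Prop :=
  ∀ x ∈ Λ \ H, (∃ e ∈ dE H, e.1 = x ∨ tgt e = x) → ∃ z, z ∉ Λ ∧ Conn ω x z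

theorem kap_outer {Λ H : Finset (Pt d)} {ω η : Finset (Ed d)} (hO : Outer Λ H ω)
    (hη : η ⊆ dE H) (hη2 : η ⊆ EB (Λ \ H)) :
    kap (Λ \ H) (ω ∪ η) = kap (Λ \ H) ω := by
  have : L (Λ \ H) (ω ∪ η) = L (Λ \ H) ω := by
    apply le_antisymm
    · intro g hg
      exact ⟨hg.1, fun e he => hg.2 e (mem_union_left _ he)⟩
    · intro g hg
      refine ⟨hg.1, fun e he => ?_⟩
      rcases mem_union.mp he with he | he
      · exact hg.2 e he
      · have hb : ∀ x ∈ Λ \ H, (∃ e ∈ dE H, e.1 = x ∨ tgt e = x) → g x = 0 := by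
          intro x hx hxe
          obtain ⟨z, hz, hc⟩ := hO x hx hxe
          rw [hc.const hg.2]
          exact hg.1 z (fun h => hz (mem_sdiff.mp h).1)
        have h1 := mem_dE.mp (hη he)
        have h2 := mem_EB.mp (hη2 he)
        rcases h1 with h1 | h1
        · have h3 : e.1 ∉ Λ \ H := fun h => (mem_sdiff.mp h).2 h1.1
          have h4 : tgt e ∈ Λ \ H := by tauto
          rw [hg.1 _ h3, hb _ h4 ⟨e, hη he, Or.inr rfl⟩]
        · have h3 : tgt e ∉ Λ \ H := fun h => (mem_sdiff.mp h).2 h1.2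
          have h4 : e.1 ∈ Λ \ H := by tauto
          rw [hg.1 _ h3, hb _ h4 ⟨e, hη he, Or.inl rfl⟩]
  unfold kap
  rw [this]

open Classical in
/-- Weight of the outer configurations. -/
noncomputable def Ww (u q : ℝ) (Λ H : Finset (Pt d)) : ℝ :=
  ∑ ω ∈ (EB (Λ \ H) \ dE H).powerset.filter (fun ω => Outer Λ H ω), wt u q (Λ \ H) ω

theorem Ww_nonneg (hu : 0 < u) (hq : 1 ≤ q) (Λ H : Finset (Pt d)) : 0 ≤ Ww u q Λ H :=
  sum_nonneg fun _ _ => (wt_pos hu hq _ _).le

theorem Ww_le_Zw (hu : 0 < u) (hq : 1 ≤ q) (Λ H : Finset (Pt d)) :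
    (1 + u) ^ (EB (Λ \ H) ∩ dE H).card * Ww u q Λ H ≤ Zw u q (Λ \ H) := by
  classical
  have hE : EB (Λ \ H) = (EB (Λ \ H) \ dE H) ∪ (EB (Λ \ H) ∩ dE H) :=
    (sdiff_union_inter _ _).symm
  have hdis : Disjoint (EB (Λ \ H) \ dE H) (EB (Λ \ H) ∩ dE H) := disjoint_sdiff_inter _ _
  have hZ : Zw u q (Λ \ H) = ∑ ω ∈ (EB (Λ \ H) \ dE H).powerset,
      ∑ η ∈ (EB (Λ \ H) ∩ dE H).powerset, wt u q (Λ \ H) (ω ∪ η) := by
    unfold Zw Z
    conv_lhs => rw [hE]
    rw [sum_powerset_union hdis]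
  rw [hZ]
  unfold Ww
  rw [mul_sum, sum_filter]
  apply sum_le_sum
  intro ω hω
  rw [mem_powerset] at hω
  split_ifs with hO
  · rw [← sum_pow_card (EB (Λ \ H) ∩ dE H) u, sum_mul]
    apply sum_le_sum
    intro η hη
    rw [mem_powerset] at hη
    have h1 := kap_outer hO (hη.trans inter_subset_right) (hη.trans inter_subset_left)
    have h2 : (ω ∪ η).card = ω.card + η.card :=
      card_union_of_disjoint (disjoint_of_subset_left hω (disjoint_of_subset_right hη hdis))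
    unfold wt
    rw [h1, h2, pow_add]
    apply le_of_eq
    ring
  · exact sum_nonneg fun _ _ => (wt_pos hu hq _ _).le

theorem EB_inter_dE {Λ H : Finset (Pt d)} (hH : H ⊆ Λ) :
    EB (Λ \ H) ∩ dE H = dE (Λ \ H) \ dE Λ := by
  ext e
  simp only [mem_inter, mem_EB, mem_dE, mem_sdiff]
  have h1 : e.1 ∈ H → e.1 ∈ Λ := fun h => hH h
  have h2 : tgt e ∈ H → tgt e ∈ Λ := fun h => hH h
  tauto

theorem W_bound (hd : 1 ≤ d) (hu : 0 < u) (hq : 1 ≤ q) {b : ℝ} (hb : 1 ≤ b)
    (hb2 : b ^ 2 = 1 + u) {Λ H : Finset (Pt d)} (hH : H ⊆ Λ) :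
    Ww u q Λ H ≤ Real.exp (pr d u q * (Λ \ H).card) *
      (b ^ (dE (Λ \ H) ∩ dE Λ).card / b ^ (dE (Λ \ H) \ dE Λ).card) := by
  have h1 := Ww_le_Zw hu hq Λ H
  have h2 := W1 hd hu hq hb hb2 (Λ \ H)
  rw [EB_inter_dE hH] at h1
  have hb0 : 0 < b := by linarith
  have h3 : (1 + u) ^ (dE (Λ \ H) \ dE Λ).card =
      b ^ (dE (Λ \ H) \ dE Λ).card * b ^ (dE (Λ \ H) \ dE Λ).card := by
    rw [← hb2, ← pow_mul, ← pow_add]
    congr 1
    ring
  have h4 : (dE (Λ \ H)).card = (dE (Λ \ H) ∩ dE Λ).card + (dE (Λ \ H) \ dE Λ).card :=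
    (card_inter_add_card_sdiff _ _).symm
  rw [h3] at h1
  rw [h4, pow_add] at h2
  have hB : 0 < b ^ (dE (Λ \ H) \ dE Λ).card := by positivity
  rw [← mul_div_assoc, le_div_iff₀ hB]
  refine le_of_mul_le_mul_left ?_ hB
  calc b ^ (dE (Λ \ H) \ dE Λ).card * (Ww u q Λ H * b ^ (dE (Λ \ H) \ dE Λ).card)
      = b ^ (dE (Λ \ H) \ dE Λ).card * b ^ (dE (Λ \ H) \ dE Λ).card * Ww u q Λ H := by ring
    _ ≤ Zw u q (Λ \ H) := h1
    _ ≤ _ := h2
    _ = _ := by ring

open Classical in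
/-- Configurations in `H` with given inner regions. -/
noncomputable def Sw (u q : ℝ) (H : Finset (Pt d)) (𝒜 : Finset (Finset (Pt d))) : ℝ :=
  ∑ ω ∈ (EI H).powerset.filter (fun ω => (∀ A ∈ 𝒜, ∀ e ∈ ω, e ∉ dE A) ∧
    ∀ A ∈ 𝒜, Inner A (ω ∩ EI A)), wt u q H ω

theorem Sw_bound (hu : 0 < u) (hq : 1 ≤ q) (𝒜 : Finset (Finset (Pt d)))
    (hdisj : ∀ A ∈ 𝒜, ∀ B ∈ 𝒜, A ≠ B → Disjoint A B) :
    ∀ H : Finset (Pt d), (∀ A ∈ 𝒜, A ⊆ H) →
      Sw u q H 𝒜 ≤ Z0 u q (H \ 𝒜.biUnion id) * ∏ A ∈ 𝒜, Uw u q A := by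
  classical
  induction 𝒜 using Finset.induction_on with
  | empty =>
    intro H _
    unfold Sw Z0 Z
    simp
  | insert A 𝒜 hA ih =>
    intro H hsub
    have hAH : A ⊆ H := hsub A (mem_insert_self _ _)
    have hd' : ∀ B ∈ 𝒜, Disjoint A B := by
      intro B hB
      exact hdisj A (mem_insert_self _ _) B (mem_insert_of_mem hB) (fun h => hA (h ▸ hB))
    have ih' := ih (fun B hB C hC => hdisj B (mem_insert_of_mem hB) C (mem_insert_of_mem hC))
      (H \ A) (fun B hB => by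
        intro x hx
        rw [mem_sdiff]
        exact ⟨hsub B (mem_insert_of_mem hB) hx,
          fun h => Finset.disjoint_left.mp (hd' B hB) h hx⟩)
    have hR : (H \ A) \ 𝒜.biUnion id = H \ (insert A 𝒜).biUnion id := by
      rw [biUnion_insert, id_eq, sdiff_sdiff_left]
      rfl
    rw [hR] at ih'
    rw [prod_insert hA]
    have hU : 0 ≤ Uw u q A := Uw_nonneg hu hq A
    have hmain : Sw u q H (insert A 𝒜) ≤ Uw u q A * Sw u q (H \ A) 𝒜 := by
      have hHA : H = A ∪ (H \ A) := (union_sdiff_of_subset hAH).symm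
      have hdAH : Disjoint A (H \ A) := disjoint_sdiff
      have hdE : Disjoint (EI A) (EI (H \ A)) := disjoint_EI hdAH
      have hset : (EI H).powerset.filter (fun ω => (∀ B ∈ insert A 𝒜, ∀ e ∈ ω, e ∉ dE B) ∧
          ∀ B ∈ insert A 𝒜, Inner B (ω ∩ EI B)) =
          (EI A ∪ EI (H \ A)).powerset.filter (fun ω =>
            (∀ B ∈ insert A 𝒜, ∀ e ∈ ω, e ∉ dE B) ∧
            ∀ B ∈ insert A 𝒜, Inner B (ω ∩ EI B)) := by
        ext ω
        simp only [mem_filter, mem_powerset]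
        constructor
        · rintro ⟨h1, h2⟩
          refine ⟨fun e he => ?_, h2⟩
          have h3 := h2.1 A (mem_insert_self _ _) e he
          have h4 := mem_EI.mp (h1 he)
          rw [mem_dE] at h3
          rw [mem_union, mem_EI, mem_EI, mem_sdiff, mem_sdiff]
          tauto
        · rintro ⟨h1, h2⟩
          refine ⟨h1.trans ?_, h2⟩
          exact union_subset (EI_mono hAH) (EI_mono sdiff_subset)
      unfold Sw Uw
      rw [hset, sum_filter, sum_powerset_union hdE, sum_filter, sum_filter, sum_mul_sum]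
      apply sum_le_sum
      intro ω₁ hω₁
      apply sum_le_sum
      intro ω₂ hω₂
      rw [mem_powerset] at hω₁ hω₂
      have hnn : 0 ≤ (if Inner A ω₁ then wt u q A ω₁ else 0) *
          (if (∀ B ∈ 𝒜, ∀ e ∈ ω₂, e ∉ dE B) ∧ ∀ B ∈ 𝒜, Inner B (ω₂ ∩ EI B) then
            wt u q (H \ A) ω₂ else 0) := by
        apply mul_nonneg
        · split_ifs
          · exact (wt_pos hu hq _ _).le
          · exact le_rfl
        · split_ifs
          · exact (wt_pos hu hq _ _).le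
          · exact le_rfl
      by_cases hP : (∀ B ∈ insert A 𝒜, ∀ e ∈ ω₁ ∪ ω₂, e ∉ dE B) ∧
          ∀ B ∈ insert A 𝒜, Inner B ((ω₁ ∪ ω₂) ∩ EI B)
      · have e1 : (ω₁ ∪ ω₂) ∩ EI A = ω₁ := by
          ext e
          simp only [mem_inter, mem_union]
          constructor
          · rintro ⟨h1 | h1, h2⟩
            · exact h1
            · exact absurd (hω₂ h1) (fun h3 => Finset.disjoint_left.mp hdE h2 h3)
          · intro h1
            exact ⟨Or.inl h1, hω₁ h1⟩
        have e2 : ∀ B ∈ 𝒜, (ω₁ ∪ ω₂) ∩ EI B = ω₂ ∩ EI B := by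
          intro B hB
          ext e
          simp only [mem_inter, mem_union]
          constructor
          · rintro ⟨h1 | h1, h2⟩
            · exact absurd h2 (fun h3 =>
                Finset.disjoint_left.mp (disjoint_EI (hd' B hB)) (hω₁ h1) h3)
            · exact ⟨h1, h2⟩
          · rintro ⟨h1, h2⟩
            exact ⟨Or.inr h1, h2⟩
        have c1 : Inner A ω₁ := by
          have := hP.2 A (mem_insert_self _ _)
          rwa [e1] at this
        have c2 : (∀ B ∈ 𝒜, ∀ e ∈ ω₂, e ∉ dE B) ∧ ∀ B ∈ 𝒜, Inner B (ω₂ ∩ EI B) := by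
          refine ⟨fun B hB e he => hP.1 B (mem_insert_of_mem hB) e (mem_union_right _ he),
            fun B hB => ?_⟩
          have := hP.2 B (mem_insert_of_mem hB)
          rwa [e2 B hB] at this
        rw [if_pos hP, if_pos c1, if_pos c2]
        have hw := wt_union (u := u) (q := q) hdAH (ω₁ := ω₁) (ω₂ := ω₂)
          (fun e he => by
            have := mem_EI.mp (hω₁ he)
            rw [mem_sdiff, mem_sdiff]
            tauto)
          (fun e he => by
            have := mem_EI.mp (hω₂ he)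
            rw [mem_sdiff, mem_sdiff] at this
            tauto)
          (disjoint_of_subset_left hω₁ (disjoint_of_subset_right hω₂ hdE))
        rw [← hHA] at hw
        exact hw.le
      · rw [if_neg hP]
        exact hnn
    calc Sw u q H (insert A 𝒜) ≤ Uw u q A * Sw u q (H \ A) 𝒜 := hmain
      _ ≤ Uw u q A * (Z0 u q (H \ (insert A 𝒜).biUnion id) * ∏ A ∈ 𝒜, Uw u q A) :=
          mul_le_mul_of_nonneg_left ih' hU
      _ = _ := by ring

open Classical in
/-- Total weight of the configurations compatible with the regions. -/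
noncomputable def Cw (u q : ℝ) (Λ : Finset (Pt d)) (E : Finset (Ed d)) (H : Finset (Pt d))
    (𝒜 : Finset (Finset (Pt d))) : ℝ :=
  ∑ ω ∈ E.powerset.filter (fun ω => Compat Λ ω H 𝒜), wt u q Λ ω

theorem Cw_le (hu : 0 < u) (hq : 1 ≤ q) {Λ H : Finset (Pt d)} {𝒜 : Finset (Finset (Pt d))}
    (hH : H ⊆ Λ) (hsub : ∀ A ∈ 𝒜, A ⊆ H) {E : Finset (Ed d)} (hE : E ⊆ EB Λ) :
    Cw u q Λ E H 𝒜 ≤ Ww u q Λ H * Sw u q H 𝒜 := by
  classical
  have hΛ : Λ = (Λ \ H) ∪ H := (sdiff_union_of_subset hH).symm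
  have hdΛ : Disjoint (Λ \ H) H := sdiff_disjoint
  set E₁ := EB (Λ \ H) \ dE H with hE₁
  have hE₁H : ∀ e ∈ E₁, e.1 ∉ H ∧ tgt e ∉ H := by
    intro e he
    rw [hE₁, mem_sdiff, mem_EB, mem_dE, mem_sdiff, mem_sdiff] at he
    tauto
  have hE₂ : ∀ e ∈ EI H, e.1 ∉ Λ \ H ∧ tgt e ∉ Λ \ H := by
    intro e he
    rw [mem_EI] at he
    rw [mem_sdiff, mem_sdiff]
    tauto
  have hdis : Disjoint E₁ (EI H) := by
    rw [Finset.disjoint_left]
    intro e he he'
    exact (hE₁H e he).1 (mem_EI.mp he').1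
  have h1 : Cw u q Λ E H 𝒜 ≤ ∑ ω ∈ (E₁ ∪ EI H).powerset.filter (fun ω => Compat Λ ω H 𝒜),
      wt u q Λ ω := by
    unfold Cw
    apply sum_le_sum_of_subset_of_nonneg
    · intro ω hω
      rw [mem_filter, mem_powerset] at hω ⊢
      refine ⟨fun e he => ?_, hω.2⟩
      have h2 := (hω.2.closed e he).1
      have h3 := mem_EB.mp (hE (hω.1 he))
      rw [mem_dE] at h2
      rw [mem_union, hE₁, mem_sdiff, mem_EB, mem_dE, mem_EI, mem_sdiff, mem_sdiff]
      have h4 : e.1 ∈ H → e.1 ∈ Λ := fun h => hH h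
      have h5 : tgt e ∈ H → tgt e ∈ Λ := fun h => hH h
      tauto
    · intro _ _ _
      exact (wt_pos hu hq _ _).le
  refine h1.trans ?_
  unfold Ww Sw
  rw [sum_filter, sum_powerset_union hdis, sum_filter, sum_filter, sum_mul_sum]
  apply sum_le_sum
  intro ω₁ hω₁
  apply sum_le_sum
  intro ω₂ hω₂
  rw [mem_powerset] at hω₁ hω₂
  by_cases hC : Compat Λ (ω₁ ∪ ω₂) H 𝒜
  · have e1 : (ω₁ ∪ ω₂) ∩ EB (Λ \ H) = ω₁ := by
      ext e
      simp only [mem_inter, mem_union]
      constructor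
      · rintro ⟨h1 | h1, h2⟩
        · exact h1
        · have := hE₂ e (hω₂ h1)
          rw [mem_EB] at h2
          tauto
      · intro h1
        exact ⟨Or.inl h1, (mem_sdiff.mp (hω₁ h1)).1⟩
    have e2 : ∀ A ∈ 𝒜, (ω₁ ∪ ω₂) ∩ EI A = ω₂ ∩ EI A := by
      intro A hA
      ext e
      simp only [mem_inter, mem_union]
      constructor
      · rintro ⟨h1 | h1, h2⟩
        · exact absurd (hsub A hA (mem_EI.mp h2).1) (hE₁H e (hω₁ h1)).1
        · exact ⟨h1, h2⟩
      · rintro ⟨h1, h2⟩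
        exact ⟨Or.inr h1, h2⟩
    have c1 : Outer Λ H ω₁ := by
      intro x hx hxe
      have := hC.outer x hx hxe
      rwa [e1] at this
    have c2 : (∀ A ∈ 𝒜, ∀ e ∈ ω₂, e ∉ dE A) ∧ ∀ A ∈ 𝒜, Inner A (ω₂ ∩ EI A) := by
      refine ⟨fun A hA e he => (hC.closed e (mem_union_right _ he)).2 A hA, fun A hA => ?_⟩
      intro x hx y hy hxe hye
      have := hC.inner A hA x hx y hy hxe hye
      rwa [e2 A hA] at this
    rw [if_pos hC, if_pos c1, if_pos c2]
    have hw := wt_union (u := u) (q := q) hdΛ (ω₁ := ω₁) (ω₂ := ω₂)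
      (fun e he => hE₁H e (hω₁ he)) (fun e he => hE₂ e (hω₂ he))
      (disjoint_of_subset_left hω₁ (disjoint_of_subset_right hω₂ hdis))
    rw [← hΛ] at hw
    exact hw.le
  · rw [if_neg hC]
    apply mul_nonneg
    · split_ifs
      · exact (wt_pos hu hq _ _).le
      · exact le_rfl
    · split_ifs
      · exact (wt_pos hu hq _ _).le
      · exact le_rfl

/-- **Weight bound.** -/
theorem weight_bound (hd : 1 ≤ d) (hu : 0 < u) (hq : 1 ≤ q) {b : ℝ} (hb : 1 ≤ b)
    (hb2 : b ^ 2 = 1 + u) {Λ H : Finset (Pt d)} {𝒜 : Finset (Finset (Pt d))}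
    (hH : H ⊆ Λ) (hsub : ∀ A ∈ 𝒜, A ⊆ H)
    (hdisj : ∀ A ∈ 𝒜, ∀ B ∈ 𝒜, A ≠ B → Disjoint A B)
    {E : Finset (Ed d)} (hE : E ⊆ EB Λ) :
    Cw u q Λ E H 𝒜 ≤ Real.exp (pr d u q * Λ.card) *
      (b ^ (dE (Λ \ H) ∩ dE Λ).card / b ^ (dE (Λ \ H) \ dE Λ).card) *
      ∏ A ∈ 𝒜, (q / b ^ (dE A).card) := by
  classical
  have hb0 : 0 < b := by linarith
  have hq0 : 0 < q := by linarith
  have h1 := Cw_le hu hq hH hsub hE (𝒜 := 𝒜)
  have h2 := W_bound hd hu hq hb hb2 hH
  have h3 := Sw_bound hu hq 𝒜 hdisj H hsub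
  have h4 := F1 hu hq (H \ 𝒜.biUnion id)
  have h5 : ∏ A ∈ 𝒜, Uw u q A ≤
      ∏ A ∈ 𝒜, (Real.exp (pr d u q * A.card) * (q / b ^ (dE A).card)) :=
    prod_le_prod (fun A _ => Uw_nonneg hu hq A) (fun A _ => U_bound hd hu hq hb hb2 A)
  have hP0 : 0 ≤ ∏ A ∈ 𝒜, Uw u q A := prod_nonneg (fun A _ => Uw_nonneg hu hq A)
  have hS0 : 0 ≤ Sw u q H 𝒜 := sum_nonneg fun _ _ => (wt_pos hu hq _ _).le
  have hcard : (𝒜.biUnion id).card = ∑ A ∈ 𝒜, A.card :=
    card_biUnion (fun A hA B hB h => hdisj A hA B hB h)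
  have hUH : 𝒜.biUnion id ⊆ H := biUnion_subset.mpr (fun A hA => hsub A hA)
  have hc : ((Λ \ H).card : ℝ) + ((H \ 𝒜.biUnion id).card : ℝ) + ∑ A ∈ 𝒜, (A.card : ℝ) =
      Λ.card := by
    have e1 := card_sdiff_add_card_eq_card hH
    have e2 := card_sdiff_add_card_eq_card hUH
    have e3 : (Λ \ H).card + (H \ 𝒜.biUnion id).card + ∑ A ∈ 𝒜, A.card = Λ.card := by omega
    exact_mod_cast e3
  have h6 : Sw u q H 𝒜 ≤ Real.exp (pr d u q * (H \ 𝒜.biUnion id).card) *
      ∏ A ∈ 𝒜, (Real.exp (pr d u q * A.card) * (q / b ^ (dE A).card)) :=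
    h3.trans (mul_le_mul h4 h5 hP0 (Real.exp_pos _).le)
  have hW0 : 0 ≤ Real.exp (pr d u q * (Λ \ H).card) *
      (b ^ (dE (Λ \ H) ∩ dE Λ).card / b ^ (dE (Λ \ H) \ dE Λ).card) := by positivity
  refine h1.trans ((mul_le_mul h2 h6 hS0 hW0).trans (le_of_eq ?_))
  rw [prod_mul_distrib, ← Real.exp_sum, ← mul_sum]
  have h7 : Real.exp (pr d u q * Λ.card) = Real.exp (pr d u q * (Λ \ H).card) *
      Real.exp (pr d u q * (H \ 𝒜.biUnion id).card) *
      Real.exp (pr d u q * ∑ A ∈ 𝒜, (A.card : ℝ)) := by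
    rw [← Real.exp_add, ← Real.exp_add, ← hc]
    congr 1
    ring
  rw [h7]
  ring

end Pool.Agent.Lib.MP_31386d_pr
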